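import Mathlib

/-!
# Shortest escape paths in polynomial lemniscates (Erdos)

We construct monic polynomials `f` of degree `n` with all roots in the closed unit disc such that
every path from `0` to the unit circle inside the set where `‖f z‖ ≤ 1` has length at least `m`,
where `n` is any integer with `n ≥ exp (600000 m ^ 2)`.

Idea of the proof. The barrier `K` is an arc of a tightly wound Archimedean spiral in the annulus
`1/2 ≤ ‖z‖ ≤ 3/4`. A path from `0` to the unit circle that avoids `K` has to wind around `m` times.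
By duality (Hahn-Banach) and propagation of smallness along a chain of discs (Hadamard three
circles) in the complement of `K`, there is a polynomial `Q` of degree `n ≤ exp (C m ^ 2)` with
coefficients of size at most `2 ^ n` and `‖1/z - Q z‖ ≤ 1/2` on `K`. Then `g = 1 + ε z Q z` has no
zeros in the closed unit disc, `‖g‖ > 1` on `K` and `g 0 = 1`, and `f = g + z ^ N g^*` (with `g^*`
the reciprocal conjugate of `g`) is monic of degree `N`, has all its roots on the unit circle, and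
satisfies `‖f‖ > 1` on `K`.
-/

open Set Metric Filter Topology Polynomial

namespace Pool.Agent.H32.EscapeLower

open MeasureTheory
open scoped ENNReal



/-- three circles with radii d, 2d, 3d and exponent 1/3 -/
theorem three_circles {F : ℂ → ℂ} {U : Set ℂ} (hU : IsOpen U) (hF : DifferentiableOn ℂ F U)
    {c : ℂ} {d ε : ℝ} (hd : 0 < d) (hsub : closedBall c (3 * d) ⊆ U)
    (hε0 : 0 ≤ ε) (hε1 : ε ≤ 1)
    (h1 : ∀ z ∈ closedBall c (3 * d), ‖F z‖ ≤ 1)
    (h2 : ∀ z ∈ closedBall c d, ‖F z‖ ≤ ε) :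
    ∀ z ∈ closedBall c (2 * d), ‖F z‖ ≤ ε ^ ((1:ℝ)/3) := by
  intro z hz
  rcases le_or_gt ‖z - c‖ d with hzd | hzd
  · refine (h2 z (by simpa [dist_eq_norm] using hzd)).trans ?_
    rcases eq_or_lt_of_le hε0 with h0 | h0
    · rw [← h0]; simp
    · calc ε = ε ^ (1:ℝ) := (Real.rpow_one _).symm
        _ ≤ ε ^ ((1:ℝ)/3) := Real.rpow_le_rpow_of_exponent_ge h0 hε1 (by norm_num)
  · set l := Real.log d with hl
    set u := Real.log (3 * d) with hu
    have hul : l < u := Real.log_lt_log hd (by linarith)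
    have hzc : z - c ≠ 0 := by
      intro h; rw [h, norm_zero] at hzd; linarith
    have hz' : ‖z - c‖ ≤ 2 * d := by simpa [dist_eq_norm] using hz
    set G : ℂ → ℂ := fun w => F (c + Complex.exp w) with hG
    have hre : (Complex.log (z - c)).re = Real.log ‖z - c‖ := Complex.log_re _
    have hGz : G (Complex.log (z - c)) = F z := by
      simp only [hG]; rw [Complex.exp_log hzc]; congr 1; ring
    have hmemball : ∀ w : ℂ, w.re ≤ u → c + Complex.exp w ∈ closedBall c (3 * d) := by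
      intro w hw
      rw [mem_closedBall, dist_eq_norm, add_sub_cancel_left, Complex.norm_exp]
      calc Real.exp w.re ≤ Real.exp u := Real.exp_le_exp.mpr hw
        _ = 3 * d := by rw [hu, Real.exp_log (by linarith)]
    have hz1 : Complex.log (z - c) ∈ Complex.HadamardThreeLines.verticalClosedStrip l u := by
      rw [Complex.HadamardThreeLines.verticalClosedStrip, mem_preimage, hre]
      exact ⟨Real.log_le_log hd hzd.le, Real.log_le_log (by linarith) (by linarith)⟩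
    have hdiff : DiffContOnCl ℂ G (Complex.HadamardThreeLines.verticalStrip l u) := by
      apply DifferentiableOn.diffContOnCl
      have hopen : IsOpen ((fun w : ℂ => c + Complex.exp w) ⁻¹' U) :=
        hU.preimage (by fun_prop)
      have hd1 : DifferentiableOn ℂ G ((fun w : ℂ => c + Complex.exp w) ⁻¹' U) := by
        apply hF.comp
        · exact (Complex.differentiable_exp.const_add c).differentiableOn
        · intro w hw; exact hw
      apply hd1.mono
      have hclosed : IsClosed {w : ℂ | w.re ≤ u} := isClosed_le Complex.continuous_re continuous_const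
      have hsub2 : closure (Complex.HadamardThreeLines.verticalStrip l u) ⊆ {w : ℂ | w.re ≤ u} := by
        apply closure_minimal _ hclosed
        intro w hw
        exact (hw : w.re ∈ Ioo l u).2.le
      intro w hw
      exact hsub (hmemball w (hsub2 hw))
    have hB : BddAbove ((norm ∘ G) '' Complex.HadamardThreeLines.verticalClosedStrip l u) := by
      refine ⟨1, ?_⟩
      rintro _ ⟨w, hw, rfl⟩
      exact h1 _ (hmemball w (hw : w.re ∈ Icc l u).2)
    have ha : ∀ w ∈ Complex.re ⁻¹' {l}, ‖G w‖ ≤ ε := by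
      intro w hw
      apply h2
      have hw' : w.re = l := hw
      rw [mem_closedBall, dist_eq_norm, add_sub_cancel_left, Complex.norm_exp, hw', hl,
        Real.exp_log hd]
    have hb : ∀ w ∈ Complex.re ⁻¹' {u}, ‖G w‖ ≤ 1 := by
      intro w hw
      exact h1 _ (hmemball w (le_of_eq hw))
    have key := Complex.HadamardThreeLines.norm_le_interp_of_mem_verticalClosedStrip' hul hz1 hdiff
      hB ha hb
    rw [hGz, Real.one_rpow, mul_one, hre] at key
    refine key.trans ?_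
    rcases eq_or_lt_of_le hε0 with h0 | h0
    · rw [← h0]
      have hpos : 0 < 1 - (Real.log ‖z - c‖ - l) / (u - l) := by
        have : Real.log ‖z - c‖ < u := Real.log_lt_log (by linarith) (by linarith)
        have : (Real.log ‖z - c‖ - l) / (u - l) < 1 := by
          rw [div_lt_one (by linarith)]; linarith
        linarith
      rw [Real.zero_rpow hpos.ne', Real.zero_rpow (by norm_num)]
    · apply Real.rpow_le_rpow_of_exponent_ge h0 hε1
      have hu' : u - l = Real.log 3 := by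
        rw [hu, hl, Real.log_mul (by norm_num) hd.ne']; ring
      have hlz : Real.log ‖z - c‖ - l ≤ Real.log 2 := by
        have : Real.log ‖z - c‖ ≤ Real.log (2 * d) := Real.log_le_log (by linarith) hz'
        rw [Real.log_mul (by norm_num) hd.ne'] at this
        linarith
      rw [hu']
      have h3 : 0 < Real.log 3 := Real.log_pos (by norm_num)
      have h32 : Real.log 2 ≤ 2 / 3 * Real.log 3 := by
        have h8 : Real.log ((2:ℝ) ^ 3) ≤ Real.log ((3:ℝ) ^ 2) :=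
          Real.log_le_log (by norm_num) (by norm_num)
        rw [Real.log_pow, Real.log_pow] at h8
        push_cast at h8
        linarith
      have : (Real.log ‖z - c‖ - l) / Real.log 3 ≤ 2 / 3 := by
        rw [div_le_iff₀ h3]; linarith
      linarith

/-- chain of discs: propagation of smallness -/
theorem chain {F : ℂ → ℂ} {U : Set ℂ} (hU : IsOpen U) (hF : DifferentiableOn ℂ F U)
    {q : ℕ → ℂ} {d : ℝ} (hd : 0 < d) (N : ℕ)
    (hsub : ∀ j ≤ N, closedBall (q j) (3 * d) ⊆ U)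
    (hstep : ∀ j < N, ‖q (j + 1) - q j‖ ≤ d)
    (h1 : ∀ j ≤ N, ∀ z ∈ closedBall (q j) (3 * d), ‖F z‖ ≤ 1)
    {ε : ℝ} (hε0 : 0 ≤ ε) (hε1 : ε ≤ 1)
    (h0 : ∀ z ∈ closedBall (q 0) d, ‖F z‖ ≤ ε) :
    ∀ j ≤ N, ∀ z ∈ closedBall (q j) d, ‖F z‖ ≤ ε ^ (((1:ℝ)/3) ^ j) := by
  intro j
  induction j with
  | zero => intro _ z hz; simpa using h0 z hz
  | succ j ih =>
    intro hj z hz
    have hjN : j ≤ N := by omega
    have hle1 : ε ^ (((1:ℝ)/3) ^ j) ≤ 1 := Real.rpow_le_one hε0 hε1 (by positivity)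
    have := three_circles hU hF hd (hsub j hjN) (Real.rpow_nonneg hε0 _) hle1 (h1 j hjN)
      (ih hjN) z (by
        rw [mem_closedBall, dist_eq_norm] at hz ⊢
        have h3 := hstep j (by omega)
        calc ‖z - q j‖ = ‖(z - q (j+1)) + (q (j+1) - q j)‖ := by congr 1; ring
          _ ≤ ‖z - q (j+1)‖ + ‖q (j+1) - q j‖ := norm_add_le _ _
          _ ≤ 2 * d := by linarith)
    rw [← Real.rpow_mul hε0] at this
    rw [pow_succ]
    exact this



/-- the Cauchy kernel as an element of C(K) -/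
noncomputable def idK (K : Set ℂ) : C(K, ℂ) := ⟨fun z => (z : ℂ), continuous_subtype_val⟩

noncomputable def ker (K : Set ℂ) (w : ℂ) : C(K, ℂ) := resolvent (idK K) w

theorem ker_mul (K : Set ℂ) [CompactSpace K] (w : ℂ) (hw : w ∉ K) :
    ∃ b : C(K, ℂ), (∀ z : K, b z = (w - z)⁻¹) ∧ ker K w = b ∧ w ∈ resolventSet ℂ (idK K) := by
  have hne : ∀ z : K, w - (z:ℂ) ≠ 0 := by
    intro z hz
    have : w = z := by linear_combination hz
    exact hw (this ▸ z.2)
  let b : C(K, ℂ) := ⟨fun z => (w - z)⁻¹, by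
    apply Continuous.inv₀ (by fun_prop) hne⟩
  have hab : (algebraMap ℂ C(K, ℂ) w - idK K) * b = 1 := by
    ext z
    simp only [ContinuousMap.mul_apply, ContinuousMap.one_apply]
    change (w - (z:ℂ)) * (w - z)⁻¹ = 1
    exact mul_inv_cancel₀ (hne z)
  have hba : b * (algebraMap ℂ C(K, ℂ) w - idK K) = 1 := by rw [mul_comm]; exact hab
  refine ⟨b, fun z => rfl, ?_, ?_⟩
  · unfold ker resolvent
    exact Ring.inverse_unit ⟨_, _, hab, hba⟩
  · exact ⟨⟨_, _, hab, hba⟩, rfl⟩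

theorem ker_differentiableAt (K : Set ℂ) [CompactSpace K] (w : ℂ) (hw : w ∉ K) :
    DifferentiableAt ℂ (ker K) w := by
  obtain ⟨b, _, _, h⟩ := ker_mul K w hw
  exact (spectrum.hasDerivAt_resolvent_const_left h).differentiableAt

theorem ker_norm (K : Set ℂ) [CompactSpace K] (w : ℂ) (hw : w ∉ K) {δ : ℝ} (hδ : 0 < δ)
    (h : ∀ z ∈ K, δ ≤ ‖w - z‖) : ‖ker K w‖ ≤ δ⁻¹ := by
  obtain ⟨b, hb, hk, _⟩ := ker_mul K w hw
  rw [hk, ContinuousMap.norm_le _ (by positivity)]
  intro z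
  rw [hb, norm_inv]
  exact inv_anti₀ hδ (h z z.2)

/-- The approximation lemma, by duality. -/
theorem approx (K : Set ℂ) [CompactSpace K] (h0 : (0:ℂ) ∉ K) (hK1 : ∀ z ∈ K, ‖z‖ ≤ 1) (n : ℕ)
    (H : ∀ F : ℂ → ℂ, DifferentiableOn ℂ F Kᶜ →
      (∀ w ∉ K, ∀ δ > 0, (∀ z ∈ K, δ ≤ ‖w - z‖) → ‖F w‖ ≤ δ⁻¹) →
      (∀ w, 2 ≤ ‖w‖ → ‖F w‖ ≤ (1/2) ^ n) → ‖F 0‖ < 1/2) :
    ∃ a : Fin (n+1) → ℂ, (∀ k, ‖a k‖ ≤ 2 ^ n) ∧
      ∀ z ∈ K, ‖z⁻¹ - ∑ k, a k * z ^ (k:ℕ)‖ ≤ 1/2 := by
  classical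
  -- the Banach space and the linear map
  set B : ℝ := 2 ^ (n+1) with hB
  have hB0 : 0 < B := by positivity
  let A : (Fin (n+1) → ℂ) →ₗ[ℂ] C(K, ℂ) × (Fin (n+1) → ℂ) :=
    { toFun := fun q => (∑ k, q k • (idK K) ^ (k:ℕ), (B⁻¹ : ℂ) • q)
      map_add' := by
        intro q r
        ext1
        · simp only [Pi.add_apply, add_smul, Finset.sum_add_distrib, Prod.mk_add_mk]
        · simp only [smul_add, Prod.mk_add_mk]
      map_smul' := by
        intro c q
        ext1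
        · simp only [Pi.smul_apply, smul_eq_mul, mul_smul, Finset.smul_sum, RingHom.id_apply,
            Prod.smul_mk]
        · simp only [RingHom.id_apply, Prod.smul_mk]
          rw [smul_comm] }
  let V : Submodule ℂ (C(K, ℂ) × (Fin (n+1) → ℂ)) := LinearMap.range A
  have : FiniteDimensional ℂ V := inferInstance
  have hVclosed : IsClosed (V : Set (C(K, ℂ) × (Fin (n+1) → ℂ))) := V.closed_of_finiteDimensional
  have hA1 : ∀ q : Fin (n+1) → ℂ, ∀ z : K, (A q).1 z = ∑ k, q k * (z:ℂ) ^ (k:ℕ) := by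
    intro q z
    change (∑ k, q k • (idK K) ^ (k:ℕ)) z = _
    rw [ContinuousMap.sum_apply]
    rfl
  have hA2 : ∀ q : Fin (n+1) → ℂ, (A q).2 = (B⁻¹ : ℂ) • q := fun q => rfl
  by_contra hcon
  push Not at hcon
  set x0 : C(K, ℂ) × (Fin (n+1) → ℂ) := (- ker K 0, 0) with hx0
  obtain ⟨b0, hb0, hk0, _⟩ := ker_mul K 0 h0
  have hVc : IsClosed (V : Set (C(K, ℂ) × (Fin (n+1) → ℂ))) := hVclosed
  have hdist : (1:ℝ)/2 ≤ ‖(V.mkQ x0)‖ := by
    by_contra hlt
    push Not at hlt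
    obtain ⟨y, hy, hyn⟩ := Submodule.Quotient.norm_mk_lt (V.mkQ x0)
      (show 0 < 1/2 - ‖V.mkQ x0‖ by linarith)
    have hyn' : ‖y‖ < 1/2 := by linarith
    have hyV : x0 - y ∈ V := by
      have : V.mkQ x0 = V.mkQ y := hy.symm
      exact (Submodule.Quotient.eq V).mp this
    obtain ⟨q, hq⟩ := hyV
    have hy1 : y.1 = x0.1 - (A q).1 := by rw [hq]; simp
    have hy2 : y.2 = x0.2 - (A q).2 := by rw [hq]; simp
    have hn1 : ‖y.1‖ < 1/2 := lt_of_le_of_lt (norm_fst_le y) hyn'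
    have hn2 : ‖y.2‖ < 1/2 := lt_of_le_of_lt (norm_snd_le y) hyn'
    have hqk : ∀ k, ‖q k‖ ≤ 2 ^ n := by
      intro k
      have h3 : ‖y.2 k‖ < 1/2 := lt_of_le_of_lt (norm_le_pi_norm _ k) hn2
      rw [hy2, hA2] at h3
      have h4 : (x0.2 - (B⁻¹ : ℂ) • q) k = - ((B⁻¹ : ℂ) * q k) := by
        simp [hx0]
      rw [h4, norm_neg, norm_mul, norm_inv, Complex.norm_real, Real.norm_eq_abs,
        abs_of_pos hB0, inv_mul_lt_iff₀ hB0] at h3
      have h5 : B * (1/2) = 2 ^ n := by rw [hB, pow_succ]; ring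
      linarith
    obtain ⟨z, hzK, hz⟩ := hcon q hqk
    have h6 : ‖y.1 ⟨z, hzK⟩‖ ≤ ‖y.1‖ := ContinuousMap.norm_coe_le_norm _ _
    have h7 : y.1 ⟨z, hzK⟩ = z⁻¹ - ∑ k, q k * z ^ (k:ℕ) := by
      rw [hy1, ContinuousMap.sub_apply, hA1]
      congr 1
      simp only [hx0, hk0, ContinuousMap.neg_apply, hb0]
      rw [zero_sub, inv_neg, neg_neg]
    rw [h7] at h6
    linarith
  obtain ⟨g, hg1, hg2⟩ := exists_dual_vector'' ℂ (V.mkQ x0)
  let Φ : (C(K, ℂ) × (Fin (n+1) → ℂ)) →L[ℂ] ℂ := g.comp V.mkQL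
  have hΦ : ∀ x, ‖Φ x‖ ≤ ‖x‖ := by
    intro x
    calc ‖Φ x‖ = ‖g (V.mkQ x)‖ := rfl
      _ ≤ ‖g‖ * ‖V.mkQ x‖ := g.le_opNorm _
      _ ≤ 1 * ‖x‖ := by
        apply mul_le_mul hg1 (Submodule.Quotient.norm_mk_le V x) (norm_nonneg _) zero_le_one
      _ = ‖x‖ := one_mul _
  have hΦV : ∀ q, Φ (A q) = 0 := by
    intro q
    have : V.mkQ (A q) = 0 := (Submodule.Quotient.mk_eq_zero V).mpr ⟨q, rfl⟩
    change g (V.mkQ (A q)) = 0
    rw [this, map_zero]
  have hΦ0 : ‖Φ x0‖ = ‖V.mkQ x0‖ := by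
    change ‖g (V.mkQ x0)‖ = _
    rw [hg2]; simp
  set F : ℂ → ℂ := fun w => Φ (- ker K w, 0) with hFdef
  have hF0 : ‖F 0‖ = ‖V.mkQ x0‖ := hΦ0
  have hlt := H F ?_ ?_ ?_
  · rw [hF0] at hlt; linarith
  · intro w hw
    apply DifferentiableAt.differentiableWithinAt
    have h1 : DifferentiableAt ℂ (fun w => ((- ker K w, 0) : C(K, ℂ) × (Fin (n+1) → ℂ))) w :=
      (ker_differentiableAt K w hw).neg.prodMk (differentiableAt_const _)
    exact Φ.differentiableAt.comp w h1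
  · intro w hw δ hδ h
    refine (hΦ _).trans ?_
    rw [Prod.norm_def, norm_zero, norm_neg, max_eq_left (norm_nonneg _)]
    exact ker_norm K w hw hδ h
  · intro w hw
    have hw0 : w ≠ 0 := by rintro rfl; rw [norm_zero] at hw; linarith
    have hwK : w ∉ K := fun h => by have := hK1 w h; linarith
    obtain ⟨b, hb, hkb, _⟩ := ker_mul K w hwK
    set v : Fin (n+1) → ℂ := fun k => (w⁻¹) ^ ((k:ℕ)+1) with hv
    have hdec : ((- ker K w, 0) : C(K, ℂ) × (Fin (n+1) → ℂ)) =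
        - A v + ((A v).1 - ker K w, (A v).2) := by
      ext1
      · change - ker K w = -(A v).1 + ((A v).1 - ker K w)
        abel
      · change (0 : Fin (n+1) → ℂ) = -(A v).2 + (A v).2
        abel
    have hFw : F w = Φ ((A v).1 - ker K w, (A v).2) := by
      simp only [hFdef]
      rw [hdec, map_add, map_neg, hΦV, neg_zero, zero_add]
    rw [hFw]
    refine (hΦ _).trans ?_
    rw [Prod.norm_def]
    apply max_le
    · change ‖(A v).1 - ker K w‖ ≤ _
      rw [ContinuousMap.norm_le _ (by positivity)]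
      intro z
      rw [ContinuousMap.sub_apply, hA1, hkb, hb]
      have hz1 : ‖(z:ℂ)‖ ≤ 1 := hK1 z z.2
      have hwz : w - (z:ℂ) ≠ 0 := by
        intro h
        have : w = z := by linear_combination h
        rw [this] at hw; linarith
      have hsum : ∑ k : Fin (n+1), v k * (z:ℂ) ^ (k:ℕ) - (w - z)⁻¹ =
          - (((z:ℂ) / w) ^ (n+1) * (w - z)⁻¹) := by
        have h1 : ∑ k : Fin (n+1), v k * (z:ℂ) ^ (k:ℕ) = w⁻¹ * ∑ k ∈ Finset.range (n+1), ((z:ℂ)/w)^k := by
          rw [Finset.mul_sum, ← Fin.sum_univ_eq_sum_range (fun k => w⁻¹ * ((z:ℂ)/w)^k)]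
          apply Finset.sum_congr rfl
          intro k _
          simp only [hv, div_pow, pow_succ, inv_pow]
          field_simp
        have h2 : (∑ k ∈ Finset.range (n+1), ((z:ℂ)/w)^k) * (1 - (z:ℂ)/w) = 1 - ((z:ℂ)/w)^(n+1) :=
          geom_sum_mul_neg _ _
        have h3 : (1 - (z:ℂ)/w) = (w - z) * w⁻¹ := by field_simp
        have h4 : w⁻¹ * ∑ k ∈ Finset.range (n+1), ((z:ℂ)/w)^k =
            (1 - ((z:ℂ)/w)^(n+1)) * (w - z)⁻¹ := by
          rw [← h2, h3]
          field_simp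
        rw [h1, h4]; ring
      rw [hsum, norm_neg, norm_mul, norm_pow, norm_inv, norm_div]
      have h5 : ‖(z:ℂ)‖ / ‖w‖ ≤ 1/2 := by
        rw [div_le_div_iff₀ (by linarith) (by norm_num)]; linarith
      have h6 : 1 ≤ ‖w - (z:ℂ)‖ := by
        have := norm_sub_norm_le w (z:ℂ); linarith
      calc (‖(z:ℂ)‖ / ‖w‖) ^ (n+1) * ‖w - (z:ℂ)‖⁻¹ ≤ (1/2)^(n+1) * 1 := by
            apply mul_le_mul
            · exact pow_le_pow_left₀ (by positivity) h5 _
            · exact inv_le_one_of_one_le₀ h6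
            · positivity
            · positivity
        _ ≤ (1/2)^n := by
            rw [mul_one]; exact pow_le_pow_of_le_one (by norm_num) (by norm_num) (by omega)
    · change ‖(A v).2‖ ≤ _
      rw [hA2, pi_norm_le_iff_of_nonneg (by positivity)]
      intro k
      rw [Pi.smul_apply, smul_eq_mul, norm_mul, norm_inv, Complex.norm_real, Real.norm_eq_abs,
        abs_of_pos hB0]
      simp only [hv]
      rw [norm_pow, norm_inv]
      have h5 : ‖w‖⁻¹ ≤ 1 := inv_le_one_of_one_le₀ (by linarith)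
      calc B⁻¹ * ‖w‖⁻¹ ^ ((k:ℕ)+1) ≤ B⁻¹ * 1 := by
            apply mul_le_mul_of_nonneg_left _ (by positivity)
            exact pow_le_one₀ (by positivity) h5
        _ ≤ (1/2)^n := by
            rw [mul_one, hB, one_div, inv_pow]
            apply inv_anti₀ (by positivity)
            exact pow_le_pow_right₀ (by norm_num) (by omega)



noncomputable def gpoly (b : ℕ → ℂ) (d : ℕ) : ℂ[X] := ∑ k ∈ Finset.range (d+1), C (b k) * X ^ k

noncomputable def hpoly (b : ℕ → ℂ) (d M : ℕ) : ℂ[X] :=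
  ∑ k ∈ Finset.range (d+1), C ((starRingEnd ℂ) (b k)) * X ^ (M - k)

theorem gpoly_eval (b : ℕ → ℂ) (d : ℕ) (z : ℂ) :
    (gpoly b d).eval z = ∑ k ∈ Finset.range (d+1), b k * z ^ k := by
  simp [gpoly, eval_finsetSum]

theorem hpoly_eval (b : ℕ → ℂ) (d M : ℕ) (z : ℂ) :
    (hpoly b d M).eval z = ∑ k ∈ Finset.range (d+1), (starRingEnd ℂ) (b k) * z ^ (M - k) := by
  simp [hpoly, eval_finsetSum]

theorem hpoly_eval' (b : ℕ → ℂ) {d M : ℕ} (hM : d ≤ M) {z : ℂ} (hz : z ≠ 0) :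
    (hpoly b d M).eval z = z ^ M * (starRingEnd ℂ) ((gpoly b d).eval ((starRingEnd ℂ) z)⁻¹) := by
  rw [hpoly_eval, gpoly_eval, map_sum, Finset.mul_sum]
  apply Finset.sum_congr rfl
  intro k hk
  have hk' : k ≤ M := by have := Finset.mem_range.mp hk; omega
  rw [map_mul, map_pow, map_inv₀, Complex.conj_conj, pow_sub₀ z hz hk', inv_pow]
  ring

theorem hpoly_shift (b : ℕ → ℂ) {d M : ℕ} (hM : d ≤ M) (j : ℕ) (z : ℂ) :
    (hpoly b d (M + j)).eval z = z ^ j * (hpoly b d M).eval z := by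
  rw [hpoly_eval, hpoly_eval, Finset.mul_sum]
  apply Finset.sum_congr rfl
  intro k hk
  have hk' : k ≤ M := by have := Finset.mem_range.mp hk; omega
  have : M + j - k = j + (M - k) := by omega
  rw [this, pow_add]; ring

theorem hpoly_norm_circle (b : ℕ → ℂ) {d M : ℕ} (hM : d ≤ M) {z : ℂ} (hz : ‖z‖ = 1) :
    ‖(hpoly b d M).eval z‖ = ‖(gpoly b d).eval z‖ := by
  have hz0 : z ≠ 0 := by rintro rfl; simp at hz
  have hzz : ((starRingEnd ℂ) z)⁻¹ = z := by
    have h1 : (starRingEnd ℂ) z * z = 1 := by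
      rw [mul_comm, Complex.mul_conj, Complex.normSq_eq_norm_sq, hz]; simp
    exact inv_eq_of_mul_eq_one_right h1
  rw [hpoly_eval' b hM hz0, hzz, norm_mul, norm_pow, hz, one_pow, one_mul, RCLike.norm_conj]

theorem hpoly_norm_le (b : ℕ → ℂ) {d M : ℕ} (hM : d ≤ M)
    (hg : ∀ z : ℂ, ‖z‖ ≤ 1 → (gpoly b d).eval z ≠ 0) {z : ℂ} (hz : ‖z‖ ≤ 1) :
    ‖(hpoly b d M).eval z‖ ≤ ‖(gpoly b d).eval z‖ := by
  have hd : DiffContOnCl ℂ (fun z => (hpoly b d M).eval z / (gpoly b d).eval z) (ball 0 1) := by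
    apply DifferentiableOn.diffContOnCl
    rw [closure_ball _ one_ne_zero]
    intro w hw
    have hw' : ‖w‖ ≤ 1 := by simpa using hw
    apply DifferentiableAt.differentiableWithinAt
    exact (hpoly b d M).differentiableAt.div (gpoly b d).differentiableAt (hg w hw')
  have := Complex.norm_le_of_forall_mem_frontier_norm_le (isBounded_ball) hd (C := 1)
    (by
      intro w hw
      rw [frontier_ball _ one_ne_zero] at hw
      have hw' : ‖w‖ = 1 := by simpa using hw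
      have hne := hg w hw'.le
      rw [norm_div, hpoly_norm_circle b hM hw', div_self (norm_ne_zero_iff.mpr hne)])
    (z := z) (by rw [closure_ball _ one_ne_zero]; simpa using hz)
  rw [norm_div, div_le_one (norm_pos_iff.mpr (hg z hz))] at this
  exact this

theorem f_facts (b : ℕ → ℂ) (hb0 : b 0 = 1) {d N : ℕ} (hN : d < N)
    (hg : ∀ z : ℂ, ‖z‖ ≤ 1 → (gpoly b d).eval z ≠ 0) :
    (gpoly b d + hpoly b d N).Monic ∧ (gpoly b d + hpoly b d N).natDegree = N ∧
    (∀ z : ℂ, (gpoly b d + hpoly b d N).IsRoot z → ‖z‖ ≤ 1) ∧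
    (∀ z : ℂ, ‖z‖ ≤ 1 → (1 - ‖z‖ ^ (N - d)) * ‖(gpoly b d).eval z‖ ≤
      ‖(gpoly b d + hpoly b d N).eval z‖) := by
  -- degree bound for the lower part
  have hsplit : gpoly b d + hpoly b d N = X ^ N +
      (gpoly b d + ∑ k ∈ Finset.range d, C ((starRingEnd ℂ) (b (k+1))) * X ^ (N - (k+1))) := by
    rw [hpoly, Finset.sum_range_succ' (fun k => C ((starRingEnd ℂ) (b k)) * X ^ (N - k))]
    simp only [hb0, map_one, one_mul, Nat.sub_zero]
    ring
  have hdeg1 : (gpoly b d).degree < N := by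
    rw [gpoly]
    apply lt_of_le_of_lt (degree_sum_le _ _)
    rw [Finset.sup_lt_iff (by exact WithBot.bot_lt_coe N)]
    intro k hk
    have hk' := Finset.mem_range.mp hk
    exact lt_of_le_of_lt (degree_C_mul_X_pow_le k _) (by exact_mod_cast (by omega))
  have hdeg2 : (∑ k ∈ Finset.range d, C ((starRingEnd ℂ) (b (k+1))) * X ^ (N - (k+1)) : ℂ[X]).degree < N := by
    apply lt_of_le_of_lt (degree_sum_le _ _)
    rw [Finset.sup_lt_iff (by exact WithBot.bot_lt_coe N)]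
    intro k hk
    have hk' := Finset.mem_range.mp hk
    exact lt_of_le_of_lt (degree_C_mul_X_pow_le _ _) (by exact_mod_cast (by omega))
  have hdeg : (gpoly b d + ∑ k ∈ Finset.range d, C ((starRingEnd ℂ) (b (k+1))) * X ^ (N - (k+1)) : ℂ[X]).degree < N :=
    lt_of_le_of_lt (degree_add_le _ _) (max_lt hdeg1 hdeg2)
  -- inequality h ≤ |z|^(N-d) g
  have hle : ∀ z : ℂ, ‖z‖ ≤ 1 → ‖(hpoly b d N).eval z‖ ≤ ‖z‖ ^ (N - d) * ‖(gpoly b d).eval z‖ := by
    intro z hz
    have hNd : N = d + (N - d) := by omega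
    rw [hNd, hpoly_shift b (le_refl d), norm_mul, norm_pow, ← hNd]
    exact mul_le_mul_of_nonneg_left (hpoly_norm_le b (le_refl d) hg hz) (by positivity)
  refine ⟨?_, ?_, ?_, ?_⟩
  · rw [hsplit]; exact monic_X_pow_add hdeg
  · rw [hsplit]
    apply natDegree_eq_of_degree_eq_some
    rw [degree_add_eq_left_of_degree_lt (by rw [degree_X_pow]; exact hdeg), degree_X_pow]
  · intro z hz
    by_contra hcon
    push Not at hcon
    have hz0 : z ≠ 0 := by rintro rfl; simp at hcon; linarith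
    set w : ℂ := ((starRingEnd ℂ) z)⁻¹ with hw
    have hwn : ‖w‖ < 1 := by
      rw [hw, norm_inv, RCLike.norm_conj]
      exact inv_lt_one_of_one_lt₀ hcon
    have hw0 : w ≠ 0 := by
      rw [hw]; exact inv_ne_zero ((_root_.map_ne_zero _).mpr hz0)
    have hwz : ((starRingEnd ℂ) w)⁻¹ = z := by
      rw [hw, map_inv₀, Complex.conj_conj, inv_inv]
    have hfz : (gpoly b d).eval z + (hpoly b d N).eval z = 0 := by
      have := hz
      rw [IsRoot.def, eval_add] at this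
      exact this
    have hfw : (gpoly b d).eval w + (hpoly b d N).eval w = 0 := by
      rw [hpoly_eval' b hN.le hz0, ← hw] at hfz
      rw [hpoly_eval' b hN.le hw0, hwz]
      have h1 : (starRingEnd ℂ) ((gpoly b d).eval z) = - ((starRingEnd ℂ) z ^ N * (gpoly b d).eval w) := by
        have h2 : (gpoly b d).eval z = - (z ^ N * (starRingEnd ℂ) ((gpoly b d).eval w)) := by
          linear_combination hfz
        rw [h2, map_neg, map_mul, map_pow, Complex.conj_conj]
      rw [h1]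
      have h3 : ((starRingEnd ℂ) z) ≠ 0 := (_root_.map_ne_zero _).mpr hz0
      have h8 : w ^ N * (starRingEnd ℂ) z ^ N = 1 := by
        rw [hw, ← mul_pow, inv_mul_cancel₀ h3, one_pow]
      linear_combination (-(gpoly b d).eval w) * h8
    have hgw := hg w hwn.le
    have h4 := hle w hwn.le
    have h5 : ‖(hpoly b d N).eval w‖ = ‖(gpoly b d).eval w‖ := by
      have : (hpoly b d N).eval w = - (gpoly b d).eval w := by linear_combination hfw
      rw [this, norm_neg]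
    rw [h5] at h4
    have h6 : ‖w‖ ^ (N - d) < 1 := pow_lt_one₀ (norm_nonneg _) hwn (by omega)
    have h7 : 0 < ‖(gpoly b d).eval w‖ := norm_pos_iff.mpr hgw
    nlinarith
  · intro z hz
    rw [eval_add]
    have h1 := hle z hz
    have h2 : ‖(gpoly b d).eval z‖ - ‖(hpoly b d N).eval z‖ ≤
      ‖(gpoly b d).eval z + (hpoly b d N).eval z‖ := by
      have := norm_sub_norm_le ((gpoly b d).eval z) (-(hpoly b d N).eval z)
      rwa [norm_neg, sub_neg_eq_add] at this
    nlinarith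

theorem construct (K : Set ℂ) (hK : ∀ z ∈ K, ‖z‖ ≤ 3/4) (hK0 : (0:ℂ) ∉ K) (n : ℕ)
    (a : Fin (n+1) → ℂ) (ha : ∀ k, ‖a k‖ ≤ 2 ^ n)
    (haK : ∀ z ∈ K, ‖z⁻¹ - ∑ k, a k * z ^ (k:ℕ)‖ ≤ 1/2) (N : ℕ) (hN : 11 * (n+1) ≤ N) :
    ∃ f : ℂ[X], f.Monic ∧ f.natDegree = N ∧ (∀ z : ℂ, f.IsRoot z → ‖z‖ ≤ 1) ∧
      ∀ z ∈ K, 1 < ‖f.eval z‖ := by
  classical
  set P : ℝ := (n+1) * 2 ^ n with hP
  have hP1 : 1 ≤ P := by
    rw [hP]
    have h1 : (1:ℝ) ≤ 2 ^ n := one_le_pow₀ (by norm_num)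
    have h2 : (0:ℝ) ≤ n := Nat.cast_nonneg n
    nlinarith
  set ε : ℝ := 1 / (2 * P) with hε
  have hε0 : 0 < ε := by positivity
  have hεP : ε * P = 1/2 := by rw [hε]; field_simp
  have hε1 : ε ≤ 1/2 := by nlinarith
  set b : ℕ → ℂ := fun k => if h : k - 1 < n + 1 then (if k = 0 then 1 else (ε:ℂ) * a ⟨k-1, h⟩) else 0 with hb
  have hb0 : b 0 = 1 := by simp [hb]
  have hbs : ∀ k : Fin (n+1), b ((k:ℕ)+1) = ε * a k := by
    intro k
    have : (k:ℕ) + 1 - 1 < n + 1 := by have := k.2; omega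
    simp only [hb, this, dif_pos, Nat.add_eq_zero_iff, one_ne_zero, and_false, if_false]
    congr 2
  have hgev : ∀ z : ℂ, (gpoly b (n+1)).eval z = 1 + ε * (z * ∑ k, a k * z ^ (k:ℕ)) := by
    intro z
    rw [gpoly_eval, Finset.sum_range_succ' (fun k => b k * z ^ k)]
    rw [← Fin.sum_univ_eq_sum_range (fun k => b (k+1) * z ^ (k+1)), hb0, Finset.mul_sum,
      Finset.mul_sum, add_comm]
    congr 1
    · simp
    · apply Finset.sum_congr rfl
      intro k _
      rw [hbs k, pow_succ]; ring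
  have hQ : ∀ z : ℂ, ‖z‖ ≤ 1 → ‖z * ∑ k, a k * z ^ (k:ℕ)‖ ≤ P := by
    intro z hz
    rw [norm_mul]
    have h1 : ‖∑ k, a k * z ^ (k:ℕ)‖ ≤ ∑ k : Fin (n+1), (2:ℝ) ^ n := by
      apply norm_sum_le_of_le
      intro k _
      rw [norm_mul, norm_pow]
      calc ‖a k‖ * ‖z‖ ^ (k:ℕ) ≤ 2 ^ n * 1 := by
            apply mul_le_mul (ha k) (pow_le_one₀ (norm_nonneg _) hz) (by positivity) (by positivity)
        _ = 2 ^ n := mul_one _
    simp only [Finset.sum_const, Finset.card_univ, Fintype.card_fin, nsmul_eq_mul] at h1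
    push_cast at h1
    calc ‖z‖ * ‖∑ k, a k * z ^ (k:ℕ)‖ ≤ 1 * P := by
          apply mul_le_mul hz h1 (norm_nonneg _) zero_le_one
      _ = P := one_mul _
  have hg : ∀ z : ℂ, ‖z‖ ≤ 1 → (gpoly b (n+1)).eval z ≠ 0 := by
    intro z hz h0
    rw [hgev] at h0
    have h1 : ‖(ε:ℂ) * (z * ∑ k, a k * z ^ (k:ℕ))‖ ≤ 1/2 := by
      rw [norm_mul, Complex.norm_real, Real.norm_eq_abs, abs_of_pos hε0, ← hεP]
      exact mul_le_mul_of_nonneg_left (hQ z hz) hε0.le
    have h2 : (ε:ℂ) * (z * ∑ k, a k * z ^ (k:ℕ)) = -1 := by linear_combination h0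
    rw [h2] at h1
    simp at h1
    linarith
  have hNd : n + 1 < N := by omega
  obtain ⟨h1, h2, h3, h4⟩ := f_facts b hb0 hNd hg
  refine ⟨_, h1, h2, h3, ?_⟩
  intro z hz
  have hz34 := hK z hz
  have hz0 : z ≠ 0 := by rintro rfl; exact hK0 hz
  have h5 := h4 z (by linarith)
  -- real part of g
  have hre : 1 + ε / 2 ≤ ‖(gpoly b (n+1)).eval z‖ := by
    have h6 : ‖1 - z * ∑ k, a k * z ^ (k:ℕ)‖ ≤ 1/2 := by
      have : 1 - z * ∑ k, a k * z ^ (k:ℕ) = z * (z⁻¹ - ∑ k, a k * z ^ (k:ℕ)) := by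
        rw [mul_sub, mul_inv_cancel₀ hz0]
      rw [this, norm_mul]
      have := haK z hz
      nlinarith [norm_nonneg z, norm_nonneg (z⁻¹ - ∑ k, a k * z ^ (k:ℕ))]
    have h7 : (1 - z * ∑ k, a k * z ^ (k:ℕ)).re ≤ 1/2 :=
      (Complex.re_le_norm _).trans h6
    have h8 : ((gpoly b (n+1)).eval z).re = 1 + ε * (z * ∑ k, a k * z ^ (k:ℕ)).re := by
      rw [hgev, Complex.add_re, Complex.one_re, Complex.re_ofReal_mul]
    rw [Complex.sub_re, Complex.one_re] at h7
    have h9 := Complex.re_le_norm ((gpoly b (n+1)).eval z)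
    rw [h8] at h9
    nlinarith
  -- smallness of the power
  have hpow : ‖z‖ ^ (N - (n+1)) ≤ ε / 4 := by
    have hNn : 10 * (n+1) ≤ N - (n+1) := by omega
    calc ‖z‖ ^ (N - (n+1)) ≤ (3/4 : ℝ) ^ (N - (n+1)) := pow_le_pow_left₀ (norm_nonneg _) hz34 _
      _ ≤ (3/4 : ℝ) ^ (10 * (n+1)) := pow_le_pow_of_le_one (by norm_num) (by norm_num) hNn
      _ = ((3/4 : ℝ) ^ 10) ^ (n+1) := by rw [pow_mul]
      _ ≤ (1/16 : ℝ) ^ (n+1) := pow_le_pow_left₀ (by positivity) (by norm_num) _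
      _ ≤ ε / 4 := by
        rw [hε, hP, one_div_pow, div_div, one_div_le_one_div (by positivity) (by positivity)]
        have e1 : (16:ℝ) ^ (n+1) = 16 * (2 ^ n * 8 ^ n) := by
          rw [← mul_pow, pow_succ]; norm_num; ring
        have e2 : ((n:ℝ) + 1) ≤ 8 ^ n := by
          have := one_add_mul_le_pow (show (-2:ℝ) ≤ 7 by norm_num) n
          have h' : (0:ℝ) ≤ n := Nat.cast_nonneg n
          norm_num at this
          linarith
        rw [e1]
        have e3 : (0:ℝ) < 2 ^ n := by positivity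
        nlinarith
  have h10 : 0 ≤ 1 - ε/4 := by linarith
  calc (1:ℝ) < (1 - ε/4) * (1 + ε/2) := by nlinarith
    _ ≤ (1 - ‖z‖ ^ (N - (n+1))) * ‖(gpoly b (n+1)).eval z‖ := by
      apply mul_le_mul (by linarith) hre (by linarith)
      linarith
    _ ≤ _ := h5



/-- The point of polar coordinates (r, κ r). -/
noncomputable def sp (κ r : ℝ) : ℂ := r * Complex.exp (Complex.I * ((κ * r : ℝ) : ℂ))

theorem norm_sp (κ : ℝ) {r : ℝ} (hr : 0 ≤ r) : ‖sp κ r‖ = r := by
  rw [sp, norm_mul, Complex.norm_real, Real.norm_eq_abs, abs_of_nonneg hr,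
    mul_comm Complex.I, Complex.norm_exp_ofReal_mul_I, mul_one]

/-- The barrier: an arc of an Archimedean spiral. -/
noncomputable def spiral (κ : ℝ) : Set ℂ := sp κ '' Icc (1/2) (3/4)

theorem continuous_sp (κ : ℝ) : Continuous (sp κ) := by
  unfold sp; fun_prop

theorem isCompact_spiral (κ : ℝ) : IsCompact (spiral κ) :=
  isCompact_Icc.image (continuous_sp κ)

theorem spiral_norm {κ : ℝ} {z : ℂ} (hz : z ∈ spiral κ) : 1/2 ≤ ‖z‖ ∧ ‖z‖ ≤ 3/4 := by
  obtain ⟨r, hr, rfl⟩ := hz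
  rw [norm_sp κ (by linarith [hr.1])]
  exact hr

theorem sp_lip (κ : ℝ) (hκ : 0 ≤ κ) {r s : ℝ} (hs : |s| ≤ 3) :
    ‖sp κ r - sp κ s‖ ≤ (1 + 3 * κ) * |r - s| := by
  have h1 : sp κ r - sp κ s = ((r - s : ℝ) : ℂ) * Complex.exp (Complex.I * ((κ * r : ℝ) : ℂ)) +
      (s : ℂ) * (Complex.exp (Complex.I * ((κ * s : ℝ) : ℂ)) *
        (Complex.exp (Complex.I * ((κ * (r - s) : ℝ) : ℂ)) - 1)) := by
    unfold sp
    rw [mul_sub, ← Complex.exp_add]
    have : Complex.I * ((κ * s : ℝ) : ℂ) + Complex.I * ((κ * (r - s) : ℝ) : ℂ) =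
      Complex.I * ((κ * r : ℝ) : ℂ) := by push_cast; ring
    rw [this]; push_cast; ring
  rw [h1]
  refine (norm_add_le _ _).trans ?_
  rw [norm_mul, norm_mul, norm_mul, Complex.norm_real, Complex.norm_real, Real.norm_eq_abs,
    Real.norm_eq_abs, mul_comm Complex.I, Complex.norm_exp_ofReal_mul_I,
    mul_comm Complex.I ((κ * s : ℝ) : ℂ), Complex.norm_exp_ofReal_mul_I, one_mul, mul_one]
  have h2 : ‖Complex.exp (Complex.I * ((κ * (r - s) : ℝ) : ℂ)) - 1‖ ≤ κ * |r - s| := by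
    refine (Real.norm_exp_I_mul_ofReal_sub_one_le).trans ?_
    rw [Real.norm_eq_abs, abs_mul, abs_of_nonneg hκ]
  have h3 : |s| * ‖Complex.exp (Complex.I * ((κ * (r - s) : ℝ) : ℂ)) - 1‖ ≤ 3 * (κ * |r - s|) :=
    mul_le_mul hs h2 (norm_nonneg _) (by norm_num)
  linarith

/-- The opposite spiral stays at distance at least 1/κ of the barrier. -/
theorem sp_dist {κ : ℝ} (hκ : 2 ≤ κ) {r : ℝ} (hr : 0 ≤ r) {z : ℂ} (hz : z ∈ spiral κ) :
    1 / κ ≤ ‖(- sp κ r) - z‖ := by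
  obtain ⟨s, hs, rfl⟩ := hz
  have hs0 : 0 ≤ s := by linarith [hs.1]
  have hκ0 : 0 < κ := by linarith
  rcases le_or_gt (1 / κ) |r - s| with h | h
  · refine h.trans ?_
    have h1 := abs_norm_sub_norm_le (- sp κ r) (sp κ s)
    rwa [norm_neg, norm_sp κ hr, norm_sp κ hs0] at h1
  · have h1 : -sp κ r - sp κ s = -(Complex.exp (Complex.I * ((κ * s : ℝ) : ℂ)) *
        (((r * Real.cos (κ * (r - s)) + s : ℝ) : ℂ) + ((r * Real.sin (κ * (r-s)) : ℝ) : ℂ) * Complex.I)) := by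
      have h2 : Complex.exp (Complex.I * ((κ * (r - s) : ℝ) : ℂ)) =
        ((Real.cos (κ * (r - s)) : ℝ) : ℂ) + ((Real.sin (κ * (r-s)) : ℝ) : ℂ) * Complex.I := by
        rw [mul_comm, Complex.exp_mul_I, Complex.ofReal_cos, Complex.ofReal_sin]
      have h3 : sp κ r = (r:ℂ) * (Complex.exp (Complex.I * ((κ * s : ℝ) : ℂ)) *
          Complex.exp (Complex.I * ((κ * (r - s) : ℝ) : ℂ))) := by
        unfold sp
        rw [← Complex.exp_add]
        congr 2
        push_cast; ring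
      rw [h3, h2]
      unfold sp
      push_cast
      ring
    rw [h1, norm_neg, norm_mul, mul_comm Complex.I, Complex.norm_exp_ofReal_mul_I, one_mul]
    have h4 : 0 ≤ Real.cos (κ * (r - s)) := by
      apply Real.cos_nonneg_of_mem_Icc
      have h5 : |κ * (r - s)| ≤ 1 := by
        rw [abs_mul, abs_of_pos hκ0]
        have := mul_lt_mul_of_pos_left h hκ0
        rw [mul_one_div_cancel hκ0.ne'] at this
        exact this.le
      have h6 := abs_le.mp h5
      have h7 := Real.pi_gt_three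
      constructor <;> linarith [h6.1, h6.2]
    have h8 := Complex.re_le_norm (((r * Real.cos (κ * (r - s)) + s : ℝ) : ℂ) + ((r * Real.sin (κ * (r-s)) : ℝ) : ℂ) * Complex.I)
    have h9 : (((r * Real.cos (κ * (r - s)) + s : ℝ) : ℂ) + ((r * Real.sin (κ * (r-s)) : ℝ) : ℂ) * Complex.I).re =
        r * Real.cos (κ * (r - s)) + s := by
      rw [Complex.add_re, Complex.ofReal_re, Complex.re_ofReal_mul, Complex.I_re, mul_zero, add_zero]
    rw [h9] at h8
    refine le_trans ?_ h8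
    have h10 : 1 / κ ≤ 1 / 2 := one_div_le_one_div_of_le (by norm_num) hκ
    have h11 := mul_nonneg hr h4
    linarith [hs.1]


/-- quantitative approximation of 1/z on the spiral -/
theorem approx_spiral {κ : ℝ} (hκ : 2 ≤ κ) {N : ℕ} (hN : 48 * κ ^ 2 ≤ N) {k : ℕ} (hk : 8 * κ < 2 ^ k) :
    ∃ a : Fin (3 ^ N * k + 1) → ℂ, (∀ j, ‖a j‖ ≤ 2 ^ (3 ^ N * k)) ∧
      ∀ z ∈ spiral κ, ‖z⁻¹ - ∑ j, a j * z ^ (j:ℕ)‖ ≤ 1/2 := by
  have hcs : CompactSpace (spiral κ) := isCompact_iff_compactSpace.mp (isCompact_spiral κ)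
  have hκ0 : 0 < κ := by linarith
  have hN0 : 0 < (N:ℝ) := lt_of_lt_of_le (by positivity) hN
  have hNpos : 0 < N := by exact_mod_cast hN0
  apply approx
  · intro h
    have := (spiral_norm h).1
    rw [norm_zero] at this
    linarith
  · intro z hz
    linarith [(spiral_norm hz).2]
  intro F hF hFb hFinf
  set d : ℝ := 1 / (4 * κ) with hd
  have hd0 : 0 < d := by positivity
  have hdκ : 4 * d = 1 / κ := by rw [hd]; field_simp
  have hd1 : d ≤ 1/8 := by
    rw [hd]; exact one_div_le_one_div_of_le (by norm_num) (by linarith)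
  set q : ℕ → ℂ := fun j => - sp κ (3 - j * (3 / N)) with hq
  have hqr : ∀ j ≤ N, 0 ≤ 3 - (j:ℝ) * (3 / N) := by
    intro j hj
    have : (j:ℝ) ≤ N := by exact_mod_cast hj
    have h1 : (j:ℝ) * (3 / N) ≤ N * (3 / N) := by gcongr
    rw [mul_div_cancel₀ _ hN0.ne'] at h1
    linarith
  have hdist : ∀ j ≤ N, ∀ w ∈ closedBall (q j) (3 * d), ∀ z ∈ spiral κ, d ≤ ‖w - z‖ := by
    intro j hj w hw z hz
    have h1 := sp_dist hκ (hqr j hj) hz
    rw [mem_closedBall, dist_eq_norm] at hw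
    have h2 : ‖q j - z‖ ≤ ‖w - z‖ + ‖w - q j‖ := by
      have : q j - z = (w - z) - (w - q j) := by ring
      rw [this]; exact norm_sub_le _ _
    have h3 : 1 / κ ≤ ‖q j - z‖ := h1
    linarith
  have hU : IsOpen (spiral κ)ᶜ := (isCompact_spiral κ).isClosed.isOpen_compl
  have hsub : ∀ j ≤ N, closedBall (q j) (3 * d) ⊆ (spiral κ)ᶜ := by
    intro j hj w hw hws
    have := hdist j hj w hw w hws
    rw [sub_self, norm_zero] at this
    linarith
  set G : ℂ → ℂ := fun w => (d:ℂ) * F w with hG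
  have hGd : DifferentiableOn ℂ G (spiral κ)ᶜ := hF.const_mul _
  have hGn : ∀ w, ‖G w‖ = d * ‖F w‖ := by
    intro w
    simp only [hG]
    rw [norm_mul, Complex.norm_real, Real.norm_eq_abs, abs_of_pos hd0]
  have hG1 : ∀ j ≤ N, ∀ z ∈ closedBall (q j) (3 * d), ‖G z‖ ≤ 1 := by
    intro j hj w hw
    have h1 := hFb w (hsub j hj hw) d hd0 (hdist j hj w hw)
    rw [hGn]
    calc d * ‖F w‖ ≤ d * d⁻¹ := by gcongr
      _ = 1 := mul_inv_cancel₀ hd0.ne'
  have hstep : ∀ j < N, ‖q (j + 1) - q j‖ ≤ d := by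
    intro j hj
    have h1 : ‖q (j+1) - q j‖ = ‖sp κ (3 - ((j+1 : ℕ):ℝ) * (3 / N)) - sp κ (3 - j * (3/N))‖ := by
      simp only [hq]
      rw [← norm_neg]; congr 1; ring
    rw [h1]
    have h2 : |3 - (j:ℝ) * (3 / N)| ≤ 3 := by
      rw [abs_of_nonneg (hqr j hj.le)]
      have : 0 ≤ (j:ℝ) * (3 / N) := by positivity
      linarith
    refine (sp_lip κ hκ0.le h2).trans ?_
    have h3 : (3 - ((j+1 : ℕ):ℝ) * (3 / N)) - (3 - j * (3/N)) = - (3 / N) := by push_cast; ring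
    rw [h3, abs_neg, abs_of_pos (by positivity), hd, ← mul_div_assoc, div_le_div_iff₀ hN0 (by positivity)]
    nlinarith
  have h0 : ∀ z ∈ closedBall (q 0) d, ‖G z‖ ≤ (1/2:ℝ) ^ (3 ^ N * k) := by
    intro w hw
    have h1 : ‖q 0‖ = 3 := by
      simp only [hq]
      rw [norm_neg, norm_sp]
      · simp
      · simp
    rw [mem_closedBall, dist_eq_norm] at hw
    have h2 : 2 ≤ ‖w‖ := by
      have : ‖q 0‖ ≤ ‖w‖ + ‖w - q 0‖ := by
        have : q 0 = w - (w - q 0) := by ring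
        calc ‖q 0‖ = ‖w - (w - q 0)‖ := by rw [← this]
          _ ≤ _ := norm_sub_le _ _
      linarith
    have h3 := hFinf w h2
    rw [hGn]
    calc d * ‖F w‖ ≤ 1 * (1/2:ℝ) ^ (3 ^ N * k) := by
          apply mul_le_mul (by linarith) h3 (norm_nonneg _) zero_le_one
      _ = _ := one_mul _
  have hfin := chain hU hGd hd0 N hsub hstep hG1 (by positivity)
    (pow_le_one₀ (by norm_num) (by norm_num)) h0 N le_rfl 0 (by
      have : q N = 0 := by
        simp only [hq]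
        rw [mul_div_cancel₀ _ hN0.ne', sub_self]
        simp [sp]
      rw [this]
      exact mem_closedBall_self hd0.le)
  have hpow : ((1/2:ℝ) ^ (3 ^ N * k)) ^ (((1:ℝ)/3) ^ N) = (1/2) ^ k := by
    have e : ((3 ^ N * k : ℕ) : ℝ) * (((1:ℝ)/3)^N) = (k:ℝ) := by
      push_cast
      rw [one_div, inv_pow]
      field_simp
    rw [← Real.rpow_natCast (1/2:ℝ) (3 ^ N * k), ← Real.rpow_mul (by norm_num), e,
      Real.rpow_natCast]
  rw [hpow, hGn, hd] at hfin
  have h2k : (0:ℝ) < 2 ^ k := by positivity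
  have h5 : ‖F 0‖ ≤ (4 * κ) / 2 ^ k := by
    rw [one_div_pow, one_div_mul_eq_div, div_le_div_iff₀ (by positivity) h2k] at hfin
    rw [le_div_iff₀ h2k]
    linarith
  refine lt_of_le_of_lt h5 ?_
  rw [div_lt_div_iff₀ h2k (by norm_num)]
  linarith

theorem crossing {g : ℝ → ℂ} (hg : Continuous g) (h0 : g 0 = 0) (h1 : ‖g 1‖ = 1) {a b : ℝ}
    (ha : 0 < a) (hab : a < b) (hb : b < 1) :
    ∃ s t, 0 ≤ s ∧ s ≤ t ∧ t ≤ 1 ∧ ‖g s‖ = a ∧ ‖g t‖ = b ∧
      ∀ r ∈ Icc s t, a ≤ ‖g r‖ ∧ ‖g r‖ ≤ b := by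
  have hgn : Continuous fun r => ‖g r‖ := hg.norm
  set T : Set ℝ := Icc 0 1 ∩ {r | b ≤ ‖g r‖} with hT
  have hTc : IsCompact T := isCompact_Icc.inter_right (isClosed_le continuous_const hgn)
  obtain ⟨t, htT, ht⟩ := hTc.exists_isLeast ⟨1, ⟨by norm_num, le_refl _⟩, by
    simp only [mem_ofPred_eq]; linarith⟩
  have hgt : ‖g t‖ = b := by
    have hmem : b ∈ Icc ‖g 0‖ ‖g t‖ := ⟨by rw [h0, norm_zero]; linarith, htT.2⟩
    obtain ⟨r, hr, hrb⟩ := intermediate_value_Icc htT.1.1 hgn.continuousOn hmem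
    have hrb' : ‖g r‖ = b := hrb
    have : t ≤ r := ht ⟨⟨hr.1, hr.2.trans htT.1.2⟩, hrb'.ge⟩
    have hrt : r = t := le_antisymm hr.2 this
    rw [← hrt]; exact hrb'
  set S : Set ℝ := Icc 0 t ∩ {r | ‖g r‖ ≤ a} with hS
  have hSc : IsCompact S := isCompact_Icc.inter_right (isClosed_le hgn continuous_const)
  obtain ⟨s, hsS, hs⟩ := hSc.exists_isGreatest ⟨0, ⟨le_refl _, htT.1.1⟩, by
    simp only [mem_ofPred_eq]; rw [h0, norm_zero]; linarith⟩
  have hgs : ‖g s‖ = a := by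
    have hmem : a ∈ Icc ‖g s‖ ‖g t‖ := ⟨hsS.2, by rw [hgt]; linarith⟩
    obtain ⟨r, hr, hra⟩ := intermediate_value_Icc hsS.1.2 hgn.continuousOn hmem
    have hra' : ‖g r‖ = a := hra
    have : r ≤ s := hs ⟨⟨hsS.1.1.trans hr.1, hr.2⟩, hra'.le⟩
    have hrs : r = s := le_antisymm this hr.1
    rw [← hrs]; exact hra'
  refine ⟨s, t, hsS.1.1, hsS.1.2, htT.1.2, hgs, hgt, ?_⟩
  intro r hr
  constructor
  · by_contra hlt
    push Not at hlt
    have : r ≤ s := hs ⟨⟨hsS.1.1.trans hr.1, hr.2⟩, hlt.le⟩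
    have hrs : r = s := le_antisymm this hr.1
    rw [hrs, hgs] at hlt
    linarith
  · by_contra hlt
    push Not at hlt
    have : t ≤ r := ht ⟨⟨hsS.1.1.trans hr.1, hr.2.trans htT.1.2⟩, hlt.le⟩
    have hrt : r = t := le_antisymm hr.2 this
    rw [hrt, hgt] at hlt
    linarith

/-- the winding angle off the spiral -/
noncomputable def Theta (κ : ℝ) (z : ℂ) : ℝ :=
  Complex.arg (-(z * Complex.exp (-(Complex.I * ((κ * ‖z‖ : ℝ) : ℂ))))) + κ * ‖z‖

theorem Theta_re (κ : ℝ) (z : ℂ) : z.re = - ‖z‖ * Real.cos (Theta κ z) := by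
  set u : ℂ := -(z * Complex.exp (-(Complex.I * ((κ * ‖z‖ : ℝ) : ℂ)))) with hu
  have hun : ‖u‖ = ‖z‖ := by
    rw [hu, norm_neg, norm_mul, ← mul_neg, ← Complex.ofReal_neg, mul_comm Complex.I,
      Complex.norm_exp_ofReal_mul_I, mul_one]
  have h1 := Complex.norm_mul_exp_arg_mul_I u
  have h2 : z = - (u * Complex.exp (Complex.I * ((κ * ‖z‖ : ℝ) : ℂ))) := by
    rw [hu, neg_mul, neg_neg, mul_assoc, ← Complex.exp_add]
    simp
  have h3 : z = - (‖z‖ * Complex.exp ((Theta κ z : ℝ) * Complex.I)) := by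
    conv_lhs => rw [h2, ← h1, hun, mul_assoc, ← Complex.exp_add]
    congr 3
    rw [Theta, ← hu]
    push_cast
    ring
  have h4 : z.re = (- (‖z‖ * Complex.exp ((Theta κ z : ℝ) * Complex.I))).re := by rw [← h3]
  rw [h4, Complex.neg_re, Complex.re_ofReal_mul, Complex.exp_ofReal_mul_I_re]
  ring

theorem Theta_cont {κ : ℝ} {z : ℂ} (hz : z ∉ spiral κ) (h1 : 1/2 ≤ ‖z‖) (h2 : ‖z‖ ≤ 3/4) :
    ContinuousAt (Theta κ) z := by
  unfold Theta
  apply ContinuousAt.add
  · apply ContinuousAt.comp (g := Complex.arg)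
    · apply Complex.continuousAt_arg
      by_contra hns
      rw [Complex.mem_slitPlane_iff, not_or, not_lt, not_not] at hns
      apply hz
      refine ⟨‖z‖, ⟨h1, h2⟩, ?_⟩
      set w : ℂ := z * Complex.exp (-(Complex.I * ((κ * ‖z‖ : ℝ) : ℂ))) with hw
      have hwn : ‖w‖ = ‖z‖ := by
        rw [hw, norm_mul, ← mul_neg, ← Complex.ofReal_neg, mul_comm Complex.I,
          Complex.norm_exp_ofReal_mul_I, mul_one]
      have hw0 : 0 ≤ w.re := by
        have := hns.1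
        rw [Complex.neg_re] at this
        linarith
      have hw00 : w.im = 0 := by
        have := hns.2
        rw [Complex.neg_im] at this
        linarith
      have hw1 : w = (‖w‖ : ℂ) := by
        have h4 : w = (w.re : ℂ) := by
          apply Complex.ext
          · simp
          · rw [Complex.ofReal_im]; exact hw00
        rw [h4, Complex.norm_real, Real.norm_eq_abs, abs_of_nonneg]
        exact hw0
      unfold sp
      rw [← hwn, ← hw1, hw, mul_assoc, ← Complex.exp_add, hwn]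
      simp
    · fun_prop
  · fun_prop

theorem cross_length {κ : ℝ} {g : ℝ → ℂ} (hg : Continuous g) (h0 : g 0 = 0) (h1 : ‖g 1‖ = 1)
    (hav : ∀ r ∈ Icc (0:ℝ) 1, g r ∉ spiral κ) {a b : ℝ} (ha : 1/2 ≤ a) (hab : a < b) (hb : b ≤ 3/4)
    (hκ : 4 * Real.pi ≤ κ * (b - a)) :
    1 ≤ μH[1] (g '' Icc 0 1 ∩ {z | a ≤ ‖z‖ ∧ ‖z‖ ≤ b}) := by
  obtain ⟨s, t, hs0, hst, ht1, hgs, hgt, hr⟩ := crossing hg h0 h1 (by linarith) hab (by linarith)
  have hsub : Icc s t ⊆ Icc (0:ℝ) 1 := Icc_subset_Icc hs0 ht1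
  have hΘc : ContinuousOn (fun r => Theta κ (g r)) (Icc s t) := by
    intro r hrr
    apply ContinuousAt.continuousWithinAt
    apply ContinuousAt.comp (g := Theta κ)
    · apply Theta_cont (hav r (hsub hrr)) <;> linarith [(hr r hrr).1, (hr r hrr).2]
    · exact hg.continuousAt
  have hpi := Real.pi_pos
  have hΘs : Theta κ (g s) ≤ Real.pi + κ * a := by
    unfold Theta
    rw [hgs]
    linarith [Complex.arg_le_pi (-(g s * Complex.exp (-(Complex.I * ((κ * a : ℝ) : ℂ)))))]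
  have hΘt : -Real.pi + κ * b ≤ Theta κ (g t) := by
    unfold Theta
    rw [hgt]
    linarith [Complex.neg_pi_lt_arg (-(g t * Complex.exp (-(Complex.I * ((κ * b : ℝ) : ℂ)))))]
  have hdiff : Theta κ (g s) + 2 * Real.pi ≤ Theta κ (g t) := by
    have : κ * (b - a) = κ * b - κ * a := by ring
    linarith
  set k : ℤ := ⌈Theta κ (g s) / Real.pi⌉ with hk
  have hk1 : Theta κ (g s) ≤ k * Real.pi := by
    have := Int.le_ceil (Theta κ (g s) / Real.pi)
    rwa [div_le_iff₀ hpi] at this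
  have hk2 : k * Real.pi < Theta κ (g s) + Real.pi := by
    have := Int.ceil_lt_add_one (Theta κ (g s) / Real.pi)
    rw [← hk] at this
    have h3 := mul_lt_mul_of_pos_right this hpi
    rw [add_mul, div_mul_cancel₀ _ hpi.ne', one_mul] at h3
    exact h3
  obtain ⟨t1, ht1m, ht1v⟩ := intermediate_value_Icc hst hΘc
    (show (k:ℝ) * Real.pi ∈ Icc (Theta κ (g s)) (Theta κ (g t)) from ⟨hk1, by linarith⟩)
  obtain ⟨t2, ht2m, ht2v⟩ := intermediate_value_Icc hst hΘc
    (show ((k:ℝ)+1) * Real.pi ∈ Icc (Theta κ (g s)) (Theta κ (g t)) from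
      ⟨by nlinarith, by nlinarith⟩)
  have ht1v' : Theta κ (g t1) = k * Real.pi := ht1v
  have ht2v' : Theta κ (g t2) = (k+1) * Real.pi := ht2v
  have hre1 : (g t1).re = - ‖g t1‖ * Real.cos (k * Real.pi) := by rw [Theta_re κ, ht1v']
  have hre2 : (g t2).re = ‖g t2‖ * Real.cos (k * Real.pi) := by
    rw [Theta_re κ, ht2v', add_mul, one_mul, Real.cos_add_pi]; ring
  have hn1 := (hr t1 ht1m).1
  have hn2 := (hr t2 ht2m).1
  have hcos : Real.cos (k * Real.pi) = 1 ∨ Real.cos (k * Real.pi) = -1 := by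
    rw [Real.cos_int_mul_pi]
    rcases Int.even_or_odd k with h | h
    · left; exact h.neg_one_zpow
    · right; exact h.neg_one_zpow
  have hcover : Icc (-(1/2):ℝ) (1/2) ⊆ (fun r => (g r).re) '' uIcc t1 t2 := by
    refine Subset.trans ?_ (intermediate_value_uIcc
      (Complex.continuous_re.comp hg).continuousOn)
    intro x hx
    change x ∈ uIcc (g t1).re (g t2).re
    rw [hre1, hre2, mem_uIcc]
    rcases hcos with h | h
    · left; rw [h]; constructor <;> linarith [hx.1, hx.2]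
    · right; rw [h]; constructor <;> linarith [hx.1, hx.2]
  have huIcc : uIcc t1 t2 ⊆ Icc s t := uIcc_subset_Icc ht1m ht2m
  set P : Set ℂ := g '' Icc 0 1 ∩ {z | a ≤ ‖z‖ ∧ ‖z‖ ≤ b} with hP
  have hsubP : Icc (-(1/2):ℝ) (1/2) ⊆ Complex.re '' P := by
    intro x hx
    obtain ⟨r, hr1, hr2⟩ := hcover hx
    exact ⟨g r, ⟨⟨r, hsub (huIcc hr1), rfl⟩, hr r (huIcc hr1)⟩, hr2⟩
  have hlip : LipschitzWith 1 Complex.re := by
    apply LipschitzWith.of_dist_le_mul
    intro x y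
    rw [Real.dist_eq, dist_eq_norm, ← Complex.sub_re]
    simpa using Complex.abs_re_le_norm (x - y)
  have h5 : μH[1] (Complex.re '' P) ≤ μH[1] P := by
    have := hlip.hausdorffMeasure_image_le (d := 1) zero_le_one P
    simpa using this
  refine le_trans ?_ h5
  rw [hausdorffMeasure_real]
  calc (1:ℝ≥0∞) = volume (Icc (-(1/2):ℝ) (1/2)) := by
        rw [Real.volume_Icc]; norm_num
    _ ≤ _ := measure_mono hsubP

theorem path_length {m : ℕ} (hm : 0 < m) {g : ℝ → ℂ} (hg : Continuous g) (h0 : g 0 = 0)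
    (h1 : ‖g 1‖ = 1) (hav : ∀ r ∈ Icc (0:ℝ) 1, g r ∉ spiral (32 * Real.pi * m)) :
    (m : ℝ≥0∞) ≤ μH[1] (g '' Icc 0 1) := by
  have hm0 : (0:ℝ) < m := by exact_mod_cast hm
  set h : ℝ := 1 / (8 * m) with hh
  have hh0 : 0 < h := by positivity
  have hmh : m * h = 1/8 := by rw [hh]; field_simp
  set A : ℕ → Set ℂ := fun j => {z | 1/2 + 2 * j * h ≤ ‖z‖ ∧ ‖z‖ ≤ 1/2 + (2 * j + 1) * h} with hA
  have hAclosed : ∀ j, IsClosed (A j) := by
    intro j
    apply IsClosed.inter (isClosed_le continuous_const continuous_norm)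
      (isClosed_le continuous_norm continuous_const)
  have hdisj : ∀ i j, i < j → Disjoint (A i) (A j) := by
    intro i j hij
    rw [Set.disjoint_left]
    intro z hz1 hz2
    have h3 : (i:ℝ) + 1 ≤ j := by exact_mod_cast hij
    have h4 : (2 * (i:ℝ) + 1) * h < 2 * j * h := by
      apply mul_lt_mul_of_pos_right _ hh0; linarith
    have h5 := hz1.2
    have h6 := hz2.1
    linarith
  have hpair : Set.PairwiseDisjoint (↑(Finset.range m)) (fun j => g '' Icc 0 1 ∩ A j) := by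
    intro i _ j _ hij
    rcases lt_or_gt_of_ne hij with h | h
    · exact (hdisj i j h).mono inter_subset_right inter_subset_right
    · exact ((hdisj j i h).mono inter_subset_right inter_subset_right).symm
  have hcomp : IsCompact (g '' Icc (0:ℝ) 1) := isCompact_Icc.image hg
  have hmeas : ∀ j ∈ Finset.range m, MeasurableSet (g '' Icc 0 1 ∩ A j) := fun j _ =>
    (hcomp.isClosed.inter (hAclosed j)).measurableSet
  have hsum := measure_biUnion_finset (μ := (μH[1] : Measure ℂ)) hpair hmeas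
  calc (m : ℝ≥0∞) = ∑ j ∈ Finset.range m, (1:ℝ≥0∞) := by simp
    _ ≤ ∑ j ∈ Finset.range m, μH[1] (g '' Icc 0 1 ∩ A j) := by
        apply Finset.sum_le_sum
        intro j hj
        have hj' : (j:ℝ) + 1 ≤ m := by exact_mod_cast Finset.mem_range.mp hj
        apply cross_length hg h0 h1 hav
        · have : 0 ≤ 2 * (j:ℝ) * h := by positivity
          linarith
        · have : 2 * (j:ℝ) * h < (2 * j + 1) * h := by nlinarith
          linarith
        · have : (2 * (j:ℝ) + 1) * h ≤ 2 * m * h := by nlinarith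
          nlinarith
        · have : 32 * Real.pi * m * (1/2 + (2 * j + 1) * h - (1/2 + 2 * j * h)) =
            32 * Real.pi * (m * h) := by ring
          rw [this, hmh]
          linarith
    _ = μH[1] (⋃ j ∈ Finset.range m, g '' Icc 0 1 ∩ A j) := hsum.symm
    _ ≤ μH[1] (g '' Icc 0 1) := by
        apply measure_mono
        intro z hz
        simp only [mem_iUnion] at hz
        obtain ⟨j, _, hz1, _⟩ := hz
        exact hz1

theorem range_eq (γ : C(unitInterval, ℂ)) :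
    (fun t : ℝ => γ (projIcc 0 1 zero_le_one t)) '' Icc 0 1 = range γ := by
  ext z
  constructor
  · rintro ⟨t, _, rfl⟩
    exact ⟨_, rfl⟩
  · rintro ⟨t, rfl⟩
    refine ⟨t, t.2, ?_⟩
    simp only [projIcc_val]

/-- the length of every escape path is at least one -/
theorem one_le_length {g : ℝ → ℂ} (hg : Continuous g) (h0 : g 0 = 0) (h1 : ‖g 1‖ = 1) :
    1 ≤ μH[1] (g '' Icc 0 1) := by
  have hlip : LipschitzWith 1 (fun z : ℂ => ‖z‖) := lipschitzWith_one_norm
  have h5 : μH[1] ((fun z : ℂ => ‖z‖) '' (g '' Icc 0 1)) ≤ μH[1] (g '' Icc 0 1) := by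
    have := hlip.hausdorffMeasure_image_le (d := 1) zero_le_one (g '' Icc 0 1)
    simpa using this
  refine le_trans ?_ h5
  rw [hausdorffMeasure_real]
  calc (1:ℝ≥0∞) = volume (Icc (0:ℝ) 1) := by
        rw [Real.volume_Icc]; norm_num
    _ ≤ _ := by
        apply measure_mono
        intro x hx
        have hx' : x ∈ Icc ‖g 0‖ ‖g 1‖ := by rw [h0, h1, norm_zero]; exact hx
        obtain ⟨r, hr, hrx⟩ := intermediate_value_Icc zero_le_one
          (hg.norm.continuousOn (s := Icc (0:ℝ) 1)) hx'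
        exact ⟨g r, ⟨r, hr, rfl⟩, hrx⟩

theorem one_le_length_path (γ : C(unitInterval, ℂ)) (h0 : γ 0 = 0) (h1 : ‖γ 1‖ = 1) :
    1 ≤ μH[1] (range γ) := by
  rw [← range_eq γ]
  apply one_le_length (γ.continuous.comp continuous_projIcc)
  · change γ (projIcc 0 1 zero_le_one 0) = 0
    rw [projIcc_left]; exact h0
  · change ‖γ (projIcc 0 1 zero_le_one 1)‖ = 1
    rw [projIcc_right]; exact h1

/-- The main construction. -/
theorem exists_barrier_poly_aux {m n : ℕ} (hm : 0 < m)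
    (hn : 11 * (3 ^ (491520 * m ^ 2) * (10 + m) + 1) ≤ n) :
    ∃ f : ℂ[X], f.Monic ∧ f.natDegree = n ∧ (∀ z : ℂ, f.IsRoot z → ‖z‖ ≤ 1) ∧
      ∀ γ : C(unitInterval, ℂ), γ 0 = 0 → ‖γ 1‖ = 1 → range γ ⊆ {z | ‖f.eval z‖ ≤ 1} →
        (m : ℝ≥0∞) ≤ μH[1] (range γ) := by
  have hm1 : (1:ℝ) ≤ m := by exact_mod_cast hm
  have hpi := Real.pi_gt_three
  have hpi' := Real.pi_lt_d2
  have hκ2 : 2 ≤ 32 * Real.pi * m := by nlinarith
  have hN : 48 * (32 * Real.pi * m) ^ 2 ≤ ((491520 * m ^ 2 : ℕ) : ℝ) := by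
    push_cast
    have h1 : Real.pi ^ 2 ≤ 10 := by nlinarith
    have h2 : 48 * (32 * Real.pi * m) ^ 2 = 49152 * (Real.pi ^ 2 * (m:ℝ) ^ 2) := by ring
    have h3 : Real.pi ^ 2 * (m:ℝ) ^ 2 ≤ 10 * (m:ℝ) ^ 2 := by gcongr
    rw [h2]; linarith
  have hk : 8 * (32 * Real.pi * m) < 2 ^ (10 + m) := by
    have h1 : (m:ℝ) < 2 ^ m := by exact_mod_cast Nat.lt_two_pow_self
    rw [pow_add]
    nlinarith
  obtain ⟨a, ha, haK⟩ := approx_spiral hκ2 hN hk
  obtain ⟨f, hf1, hf2, hf3, hf4⟩ := construct (spiral (32 * Real.pi * m))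
    (fun z hz => (spiral_norm hz).2) (fun h => by
      have := (spiral_norm h).1
      rw [norm_zero] at this
      linarith) _ a ha haK n hn
  refine ⟨f, hf1, hf2, hf3, ?_⟩
  intro γ h0 h1 hE
  rw [← range_eq γ]
  apply path_length hm (γ.continuous.comp continuous_projIcc)
  · change γ (projIcc 0 1 zero_le_one 0) = 0
    rw [projIcc_left]; exact h0
  · change ‖γ (projIcc 0 1 zero_le_one 1)‖ = 1
    rw [projIcc_right]; exact h1
  · intro r _ hmem
    have h5 := hf4 _ hmem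
    have h6 : ‖f.eval (γ (projIcc 0 1 zero_le_one r))‖ ≤ 1 := hE ⟨_, rfl⟩
    have h7 : 1 < ‖f.eval (γ (projIcc 0 1 zero_le_one r))‖ := h5
    linarith

theorem exists_barrier_poly {m n : ℕ} (hm : 0 < m) (hn : Real.exp (600000 * m ^ 2) ≤ n) :
    ∃ f : ℂ[X], f.Monic ∧ f.natDegree = n ∧ (∀ z : ℂ, f.IsRoot z → ‖z‖ ≤ 1) ∧
      ∀ γ : C(unitInterval, ℂ), γ 0 = 0 → ‖γ 1‖ = 1 → range γ ⊆ {z | ‖f.eval z‖ ≤ 1} →
        (m : ℝ≥0∞) ≤ μH[1] (range γ) := by
  apply exists_barrier_poly_aux hm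
  have hm1 : (1:ℝ) ≤ m := by exact_mod_cast hm
  have h3 : (3:ℝ) ≤ Real.exp (11/10) := by
    have h3' : (3:ℝ) ^ 10 ≤ Real.exp 1 ^ 11 := by
      have := Real.exp_one_gt_d9
      calc (3:ℝ) ^ 10 ≤ (2.7182818283:ℝ) ^ 11 := by norm_num
        _ ≤ Real.exp 1 ^ 11 := by gcongr
    have h4 : (3:ℝ) ^ 10 ≤ (Real.exp (11/10)) ^ 10 := by
      have e1 : Real.exp 1 ^ 11 = Real.exp 11 := by
        rw [← Real.exp_nat_mul]; norm_num
      have e2 : Real.exp (11/10) ^ 10 = Real.exp 11 := by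
        rw [← Real.exp_nat_mul]; norm_num
      rw [e2, ← e1]
      exact h3'
    exact le_of_pow_le_pow_left₀ (by norm_num) (Real.exp_pos _).le h4
  have h5 : (10 + (m:ℝ)) ≤ Real.exp (9 + m) := by
    have := Real.add_one_le_exp (9 + (m:ℝ))
    linarith
  have h22 : (22:ℝ) ≤ Real.exp 21 := by
    have := Real.add_one_le_exp (21:ℝ)
    linarith
  have h6 : (3:ℝ) ^ (491520 * m ^ 2) ≤ Real.exp (540672 * m ^ 2) := by
    calc (3:ℝ) ^ (491520 * m ^ 2) ≤ (Real.exp (11/10)) ^ (491520 * m ^ 2) := by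
          gcongr
      _ = Real.exp (540672 * m ^ 2) := by
          rw [← Real.exp_nat_mul]
          congr 1
          push_cast
          ring
  have h7 : ((11 * (3 ^ (491520 * m ^ 2) * (10 + m) + 1) : ℕ) : ℝ) ≤ n := by
    refine le_trans ?_ hn
    push_cast
    have h8 : (1:ℝ) ≤ (3:ℝ) ^ (491520 * m ^ 2) * (10 + m) := by
      have : (1:ℝ) ≤ (3:ℝ) ^ (491520 * m ^ 2) := one_le_pow₀ (by norm_num)
      nlinarith
    calc 11 * ((3:ℝ) ^ (491520 * m ^ 2) * (10 + m) + 1)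
        ≤ 22 * ((3:ℝ) ^ (491520 * m ^ 2) * (10 + m)) := by linarith
      _ ≤ Real.exp 21 * (Real.exp (540672 * m ^ 2) * Real.exp (9 + m)) := by
          gcongr
      _ = Real.exp (21 + (540672 * m ^ 2 + (9 + m))) := by
          rw [Real.exp_add 21, Real.exp_add (540672 * (m:ℝ) ^ 2) (9 + m)]
      _ ≤ Real.exp (600000 * m ^ 2) := by
          apply Real.exp_le_exp.mpr
          nlinarith
  exact_mod_cast h7

end Pool.Agent.H32.EscapeLower
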