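import Pool.Agent.H32.EscapeLower

/-!
# Long escape paths in polynomial lemniscates: the fractal tube

The entire map `phi z = (z + i sin z) / 100` is injective on the strip where `|Im z| ≤ 1/2` and maps it
into the strip where `|Im z| ≤ 1/50`. The `k`-th iterate maps a long thin rectangle onto a tube
around a self-similar curve. We prove that a path through the tube is long (`length_ind`) and that
smallness of analytic functions propagates through the complement of the tube with an exponent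
which is geometric in `k` (`main_prop`).
-/

open Set Metric Filter Topology Polynomial

namespace Pool.Agent.H32.EscapePoly

open MeasureTheory Pool.Agent.H32.EscapeLower
open scoped ENNReal

/-- the basic map -/
noncomputable def phi (z : ℂ) : ℂ := (z + Complex.I * Complex.sin z) / 100

/-- the closed strip of half-width `h` -/
def strip (h : ℝ) : Set ℂ := {z | |z.im| ≤ h}

theorem convex_strip (h : ℝ) : Convex ℝ (strip h) := by
  have : strip h = Complex.imLm ⁻¹' (Icc (-h) h) := by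
    ext z; simp [strip, abs_le]
  rw [this]
  exact (convex_Icc _ _).linear_preimage _

theorem isClosed_strip (h : ℝ) : IsClosed (strip h) :=
  isClosed_le (Complex.continuous_im.abs) continuous_const

theorem exp_half_lt : Real.exp (1/2) < 1.6488 := by
  have h := Real.exp_one_lt_d9
  have h2 : Real.exp (1/2) ^ 2 = Real.exp 1 := by
    rw [← Real.exp_nat_mul]; norm_num
  have h3 := Real.exp_pos (1/2)
  nlinarith

theorem exp_half_gt : 1.6487 < Real.exp (1/2) := by
  have h := Real.exp_one_gt_d9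
  have h2 : Real.exp (1/2) ^ 2 = Real.exp 1 := by
    rw [← Real.exp_nat_mul]; norm_num
  have h3 := Real.exp_pos (1/2)
  nlinarith

theorem exp_neg_half_gt : 0.6064 < Real.exp (-(1/2)) := by
  have h := exp_half_lt
  have h2 : Real.exp (-(1/2)) * Real.exp (1/2) = 1 := by rw [← Real.exp_add]; norm_num
  have h3 := Real.exp_pos (1/2)
  have h4 := Real.exp_pos (-(1/2))
  nlinarith

theorem exp_neg_half_lt : Real.exp (-(1/2)) < 0.6066 := by
  have h := exp_half_gt
  have h2 : Real.exp (-(1/2)) * Real.exp (1/2) = 1 := by rw [← Real.exp_add]; norm_num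
  have h3 := Real.exp_pos (1/2)
  have h4 := Real.exp_pos (-(1/2))
  nlinarith

theorem sinh_half : Real.sinh (1/2) < 0.53 := by
  rw [Real.sinh_eq]
  have h1 := exp_half_lt
  have h2 := exp_neg_half_gt
  linarith

theorem cosh_half : Real.cosh (1/2) < 1.13 := by
  rw [Real.cosh_eq]
  have h1 := exp_half_lt
  have h2 := exp_neg_half_lt
  linarith

theorem abs_sinh_le {y h : ℝ} (hy : |y| ≤ h) : |Real.sinh y| ≤ Real.sinh h := by
  rw [abs_le] at hy ⊢
  constructor
  · rw [← Real.sinh_neg]; exact Real.sinh_le_sinh.mpr hy.1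
  · exact Real.sinh_le_sinh.mpr hy.2

theorem cosh_le {y h : ℝ} (hy : |y| ≤ h) : Real.cosh y ≤ Real.cosh h := by
  rw [Real.cosh_le_cosh]
  exact hy.trans (le_abs_self h)

theorem hasDerivAt_phi (z : ℂ) :
    HasDerivAt phi ((1 + Complex.I * Complex.cos z) / 100) z := by
  have := ((hasDerivAt_id z).add ((Complex.hasDerivAt_sin z).const_mul Complex.I)).div_const (100:ℂ)
  exact this

theorem differentiable_phi : Differentiable ℂ phi := fun z => (hasDerivAt_phi z).differentiableAt

theorem continuous_phi : Continuous phi := differentiable_phi.continuous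

theorem phi_zero : phi 0 = 0 := by simp [phi]

theorem phi_neg (z : ℂ) : phi (-z) = - phi z := by
  simp only [phi, Complex.sin_neg]; ring

theorem phi_re (z : ℂ) : (phi z).re = (z.re - Real.cos z.re * Real.sinh z.im) / 100 := by
  have h1 : phi z = (z + Complex.I * Complex.sin z) * ((1/100 : ℝ) : ℂ) := by
    simp only [phi]; push_cast; ring
  rw [h1, Complex.re_mul_ofReal, Complex.sin_eq]
  simp only [Complex.add_re, Complex.mul_re, Complex.add_im, Complex.mul_im, Complex.I_re, Complex.I_im,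
    Complex.cos_ofReal_re, Complex.sin_ofReal_re, Complex.sinh_ofReal_re, Complex.cosh_ofReal_re,
    Complex.cos_ofReal_im, Complex.sin_ofReal_im, Complex.sinh_ofReal_im, Complex.cosh_ofReal_im]
  ring

theorem phi_im (z : ℂ) : (phi z).im = (z.im + Real.sin z.re * Real.cosh z.im) / 100 := by
  have h1 : phi z = (z + Complex.I * Complex.sin z) * ((1/100 : ℝ) : ℂ) := by
    simp only [phi]; push_cast; ring
  rw [h1, Complex.im_mul_ofReal, Complex.sin_eq]
  simp only [Complex.add_re, Complex.mul_re, Complex.add_im, Complex.mul_im, Complex.I_re, Complex.I_im,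
    Complex.cos_ofReal_re, Complex.sin_ofReal_re, Complex.sinh_ofReal_re, Complex.cosh_ofReal_re,
    Complex.cos_ofReal_im, Complex.sin_ofReal_im, Complex.sinh_ofReal_im, Complex.cosh_ofReal_im]
  ring

theorem cos_re (z : ℂ) : (Complex.cos z).re = Real.cos z.re * Real.cosh z.im := by
  rw [Complex.cos_eq]
  simp only [Complex.sub_re, Complex.sub_im, Complex.mul_re, Complex.mul_im, Complex.I_re, Complex.I_im,
    Complex.cos_ofReal_re, Complex.sin_ofReal_re, Complex.sinh_ofReal_re, Complex.cosh_ofReal_re,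
    Complex.cos_ofReal_im, Complex.sin_ofReal_im, Complex.sinh_ofReal_im, Complex.cosh_ofReal_im]
  ring

theorem cos_im (z : ℂ) : (Complex.cos z).im = - (Real.sin z.re * Real.sinh z.im) := by
  rw [Complex.cos_eq]
  simp only [Complex.sub_re, Complex.sub_im, Complex.mul_re, Complex.mul_im, Complex.I_re, Complex.I_im,
    Complex.cos_ofReal_re, Complex.sin_ofReal_re, Complex.sinh_ofReal_re, Complex.cosh_ofReal_re,
    Complex.cos_ofReal_im, Complex.sin_ofReal_im, Complex.sinh_ofReal_im, Complex.cosh_ofReal_im]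
  ring

/-- general mean value lower bound -/
theorem mean_lower {f f' : ℂ → ℂ} {s : Set ℂ} (hs : Convex ℝ s)
    (hf : ∀ z ∈ s, HasDerivAt f (f' z) z) {c : ℂ} {m : ℝ}
    (hm : ∀ z ∈ s, m ≤ (c * f' z).re) {z w : ℂ} (hz : z ∈ s) (hw : w ∈ s) :
    m * ‖z - w‖ ^ 2 ≤ (c * (f z - f w) * (starRingEnd ℂ) (z - w)).re := by
  set g : ℝ → ℝ := fun t => (c * f (w + t * (z - w)) * (starRingEnd ℂ) (z - w)).re with hg
  set g' : ℝ → ℝ := fun t => (c * (f' (w + t * (z - w)) * (z - w)) * (starRingEnd ℂ) (z - w)).re with hg'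
  have hmem : ∀ t ∈ Icc (0:ℝ) 1, w + t * (z - w) ∈ s := by
    intro t ht
    have := hs hw hz (show 0 ≤ 1 - t by linarith [ht.2]) ht.1 (by ring)
    have e : (1 - t) • w + t • z = w + t * (z - w) := by
      rw [Complex.real_smul, Complex.real_smul]; push_cast; ring
    rwa [e] at this
  have hd : ∀ t ∈ Icc (0:ℝ) 1, HasDerivAt g (g' t) t := by
    intro t ht
    have h1 : HasDerivAt (fun t : ℝ => w + (t:ℂ) * (z - w)) (z - w) t := by
      have := ((hasDerivAt_id (t:ℂ)).comp_ofReal.mul_const (z - w)).const_add w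
      simpa using this
    have h2 : HasDerivAt (fun t : ℝ => f (w + (t:ℂ) * (z - w))) (f' (w + t * (z - w)) * (z - w)) t :=
      HasDerivAt.comp t (hf _ (hmem t ht)) h1
    have h3 : HasDerivAt (fun t : ℝ => c * f (w + (t:ℂ) * (z - w)) * (starRingEnd ℂ) (z - w))
      (c * (f' (w + t * (z - w)) * (z - w)) * (starRingEnd ℂ) (z - w)) t :=
      (h2.const_mul c).mul_const _
    exact (Complex.reCLM.hasFDerivAt.comp_hasDerivAt t h3)
  have hmv := exists_hasDerivAt_eq_slope g g' (zero_lt_one) (fun t ht => (hd t ht).continuousAt.continuousWithinAt)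
    (fun t ht => hd t (Ioo_subset_Icc_self ht))
  obtain ⟨t, ht, htt⟩ := hmv
  have h5 : g' t = (c * f' (w + t * (z - w))).re * ‖z - w‖ ^ 2 := by
    have : c * (f' (w + t * (z - w)) * (z - w)) * (starRingEnd ℂ) (z - w) =
      (c * f' (w + t * (z - w))) * ((‖z - w‖ ^ 2 : ℝ) : ℂ) := by
      have h6 := Complex.mul_conj' (z - w)
      push_cast
      rw [← h6]; ring
    simp only [hg']
    rw [this, Complex.re_mul_ofReal]
  have h7 : g 1 - g 0 = (c * (f z - f w) * (starRingEnd ℂ) (z - w)).re := by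
    simp only [hg]
    rw [← Complex.sub_re]
    congr 1
    push_cast
    have e1 : w + 1 * (z - w) = z := by ring
    have e0 : w + 0 * (z - w) = w := by ring
    rw [e1, e0]; ring
  rw [← h7]
  have h8 : g 1 - g 0 = g' t := by rw [htt]; ring
  rw [h8, h5]
  exact mul_le_mul_of_nonneg_right (hm _ (hmem t (Ioo_subset_Icc_self ht))) (by positivity)

theorem re_deriv (z : ℂ) : ((100:ℂ) * ((1 + Complex.I * Complex.cos z) / 100)).re =
    1 + Real.sin z.re * Real.sinh z.im := by
  have : (100:ℂ) * ((1 + Complex.I * Complex.cos z) / 100) = 1 + Complex.I * Complex.cos z := by ring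
  rw [this, Complex.add_re, Complex.one_re, Complex.mul_re, Complex.I_re, Complex.I_im, cos_im]
  ring

theorem re_deriv2 (c : ℝ) (z : ℂ) :
    (((-(100 * c) * Complex.I : ℂ)) * ((1 + Complex.I * Complex.cos z) / 100)).re =
    c * (Real.cos z.re * Real.cosh z.im) := by
  have : ((-(100 * c) * Complex.I : ℂ)) * ((1 + Complex.I * Complex.cos z) / 100) =
      (c:ℂ) * (Complex.cos z - Complex.I) := by
    have hI : Complex.I * Complex.I = -1 := Complex.I_mul_I
    linear_combination (-(c:ℂ) * Complex.cos z) * hI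
  rw [this, Complex.re_ofReal_mul, Complex.sub_re, Complex.I_re, cos_re]
  ring

theorem sin_sinh_ge {z : ℂ} {h s : ℝ} (hz : |z.im| ≤ h) (hs : Real.sinh h ≤ s) :
    -s ≤ Real.sin z.re * Real.sinh z.im := by
  have h1 := abs_sinh_le hz
  have h2 := Real.abs_sin_le_one z.re
  have h3 : |Real.sin z.re * Real.sinh z.im| ≤ 1 * Real.sinh h := by
    rw [abs_mul]
    exact mul_le_mul h2 h1 (abs_nonneg _) zero_le_one
  have h4 := neg_abs_le (Real.sin z.re * Real.sinh z.im)
  linarith

theorem phi_re_lower {z w : ℂ} (hz : z ∈ strip (1/2)) (hw : w ∈ strip (1/2)) :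
    0.47 * ‖z - w‖ ^ 2 ≤ (100 * (phi z - phi w) * (starRingEnd ℂ) (z - w)).re := by
  apply mean_lower (convex_strip (1/2)) (fun z _ => hasDerivAt_phi z) _ hz hw
  intro v hv
  rw [re_deriv]
  have := sin_sinh_ge hv sinh_half.le
  linarith

theorem phi_expand {z w : ℂ} (hz : z ∈ strip (1/2)) (hw : w ∈ strip (1/2)) :
    ‖z - w‖ / 250 ≤ ‖phi z - phi w‖ := by
  have h1 := phi_re_lower hz hw
  have h2 := Complex.re_le_norm (100 * (phi z - phi w) * (starRingEnd ℂ) (z - w))
  rw [norm_mul, norm_mul, RCLike.norm_conj] at h2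
  have h3 : ‖(100:ℂ)‖ = 100 := by simp
  rw [h3] at h2
  rcases eq_or_lt_of_le (norm_nonneg (z - w)) with h0 | h0
  · rw [← h0]; simp
  · have h4 : 0.47 * ‖z - w‖ ≤ 100 * ‖phi z - phi w‖ := by
      have : (0.47 * ‖z - w‖) * ‖z - w‖ ≤ (100 * ‖phi z - phi w‖) * ‖z - w‖ := by nlinarith
      exact le_of_mul_le_mul_right this h0
    linarith

theorem phi_maps {z : ℂ} (hz : z ∈ strip (1/2)) : phi z ∈ strip (1/50) := by
  simp only [strip, mem_ofPred_eq] at hz ⊢
  rw [phi_im]
  have h1 : Real.cosh z.im ≤ 1.13 := (cosh_le hz).trans cosh_half.le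
  have h2 : |Real.sin z.re * Real.cosh z.im| ≤ 1 * 1.13 := by
    rw [abs_mul, abs_of_pos (Real.cosh_pos _)]
    exact mul_le_mul (Real.abs_sin_le_one _) h1 (Real.cosh_pos _).le zero_le_one
  have h3 : |z.im + Real.sin z.re * Real.cosh z.im| ≤ 1/2 + 1 * 1.13 :=
    (abs_add_le _ _).trans (add_le_add hz h2)
  rw [abs_div, abs_of_pos (by norm_num : (0:ℝ) < 100), div_le_iff₀ (by norm_num)]
  linarith

theorem phi_maps' {z : ℂ} (hz : z ∈ strip (1/2)) : phi z ∈ strip (1/2) := by
  have := phi_maps hz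
  simp only [strip, mem_ofPred_eq] at this ⊢
  linarith

theorem norm_sin_le {z : ℂ} (hz : z ∈ strip (1/2)) : ‖Complex.sin z‖ ≤ 1.13 := by
  have h1 : Real.cosh z.im ≤ 1.13 := (cosh_le hz).trans cosh_half.le
  refine le_trans ?_ h1
  have h2 : ‖Complex.sin z‖ ^ 2 ≤ Real.cosh z.im ^ 2 := by
    rw [← Complex.normSq_eq_norm_sq, Complex.normSq_apply, Complex.sin_eq]
    simp only [Complex.add_re, Complex.mul_re, Complex.add_im, Complex.mul_im, Complex.I_re, Complex.I_im,
    Complex.cos_ofReal_re, Complex.sin_ofReal_re, Complex.sinh_ofReal_re, Complex.cosh_ofReal_re,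
    Complex.cos_ofReal_im, Complex.sin_ofReal_im, Complex.sinh_ofReal_im, Complex.cosh_ofReal_im]
    have e1 := Real.sin_sq_add_cos_sq z.re
    have e2 := Real.cosh_sq z.im
    nlinarith [sq_nonneg (Real.cos z.re), sq_nonneg (Real.sinh z.im), sq_nonneg (Real.sin z.re)]
  exact le_of_sq_le_sq h2 (Real.cosh_pos _).le

theorem norm_cos_le {z : ℂ} (hz : z ∈ strip (1/2)) : ‖Complex.cos z‖ ≤ 1.13 := by
  have h1 : Real.cosh z.im ≤ 1.13 := (cosh_le hz).trans cosh_half.le
  refine le_trans ?_ h1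
  have h2 : ‖Complex.cos z‖ ^ 2 ≤ Real.cosh z.im ^ 2 := by
    rw [← Complex.normSq_eq_norm_sq, Complex.normSq_apply, cos_re, cos_im]
    have e1 := Real.sin_sq_add_cos_sq z.re
    have e2 := Real.cosh_sq z.im
    nlinarith [sq_nonneg (Real.cos z.re), sq_nonneg (Real.sinh z.im), sq_nonneg (Real.sin z.re)]
  exact le_of_sq_le_sq h2 (Real.cosh_pos _).le

theorem phi_close {z : ℂ} (hz : z ∈ strip (1/2)) : ‖phi z - z / 100‖ ≤ 0.0113 := by
  have : phi z - z / 100 = (Complex.I * Complex.sin z) / 100 := by simp only [phi]; ring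
  rw [this, norm_div, norm_mul, Complex.norm_I, one_mul]
  have h3 : ‖(100:ℂ)‖ = 100 := by simp
  rw [h3, div_le_iff₀ (by norm_num)]
  have := norm_sin_le hz
  linarith

/-- distance from the vertical rays above the image of the upper part of the strip to the image of
the thin strip -/
theorem phi_dist {z w : ℂ} (hz : z ∈ strip (1/2)) (hz4 : 1/4 ≤ z.im) (hw : w ∈ strip (1/50))
    {t : ℝ} (ht : 0 ≤ t) : 1/1000 ≤ ‖phi z + t * Complex.I - phi w‖ := by
  have hw2 : w ∈ strip (1/2) := by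
    simp only [strip, mem_ofPred_eq] at hw ⊢; linarith
  have h1 := phi_re_lower hz hw2
  have hwim : w.im ≤ 1/50 := (abs_le.mp hw).2
  have hy : 0.23 ≤ (z - w).im := by rw [Complex.sub_im]; linarith
  have hzw : z - w ≠ 0 := by
    intro h
    rw [h] at hy; simp at hy; linarith
  set D : ℂ := 100 * (phi z - phi w) / (z - w) with hD
  have hnpos : 0 < ‖z - w‖ := norm_pos_iff.mpr hzw
  have hDre : 0.47 ≤ D.re := by
    have h2 : 100 * (phi z - phi w) * (starRingEnd ℂ) (z - w) = D * ((‖z - w‖ ^ 2 : ℝ) : ℂ) := by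
      push_cast
      rw [← Complex.mul_conj', hD]
      field_simp
    rw [h2, Complex.re_mul_ofReal] at h1
    have h3 : 0 < ‖z - w‖ ^ 2 := by positivity
    exact le_of_mul_le_mul_right h1 h3
  have hD0 : D ≠ 0 := by
    intro h; rw [h] at hDre; simp at hDre; linarith
  have hDn : 0.47 ≤ ‖D‖ := hDre.trans (Complex.re_le_norm D)
  set e : ℂ := 100 * (phi z + t * Complex.I - phi w) with he
  have h4 : e / D = (z - w) + (100 * t : ℝ) * (Complex.I / D) := by
    have h5 : D * (z - w) = 100 * (phi z - phi w) := by rw [hD]; field_simp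
    rw [div_eq_iff hD0, add_mul, mul_comm (z - w) D, h5, he]
    push_cast
    field_simp
    ring
  have h6 : (Complex.I / D).im = D.re / Complex.normSq D := by
    rw [Complex.div_im]; simp
  have h7 : 0.23 ≤ (e / D).im := by
    rw [h4, Complex.add_im, Complex.im_ofReal_mul, h6]
    have : 0 ≤ 100 * t * (D.re / Complex.normSq D) := by
      apply mul_nonneg (by linarith)
      exact div_nonneg (by linarith) (Complex.normSq_nonneg _)
    linarith
  have h8 : 0.23 ≤ ‖e‖ / ‖D‖ := by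
    rw [← norm_div]
    exact h7.trans ((le_abs_self _).trans (Complex.abs_im_le_norm _))
  rw [le_div_iff₀ (by linarith)] at h8
  have h9 : ‖e‖ = 100 * ‖phi z + t * Complex.I - phi w‖ := by
    rw [he, norm_mul]; simp
  rw [h9] at h8
  nlinarith

theorem hausdorff_expand {E : Set ℂ} {ψ : ℂ → ℂ} {c : ℝ} (hc : 0 ≤ c)
    (h : ∀ z ∈ E, ∀ w ∈ E, c * ‖z - w‖ ≤ ‖ψ z - ψ w‖) :
    ENNReal.ofReal c * μH[1] E ≤ μH[1] (ψ '' E) := by
  rcases eq_or_lt_of_le hc with h0 | h0
  · rw [← h0]; simp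
  classical
  have hinj : InjOn ψ E := by
    intro z hz w hw hzw
    have h1 := h z hz w hw
    rw [hzw, sub_self, norm_zero] at h1
    have h2 : ‖z - w‖ ≤ 0 := by
      by_contra hcon
      push Not at hcon
      nlinarith
    exact sub_eq_zero.mp (norm_le_zero_iff.mp h2)
  rcases E.eq_empty_or_nonempty with hE | ⟨z0, hz0⟩
  · rw [hE]; simp
  have : Nonempty ℂ := ⟨z0⟩
  set g := Function.invFunOn ψ E with hg
  have hgl : ∀ z ∈ E, g (ψ z) = z := fun z hz => hinj.leftInvOn_invFunOn hz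
  have hlip : LipschitzOnWith (Real.toNNReal c⁻¹) g (ψ '' E) := by
    apply LipschitzOnWith.of_dist_le_mul
    rintro _ ⟨z, hz, rfl⟩ _ ⟨w, hw, rfl⟩
    rw [hgl z hz, hgl w hw, dist_eq_norm, dist_eq_norm, Real.coe_toNNReal _ (by positivity)]
    have h1 := h z hz w hw
    rw [inv_mul_eq_div, le_div_iff₀ h0]
    linarith
  have h3 := hlip.hausdorffMeasure_image_le (d := 1) zero_le_one
  have h4 : g '' (ψ '' E) = E := by
    rw [image_image]
    ext z
    constructor
    · rintro ⟨w, hw, rfl⟩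
      change g (ψ w) ∈ E
      rw [hgl w hw]; exact hw
    · intro hz
      exact ⟨z, hz, hgl z hz⟩
  rw [h4, ENNReal.rpow_one] at h3
  calc ENNReal.ofReal c * μH[1] E ≤ ENNReal.ofReal c * (((Real.toNNReal c⁻¹ : NNReal) : ℝ≥0∞) * μH[1] (ψ '' E)) := by
        gcongr
    _ = μH[1] (ψ '' E) := by
        rw [← mul_assoc]
        have : ENNReal.ofReal c * ((Real.toNNReal c⁻¹ : NNReal) : ℝ≥0∞) = 1 := by
          change ENNReal.ofReal c * ENNReal.ofReal c⁻¹ = 1
          rw [← ENNReal.ofReal_mul hc, mul_inv_cancel₀ h0.ne', ENNReal.ofReal_one]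
        rw [this, one_mul]

/-- projection lower bound -/
theorem hausdorff_ge_interval {E : Set ℂ} {a b : ℝ} (h : ∀ x, a ≤ x → x ≤ b → ∃ z ∈ E, z.re = x) :
    ENNReal.ofReal (b - a) ≤ μH[1] E := by
  have hlip : LipschitzWith 1 (fun z : ℂ => z.re) := by
    apply LipschitzWith.of_dist_le_mul
    intro z w
    rw [Real.dist_eq, dist_eq_norm, NNReal.coe_one, one_mul, ← Complex.sub_re]
    exact Complex.abs_re_le_norm _
  have h5 : μH[1] ((fun z : ℂ => z.re) '' E) ≤ μH[1] E := by
    have := hlip.hausdorffMeasure_image_le (d := 1) zero_le_one E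
    simpa using this
  refine le_trans ?_ h5
  rw [hausdorffMeasure_real]
  calc ENNReal.ofReal (b - a) = volume (Icc a b) := by rw [Real.volume_Icc]
    _ ≤ _ := by
        apply measure_mono
        intro x hx
        obtain ⟨z, hz, hzx⟩ := h x hx.1 hx.2
        exact ⟨z, hz, hzx⟩

def slab (i : ℤ) : Set ℂ := {z | |z.re - i * (Real.pi / 2)| ≤ 0.78 ∧ |z.im| ≤ 1/50}

noncomputable def gain (i : ℤ) : ℝ := if Even i then 1.19 else 0.97

theorem slab_strip {i : ℤ} {z : ℂ} (hz : z ∈ slab i) : z ∈ strip (1/50) := hz.2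

theorem strip_mono {a b : ℝ} (h : a ≤ b) {z : ℂ} (hz : z ∈ strip a) : z ∈ strip b :=
  le_trans hz h

theorem convex_slab (i : ℤ) : Convex ℝ (slab i) := by
  have : slab i = (Complex.reLm ⁻¹' (Icc (i * (Real.pi / 2) - 0.78) (i * (Real.pi / 2) + 0.78))) ∩
      (Complex.imLm ⁻¹' (Icc (-(1/50)) (1/50))) := by
    ext z
    simp only [slab, mem_ofPred_eq, mem_inter_iff, mem_preimage, mem_Icc, Complex.reLm_coe, Complex.imLm_coe,
      abs_le]
    constructor
    · rintro ⟨⟨h1, h2⟩, h3⟩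
      exact ⟨⟨by linarith, by linarith⟩, h3⟩
    · rintro ⟨⟨h1, h2⟩, h3⟩
      exact ⟨⟨by linarith, by linarith⟩, h3⟩
  rw [this]
  exact ((convex_Icc _ _).linear_preimage _).inter ((convex_Icc _ _).linear_preimage _)

theorem sinh_fiftieth : Real.sinh (1/50) ≤ 0.03 := by
  rw [Real.sinh_eq]
  have h1 : 1 - 1/50 ≤ Real.exp (-(1/50)) := by
    have := Real.add_one_le_exp (-(1/50) : ℝ)
    linarith
  have h2 : Real.exp (1/50) * Real.exp (-(1/50)) = 1 := by rw [← Real.exp_add]; norm_num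
  have h3 := Real.exp_pos (1/50)
  have h4 := Real.exp_pos (-(1/50))
  nlinarith

theorem slab_expand {i : ℤ} {z w : ℂ} (hz : z ∈ slab i) (hw : w ∈ slab i) :
    gain i / 100 * ‖z - w‖ ≤ ‖phi z - phi w‖ := by
  have hA : 0.97 * ‖z - w‖ ^ 2 ≤ (100 * (phi z - phi w) * (starRingEnd ℂ) (z - w)).re := by
    apply mean_lower (convex_slab i) (fun z _ => hasDerivAt_phi z) _ hz hw
    intro v hv
    rw [re_deriv]
    have := sin_sinh_ge hv.2 sinh_fiftieth
    linarith
  have h3 : ‖(100:ℂ)‖ = 100 := by simp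
  set X : ℂ := 100 * (phi z - phi w) * (starRingEnd ℂ) (z - w) with hX
  have hXn : ‖X‖ = 100 * ‖phi z - phi w‖ * ‖z - w‖ := by
    rw [hX, norm_mul, norm_mul, RCLike.norm_conj, h3]
  rcases eq_or_lt_of_le (norm_nonneg (z - w)) with h0 | h0
  · rw [← h0, mul_zero]; exact norm_nonneg _
  by_cases hi : Even i
  · -- type A
    have hg : gain i = 1.19 := if_pos hi
    obtain ⟨l, hl⟩ := hi
    have hcosv : ∀ v ∈ slab i, 0.7 ≤ ((-1:ℝ) ^ l * Real.cos v.re) * 1 := by
      intro v hv
      set u := v.re - i * (Real.pi / 2) with hu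
      have h1 : v.re = u + l * Real.pi := by rw [hu, hl]; push_cast; ring
      have h2 : Real.cos v.re = (-1) ^ l * Real.cos u := by
        rw [h1, Real.cos_add_int_mul_pi]
      have h4 : ((-1:ℝ) ^ l) * ((-1:ℝ) ^ l) = 1 := by
        rw [← mul_zpow]; norm_num
      rw [h2, mul_one, ← mul_assoc, h4, one_mul]
      have hpi := Real.pi_gt_d4
      have h5 : |u| ≤ Real.pi / 4 := hv.1.trans (by linarith)
      have h6 : Real.cos (Real.pi / 4) ≤ Real.cos u := by
        rw [← Real.cos_abs u]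
        apply Real.cos_le_cos_of_nonneg_of_le_pi (abs_nonneg _) (by linarith [Real.pi_pos]) h5
      rw [Real.cos_pi_div_four] at h6
      have h7 : (1.4:ℝ) ≤ Real.sqrt 2 := by
        apply Real.le_sqrt_of_sq_le; norm_num
      linarith
    have hc1 : ((-1:ℝ) ^ l) ^ 2 = 1 := by
      rw [sq, ← mul_zpow]; norm_num
    set c : ℝ := (-1:ℝ) ^ l with hc
    have hB : 0.7 * ‖z - w‖ ^ 2 ≤ ((-(100 * c) * Complex.I : ℂ) * (phi z - phi w) * (starRingEnd ℂ) (z - w)).re := by
      apply mean_lower (convex_slab i) (fun z _ => hasDerivAt_phi z) _ hz hw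
      intro v hv
      rw [re_deriv2]
      have h1 := hcosv v hv
      have h2 := Real.one_le_cosh v.im
      have h4 : 0.7 ≤ c * Real.cos v.re := by linarith
      calc (0.7:ℝ) ≤ c * Real.cos v.re := h4
        _ = (c * Real.cos v.re) * 1 := by ring
        _ ≤ (c * Real.cos v.re) * Real.cosh v.im := by
            apply mul_le_mul_of_nonneg_left h2 (by linarith)
        _ = _ := by ring
    have hB2 : 0.7 * ‖z - w‖ ^ 2 ≤ c * X.im := by
      have : (-(100 * c) * Complex.I : ℂ) * (phi z - phi w) * (starRingEnd ℂ) (z - w) =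
        (c:ℂ) * (-Complex.I * X) := by rw [hX]; ring
      rw [this, Complex.re_ofReal_mul] at hB
      have h8 : (-Complex.I * X).re = X.im := by simp
      rwa [h8] at hB
    have h9 : ‖X‖ ^ 2 = X.re ^ 2 + X.im ^ 2 := by
      rw [← Complex.normSq_eq_norm_sq, Complex.normSq_apply]; ring
    have h10 : (1.19 * ‖z - w‖ ^ 2) ^ 2 ≤ ‖X‖ ^ 2 := by
      rw [h9]
      have h11 : (0.97 * ‖z - w‖ ^ 2) ^ 2 ≤ X.re ^ 2 := pow_le_pow_left₀ (by positivity) hA 2
      have h12 : (0.7 * ‖z - w‖ ^ 2) ^ 2 ≤ (c * X.im) ^ 2 := pow_le_pow_left₀ (by positivity) hB2 2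
      rw [mul_pow c, hc1, one_mul] at h12
      have h13 : 0 ≤ (‖z - w‖ ^ 2) ^ 2 := by positivity
      nlinarith
    have h11 : 1.19 * ‖z - w‖ ^ 2 ≤ ‖X‖ := le_of_sq_le_sq h10 (norm_nonneg _)
    rw [hXn] at h11
    rw [hg]
    have h12 : (1.19 * ‖z - w‖) * ‖z - w‖ ≤ (100 * ‖phi z - phi w‖) * ‖z - w‖ := by
      nlinarith
    have := le_of_mul_le_mul_right h12 h0
    linarith
  · have hg : gain i = 0.97 := if_neg hi
    rw [hg]
    have h2 := Complex.re_le_norm X
    rw [hXn] at h2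
    have h12 : (0.97 * ‖z - w‖) * ‖z - w‖ ≤ (100 * ‖phi z - phi w‖) * ‖z - w‖ := by
      nlinarith
    have := le_of_mul_le_mul_right h12 h0
    linarith

theorem gain_nonneg (i : ℤ) : 0 ≤ gain i := by
  unfold gain; split_ifs <;> norm_num

theorem slab_child {i r : ℤ} (hr : |r| ≤ 49) {z : ℂ} (hz : z ∈ slab (100 * i + r)) :
    phi z ∈ slab i := by
  obtain ⟨h1, h2⟩ := hz
  have hpi := Real.pi_lt_d4
  have hpi0 := Real.pi_pos
  refine ⟨?_, phi_maps (strip_mono (by norm_num) (show z ∈ strip (1/50) from h2))⟩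
  rw [phi_re]
  have e : (z.re - Real.cos z.re * Real.sinh z.im) / 100 - i * (Real.pi / 2) =
    (z.re - ((100 * i + r : ℤ) : ℝ) * (Real.pi / 2)) / 100 + (r * (Real.pi / 200)) -
      Real.cos z.re * Real.sinh z.im / 100 := by
    push_cast; ring
  rw [e]
  have h3 : |Real.cos z.re * Real.sinh z.im| ≤ 1 * 0.03 := by
    rw [abs_mul]
    exact mul_le_mul (Real.abs_cos_le_one _) ((abs_sinh_le h2).trans sinh_fiftieth) (abs_nonneg _) zero_le_one
  have hr' : |(r:ℝ)| ≤ 49 := by exact_mod_cast hr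
  rw [abs_le] at h1 h3 hr' ⊢
  constructor
  · nlinarith
  · nlinarith

theorem sum_gain (i : ℤ) : ∑ r ∈ Finset.Icc (-49:ℤ) 49, gain (100 * i + r) = 106.81 := by
  have h1 : ∀ r : ℤ, gain (100 * i + r) = if Even r then 1.19 else 0.97 := by
    intro r
    have : Even (100 * i + r) ↔ Even r := by
      have h100 : Even (100 * i) := ⟨50 * i, by ring⟩
      rw [Int.even_add]
      simp [h100]
    simp only [gain, this]
  simp only [h1]
  rw [Finset.sum_ite]
  simp only [Finset.sum_const, nsmul_eq_mul]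
  have e1 : (Finset.filter (fun r : ℤ => Even r) (Finset.Icc (-49) 49)).card = 49 := by decide +kernel
  have e2 : (Finset.filter (fun r : ℤ => ¬ Even r) (Finset.Icc (-49) 49)).card = 50 := by decide +kernel
  rw [e1, e2]
  norm_num

/-- the block of the strip corresponding to the slab `i`, at depth `k` -/
def blk (k : ℕ) (i : ℤ) : Set ℂ := {z | |z.re - (100:ℝ) ^ k * (i * (Real.pi / 2))| ≤ (100:ℝ) ^ k * 0.78}

theorem isClosed_blk (k : ℕ) (i : ℤ) : IsClosed (blk k i) :=
  isClosed_le ((Complex.continuous_re.sub continuous_const).abs) continuous_const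

theorem blk_disjoint {k : ℕ} {i j : ℤ} (hij : i ≠ j) {z : ℂ} (h1 : z ∈ blk k i) (h2 : z ∈ blk k j) :
    False := by
  simp only [blk, mem_ofPred_eq] at h1 h2
  set p : ℝ := (100:ℝ) ^ k with hp
  have hp0 : 0 < p := by positivity
  have hpi := Real.pi_gt_d4
  have h3 : p * (|(i:ℝ) - j| * (Real.pi / 2)) ≤ p * 1.56 := by
    have h4 : |(p * (i * (Real.pi / 2))) - (p * (j * (Real.pi / 2)))| ≤ p * 0.78 + p * 0.78 := by
      have : p * (i * (Real.pi / 2)) - (p * (j * (Real.pi / 2))) =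
        (z.re - p * (j * (Real.pi / 2))) - (z.re - p * (i * (Real.pi / 2))) := by ring
      rw [this]
      refine (abs_sub _ _).trans ?_
      linarith
    have h5 : p * (i * (Real.pi / 2)) - (p * (j * (Real.pi / 2))) = p * (((i:ℝ) - j) * (Real.pi / 2)) := by ring
    rw [h5, abs_mul, abs_mul, abs_of_pos hp0, abs_of_pos (by positivity : 0 < Real.pi / 2)] at h4
    linarith
  have h6 : |(i:ℝ) - j| * (Real.pi / 2) ≤ 1.56 := le_of_mul_le_mul_left h3 hp0
  have h7 : (1:ℝ) ≤ |(i:ℝ) - j| := by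
    have : 1 ≤ |i - j| := Int.one_le_abs (sub_ne_zero.mpr hij)
    exact_mod_cast this
  nlinarith

theorem blk_child {k : ℕ} {i r : ℤ} (hr : |r| ≤ 49) {x : ℝ}
    (hz : |x - (100:ℝ) ^ k * ((100 * i + r : ℤ) * (Real.pi / 2))| ≤ (100:ℝ) ^ k * 0.78) :
    |x - (100:ℝ) ^ (k+1) * (i * (Real.pi / 2))| ≤ (100:ℝ) ^ (k+1) * 0.78 := by
  set p : ℝ := (100:ℝ) ^ k with hp
  have hp0 : 0 < p := by positivity
  have hpi := Real.pi_lt_d4
  have hr' : |(r:ℝ)| ≤ 49 := by exact_mod_cast hr
  have e : x - (100:ℝ) ^ (k+1) * (i * (Real.pi / 2)) =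
    (x - p * ((100 * i + r : ℤ) * (Real.pi / 2))) + p * (r * (Real.pi / 2)) := by
    rw [pow_succ]; push_cast; ring
  rw [e]
  refine (abs_add_le _ _).trans ?_
  rw [abs_mul, abs_mul, abs_of_pos hp0, abs_of_pos (by positivity : 0 < Real.pi / 2), pow_succ]
  have h1 : |(r:ℝ)| * (Real.pi / 2) ≤ 77 := by nlinarith [abs_nonneg (r:ℝ)]
  have h2 : p * (|(r:ℝ)| * (Real.pi / 2)) ≤ p * 77 := mul_le_mul_of_nonneg_left h1 hp0.le
  rw [← hp]
  nlinarith

theorem phi_injOn : InjOn phi (strip (1/2)) := by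
  intro z hz w hw h
  have h1 := phi_expand hz hw
  rw [h, sub_self, norm_zero] at h1
  have h2 : ‖z - w‖ ≤ 0 := by linarith
  exact sub_eq_zero.mp (norm_le_zero_iff.mp h2)

theorem iter_mem {k : ℕ} {z : ℂ} (hz : z ∈ strip (1/50)) : phi^[k] z ∈ strip (1/50) := by
  induction k with
  | zero => exact hz
  | succ k ih =>
    rw [Function.iterate_succ_apply']
    exact phi_maps (strip_mono (by norm_num) ih)

theorem iter_mem' {k : ℕ} {z : ℂ} (hz : z ∈ strip (1/2)) : phi^[k] z ∈ strip (1/2) := by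
  induction k with
  | zero => exact hz
  | succ k ih =>
    rw [Function.iterate_succ_apply']
    exact phi_maps' ih

theorem iter_injOn (k : ℕ) : InjOn (phi^[k]) (strip (1/2)) := by
  induction k with
  | zero => exact fun z _ w _ h => h
  | succ k ih =>
    intro z hz w hw h
    rw [Function.iterate_succ_apply', Function.iterate_succ_apply'] at h
    exact ih hz hw (phi_injOn (iter_mem' hz) (iter_mem' hw) h)

theorem length_ind (k : ℕ) : ∀ (i : ℤ) (ψ : ℂ → ℂ) (c : ℝ) (_ : 0 ≤ c)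
    (_ : ∀ z ∈ slab i, ∀ w ∈ slab i, c * ‖z - w‖ ≤ ‖ψ z - ψ w‖)
    (_ : ContinuousOn ψ (strip (1/50))) (_ : InjOn ψ (strip (1/50)))
    (β : Set ℂ) (_ : IsCompact β) (_ : β ⊆ strip (1/50))
    (_ : ∀ x : ℝ, |x - (100:ℝ) ^ k * (i * (Real.pi / 2))| ≤ (100:ℝ) ^ k * 0.78 → ∃ z ∈ β, z.re = x),
    ENNReal.ofReal (1.56 * c * 1.068 ^ k) ≤ μH[1] ((fun z => ψ (phi^[k] z)) '' (β ∩ blk k i)) := by
  induction k with
  | zero =>
    intro i ψ c hc hψ _ _ β _ hβs hcross
    have h1 := hausdorff_expand (E := β ∩ blk 0 i) hc (ψ := ψ) (by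
      intro z hz w hw
      apply hψ
      · refine ⟨?_, hβs hz.1⟩
        have := hz.2
        simpa [blk] using this
      · refine ⟨?_, hβs hw.1⟩
        have := hw.2
        simpa [blk] using this)
    have h2 : ENNReal.ofReal (1.56) ≤ μH[1] (β ∩ blk 0 i) := by
      have := hausdorff_ge_interval (E := β ∩ blk 0 i) (a := i * (Real.pi / 2) - 0.78)
        (b := i * (Real.pi / 2) + 0.78) (by
          intro x hx1 hx2
          have hx : |x - (100:ℝ) ^ 0 * (i * (Real.pi / 2))| ≤ (100:ℝ) ^ 0 * 0.78 := by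
            rw [pow_zero, one_mul, one_mul, abs_le]
            constructor <;> linarith
          obtain ⟨z, hz, hzx⟩ := hcross x hx
          refine ⟨z, ⟨hz, ?_⟩, hzx⟩
          simp only [blk, mem_ofPred_eq]
          rw [hzx]; exact hx)
      refine le_trans (le_of_eq ?_) this
      congr 1; ring
    refine le_trans ?_ (le_trans (mul_le_mul_right h2 (ENNReal.ofReal c)) h1)
    rw [← ENNReal.ofReal_mul hc, pow_zero, mul_one]
    apply le_of_eq
    congr 1; ring
  | succ k ih =>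
    intro i ψ c hc hψ hcont hinj β hβ hβs hcross
    set A : ℤ → Set ℂ := fun r => (fun z => ψ (phi (phi^[k] z))) '' (β ∩ blk k (100 * i + r)) with hA
    have hstrip : ∀ {z : ℂ}, z ∈ strip (1/50) → z ∈ strip (1/2) := fun hz => strip_mono (by norm_num) hz
    have hψφc : ContinuousOn (fun z => ψ (phi z)) (strip (1/50)) := by
      apply hcont.comp continuous_phi.continuousOn
      intro z hz
      exact phi_maps (hstrip hz)
    have hψφi : InjOn (fun z => ψ (phi z)) (strip (1/50)) := by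
      intro z hz w hw h
      exact phi_injOn (hstrip hz) (hstrip hw) (hinj (phi_maps (hstrip hz)) (phi_maps (hstrip hw)) h)
    have hlow : ∀ r ∈ Finset.Icc (-49:ℤ) 49,
        ENNReal.ofReal (1.56 * (c * (gain (100 * i + r) / 100)) * 1.068 ^ k) ≤ μH[1] (A r) := by
      intro r hr
      rw [Finset.mem_Icc] at hr
      have hr' : |r| ≤ 49 := abs_le.mpr hr
      apply ih (100 * i + r) (fun z => ψ (phi z)) (c * (gain (100 * i + r) / 100))
      · have := gain_nonneg (100 * i + r)
        positivity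
      · intro z hz w hw
        have h1 := slab_expand hz hw
        have h2 := hψ _ (slab_child hr' hz) _ (slab_child hr' hw)
        calc c * (gain (100 * i + r) / 100) * ‖z - w‖ = c * (gain (100 * i + r) / 100 * ‖z - w‖) := by ring
          _ ≤ c * ‖phi z - phi w‖ := mul_le_mul_of_nonneg_left h1 hc
          _ ≤ _ := h2
      · exact hψφc
      · exact hψφi
      · exact hβ
      · exact hβs
      · intro x hx
        exact hcross x (blk_child hr' hx)
    have hcomp : ∀ r, IsCompact (A r) := by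
      intro r
      apply (hβ.inter_right (isClosed_blk k _)).image_of_continuousOn
      have h1 : ContinuousOn (phi^[k]) (β ∩ blk k (100 * i + r)) := (continuous_phi.iterate k).continuousOn
      exact hψφc.comp h1 (fun z hz => iter_mem (hβs hz.1))
    have hdisj : ∀ r s : ℤ, r ≠ s → Disjoint (A r) (A s) := by
      intro r s hrs
      rw [Set.disjoint_left]
      rintro _ ⟨z, hz, rfl⟩ ⟨w, hw, hzw⟩
      have h1 := hψφi (iter_mem (hβs hw.1)) (iter_mem (hβs hz.1)) hzw
      have h2 : w = z := iter_injOn k (hstrip (hβs hw.1)) (hstrip (hβs hz.1)) h1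
      rw [h2] at hw
      exact blk_disjoint (fun h => hrs (by omega)) hz.2 hw.2
    have hsub : (⋃ r ∈ Finset.Icc (-49:ℤ) 49, A r) ⊆ (fun z => ψ (phi^[k+1] z)) '' (β ∩ blk (k+1) i) := by
      intro y hy
      simp only [mem_iUnion] at hy
      obtain ⟨r, hr, z, hz, rfl⟩ := hy
      rw [Finset.mem_Icc] at hr
      refine ⟨z, ⟨hz.1, blk_child (abs_le.mpr hr) hz.2⟩, ?_⟩
      change ψ (phi^[k+1] z) = ψ (phi (phi^[k] z))
      rw [Function.iterate_succ_apply']
    refine le_trans ?_ (measure_mono hsub)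
    rw [measure_biUnion_finset (fun r _ s _ hrs => hdisj r s hrs) (fun r _ => (hcomp r).measurableSet)]
    refine le_trans ?_ (Finset.sum_le_sum hlow)
    rw [← ENNReal.ofReal_sum_of_nonneg (by
      intro r _
      have := gain_nonneg (100 * i + r)
      positivity)]
    apply ENNReal.ofReal_le_ofReal
    have : ∑ r ∈ Finset.Icc (-49:ℤ) 49, 1.56 * (c * (gain (100 * i + r) / 100)) * 1.068 ^ k =
      (1.56 * c * 1.068 ^ k / 100) * ∑ r ∈ Finset.Icc (-49:ℤ) 49, gain (100 * i + r) := by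
      rw [Finset.mul_sum]
      apply Finset.sum_congr rfl
      intro r _
      ring
    rw [this, sum_gain, pow_succ]
    have h3 : (0:ℝ) ≤ c * 1.068 ^ k := by positivity
    nlinarith

theorem iter_expand (k : ℕ) {z w : ℂ} (hz : z ∈ strip (1/2)) (hw : w ∈ strip (1/2)) :
    ‖z - w‖ / 250 ^ k ≤ ‖phi^[k] z - phi^[k] w‖ := by
  induction k with
  | zero => simp
  | succ k ih =>
    rw [Function.iterate_succ_apply', Function.iterate_succ_apply']
    refine le_trans ?_ (phi_expand (iter_mem' hz) (iter_mem' hw))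
    rw [pow_succ, ← div_div]
    gcongr

theorem iter_close (k : ℕ) : ∀ {z : ℂ}, z ∈ strip (1/2) →
    ‖phi^[k] z - z / 100 ^ k‖ ≤ 0.012 * (1 - (1/100) ^ k) := by
  induction k with
  | zero => intro z _; simp
  | succ k ih =>
    intro z hz
    rw [Function.iterate_succ_apply]
    have h1 := ih (phi_maps' hz)
    have h2 := phi_close hz
    have e : phi^[k] (phi z) - z / 100 ^ (k+1) =
      (phi^[k] (phi z) - phi z / 100 ^ k) + (phi z - z / 100) / 100 ^ k := by
      rw [pow_succ]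
      field_simp
      ring
    rw [e]
    refine (norm_add_le _ _).trans ?_
    have h3 : ‖(phi z - z / 100) / 100 ^ k‖ ≤ 0.0113 * (1/100) ^ k := by
      rw [norm_div, norm_pow]
      have : ‖(100:ℂ)‖ = 100 := by simp
      rw [this, one_div, inv_pow, div_eq_mul_inv]
      gcongr
    have h4 : (0:ℝ) < (1/100) ^ k := by positivity
    rw [pow_succ]
    nlinarith

theorem iter_close' (k : ℕ) {z : ℂ} (hz : z ∈ strip (1/2)) :
    ‖phi^[k] z - z / 100 ^ k‖ ≤ 1/50 := by
  have h1 := iter_close k hz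
  have h4 : (0:ℝ) < (1/100) ^ k := by positivity
  nlinarith

theorem differentiable_iter (k : ℕ) : Differentiable ℂ (phi^[k]) :=
  differentiable_phi.iterate k

theorem iter_deriv (k : ℕ) : ∀ {z : ℂ}, z ∈ strip (1/2) →
    ‖deriv (phi^[k]) z‖ ≤ 1 ∧ deriv (phi^[k]) z ≠ 0 := by
  induction k with
  | zero => intro z _; simp
  | succ k ih =>
    intro z hz
    have h1 := ih (phi_maps' hz)
    have h2 : HasDerivAt (phi^[k] ∘ phi) (deriv (phi^[k]) (phi z) * ((1 + Complex.I * Complex.cos z) / 100)) z :=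
      HasDerivAt.comp z (differentiable_iter k (phi z)).hasDerivAt (hasDerivAt_phi z)
    rw [Function.iterate_succ, h2.deriv]
    have h3 : (0.47:ℝ) ≤ (1 + Complex.I * Complex.cos z).re := by
      have h4 := re_deriv z
      have e : (100:ℂ) * ((1 + Complex.I * Complex.cos z) / 100) = 1 + Complex.I * Complex.cos z := by ring
      rw [e] at h4
      rw [h4]
      have := sin_sinh_ge hz sinh_half.le
      linarith
    have h5 : (1 + Complex.I * Complex.cos z) ≠ 0 := by
      intro h; rw [h] at h3; norm_num at h3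
    constructor
    · rw [norm_mul, norm_div]
      have : ‖(100:ℂ)‖ = 100 := by simp
      rw [this]
      have h6 : ‖1 + Complex.I * Complex.cos z‖ ≤ 1 + 1.13 := by
        refine (norm_add_le _ _).trans ?_
        rw [norm_mul, Complex.norm_I, one_mul, norm_one]
        have := norm_cos_le hz
        linarith
      have h7 : ‖1 + Complex.I * Complex.cos z‖ / 100 ≤ 1 := by
        rw [div_le_one (by norm_num)]; linarith
      exact mul_le_one₀ h1.1 (by positivity) h7
    · apply mul_ne_zero h1.2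
      exact div_ne_zero h5 (by norm_num)

theorem step_prop_up {Z : Set ℂ} (hZ : Z ⊆ strip (1/50)) (hZc : IsCompact Z) {G : ℂ → ℂ}
    (hG : DifferentiableOn ℂ G ({w | |w.im| < 1/2} \ (phi '' Z))) {ε : ℝ} (hε0 : 0 ≤ ε) (hε1 : ε ≤ 1)
    (hb : ∀ w, |w.im| < 1/2 → (∀ z ∈ Z, 1/4000 ≤ ‖w - phi z‖) → ‖G w‖ ≤ 1)
    (hs : ∀ w : ℂ, 1/4 ≤ |w.im| → |w.im| < 1/2 → ‖G w‖ ≤ ε) {z : ℂ} (hz1 : 1/4 ≤ z.im)
    (hz2 : z.im < 1/2) : ‖G (phi z)‖ ≤ ε ^ (((1:ℝ)/3) ^ 1400) := by
  have hzs : z ∈ strip (1/2) := by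
    rw [strip, mem_ofPred_eq, abs_of_nonneg (by linarith)]; linarith
  have hU : IsOpen ({w : ℂ | |w.im| < 1/2} \ (phi '' Z)) := by
    apply IsOpen.sdiff
    · exact isOpen_lt Complex.continuous_im.abs continuous_const
    · exact (hZc.image continuous_phi).isClosed
  have hphim : |(phi z).im| ≤ 1/50 := phi_maps hzs
  set q : ℕ → ℂ := fun j => phi z + ((0.35 - j * (1/4000) : ℝ) : ℂ) * Complex.I with hq
  have hqim : ∀ j, (q j).im = (phi z).im + (0.35 - j * (1/4000)) := by
    intro j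
    simp only [hq]
    rw [Complex.add_im, Complex.im_ofReal_mul, Complex.I_im, mul_one]
  have hj : ∀ j : ℕ, j ≤ 1400 → 0 ≤ (0.35 - (j:ℝ) * (1/4000)) := by
    intro j hj
    have : (j:ℝ) ≤ 1400 := by exact_mod_cast hj
    linarith
  have himball : ∀ j : ℕ, j ≤ 1400 → ∀ r : ℝ, ∀ w ∈ closedBall (q j) r, (q j).im - r ≤ w.im ∧ w.im ≤ (q j).im + r := by
    intro j _ r w hw
    rw [mem_closedBall, dist_eq_norm] at hw
    have h1 := Complex.abs_im_le_norm (w - q j)
    rw [Complex.sub_im] at h1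
    have h2 := abs_le.mp (h1.trans hw)
    constructor <;> linarith [h2.1, h2.2]
  have him : ∀ j : ℕ, j ≤ 1400 → ∀ w ∈ closedBall (q j) (3 * (1/4000)), |w.im| < 1/2 := by
    intro j hj' w hw
    have h1 := himball j hj' _ w hw
    have h2 := hj j hj'
    have h3 := abs_le.mp hphim
    rw [hqim] at h1
    have h4 : (0:ℝ) ≤ (j:ℝ) * (1/4000) := by positivity
    rw [abs_lt]
    constructor <;> linarith [h1.1, h1.2, h3.1, h3.2]
  have hdist : ∀ j : ℕ, j ≤ 1400 → ∀ w ∈ closedBall (q j) (3 * (1/4000)), ∀ v ∈ Z, 1/4000 ≤ ‖w - phi v‖ := by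
    intro j hj' w hw v hv
    have h1 := phi_dist hzs hz1 (hZ hv) (hj j hj')
    rw [mem_closedBall, dist_eq_norm] at hw
    have h2 : ‖q j - phi v‖ ≤ ‖w - phi v‖ + ‖w - q j‖ := by
      have : q j - phi v = (w - phi v) - (w - q j) := by ring
      rw [this]; exact norm_sub_le _ _
    have h3 : 1/1000 ≤ ‖q j - phi v‖ := h1
    linarith
  have hsub : ∀ j : ℕ, j ≤ 1400 → closedBall (q j) (3 * (1/4000)) ⊆ ({w : ℂ | |w.im| < 1/2} \ (phi '' Z)) := by
    intro j hj' w hw
    refine ⟨him j hj' w hw, ?_⟩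
    rintro ⟨v, hv, rfl⟩
    have := hdist j hj' _ hw v hv
    rw [sub_self, norm_zero] at this
    norm_num at this
  have h := chain hU hG (d := 1/4000) (by norm_num) 1400 hsub (by
      intro j _
      have : q (j+1) - q j = ((-(1/4000) : ℝ) : ℂ) * Complex.I := by
        simp only [hq]; push_cast; ring
      rw [this, norm_mul, Complex.norm_I, Complex.norm_real]
      norm_num)
    (fun j hj' w hw => hb w (him j hj' w hw) (hdist j hj' w hw)) hε0 hε1 (by
      intro w hw
      have h1 := himball 0 (by norm_num) _ w hw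
      rw [hqim] at h1
      have h3 := abs_le.mp hphim
      have h4 : 0 ≤ w.im := by norm_num at h1; linarith [h1.1, h3.1]
      apply hs
      · rw [abs_of_nonneg h4]; norm_num at h1; linarith [h1.1, h3.1]
      · rw [abs_of_nonneg h4]; norm_num at h1; linarith [h1.2, h3.2]) 1400 le_rfl (phi z) (by
      have : q 1400 = phi z := by
        simp only [hq]; norm_num
      rw [this]
      exact mem_closedBall_self (by norm_num))
  exact h

theorem step_prop {Z : Set ℂ} (hZ : Z ⊆ strip (1/50)) (hZc : IsCompact Z) {G : ℂ → ℂ}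
    (hG : DifferentiableOn ℂ G ({w | |w.im| < 1/2} \ (phi '' Z))) {ε : ℝ} (hε0 : 0 ≤ ε) (hε1 : ε ≤ 1)
    (hb : ∀ w, |w.im| < 1/2 → (∀ z ∈ Z, 1/4000 ≤ ‖w - phi z‖) → ‖G w‖ ≤ 1)
    (hs : ∀ w : ℂ, 1/4 ≤ |w.im| → |w.im| < 1/2 → ‖G w‖ ≤ ε) {z : ℂ} (hz1 : 1/4 ≤ |z.im|)
    (hz2 : |z.im| < 1/2) : ‖G (phi z)‖ ≤ ε ^ (((1:ℝ)/3) ^ 1400) := by
  rcases le_or_gt 0 z.im with h0 | h0
  · rw [abs_of_nonneg h0] at hz1 hz2
    exact step_prop_up hZ hZc hG hε0 hε1 hb hs hz1 hz2
  · rw [abs_of_neg h0] at hz1 hz2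
    have hneg : ∀ w, w ∈ phi '' ((fun z => -z) '' Z) ↔ -w ∈ phi '' Z := by
      intro w
      constructor
      · rintro ⟨_, ⟨v, hv, rfl⟩, rfl⟩
        refine ⟨v, hv, ?_⟩
        rw [phi_neg, neg_neg]
      · rintro ⟨v, hv, hvw⟩
        refine ⟨-v, ⟨v, hv, rfl⟩, ?_⟩
        rw [phi_neg, hvw, neg_neg]
    have := step_prop_up (Z := (fun z => -z) '' Z) (G := fun w => G (-w)) (ε := ε) (z := -z)
      (by
        rintro _ ⟨v, hv, rfl⟩
        have := hZ hv
        simpa [strip] using this)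
      (hZc.image continuous_neg)
      (by
        intro w hw
        have hw2 : -w ∉ phi '' Z := fun h => hw.2 ((hneg w).mpr h)
        have h1 : DifferentiableWithinAt ℂ G ({w | |w.im| < 1/2} \ (phi '' Z)) (-w) := by
          apply hG
          refine ⟨?_, hw2⟩
          have := hw.1
          simpa using this
        apply DifferentiableWithinAt.comp w h1 (differentiable_neg.differentiableAt.differentiableWithinAt)
        intro v hv
        refine ⟨?_, fun h => hv.2 ((hneg v).mpr h)⟩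
        have := hv.1
        simpa using this)
      hε0 hε1
      (by
        intro w hw1 hw2
        apply hb
        · simpa using hw1
        · intro v hv
          have := hw2 (-v) ⟨v, hv, rfl⟩
          rw [phi_neg] at this
          have e : -w - phi v = -(w - -phi v) := by ring
          rw [e, norm_neg]
          exact this)
      (by
        intro w hw1 hw2
        apply hs
        · simpa using hw1
        · simpa using hw2)
      (by simpa using hz1) (by simpa using hz2)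
    simpa [phi_neg] using this

theorem base_prop {K : Set ℂ} (hK : K ⊆ strip (1/50)) (hKc : IsCompact K) {F : ℂ → ℂ} {n : ℕ}
    (hF : DifferentiableOn ℂ F Kᶜ)
    (hFb : ∀ w ∉ K, ∀ δ > 0, (∀ z ∈ K, δ ≤ ‖w - z‖) → ‖F w‖ ≤ δ⁻¹)
    (hFinf : ∀ w, 2 ≤ ‖w‖ → ‖F w‖ ≤ (1/2) ^ n) {w : ℂ} (hw : 1/4 ≤ |w.im|) :
    ‖F w‖ ≤ 20 * (((1/2:ℝ) ^ n) ^ (((1:ℝ)/3) ^ 100)) := by
  have hp0 : (0:ℝ) < (1/2) ^ n := by positivity
  have hp1 : (1/2:ℝ) ^ n ≤ 1 := pow_le_one₀ (by norm_num) (by norm_num)
  have hple : (1/2:ℝ) ^ n ≤ ((1/2:ℝ) ^ n) ^ (((1:ℝ)/3) ^ 100) := by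
    calc (1/2:ℝ) ^ n = ((1/2:ℝ) ^ n) ^ (1:ℝ) := (Real.rpow_one _).symm
      _ ≤ _ := Real.rpow_le_rpow_of_exponent_ge hp0 hp1 (pow_le_one₀ (by norm_num) (by norm_num))
  have hpn : 0 ≤ ((1/2:ℝ) ^ n) ^ (((1:ℝ)/3) ^ 100) := Real.rpow_nonneg hp0.le _
  rcases le_or_gt 2 ‖w‖ with h2 | h2
  · refine (hFinf w h2).trans (hple.trans ?_)
    linarith
  set q : ℕ → ℂ := fun j => w + ((5 - j * (1/20) : ℝ) : ℂ) with hq
  have hqim : ∀ j, (q j).im = w.im := by intro j; simp [hq]
  have hdist : ∀ j : ℕ, j ≤ 100 → ∀ v ∈ closedBall (q j) (3 * (1/20)), ∀ z ∈ K, 1/20 ≤ ‖v - z‖ := by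
    intro j _ v hv z hz
    rw [mem_closedBall, dist_eq_norm] at hv
    have h1 := Complex.abs_im_le_norm (v - q j)
    have h3 := Complex.abs_im_le_norm (v - z)
    have h4 : |z.im| ≤ 1/50 := hK hz
    rw [Complex.sub_im, hqim] at h1
    rw [Complex.sub_im] at h3
    have h5 : |w.im| ≤ |v.im - z.im| + |v.im - w.im| + |z.im| := by
      have e : w.im = (v.im - z.im) - (v.im - w.im) + z.im := by ring
      calc |w.im| = |(v.im - z.im) - (v.im - w.im) + z.im| := by rw [← e]
        _ ≤ |(v.im - z.im) - (v.im - w.im)| + |z.im| := abs_add_le _ _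
        _ ≤ _ := by gcongr; exact abs_sub _ _
    linarith
  have hsub : ∀ j : ℕ, j ≤ 100 → closedBall (q j) (3 * (1/20)) ⊆ Kᶜ := by
    intro j hj v hv hvK
    have := hdist j hj v hv v hvK
    rw [sub_self, norm_zero] at this
    norm_num at this
  set G : ℂ → ℂ := fun v => ((1/20 : ℝ) : ℂ) * F v with hG
  have hGn : ∀ v, ‖G v‖ = (1/20) * ‖F v‖ := by
    intro v
    simp only [hG]
    rw [norm_mul, Complex.norm_real, Real.norm_eq_abs, abs_of_pos (by norm_num)]
  have h := chain hKc.isClosed.isOpen_compl (hF.const_mul _ : DifferentiableOn ℂ G Kᶜ) (d := 1/20) (by norm_num) 100 hsub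
    (by
      intro j _
      have : q (j+1) - q j = ((-(1/20) : ℝ) : ℂ) := by
        simp only [hq]; push_cast; ring
      rw [this, Complex.norm_real]
      norm_num)
    (by
      intro j hj v hv
      rw [hGn]
      have h1 := hFb v (hsub j hj hv) (1/20) (by norm_num) (hdist j hj v hv)
      norm_num at h1
      linarith)
    (hp0.le) hp1
    (by
      intro v hv
      rw [hGn]
      rw [mem_closedBall, dist_eq_norm] at hv
      have h3 : 2 ≤ ‖v‖ := by
        have e : (5:ℂ) = v - (v - q 0) - w := by simp [hq]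
        have h4 : ‖(5:ℂ)‖ ≤ ‖v‖ + ‖v - q 0‖ + ‖w‖ := by
          rw [e]
          exact (norm_sub_le _ _).trans (by gcongr; exact norm_sub_le _ _)
        have h5 : ‖(5:ℂ)‖ = 5 := by simp
        rw [h5] at h4
        linarith
      have := hFinf v h3
      linarith)
    100 le_rfl w (by
      have : q 100 = w := by simp only [hq]; norm_num
      rw [this]
      exact mem_closedBall_self (by norm_num))
  rw [hGn] at h
  linarith

theorem main_prop (k n : ℕ) {Z : Set ℂ} (hZ : Z ⊆ strip (1/50)) (hZc : IsCompact Z) {F : ℂ → ℂ}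
    (hF : DifferentiableOn ℂ F (phi^[k] '' Z)ᶜ)
    (hFb : ∀ w ∉ (phi^[k] '' Z), ∀ δ > 0, (∀ z ∈ (phi^[k] '' Z), δ ≤ ‖w - z‖) → ‖F w‖ ≤ δ⁻¹)
    (hFinf : ∀ w, 2 ≤ ‖w‖ → ‖F w‖ ≤ (1/2) ^ n) (j : ℕ) : j ≤ k →
    ∀ w : ℂ, 1/4 ≤ |w.im| → |w.im| < 1/2 → ‖F (phi^[j] w)‖ ≤
      (4000 * 250 ^ k) * ((((1/2:ℝ) ^ n) ^ (((1:ℝ)/3) ^ 100)) ^ ((((1:ℝ)/3) ^ 1400) ^ j)) := by
  set B : ℝ := 4000 * 250 ^ k with hB
  have hB1 : 4000 ≤ B := by
    rw [hB]
    have : (1:ℝ) ≤ 250 ^ k := one_le_pow₀ (by norm_num)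
    linarith
  have hB0 : 0 < B := by linarith
  have hp0 : (0:ℝ) < (1/2) ^ n := by positivity
  have hp1 : (1/2:ℝ) ^ n ≤ 1 := pow_le_one₀ (by norm_num) (by norm_num)
  set ε : ℝ := ((1/2:ℝ) ^ n) ^ (((1:ℝ)/3) ^ 100) with hε
  have hε0 : 0 ≤ ε := Real.rpow_nonneg hp0.le _
  have hε1 : ε ≤ 1 := Real.rpow_le_one hp0.le hp1 (by positivity)
  have hKs : phi^[k] '' Z ⊆ strip (1/50) := by
    rintro _ ⟨z, hz, rfl⟩
    exact iter_mem (hZ hz)
  have hKc : IsCompact (phi^[k] '' Z) := hZc.image (continuous_phi.iterate k)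
  induction j with
  | zero =>
    intro _ w hw1 hw2
    simp only [Function.iterate_zero, id_eq, pow_zero, Real.rpow_one]
    have := base_prop hKs hKc hF hFb hFinf hw1
    refine this.trans ?_
    apply mul_le_mul_of_nonneg_right _ hε0
    linarith
  | succ j ih =>
    intro hjk w hw1 hw2
    have hjk' : j ≤ k := by omega
    obtain ⟨m, hm⟩ : ∃ m, k = j + 1 + m := ⟨k - (j+1), by omega⟩
    set Z' : Set ℂ := phi^[m] '' Z with hZ'
    have hZ's : Z' ⊆ strip (1/50) := by
      rintro _ ⟨z, hz, rfl⟩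
      exact iter_mem (hZ hz)
    have hZ'c : IsCompact Z' := hZc.image (continuous_phi.iterate m)
    have hst : ∀ {a : ℂ}, a ∈ strip (1/50) → a ∈ strip (1/2) := fun h => strip_mono (by norm_num) h
    have hKeq : ∀ z ∈ phi^[k] '' Z, ∃ v ∈ Z', z = phi^[j] (phi v) := by
      rintro _ ⟨v, hv, rfl⟩
      refine ⟨phi^[m] v, ⟨v, hv, rfl⟩, ?_⟩
      rw [← Function.iterate_succ_apply, ← Function.iterate_add_apply, hm]
    have hKeq' : ∀ v ∈ Z', phi^[j] (phi v) ∈ phi^[k] '' Z := by
      rintro _ ⟨v, hv, rfl⟩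
      refine ⟨v, hv, ?_⟩
      rw [← Function.iterate_succ_apply, ← Function.iterate_add_apply, hm]
    set G : ℂ → ℂ := fun v => ((B⁻¹ : ℝ) : ℂ) * F (phi^[j] v) with hG
    have hGn : ∀ v, ‖G v‖ = B⁻¹ * ‖F (phi^[j] v)‖ := by
      intro v
      simp only [hG]
      rw [norm_mul, Complex.norm_real, Real.norm_eq_abs, abs_of_pos (by positivity)]
    have hnot : ∀ v : ℂ, |v.im| < 1/2 → v ∉ phi '' Z' → phi^[j] v ∉ phi^[k] '' Z := by
      intro v hv1 hv2 hmem
      obtain ⟨u, hu, huv⟩ := hKeq _ hmem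
      have := iter_injOn j (show v ∈ strip (1/2) from hv1.le) (phi_maps' (hst (hZ's hu))) huv
      exact hv2 ⟨u, hu, this.symm⟩
    have h := step_prop (Z := Z') hZ's hZ'c (G := G) (ε := ε ^ ((((1:ℝ)/3) ^ 1400) ^ j)) (by
        intro v hv
        have h1 := hnot v hv.1 hv.2
        have h2 : DifferentiableAt ℂ F (phi^[j] v) :=
          (hF _ h1).differentiableAt (hKc.isClosed.isOpen_compl.mem_nhds h1)
        have h3 : DifferentiableAt ℂ (fun v => F (phi^[j] v)) v :=
          DifferentiableAt.comp v h2 (differentiable_iter j v)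
        exact (h3.const_mul _).differentiableWithinAt)
      (Real.rpow_nonneg hε0 _) (Real.rpow_le_one hε0 hε1 (by positivity))
      (by
        intro v hv1 hv2
        have hvn : v ∉ phi '' Z' := by
          rintro ⟨u, hu, huv⟩
          have := hv2 u hu
          rw [huv, sub_self, norm_zero] at this
          norm_num at this
        have h1 := hFb _ (hnot v hv1 hvn) (1 / B) (by positivity) (by
          intro z hz
          obtain ⟨u, hu, rfl⟩ := hKeq z hz
          have h2 := iter_expand j (show v ∈ strip (1/2) from hv1.le) (phi_maps' (hst (hZ's hu)))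
          refine le_trans ?_ h2
          have h3 := hv2 u hu
          rw [div_le_div_iff₀ hB0 (by positivity), one_mul]
          have h4 : (250:ℝ) ^ j ≤ 250 ^ k := pow_le_pow_right₀ (by norm_num) hjk'
          calc (250:ℝ) ^ j ≤ 250 ^ k := h4
            _ = 1/4000 * B := by rw [hB]; ring
            _ ≤ ‖v - phi u‖ * B := mul_le_mul_of_nonneg_right h3 hB0.le)
        rw [hGn]
        rw [one_div, inv_inv] at h1
        rw [inv_mul_le_iff₀ hB0, mul_one]
        exact h1)
      (by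
        intro v hv1 hv2
        have := ih hjk' v hv1 hv2
        rw [hGn, inv_mul_le_iff₀ hB0]
        exact this)
      hw1 hw2
    rw [hGn, inv_mul_le_iff₀ hB0, ← Real.rpow_mul hε0] at h
    rw [Function.iterate_succ_apply, pow_succ]
    exact h

end Pool.Agent.H32.EscapePoly
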