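import Pool.Agent.H32.EscapePolyA

/-!
# Long escape paths in polynomial lemniscates: approximation

Cauchy's formula on rectangles, duality, and the approximation of `1 - exp (50 π ζ)`, in the
coordinate `phi^[k] ζ`, by polynomials of degree `deg k` on the walls of the tube.
-/

open Set Metric Filter Topology Polynomial

namespace Pool.Agent.H32.EscapePoly

open MeasureTheory Pool.Agent.H32.EscapeLower
open scoped ENNReal

/-- integral over the boundary of the rectangle `[-A, A] × [-h, h]` -/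
noncomputable def rectInt {E : Type*} [NormedAddCommGroup E] [NormedSpace ℂ E] (f : ℂ → E) (A h : ℝ) : E :=
  (∫ x : ℝ in (-A)..A, f (x + ((-h : ℝ) : ℂ) * Complex.I)) - (∫ x : ℝ in (-A)..A, f (x + (h : ℂ) * Complex.I)) +
      Complex.I • (∫ y : ℝ in (-h)..h, f ((A : ℂ) + y * Complex.I)) -
      Complex.I • (∫ y : ℝ in (-h)..h, f (((-A : ℝ) : ℂ) + y * Complex.I))

theorem ftc_log {c d : ℂ} {a b : ℝ} (hab : a ≤ b) (h : ∀ x ∈ Icc a b, c + x * d ∈ Complex.slitPlane) :
    ∫ x : ℝ in a..b, (d * (c + x * d)⁻¹) = Complex.log (c + b * d) - Complex.log (c + a * d) := by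
  apply intervalIntegral.integral_eq_sub_of_hasDerivAt (f := fun x : ℝ => Complex.log (c + x * d))
  · intro x hx
    rw [uIcc_of_le hab] at hx
    have h1 : HasDerivAt (fun x : ℝ => c + (x:ℂ) * d) d x := by
      have := ((hasDerivAt_id (x:ℂ)).comp_ofReal.mul_const d).const_add c
      simpa using this
    have := h1.clog_real (h x hx)
    rw [div_eq_mul_inv] at this
    exact this
  · apply ContinuousOn.intervalIntegrable
    rw [uIcc_of_le hab]
    apply ContinuousOn.mul continuousOn_const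
    apply ContinuousOn.inv₀
    · fun_prop
    · intro x hx h0
      have := h x hx
      rw [h0] at this
      exact Complex.zero_notMem_slitPlane this

theorem log_sub_log_neg_pos {u : ℂ} (hu : 0 < u.im) : Complex.log u - Complex.log (-u) = Real.pi * Complex.I := by
  rw [Complex.log, Complex.log, norm_neg, Complex.arg_neg_eq_arg_sub_pi_of_im_pos hu]
  push_cast; ring

theorem log_sub_log_neg_neg {u : ℂ} (hu : u.im < 0) : Complex.log u - Complex.log (-u) = -(Real.pi * Complex.I) := by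
  rw [Complex.log, Complex.log, norm_neg, Complex.arg_neg_eq_arg_add_pi_of_im_neg hu]
  push_cast; ring

theorem rectInt_inv {A h : ℝ} {w : ℂ} (hw1 : |w.re| < A) (hw2 : |w.im| < h) :
    rectInt (fun z => (z - w)⁻¹) A h = 2 * Real.pi * Complex.I := by
  have hA : 0 < A := lt_of_le_of_lt (abs_nonneg _) hw1
  have hh : 0 < h := lt_of_le_of_lt (abs_nonneg _) hw2
  rw [abs_lt] at hw1 hw2
  have e1 : ∫ x : ℝ in (-A)..A, ((x + ((-h : ℝ) : ℂ) * Complex.I) - w)⁻¹ =
      Complex.log ((((-h : ℝ) : ℂ) * Complex.I - w) + A * 1) -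
      Complex.log ((((-h : ℝ) : ℂ) * Complex.I - w) + ((-A : ℝ) : ℂ) * 1) := by
    rw [← ftc_log (by linarith : -A ≤ A)]
    · apply intervalIntegral.integral_congr
      intro x _
      simp only [one_mul, mul_one]
      congr 1; ring
    · intro x _
      rw [Complex.mem_slitPlane_iff]
      right
      simp
      intro h; linarith
  have e2 : ∫ x : ℝ in (-A)..A, ((x + (h : ℂ) * Complex.I) - w)⁻¹ =
      Complex.log (((h : ℂ) * Complex.I - w) + A * 1) -
      Complex.log (((h : ℂ) * Complex.I - w) + ((-A : ℝ) : ℂ) * 1) := by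
    rw [← ftc_log (by linarith : -A ≤ A)]
    · apply intervalIntegral.integral_congr
      intro x _
      simp only [one_mul, mul_one]
      congr 1; ring
    · intro x _
      rw [Complex.mem_slitPlane_iff]
      right
      simp
      intro h; linarith
  have e3 : Complex.I • ∫ y : ℝ in (-h)..h, (((A : ℂ) + y * Complex.I) - w)⁻¹ =
      Complex.log (((A : ℂ) - w) + h * Complex.I) -
      Complex.log (((A : ℂ) - w) + ((-h : ℝ) : ℂ) * Complex.I) := by
    rw [← ftc_log (by linarith : -h ≤ h)]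
    · rw [smul_eq_mul, ← intervalIntegral.integral_const_mul]
      apply intervalIntegral.integral_congr
      intro x _
      simp only
      congr 2; ring
    · intro x _
      rw [Complex.mem_slitPlane_iff]
      left
      simp
      linarith
  have e4 : Complex.I • ∫ y : ℝ in (-h)..h, ((((-A : ℝ) : ℂ) + y * Complex.I) - w)⁻¹ =
      Complex.log (((A : ℂ) + w) + h * (-Complex.I)) -
      Complex.log (((A : ℂ) + w) + ((-h : ℝ) : ℂ) * (-Complex.I)) := by
    rw [← ftc_log (by linarith : -h ≤ h)]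
    · rw [smul_eq_mul, ← intervalIntegral.integral_const_mul]
      apply intervalIntegral.integral_congr
      intro x _
      simp only
      have : ((((-A : ℝ) : ℂ) + x * Complex.I) - w) = - ((A : ℂ) + w + x * -Complex.I) := by
        push_cast; ring
      rw [this, inv_neg]; ring
    · intro x _
      rw [Complex.mem_slitPlane_iff]
      left
      simp
      linarith
  unfold rectInt
  rw [e1, e2, e3, e4]
  have f1 : Complex.log ((((-h : ℝ) : ℂ) * Complex.I - w) + ((-A : ℝ) : ℂ) * 1) -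
      Complex.log (((A : ℂ) + w) + h * Complex.I) = -(Real.pi * Complex.I) := by
    have := log_sub_log_neg_neg (u := (((-h : ℝ) : ℂ) * Complex.I - w) + ((-A : ℝ) : ℂ) * 1) (by
      simp; linarith)
    rw [← this]
    congr 2
    push_cast; ring
  have f2 : Complex.log (((h : ℂ) * Complex.I - w) + ((-A : ℝ) : ℂ) * 1) -
      Complex.log (((A : ℂ) + w) + h * (-Complex.I)) = (Real.pi * Complex.I) := by
    have := log_sub_log_neg_pos (u := ((h : ℂ) * Complex.I - w) + ((-A : ℝ) : ℂ) * 1) (by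
      simp; linarith)
    rw [← this]
    congr 2
    push_cast; ring
  have g1 : (((A : ℂ) + w) + ((-h : ℝ) : ℂ) * (-Complex.I)) = (((A : ℂ) + w) + h * Complex.I) := by
    push_cast; ring
  have g2 : (((-h : ℝ) : ℂ) * Complex.I - w) + A * 1 = ((A : ℂ) - w) + ((-h : ℝ) : ℂ) * Complex.I := by
    ring
  have g3 : ((h : ℂ) * Complex.I - w) + A * 1 = ((A : ℂ) - w) + h * Complex.I := by ring
  rw [g1, g2, g3]
  linear_combination f2 - f1

/-- the boundary of the rectangle -/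
def bd (A h : ℝ) : Set ℂ := {z | |z.re| ≤ A ∧ |z.im| ≤ h ∧ (|z.re| = A ∨ |z.im| = h)}

theorem mem_bd_h {A h x s : ℝ} (hx : |x| ≤ A) (hs : |s| = h) :
    (x + (s : ℂ) * Complex.I) ∈ bd A h := by
  simp only [bd, mem_ofPred_eq]
  simp [hx, hs]

theorem mem_bd_v {A h y s : ℝ} (hy : |y| ≤ h) (hs : |s| = A) :
    ((s : ℂ) + y * Complex.I) ∈ bd A h := by
  simp only [bd, mem_ofPred_eq]
  simp [hy, hs]

section
variable {E : Type*} [NormedAddCommGroup E] [NormedSpace ℂ E]

omit [NormedSpace ℂ E] in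
theorem sides {f : ℂ → E} {A h : ℝ} (hA : 0 ≤ A) (hh : 0 ≤ h) (hf : ContinuousOn f (bd A h)) :
    IntervalIntegrable (fun x : ℝ => f (x + ((-h : ℝ) : ℂ) * Complex.I)) volume (-A) A ∧
    IntervalIntegrable (fun x : ℝ => f (x + (h : ℂ) * Complex.I)) volume (-A) A ∧
    IntervalIntegrable (fun y : ℝ => f ((A : ℂ) + y * Complex.I)) volume (-h) h ∧
    IntervalIntegrable (fun y : ℝ => f (((-A : ℝ) : ℂ) + y * Complex.I)) volume (-h) h := by
  have hh' : |h| = h := abs_of_nonneg hh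
  have hA' : |A| = A := abs_of_nonneg hA
  refine ⟨?_, ?_, ?_, ?_⟩
  · apply ContinuousOn.intervalIntegrable
    rw [uIcc_of_le (by linarith)]
    apply hf.comp (by fun_prop)
    intro x hx
    exact mem_bd_h (abs_le.mpr hx) (by rw [abs_neg, hh'])
  · apply ContinuousOn.intervalIntegrable
    rw [uIcc_of_le (by linarith)]
    apply hf.comp (by fun_prop)
    intro x hx
    exact mem_bd_h (abs_le.mpr hx) hh'
  · apply ContinuousOn.intervalIntegrable
    rw [uIcc_of_le (by linarith)]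
    apply hf.comp (by fun_prop)
    intro x hx
    exact mem_bd_v (abs_le.mpr hx) hA'
  · apply ContinuousOn.intervalIntegrable
    rw [uIcc_of_le (by linarith)]
    apply hf.comp (by fun_prop)
    intro x hx
    exact mem_bd_v (abs_le.mpr hx) (by rw [abs_neg, hA'])

theorem rectInt_congr {f g : ℂ → E} {A h : ℝ} (hA : 0 ≤ A) (hh : 0 ≤ h)
    (hfg : ∀ z ∈ bd A h, f z = g z) : rectInt f A h = rectInt g A h := by
  have hh' : |h| = h := abs_of_nonneg hh
  have hA' : |A| = A := abs_of_nonneg hA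
  unfold rectInt
  congr 1
  · congr 1
    · congr 1
      · apply intervalIntegral.integral_congr
        intro x hx
        rw [uIcc_of_le (by linarith)] at hx
        exact hfg _ (mem_bd_h (abs_le.mpr hx) (by rw [abs_neg, hh']))
      · apply intervalIntegral.integral_congr
        intro x hx
        rw [uIcc_of_le (by linarith)] at hx
        exact hfg _ (mem_bd_h (abs_le.mpr hx) hh')
    · congr 1
      apply intervalIntegral.integral_congr
      intro x hx
      rw [uIcc_of_le (by linarith)] at hx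
      exact hfg _ (mem_bd_v (abs_le.mpr hx) hA')
  · congr 1
    apply intervalIntegral.integral_congr
    intro x hx
    rw [uIcc_of_le (by linarith)] at hx
    exact hfg _ (mem_bd_v (abs_le.mpr hx) (by rw [abs_neg, hA']))

theorem rectInt_add {f g : ℂ → E} {A h : ℝ} (hA : 0 ≤ A) (hh : 0 ≤ h)
    (hf : ContinuousOn f (bd A h)) (hg : ContinuousOn g (bd A h)) :
    rectInt (fun z => f z + g z) A h = rectInt f A h + rectInt g A h := by
  obtain ⟨a1, a2, a3, a4⟩ := sides hA hh hf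
  obtain ⟨b1, b2, b3, b4⟩ := sides hA hh hg
  unfold rectInt
  rw [intervalIntegral.integral_add a1 b1, intervalIntegral.integral_add a2 b2,
    intervalIntegral.integral_add a3 b3, intervalIntegral.integral_add a4 b4, smul_add, smul_add]
  abel

theorem rectInt_norm {f : ℂ → E} {A h C : ℝ} (hA : 0 ≤ A) (hh : 0 ≤ h)
    (hf : ∀ z ∈ bd A h, ‖f z‖ ≤ C) : ‖rectInt f A h‖ ≤ C * (4 * A + 4 * h) := by
  have hh' : |h| = h := abs_of_nonneg hh
  have hA' : |A| = A := abs_of_nonneg hA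
  have k1 : ‖∫ x : ℝ in (-A)..A, f (x + ((-h : ℝ) : ℂ) * Complex.I)‖ ≤ C * |A - -A| := by
    apply intervalIntegral.norm_integral_le_of_norm_le_const
    intro x hx
    rw [uIoc_of_le (by linarith)] at hx
    exact hf _ (mem_bd_h (abs_le.mpr ⟨hx.1.le, hx.2⟩) (by rw [abs_neg, hh']))
  have k2 : ‖∫ x : ℝ in (-A)..A, f (x + (h : ℂ) * Complex.I)‖ ≤ C * |A - -A| := by
    apply intervalIntegral.norm_integral_le_of_norm_le_const
    intro x hx
    rw [uIoc_of_le (by linarith)] at hx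
    exact hf _ (mem_bd_h (abs_le.mpr ⟨hx.1.le, hx.2⟩) hh')
  have k3 : ‖∫ y : ℝ in (-h)..h, f ((A : ℂ) + y * Complex.I)‖ ≤ C * |h - -h| := by
    apply intervalIntegral.norm_integral_le_of_norm_le_const
    intro x hx
    rw [uIoc_of_le (by linarith)] at hx
    exact hf _ (mem_bd_v (abs_le.mpr ⟨hx.1.le, hx.2⟩) hA')
  have k4 : ‖∫ y : ℝ in (-h)..h, f (((-A : ℝ) : ℂ) + y * Complex.I)‖ ≤ C * |h - -h| := by
    apply intervalIntegral.norm_integral_le_of_norm_le_const
    intro x hx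
    rw [uIoc_of_le (by linarith)] at hx
    exact hf _ (mem_bd_v (abs_le.mpr ⟨hx.1.le, hx.2⟩) (by rw [abs_neg, hA']))
  have r1 : |A - -A| = 2 * A := by rw [sub_neg_eq_add, abs_of_nonneg (by linarith)]; ring
  have r2 : |h - -h| = 2 * h := by rw [sub_neg_eq_add, abs_of_nonneg (by linarith)]; ring
  rw [r1] at k1 k2
  rw [r2] at k3 k4
  unfold rectInt
  refine (norm_sub_le _ _).trans ?_
  rw [norm_smul Complex.I (∫ y : ℝ in (-h)..h, f (((-A : ℝ) : ℂ) + y * Complex.I)), Complex.norm_I, one_mul]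
  have : ‖(∫ x : ℝ in (-A)..A, f (x + ((-h : ℝ) : ℂ) * Complex.I)) - (∫ x : ℝ in (-A)..A, f (x + (h : ℂ) * Complex.I)) +
      Complex.I • (∫ y : ℝ in (-h)..h, f ((A : ℂ) + y * Complex.I))‖ ≤ C * (2 * A) + C * (2 * A) + C * (2 * h) := by
    refine (norm_add_le _ _).trans ?_
    rw [norm_smul, Complex.norm_I, one_mul]
    gcongr
    refine (norm_sub_le _ _).trans ?_
    gcongr
  linarith

theorem rectInt_clm [CompleteSpace E] {F : Type*} [NormedAddCommGroup F] [NormedSpace ℂ F] [CompleteSpace F] (L : E →L[ℂ] F)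
    {f : ℂ → E} {A h : ℝ} (hA : 0 ≤ A) (hh : 0 ≤ h) (hf : ContinuousOn f (bd A h)) :
    L (rectInt f A h) = rectInt (fun z => L (f z)) A h := by
  obtain ⟨a1, a2, a3, a4⟩ := sides hA hh hf
  unfold rectInt
  rw [map_sub, map_add, map_sub, map_smul, map_smul, ← L.intervalIntegral_comp_comm a1,
    ← L.intervalIntegral_comp_comm a2, ← L.intervalIntegral_comp_comm a3, ← L.intervalIntegral_comp_comm a4]

end

theorem cauchy_rect {g : ℂ → ℂ} {U : Set ℂ} (hU : IsOpen U) {A h : ℝ} {w : ℂ} (hw1 : |w.re| < A) (hw2 : |w.im| < h)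
    (hsub : ∀ z : ℂ, |z.re| ≤ A → |z.im| ≤ h → z ∈ U) (hg : DifferentiableOn ℂ g U) :
    rectInt (fun z => g z * (z - w)⁻¹) A h = 2 * Real.pi * Complex.I * g w := by
  have hA : 0 < A := lt_of_le_of_lt (abs_nonneg _) hw1
  have hh : 0 < h := lt_of_le_of_lt (abs_nonneg _) hw2
  have hne : ∀ z ∈ bd A h, z - w ≠ 0 := by
    intro z hz h0
    have : z = w := by linear_combination h0
    rw [this] at hz
    rcases hz.2.2 with h1 | h1
    · linarith
    · linarith
  have hds : DifferentiableOn ℂ (dslope g w) U :=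
    (Complex.differentiableOn_dslope (hU.mem_nhds (hsub w hw1.le hw2.le))).mpr hg
  have hbdU : bd A h ⊆ U := fun z hz => hsub z hz.1 hz.2.1
  have h1 : rectInt (fun z => g z * (z - w)⁻¹) A h =
      rectInt (fun z => dslope g w z + g w • (z - w)⁻¹) A h := by
    apply rectInt_congr hA.le hh.le
    intro z hz
    have hz0 := hne z hz
    have hzw : z ≠ w := fun h => hz0 (by rw [h, sub_self])
    rw [dslope_of_ne _ hzw, slope_def_field, smul_eq_mul]
    field_simp
    ring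
  have hinv : ContinuousOn (fun z : ℂ => (z - w)⁻¹) (bd A h) := by
    apply ContinuousOn.inv₀ (by fun_prop) hne
  have h4 := rectInt_add (f := dslope g w) (g := fun z => g w • (z - w)⁻¹) hA.le hh.le
    (hds.continuousOn.mono hbdU) (hinv.const_smul (g w))
  rw [h1, h4]
  have h2 : rectInt (dslope g w) A h = 0 := by
    have := Complex.integral_boundary_rect_eq_zero_of_differentiableOn (dslope g w)
      ((-A : ℝ) + (-h : ℝ) * Complex.I) ((A : ℂ) + h * Complex.I) (hds.mono (by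
        intro z hz
        rw [Complex.mem_reProdIm] at hz
        have e1 : ((((-A : ℝ) : ℂ) + ((-h : ℝ) : ℂ) * Complex.I)).re = -A := by simp
        have e2 : ((((-A : ℝ) : ℂ) + ((-h : ℝ) : ℂ) * Complex.I)).im = -h := by simp
        have e3 : (((A : ℂ) + (h : ℂ) * Complex.I)).re = A := by simp
        have e4 : (((A : ℂ) + (h : ℂ) * Complex.I)).im = h := by simp
        rw [e1, e2, e3, e4, uIcc_of_le (by linarith), uIcc_of_le (by linarith)] at hz
        exact hsub z (abs_le.mpr hz.1) (abs_le.mpr hz.2)))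
    have e1 : ((((-A : ℝ) : ℂ) + ((-h : ℝ) : ℂ) * Complex.I)).re = -A := by simp
    have e2 : ((((-A : ℝ) : ℂ) + ((-h : ℝ) : ℂ) * Complex.I)).im = -h := by simp
    have e3 : (((A : ℂ) + (h : ℂ) * Complex.I)).re = A := by simp
    have e4 : (((A : ℂ) + (h : ℂ) * Complex.I)).im = h := by simp
    rw [e1, e2, e3, e4] at this
    exact this
  have h3 : rectInt (fun z => g w • (z - w)⁻¹) A h = g w * (2 * Real.pi * Complex.I) := by
    have := rectInt_clm (ContinuousLinearMap.lsmul ℂ ℂ (g w) : ℂ →L[ℂ] ℂ) hA.le hh.le hinv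
    have e : rectInt (fun z => g w • (z - w)⁻¹) A h = rectInt (fun z => (ContinuousLinearMap.lsmul ℂ ℂ (g w) : ℂ →L[ℂ] ℂ) ((z - w)⁻¹)) A h := rfl
    rw [e, ← this, rectInt_inv hw1 hw2]
    rfl
  rw [h2, h3]
  ring

/-- The approximation lemma, by duality. -/
theorem approx2 (K : Set ℂ) [CompactSpace K] (hK1 : ∀ z ∈ K, ‖z‖ ≤ 1) (n : ℕ) (u : C(K, ℂ))
    (H : ∀ Λ : C(K, ℂ) →L[ℂ] ℂ, (∀ f, ‖Λ f‖ ≤ ‖f‖) →
      (∀ w : ℂ, 2 ≤ ‖w‖ → ‖Λ (ker K w)‖ ≤ (1/2) ^ n) → ‖Λ u‖ < 1/8) :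
    ∃ a : Fin (n+1) → ℂ, (∀ k, ‖a k‖ ≤ 2 ^ n) ∧
      ∀ z : K, ‖u z - ∑ k, a k * (z:ℂ) ^ (k:ℕ)‖ ≤ 1/8 := by
  classical
  set B : ℝ := 2 ^ (n+1) with hB
  have hB0 : 0 < B := by positivity
  let A : (Fin (n+1) → ℂ) →ₗ[ℂ] C(K, ℂ) × (Fin (n+1) → ℂ) :=
    { toFun := fun q => (∑ k, q k • (idK K) ^ (k:ℕ), (B⁻¹ : ℂ) • q)
      map_add' := by
        intro q r
        ext1
        · simp only [Pi.add_apply, add_smul, Finset.sum_add_distrib, Prod.mk_add_mk]
        · simp only [smul_add, Prod.mk_add_mk]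
      map_smul' := by
        intro c q
        ext1
        · simp only [Pi.smul_apply, smul_eq_mul, mul_smul, Finset.smul_sum, RingHom.id_apply,
            Prod.smul_mk]
        · simp only [RingHom.id_apply, Prod.smul_mk]
          rw [smul_comm] }
  let V : Submodule ℂ (C(K, ℂ) × (Fin (n+1) → ℂ)) := LinearMap.range A
  have : FiniteDimensional ℂ V := inferInstance
  have hVclosed : IsClosed (V : Set (C(K, ℂ) × (Fin (n+1) → ℂ))) := V.closed_of_finiteDimensional
  have hA1 : ∀ q : Fin (n+1) → ℂ, ∀ z : K, (A q).1 z = ∑ k, q k * (z:ℂ) ^ (k:ℕ) := by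
    intro q z
    change (∑ k, q k • (idK K) ^ (k:ℕ)) z = _
    rw [ContinuousMap.sum_apply]
    rfl
  have hA2 : ∀ q : Fin (n+1) → ℂ, (A q).2 = (B⁻¹ : ℂ) • q := fun q => rfl
  by_contra hcon
  push Not at hcon
  set x0 : C(K, ℂ) × (Fin (n+1) → ℂ) := (u, 0) with hx0
  have hVc : IsClosed (V : Set (C(K, ℂ) × (Fin (n+1) → ℂ))) := hVclosed
  have hdist : (1:ℝ)/8 ≤ ‖(V.mkQ x0)‖ := by
    by_contra hlt
    push Not at hlt
    obtain ⟨y, hy, hyn⟩ := Submodule.Quotient.norm_mk_lt (V.mkQ x0)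
      (show 0 < 1/8 - ‖V.mkQ x0‖ by linarith)
    have hyn' : ‖y‖ < 1/8 := by linarith
    have hyV : x0 - y ∈ V := by
      have : V.mkQ x0 = V.mkQ y := hy.symm
      exact (Submodule.Quotient.eq V).mp this
    obtain ⟨q, hq⟩ := hyV
    have hy1 : y.1 = x0.1 - (A q).1 := by rw [hq]; simp
    have hy2 : y.2 = x0.2 - (A q).2 := by rw [hq]; simp
    have hn1 : ‖y.1‖ < 1/8 := lt_of_le_of_lt (norm_fst_le y) hyn'
    have hn2 : ‖y.2‖ < 1/8 := lt_of_le_of_lt (norm_snd_le y) hyn'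
    have hqk : ∀ k, ‖q k‖ ≤ 2 ^ n := by
      intro k
      have h3 : ‖y.2 k‖ < 1/8 := lt_of_le_of_lt (norm_le_pi_norm _ k) hn2
      rw [hy2, hA2] at h3
      have h4 : (x0.2 - (B⁻¹ : ℂ) • q) k = - ((B⁻¹ : ℂ) * q k) := by
        simp [hx0]
      rw [h4, norm_neg, norm_mul, norm_inv, Complex.norm_real, Real.norm_eq_abs,
        abs_of_pos hB0, inv_mul_lt_iff₀ hB0] at h3
      have h5 : B * (1/2) = 2 ^ n := by rw [hB, pow_succ]; ring
      linarith
    obtain ⟨z, hz⟩ := hcon q hqk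
    have h6 : ‖y.1 z‖ ≤ ‖y.1‖ := ContinuousMap.norm_coe_le_norm _ _
    have h7 : y.1 z = u z - ∑ k, q k * (z:ℂ) ^ (k:ℕ) := by
      rw [hy1, ContinuousMap.sub_apply, hA1]
    rw [h7] at h6
    linarith
  obtain ⟨g, hg1, hg2⟩ := exists_dual_vector'' ℂ (V.mkQ x0)
  let Φ : (C(K, ℂ) × (Fin (n+1) → ℂ)) →L[ℂ] ℂ := g.comp V.mkQL
  have hΦ : ∀ x, ‖Φ x‖ ≤ ‖x‖ := by
    intro x
    calc ‖Φ x‖ = ‖g (V.mkQ x)‖ := rfl
      _ ≤ ‖g‖ * ‖V.mkQ x‖ := g.le_opNorm _
      _ ≤ 1 * ‖x‖ := by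
        apply mul_le_mul hg1 (Submodule.Quotient.norm_mk_le V x) (norm_nonneg _) zero_le_one
      _ = ‖x‖ := one_mul _
  have hΦV : ∀ q, Φ (A q) = 0 := by
    intro q
    have : V.mkQ (A q) = 0 := (Submodule.Quotient.mk_eq_zero V).mpr ⟨q, rfl⟩
    change g (V.mkQ (A q)) = 0
    rw [this, map_zero]
  have hΦ0 : ‖Φ x0‖ = ‖V.mkQ x0‖ := by
    change ‖g (V.mkQ x0)‖ = _
    rw [hg2]; simp
  have hlt := H (Φ.comp (ContinuousLinearMap.inl ℂ C(K, ℂ) (Fin (n+1) → ℂ))) ?_ ?_
  · have e : (Φ.comp (ContinuousLinearMap.inl ℂ C(K, ℂ) (Fin (n+1) → ℂ))) u = Φ x0 := rfl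
    rw [e, hΦ0] at hlt; linarith
  · intro f
    have e : (Φ.comp (ContinuousLinearMap.inl ℂ C(K, ℂ) (Fin (n+1) → ℂ))) f = Φ (f, 0) := rfl
    rw [e]
    refine (hΦ _).trans ?_
    rw [Prod.norm_def, norm_zero, max_eq_left (norm_nonneg _)]
  · intro w hw
    have e : (Φ.comp (ContinuousLinearMap.inl ℂ C(K, ℂ) (Fin (n+1) → ℂ))) (ker K w) = Φ (ker K w, 0) := rfl
    rw [e]
    have hw0 : w ≠ 0 := by rintro rfl; rw [norm_zero] at hw; linarith
    have hwK : w ∉ K := fun h => by have := hK1 w h; linarith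
    obtain ⟨b, hb, hkb, _⟩ := ker_mul K w hwK
    set v : Fin (n+1) → ℂ := fun k => (w⁻¹) ^ ((k:ℕ)+1) with hv
    have hdec : ((ker K w, 0) : C(K, ℂ) × (Fin (n+1) → ℂ)) =
        A v + (-((A v).1 - ker K w), -(A v).2) := by
      ext1
      · change ker K w = (A v).1 + -((A v).1 - ker K w)
        abel
      · change (0 : Fin (n+1) → ℂ) = (A v).2 + -(A v).2
        abel
    have hFw : Φ (ker K w, 0) = Φ (-((A v).1 - ker K w), -(A v).2) := by
      rw [hdec, map_add, hΦV, zero_add]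
    rw [hFw]
    refine (hΦ _).trans ?_
    rw [Prod.norm_def]
    apply max_le
    · change ‖-((A v).1 - ker K w)‖ ≤ _
      rw [norm_neg, ContinuousMap.norm_le _ (by positivity)]
      intro z
      rw [ContinuousMap.sub_apply, hA1, hkb, hb]
      have hz1 : ‖(z:ℂ)‖ ≤ 1 := hK1 z z.2
      have hwz : w - (z:ℂ) ≠ 0 := by
        intro h
        have : w = z := by linear_combination h
        rw [this] at hw; linarith
      have hsum : ∑ k : Fin (n+1), v k * (z:ℂ) ^ (k:ℕ) - (w - z)⁻¹ =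
          - (((z:ℂ) / w) ^ (n+1) * (w - z)⁻¹) := by
        have h1 : ∑ k : Fin (n+1), v k * (z:ℂ) ^ (k:ℕ) = w⁻¹ * ∑ k ∈ Finset.range (n+1), ((z:ℂ)/w)^k := by
          rw [Finset.mul_sum, ← Fin.sum_univ_eq_sum_range (fun k => w⁻¹ * ((z:ℂ)/w)^k)]
          apply Finset.sum_congr rfl
          intro k _
          simp only [hv, div_pow, pow_succ, inv_pow]
          field_simp
        have h2 : (∑ k ∈ Finset.range (n+1), ((z:ℂ)/w)^k) * (1 - (z:ℂ)/w) = 1 - ((z:ℂ)/w)^(n+1) :=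
          geom_sum_mul_neg _ _
        have h3 : (1 - (z:ℂ)/w) = (w - z) * w⁻¹ := by field_simp
        have h4 : w⁻¹ * ∑ k ∈ Finset.range (n+1), ((z:ℂ)/w)^k =
            (1 - ((z:ℂ)/w)^(n+1)) * (w - z)⁻¹ := by
          rw [← h2, h3]
          field_simp
        rw [h1, h4]; ring
      rw [hsum, norm_neg, norm_mul, norm_pow, norm_inv, norm_div]
      have h5 : ‖(z:ℂ)‖ / ‖w‖ ≤ 1/2 := by
        rw [div_le_div_iff₀ (by linarith) (by norm_num)]; linarith
      have h6 : 1 ≤ ‖w - (z:ℂ)‖ := by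
        have := norm_sub_norm_le w (z:ℂ); linarith
      calc (‖(z:ℂ)‖ / ‖w‖) ^ (n+1) * ‖w - (z:ℂ)‖⁻¹ ≤ (1/2)^(n+1) * 1 := by
            apply mul_le_mul
            · exact pow_le_pow_left₀ (by positivity) h5 _
            · exact inv_le_one_of_one_le₀ h6
            · positivity
            · positivity
        _ ≤ (1/2)^n := by
            rw [mul_one]; exact pow_le_pow_of_le_one (by norm_num) (by norm_num) (by omega)
    · change ‖-(A v).2‖ ≤ _
      rw [norm_neg, hA2, pi_norm_le_iff_of_nonneg (by positivity)]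
      intro k
      rw [Pi.smul_apply, smul_eq_mul, norm_mul, norm_inv, Complex.norm_real, Real.norm_eq_abs,
        abs_of_pos hB0]
      simp only [hv]
      rw [norm_pow, norm_inv]
      have h5 : ‖w‖⁻¹ ≤ 1 := inv_le_one_of_one_le₀ (by linarith)
      calc B⁻¹ * ‖w‖⁻¹ ^ ((k:ℕ)+1) ≤ B⁻¹ * 1 := by
            apply mul_le_mul_of_nonneg_left _ (by positivity)
            exact pow_le_one₀ (by positivity) h5
        _ ≤ (1/2)^n := by
            rw [mul_one, hB, one_div, inv_pow]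
            apply inv_anti₀ (by positivity)
            exact pow_le_pow_right₀ (by norm_num) (by omega)

def wall (k : ℕ) : Set ℂ :=
  {z | -1 ≤ z.re ∧ z.re ≤ (100:ℝ) ^ k / 2 ∧ |z.im| ≤ 1/50 ∧ (|z.im| = 1/50 ∨ z.re = -1)}

def wall0 (k : ℕ) : Set ℂ := wall k ∪ {0}

theorem wall_norm {k : ℕ} (hk : 1 ≤ k) {z : ℂ} (hz : z ∈ wall0 k) : |z.re| ≤ (100:ℝ) ^ k / 2 ∧ |z.im| ≤ 1/50 := by
  have h100 : (100:ℝ) ≤ 100 ^ k := by
    calc (100:ℝ) = 100 ^ 1 := by norm_num
      _ ≤ 100 ^ k := pow_le_pow_right₀ (by norm_num) hk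
  rcases hz with hz | hz
  · refine ⟨abs_le.mpr ⟨by linarith [hz.1], hz.2.1⟩, hz.2.2.1⟩
  · rw [mem_singleton_iff.mp hz]
    simp only [Complex.zero_re, Complex.zero_im, abs_zero]
    constructor
    · positivity
    · norm_num

theorem wall0_strip {k : ℕ} {z : ℂ} (hz : z ∈ wall0 k) : z ∈ strip (1/50) := by
  rcases hz with hz | hz
  · exact hz.2.2.1
  · rw [mem_singleton_iff.mp hz]
    simp [strip]

theorem isCompact_wall (k : ℕ) : IsCompact (wall k) := by
  rw [isCompact_iff_isClosed_bounded]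
  constructor
  · have h1 : IsClosed {z : ℂ | -1 ≤ z.re} := isClosed_le continuous_const Complex.continuous_re
    have h2 : IsClosed {z : ℂ | z.re ≤ (100:ℝ) ^ k / 2} := isClosed_le Complex.continuous_re continuous_const
    have h3 : IsClosed {z : ℂ | |z.im| ≤ 1/50} := isClosed_le Complex.continuous_im.abs continuous_const
    have h4 : IsClosed {z : ℂ | |z.im| = 1/50} := isClosed_eq Complex.continuous_im.abs continuous_const
    have h5 : IsClosed {z : ℂ | z.re = -1} := isClosed_eq Complex.continuous_re continuous_const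
    exact h1.inter (h2.inter (h3.inter (h4.union h5)))
  · rw [isBounded_iff_forall_norm_le]
    refine ⟨1 + 100 ^ k / 2 + 1/50, fun z hz => ?_⟩
    have h1 := Complex.norm_le_abs_re_add_abs_im z
    have h2 : |z.re| ≤ 1 + 100 ^ k / 2 := by
      have : (0:ℝ) < 100 ^ k / 2 := by positivity
      exact abs_le.mpr ⟨by linarith [hz.1], by linarith [hz.2.1]⟩
    linarith [hz.2.2.1]

theorem isCompact_wall0 (k : ℕ) : IsCompact (wall0 k) := (isCompact_wall k).union isCompact_singleton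

theorem iter_norm {k : ℕ} {z : ℂ} (hz : z ∈ strip (1/2)) :
    ‖z‖ / 100 ^ k - 1/50 ≤ ‖phi^[k] z‖ ∧ ‖phi^[k] z‖ ≤ ‖z‖ / 100 ^ k + 1/50 := by
  have h1 := iter_close' k hz
  have h2 : ‖z / 100 ^ k‖ = ‖z‖ / 100 ^ k := by
    rw [norm_div, norm_pow]; simp
  have h3 := norm_sub_norm_le (z / 100 ^ k) (phi^[k] z)
  have h4 := norm_sub_norm_le (phi^[k] z) (z / 100 ^ k)
  rw [norm_sub_rev] at h3
  rw [h2] at h3 h4
  constructor <;> linarith

theorem wall0_iter_norm {k : ℕ} (hk : 1 ≤ k) {z : ℂ} (hz : z ∈ wall0 k) : ‖phi^[k] z‖ ≤ 3/4 := by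
  have h1 := wall_norm hk hz
  have h2 := (iter_norm (k := k) (strip_mono (by norm_num) (wall0_strip hz) : z ∈ strip (1/2))).2
  have h3 := Complex.norm_le_abs_re_add_abs_im z
  have h100 : (1:ℝ) ≤ 100 ^ k := one_le_pow₀ (by norm_num)
  have h4 : ‖z‖ / 100 ^ k ≤ 1/2 + 1/50 := by
    rw [div_le_iff₀ (by positivity)]
    nlinarith [h1.1, h1.2]
  linarith

/-- the numerical estimate -/
theorem numeric (k : ℕ) : 13.5 * (100:ℝ) ^ k * ((1 + Real.exp (50 * Real.pi * (3 * 100 ^ k))) * (4000 * 250 ^ k)) *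
    (1/2) ^ (1000 * 100 ^ k) < 1/8 * 6 := by
  set T : ℕ := 100 ^ k with hT
  have hT1 : 1 ≤ T := Nat.one_le_pow _ _ (by norm_num)
  have hTr : ((100:ℝ) ^ k) = (T:ℝ) := by rw [hT]; push_cast; rfl
  have h1 : Real.exp (50 * Real.pi * (3 * 100 ^ k)) ≤ 2 ^ (944 * T) := by
    have hpi := Real.pi_lt_d4
    have h2 : 50 * Real.pi * (3 * 100 ^ k) ≤ ((472 * T : ℕ) : ℝ) * 1 := by
      rw [hTr]; push_cast
      have : (0:ℝ) ≤ (T:ℝ) := by positivity
      nlinarith
    have h3 : Real.exp (((472 * T : ℕ) : ℝ) * 1) = Real.exp 1 ^ (472 * T) := by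
      rw [Real.exp_nat_mul]
    have h4 : Real.exp 1 ≤ 4 := by have := Real.exp_one_lt_d9; linarith
    calc Real.exp (50 * Real.pi * (3 * 100 ^ k)) ≤ Real.exp (((472 * T : ℕ) : ℝ) * 1) := Real.exp_le_exp.mpr h2
      _ = Real.exp 1 ^ (472 * T) := h3
      _ ≤ 4 ^ (472 * T) := pow_le_pow_left₀ (Real.exp_pos _).le h4 _
      _ = 2 ^ (944 * T) := by
          rw [show (4:ℝ) = 2 ^ 2 by norm_num, ← pow_mul]
          congr 1; ring
  have hTT : ((T:ℝ)) ≤ 2 ^ T := by exact_mod_cast (Nat.lt_two_pow_self (n := T)).le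
  have h250 : (250:ℝ) ^ k ≤ 2 ^ (2 * T) := by
    calc (250:ℝ) ^ k ≤ (100 ^ 2) ^ k := pow_le_pow_left₀ (by norm_num) (by norm_num) _
      _ = (100 ^ k) ^ 2 := by rw [← pow_mul, ← pow_mul, mul_comm]
      _ = (T:ℝ) ^ 2 := by rw [hTr]
      _ ≤ (2 ^ T) ^ 2 := pow_le_pow_left₀ (by positivity) hTT 2
      _ = 2 ^ (2 * T) := by rw [← pow_mul, mul_comm]
  have h1' : 1 + Real.exp (50 * Real.pi * (3 * 100 ^ k)) ≤ 2 * 2 ^ (944 * T) := by
    have : (1:ℝ) ≤ 2 ^ (944 * T) := one_le_pow₀ (by norm_num)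
    linarith
  have hlast : ((13.5 * 8000 * 8 : ℝ)) ≤ 2 ^ (20 * T) := by
    calc ((13.5 * 8000 * 8 : ℝ)) ≤ 2 ^ 20 := by norm_num
      _ ≤ 2 ^ (20 * T) := pow_le_pow_right₀ (by norm_num) (by omega)
  rw [hTr]
  have hA : 13.5 * (T:ℝ) * ((1 + Real.exp (50 * Real.pi * (3 * T))) * (4000 * 250 ^ k)) ≤
      13.5 * 2 ^ T * ((2 * 2 ^ (944 * T)) * (4000 * 2 ^ (2 * T))) := by
    rw [hTr] at h1'
    gcongr
  have hB : 8 * (13.5 * 2 ^ T * ((2 * 2 ^ (944 * T)) * (4000 * 2 ^ (2 * T)))) ≤ (2:ℝ) ^ (967 * T) := by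
    have e : 8 * (13.5 * 2 ^ T * ((2 * 2 ^ (944 * T)) * (4000 * 2 ^ (2 * T)))) =
      (13.5 * 8000 * 8 : ℝ) * (2:ℝ) ^ (947 * T) := by
      have : (947 * T) = T + 944 * T + 2 * T := by ring
      rw [this, pow_add, pow_add]; ring
    rw [e]
    calc (13.5 * 8000 * 8 : ℝ) * (2:ℝ) ^ (947 * T) ≤ 2 ^ (20 * T) * (2:ℝ) ^ (947 * T) := by gcongr
      _ = 2 ^ (967 * T) := by rw [← pow_add]; congr 1; ring
  have hC : (2:ℝ) ^ (967 * T) ≤ 2 ^ (1000 * T) := pow_le_pow_right₀ (by norm_num) (by omega)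
  have hD : (2:ℝ) ^ (1000 * T) * (1/2) ^ (1000 * T) = 1 := by
    rw [← mul_pow]; norm_num
  have hE : (0:ℝ) < (1/2) ^ (1000 * T) := by positivity
  have hF := mul_le_mul_of_nonneg_right (hA.trans (by linarith : _ ≤ (1/8:ℝ) * 2 ^ (1000 * T))) hE.le
  rw [mul_assoc (1/8:ℝ), hD] at hF
  linarith

theorem eps_eq (p q k m : ℕ) : (((1/2:ℝ) ^ (3 ^ p * (3 ^ q) ^ k * m)) ^ (((1:ℝ)/3) ^ p)) ^ ((((1:ℝ)/3) ^ q) ^ k) =
    (1/2) ^ m := by
  rw [← Real.rpow_natCast (1/2:ℝ) (3 ^ p * (3 ^ q) ^ k * m), ← Real.rpow_mul (by positivity), ← Real.rpow_mul (by positivity), ← Real.rpow_natCast (1/2:ℝ) m]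
  congr 1
  push_cast
  have h1 : (3:ℝ) ^ p * ((1:ℝ)/3) ^ p = 1 := by rw [← mul_pow]; norm_num
  have h2 : ((3:ℝ) ^ q) ^ k * (((1:ℝ)/3) ^ q) ^ k = 1 := by
    rw [← mul_pow, ← mul_pow]; norm_num
  calc (3:ℝ) ^ p * ((3:ℝ) ^ q) ^ k * (m:ℝ) * (((1:ℝ)/3) ^ p * (((1:ℝ)/3) ^ q) ^ k)
      = ((3:ℝ) ^ p * ((1:ℝ)/3) ^ p) * (((3:ℝ) ^ q) ^ k * (((1:ℝ)/3) ^ q) ^ k) * (m:ℝ) := by ring
    _ = (m:ℝ) := by rw [h1, h2]; ring

noncomputable def cfun (k : ℕ) (ζ : ℂ) : ℂ :=
  (1 - Complex.exp (50 * Real.pi * ζ)) * deriv (phi^[k]) ζ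

/-- the degree used at depth `k` -/
def deg (k : ℕ) : ℕ := 3 ^ 100 * (3 ^ 1400) ^ k * (1000 * 100 ^ k)

theorem tube_approx {k : ℕ} (hk : 1 ≤ k) :
    ∃ a : Fin (deg k + 1) → ℂ, (∀ j, ‖a j‖ ≤ 2 ^ deg k) ∧
      ∀ ζ ∈ wall0 k, ‖(1 - Complex.exp (50 * Real.pi * ζ)) - ∑ j, a j * (phi^[k] ζ) ^ (j:ℕ)‖ ≤ 1/8 := by
  set K : Set ℂ := phi^[k] '' wall0 k with hK
  have hKc : IsCompact K := (isCompact_wall0 k).image (continuous_phi.iterate k)
  have hcs : CompactSpace K := isCompact_iff_compactSpace.mp hKc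
  have hK1 : ∀ z ∈ K, ‖z‖ ≤ 1 := by
    rintro _ ⟨ζ, hζ, rfl⟩
    linarith [wall0_iter_norm hk hζ]
  set T : ℝ := (100:ℝ) ^ k with hT
  have hT1 : 100 ≤ T := by
    calc (100:ℝ) = 100 ^ 1 := by norm_num
      _ ≤ 100 ^ k := pow_le_pow_right₀ (by norm_num) hk
  set A : ℝ := 3 * T with hA
  have hA0 : 0 < A := by positivity
  have hh0 : (0:ℝ) < 3/8 := by norm_num
  have hst : ∀ {a : ℂ}, a ∈ strip (1/50) → a ∈ strip (1/2) := fun h => strip_mono (by norm_num) h
  have hbds : ∀ z ∈ bd A (3/8), z ∈ strip (1/2) := by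
    intro z hz
    exact le_trans hz.2.1 (by norm_num)
  have hbdK : ∀ z ∈ bd A (3/8), phi^[k] z ∉ K := by
    rintro z hz ⟨ζ, hζ, h⟩
    have h1 := iter_injOn k (hst (wall0_strip hζ)) (hbds z hz) h
    rw [h1] at hζ
    have h2 := wall_norm hk hζ
    rcases hz.2.2 with h3 | h3
    · rw [h3] at h2; rw [← hT] at h2; linarith [h2.1]
    · rw [h3] at h2; linarith [h2.2]
  have hcd : Differentiable ℂ (cfun k) := by
    apply Differentiable.mul
    · fun_prop
    · exact (differentiable_iter k).deriv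
  -- the integrand
  set φ : ℂ → C(K, ℂ) := fun ζ => cfun k ζ • ker K (phi^[k] ζ) with hφ
  have hφc : ContinuousOn φ (bd A (3/8)) := by
    intro z hz
    apply ContinuousAt.continuousWithinAt
    have h1 : ContinuousAt (ker K) (phi^[k] z) := (ker_differentiableAt K _ (hbdK z hz)).continuousAt
    have h2 : ContinuousAt (fun ζ => ker K (phi^[k] ζ)) z :=
      ContinuousAt.comp (g := ker K) h1 (differentiable_iter k z).continuousAt
    exact ContinuousAt.smul (hcd z).continuousAt h2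
  set u : C(K, ℂ) := (2 * Real.pi * Complex.I : ℂ)⁻¹ • rectInt φ A (3/8) with hu
  have hpi0 : (2 * Real.pi * Complex.I : ℂ) ≠ 0 := by
    simp [Real.pi_ne_zero]
  have hueval : ∀ v (hv : v ∈ wall0 k), u ⟨phi^[k] v, ⟨v, hv, rfl⟩⟩ = 1 - Complex.exp (50 * Real.pi * v) := by
    intro v hv
    set x : K := ⟨phi^[k] v, ⟨v, hv, rfl⟩⟩ with hx
    have hvs : v ∈ strip (1/50) := wall0_strip hv
    have hvn := wall_norm hk hv
    have h1 : u x = (2 * Real.pi * Complex.I : ℂ)⁻¹ * (rectInt φ A (3/8)) x := rfl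
    have h2 : (rectInt φ A (3/8)) x = rectInt (fun ζ => (φ ζ) x) A (3/8) := by
      have := rectInt_clm (ContinuousMap.evalCLM ℂ x : C(K, ℂ) →L[ℂ] ℂ) hA0.le hh0.le hφc
      exact this
    set U : Set ℂ := {z | |z.im| < 1/2} with hU
    have hUo : IsOpen U := isOpen_lt Complex.continuous_im.abs continuous_const
    have hvU : v ∈ U := lt_of_le_of_lt (show |v.im| ≤ 1/50 from hvs) (show (1/50:ℝ) < 1/2 by norm_num)
    have hds : DifferentiableOn ℂ (dslope (phi^[k]) v) U :=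
      (Complex.differentiableOn_dslope (hUo.mem_nhds hvU)).mpr (differentiable_iter k).differentiableOn
    have hdne : ∀ ζ ∈ U, dslope (phi^[k]) v ζ ≠ 0 := by
      intro ζ hζ
      by_cases hζv : ζ = v
      · rw [hζv, dslope_same]
        exact (iter_deriv k (hst hvs)).2
      · rw [dslope_of_ne _ hζv, slope_def_field]
        apply div_ne_zero
        · intro h0
          apply hζv
          have hζ2 : |ζ.im| ≤ 1/2 := le_of_lt (show |ζ.im| < 1/2 from hζ)
          apply iter_injOn k (show ζ ∈ strip (1/2) from hζ2) (hst hvs)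
          linear_combination h0
        · exact sub_ne_zero.mpr hζv
    set g : ℂ → ℂ := fun ζ => cfun k ζ / dslope (phi^[k]) v ζ with hg
    have hgd : DifferentiableOn ℂ g U := hcd.differentiableOn.div hds hdne
    have h3 : rectInt (fun ζ => (φ ζ) x) A (3/8) = rectInt (fun ζ => g ζ * (ζ - v)⁻¹) A (3/8) := by
      apply rectInt_congr hA0.le hh0.le
      intro ζ hζ
      have hζv : ζ ≠ v := by
        rintro rfl
        exact hbdK ζ hζ ⟨ζ, hv, rfl⟩
      obtain ⟨b, hb, hkb, _⟩ := ker_mul K (phi^[k] ζ) (hbdK ζ hζ)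
      have h4 : (φ ζ) x = cfun k ζ * (phi^[k] ζ - phi^[k] v)⁻¹ := by
        simp only [hφ]
        rw [ContinuousMap.smul_apply, hkb, hb, smul_eq_mul]
      rw [h4]
      simp only [hg]
      rw [dslope_of_ne _ hζv, slope_def_field]
      have h5 : phi^[k] ζ - phi^[k] v ≠ 0 := by
        intro h0
        apply hζv
        apply iter_injOn k (hbds ζ hζ) (hst hvs)
        linear_combination h0
      have h6 : ζ - v ≠ 0 := sub_ne_zero.mpr hζv
      field_simp
    have h4 : rectInt (fun ζ => g ζ * (ζ - v)⁻¹) A (3/8) = 2 * Real.pi * Complex.I * g v := by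
      apply cauchy_rect hUo _ _ _ hgd
      · rw [hA]; linarith [hvn.1]
      · linarith [hvn.2]
      · intro z _ hz
        exact lt_of_le_of_lt hz (by norm_num)
    rw [h1, h2, h3, h4, ← mul_assoc, inv_mul_cancel₀ hpi0, one_mul]
    simp only [hg, cfun]
    rw [dslope_same, mul_div_assoc, div_self (iter_deriv k (hst hvs)).2, mul_one]
  have H := approx2 K hK1 (deg k) u (by
    intro Λ hΛ hΛinf
    set F : ℂ → ℂ := fun w => Λ (ker K w) with hF
    have hFd : DifferentiableOn ℂ F Kᶜ := by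
      intro w hw
      exact (Λ.differentiableAt.comp w (ker_differentiableAt K w hw)).differentiableWithinAt
    have hFb : ∀ w ∉ K, ∀ δ > 0, (∀ z ∈ K, δ ≤ ‖w - z‖) → ‖F w‖ ≤ δ⁻¹ := by
      intro w hw δ hδ h
      exact (hΛ _).trans (ker_norm K w hw hδ h)
    set ε : ℝ := (((1/2:ℝ) ^ (deg k)) ^ (((1:ℝ)/3) ^ 100)) ^ ((((1:ℝ)/3) ^ 1400) ^ k) with hε
    have hεe : ε = (1/2) ^ (1000 * 100 ^ k) := by rw [hε, deg, eps_eq]
    have hmain := main_prop k (deg k) (Z := wall0 k) (fun z hz => wall0_strip hz) (isCompact_wall0 k)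
      hFd hFb hΛinf k le_rfl
    have hε0 : 0 < ε := by rw [hεe]; positivity
    have hdegle : 1000 * 100 ^ k ≤ deg k := by
      rw [deg]
      exact Nat.le_mul_of_pos_left _ (by positivity)
    have hb1 : ∀ z ∈ bd A (3/8), ‖F (phi^[k] z)‖ ≤ (4000 * 250 ^ k) * ε := by
      intro z hz
      rcases hz.2.2 with h3 | h3
      · -- vertical side
        have h4 : 2 ≤ ‖phi^[k] z‖ := by
          have h5 := (iter_norm (k := k) (hbds z hz)).1
          have h6 : 3 ≤ ‖z‖ / 100 ^ k := by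
            rw [le_div_iff₀ (by positivity)]
            have := Complex.abs_re_le_norm z
            rw [h3] at this
            exact this
          linarith
        refine (hΛinf _ h4).trans ?_
        have h5 : (1/2:ℝ) ^ (deg k) ≤ ε := by
          rw [hεe]
          exact pow_le_pow_of_le_one (by norm_num) (by norm_num) hdegle
        have h6 : (1:ℝ) ≤ 4000 * 250 ^ k := by
          have : (1:ℝ) ≤ 250 ^ k := one_le_pow₀ (by norm_num)
          linarith
        nlinarith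
      · apply hmain z
        · rw [h3]; norm_num
        · rw [h3]; norm_num
    have hc1 : ∀ z ∈ bd A (3/8), ‖cfun k z‖ ≤ 1 + Real.exp (50 * Real.pi * (3 * 100 ^ k)) := by
      intro z hz
      rw [cfun, norm_mul]
      have h1 := (iter_deriv k (hbds z hz)).1
      have h2 : ‖1 - Complex.exp (50 * Real.pi * z)‖ ≤ 1 + Real.exp (50 * Real.pi * (3 * 100 ^ k)) := by
        refine (norm_sub_le _ _).trans ?_
        rw [norm_one, Complex.norm_exp]
        gcongr
        have e : ((50 * Real.pi : ℂ) * z).re = (50 * Real.pi) * z.re := by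
          have : (50 * Real.pi : ℂ) = ((50 * Real.pi : ℝ) : ℂ) := by push_cast; ring
          rw [this, Complex.re_ofReal_mul]
        rw [e]
        apply mul_le_mul_of_nonneg_left _ (by positivity)
        exact (le_abs_self _).trans hz.1
      calc ‖1 - Complex.exp (50 * Real.pi * z)‖ * ‖deriv (phi^[k]) z‖ ≤
          (1 + Real.exp (50 * Real.pi * (3 * 100 ^ k))) * 1 := by
            apply mul_le_mul h2 h1 (norm_nonneg _) (by positivity)
        _ = _ := mul_one _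
    have h1 : Λ u = (2 * Real.pi * Complex.I : ℂ)⁻¹ * rectInt (fun ζ => cfun k ζ * F (phi^[k] ζ)) A (3/8) := by
      rw [hu, map_smul, smul_eq_mul]
      congr 1
      have := rectInt_clm Λ hA0.le hh0.le hφc
      rw [this]
      congr 1
      ext ζ
      simp only [hφ]
      rw [map_smul, smul_eq_mul]
    have h2 : ‖rectInt (fun ζ => cfun k ζ * F (phi^[k] ζ)) A (3/8)‖ ≤
        ((1 + Real.exp (50 * Real.pi * (3 * 100 ^ k))) * ((4000 * 250 ^ k) * ε)) * (4 * A + 4 * (3/8)) := by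
      apply rectInt_norm hA0.le hh0.le
      intro z hz
      rw [norm_mul]
      exact mul_le_mul (hc1 z hz) (hb1 z hz) (norm_nonneg _) (by positivity)
    have h3 : ‖(2 * Real.pi * Complex.I : ℂ)⁻¹‖ ≤ 1/6 := by
      rw [norm_inv, norm_mul, norm_mul, Complex.norm_I, Complex.norm_real, Real.norm_eq_abs,
        abs_of_pos Real.pi_pos]
      have := Real.pi_gt_three
      rw [one_div]
      apply inv_anti₀ (by norm_num)
      simp
      linarith
    rw [h1, norm_mul]
    have hnum := numeric k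
    have h4 : 4 * A + 4 * (3/8) ≤ 13.5 * (100:ℝ) ^ k := by
      rw [hA]; linarith
    rw [← hεe] at hnum
    have hP : 0 ≤ (1 + Real.exp (50 * Real.pi * (3 * 100 ^ k))) * ((4000 * 250 ^ k) * ε) := by positivity
    calc ‖(2 * Real.pi * Complex.I : ℂ)⁻¹‖ * ‖rectInt (fun ζ => cfun k ζ * F (phi^[k] ζ)) A (3/8)‖
        ≤ 1/6 * (((1 + Real.exp (50 * Real.pi * (3 * 100 ^ k))) * ((4000 * 250 ^ k) * ε)) * (13.5 * (100:ℝ) ^ k)) := by
          apply mul_le_mul h3 (h2.trans (mul_le_mul_of_nonneg_left h4 hP)) (norm_nonneg _) (by norm_num)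
      _ = 1/6 * (13.5 * (100:ℝ) ^ k * ((1 + Real.exp (50 * Real.pi * (3 * 100 ^ k))) * (4000 * 250 ^ k)) * ε) := by ring
      _ < 1/8 := by linarith)
  obtain ⟨a, ha, haK⟩ := H
  refine ⟨a, ha, ?_⟩
  intro ζ hζ
  have := haK ⟨phi^[k] ζ, ⟨ζ, hζ, rfl⟩⟩
  rw [hueval ζ hζ] at this
  exact this

end Pool.Agent.H32.EscapePoly
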