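import Pool.Agent.H32.EscapePolyB

/-!
# Long escape paths in polynomial lemniscates: conclusion

The polynomials with long escape paths, and the lower bound `n ^ (1/30000) / 100`.
-/

open Set Metric Filter Topology Polynomial

namespace Pool.Agent.H32.EscapePoly

open MeasureTheory Pool.Agent.H32.EscapeLower
open scoped ENNReal

theorem construct2 (K : Set ℂ) (hK : ∀ z ∈ K, ‖z‖ ≤ 3/4) (n : ℕ)
    (a : Fin (n+1) → ℂ) (ha : ∀ k, ‖a k‖ ≤ 2 ^ n)
    (haK : ∀ z ∈ K, 1/2 ≤ (z * ∑ k, a k * z ^ (k:ℕ)).re) (N : ℕ) (hN : 11 * (n+1) ≤ N) :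
    ∃ f : ℂ[X], f.Monic ∧ f.natDegree = N ∧ (∀ z : ℂ, f.IsRoot z → ‖z‖ ≤ 1) ∧
      ∀ z ∈ K, 1 < ‖f.eval z‖ := by
  classical
  set P : ℝ := (n+1) * 2 ^ n with hP
  have hP1 : 1 ≤ P := by
    rw [hP]
    have h1 : (1:ℝ) ≤ 2 ^ n := one_le_pow₀ (by norm_num)
    have h2 : (0:ℝ) ≤ n := Nat.cast_nonneg n
    nlinarith
  set ε : ℝ := 1 / (2 * P) with hε
  have hε0 : 0 < ε := by positivity
  have hεP : ε * P = 1/2 := by rw [hε]; field_simp
  have hε1 : ε ≤ 1/2 := by nlinarith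
  set b : ℕ → ℂ := fun k => if h : k - 1 < n + 1 then (if k = 0 then 1 else (ε:ℂ) * a ⟨k-1, h⟩) else 0 with hb
  have hb0 : b 0 = 1 := by simp [hb]
  have hbs : ∀ k : Fin (n+1), b ((k:ℕ)+1) = ε * a k := by
    intro k
    have : (k:ℕ) + 1 - 1 < n + 1 := by have := k.2; omega
    simp only [hb, this, dif_pos, Nat.add_eq_zero_iff, one_ne_zero, and_false, if_false]
    congr 2
  have hgev : ∀ z : ℂ, (gpoly b (n+1)).eval z = 1 + ε * (z * ∑ k, a k * z ^ (k:ℕ)) := by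
    intro z
    rw [gpoly_eval, Finset.sum_range_succ' (fun k => b k * z ^ k)]
    rw [← Fin.sum_univ_eq_sum_range (fun k => b (k+1) * z ^ (k+1)), hb0, Finset.mul_sum,
      Finset.mul_sum, add_comm]
    congr 1
    · simp
    · apply Finset.sum_congr rfl
      intro k _
      rw [hbs k, pow_succ]; ring
  have hQ : ∀ z : ℂ, ‖z‖ ≤ 1 → ‖z * ∑ k, a k * z ^ (k:ℕ)‖ ≤ P := by
    intro z hz
    rw [norm_mul]
    have h1 : ‖∑ k, a k * z ^ (k:ℕ)‖ ≤ ∑ k : Fin (n+1), (2:ℝ) ^ n := by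
      apply norm_sum_le_of_le
      intro k _
      rw [norm_mul, norm_pow]
      calc ‖a k‖ * ‖z‖ ^ (k:ℕ) ≤ 2 ^ n * 1 := by
            apply mul_le_mul (ha k) (pow_le_one₀ (norm_nonneg _) hz) (by positivity) (by positivity)
        _ = 2 ^ n := mul_one _
    simp only [Finset.sum_const, Finset.card_univ, Fintype.card_fin, nsmul_eq_mul] at h1
    push_cast at h1
    calc ‖z‖ * ‖∑ k, a k * z ^ (k:ℕ)‖ ≤ 1 * P := by
          apply mul_le_mul hz h1 (norm_nonneg _) zero_le_one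
      _ = P := one_mul _
  have hg : ∀ z : ℂ, ‖z‖ ≤ 1 → (gpoly b (n+1)).eval z ≠ 0 := by
    intro z hz h0
    rw [hgev] at h0
    have h1 : ‖(ε:ℂ) * (z * ∑ k, a k * z ^ (k:ℕ))‖ ≤ 1/2 := by
      rw [norm_mul, Complex.norm_real, Real.norm_eq_abs, abs_of_pos hε0, ← hεP]
      exact mul_le_mul_of_nonneg_left (hQ z hz) hε0.le
    have h2 : (ε:ℂ) * (z * ∑ k, a k * z ^ (k:ℕ)) = -1 := by linear_combination h0
    rw [h2] at h1
    simp at h1
    linarith
  have hNd : n + 1 < N := by omega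
  obtain ⟨h1, h2, h3, h4⟩ := f_facts b hb0 hNd hg
  refine ⟨_, h1, h2, h3, ?_⟩
  intro z hz
  have hz34 := hK z hz
  have h5 := h4 z (by linarith)
  -- real part of g
  have hre : 1 + ε / 2 ≤ ‖(gpoly b (n+1)).eval z‖ := by
    have h7 := haK z hz
    have h8 : ((gpoly b (n+1)).eval z).re = 1 + ε * (z * ∑ k, a k * z ^ (k:ℕ)).re := by
      rw [hgev, Complex.add_re, Complex.one_re, Complex.re_ofReal_mul]
    have h9 := Complex.re_le_norm ((gpoly b (n+1)).eval z)
    rw [h8] at h9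
    nlinarith
  -- smallness of the power
  have hpow : ‖z‖ ^ (N - (n+1)) ≤ ε / 4 := by
    have hNn : 10 * (n+1) ≤ N - (n+1) := by omega
    calc ‖z‖ ^ (N - (n+1)) ≤ (3/4 : ℝ) ^ (N - (n+1)) := pow_le_pow_left₀ (norm_nonneg _) hz34 _
      _ ≤ (3/4 : ℝ) ^ (10 * (n+1)) := pow_le_pow_of_le_one (by norm_num) (by norm_num) hNn
      _ = ((3/4 : ℝ) ^ 10) ^ (n+1) := by rw [pow_mul]
      _ ≤ (1/16 : ℝ) ^ (n+1) := pow_le_pow_left₀ (by positivity) (by norm_num) _
      _ ≤ ε / 4 := by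
        rw [hε, hP, one_div_pow, div_div, one_div_le_one_div (by positivity) (by positivity)]
        have e1 : (16:ℝ) ^ (n+1) = 16 * (2 ^ n * 8 ^ n) := by
          rw [← mul_pow, pow_succ]; norm_num; ring
        have e2 : ((n:ℝ) + 1) ≤ 8 ^ n := by
          have := one_add_mul_le_pow (show (-2:ℝ) ≤ 7 by norm_num) n
          have h' : (0:ℝ) ≤ n := Nat.cast_nonneg n
          norm_num at this
          linarith
        rw [e1]
        have e3 : (0:ℝ) < 2 ^ n := by positivity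
        nlinarith
  have h10 : 0 ≤ 1 - ε/4 := by linarith
  calc (1:ℝ) < (1 - ε/4) * (1 + ε/2) := by nlinarith
    _ ≤ (1 - ‖z‖ ^ (N - (n+1))) * ‖(gpoly b (n+1)).eval z‖ := by
      apply mul_le_mul (by linarith) hre (by linarith)
      linarith
    _ ≤ _ := h5

theorem iter_zero (k : ℕ) : phi^[k] 0 = 0 := by
  induction k with
  | zero => rfl
  | succ k ih => rw [Function.iterate_succ_apply, phi_zero, ih]

theorem wall_re {k : ℕ} {ζ : ℂ} (hζ : ζ ∈ wall k) : 3/4 ≤ (1 - Complex.exp (50 * Real.pi * ζ)).re := by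
  have e : (50 * Real.pi : ℂ) = ((50 * Real.pi : ℝ) : ℂ) := by push_cast; ring
  have hre : ((50 * Real.pi : ℂ) * ζ).re = (50 * Real.pi) * ζ.re := by rw [e, Complex.re_ofReal_mul]
  have him : ((50 * Real.pi : ℂ) * ζ).im = (50 * Real.pi) * ζ.im := by rw [e, Complex.im_ofReal_mul]
  rw [Complex.sub_re, Complex.one_re]
  rcases hζ.2.2.2 with h | h
  · have hcos : Real.cos ((50 * Real.pi) * ζ.im) = -1 := by
      rcases abs_eq (by norm_num : (0:ℝ) ≤ 1/50) |>.mp h with h1 | h1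
      · rw [h1, show (50 * Real.pi) * (1/50) = Real.pi by ring, Real.cos_pi]
      · rw [h1, show (50 * Real.pi) * (-(1/50)) = -Real.pi by ring, Real.cos_neg, Real.cos_pi]
    rw [Complex.exp_re, hre, him, hcos]
    have := Real.exp_pos (50 * Real.pi * ζ.re)
    linarith
  · have h1 : (Complex.exp (50 * Real.pi * ζ)).re ≤ Real.exp (-(50 * Real.pi)) := by
      refine (Complex.re_le_norm _).trans ?_
      rw [Complex.norm_exp, hre, h]
      apply le_of_eq; congr 1; ring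
    have h2 : Real.exp (-(50 * Real.pi)) ≤ 1/4 := by
      have h3 : Real.exp (-(50 * Real.pi)) ≤ Real.exp (-3) := by
        apply Real.exp_le_exp.mpr
        have := Real.pi_gt_three
        linarith
      have h4 : Real.exp (-3) * Real.exp 3 = 1 := by rw [← Real.exp_add]; norm_num
      have h5 : (4:ℝ) ≤ Real.exp 3 := by
        have := Real.add_one_le_exp (3:ℝ); linarith
      have h6 := Real.exp_pos (-3)
      nlinarith
    linarith

theorem barrier_exists {k : ℕ} (hk : 1 ≤ k) {N : ℕ} (hN : 11 * (deg k + 1) ≤ N) :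
    ∃ f : ℂ[X], f.Monic ∧ f.natDegree = N ∧ (∀ z : ℂ, f.IsRoot z → ‖z‖ ≤ 1) ∧
      ∀ z ∈ phi^[k] '' wall k, 1 < ‖f.eval z‖ := by
  obtain ⟨a, ha, haK⟩ := tube_approx hk
  set a' : Fin (deg k + 1) → ℂ := fun j => if h : (j:ℕ) + 1 < deg k + 1 then a ⟨j + 1, h⟩ else 0 with ha'
  have hsum : ∀ z : ℂ, z * ∑ j, a' j * z ^ (j:ℕ) = (∑ j, a j * z ^ (j:ℕ)) - a 0 := by
    intro z
    rw [Fin.sum_univ_succ (fun j => a j * z ^ (j:ℕ)), Fin.sum_univ_castSucc (fun j => a' j * z ^ (j:ℕ))]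
    have h1 : a' (Fin.last (deg k)) = 0 := by
      simp [ha']
    rw [h1, zero_mul, add_zero, Finset.mul_sum]
    simp only [Fin.val_zero, pow_zero, mul_one]
    rw [add_sub_cancel_left]
    apply Finset.sum_congr rfl
    intro j _
    have h2 : a' j.castSucc = a j.succ := by
      have h3 : (j:ℕ) + 1 < deg k + 1 := by have := j.2; omega
      simp only [ha', Fin.val_castSucc, h3, dif_pos]
      rfl
    rw [h2, Fin.val_succ, Fin.val_castSucc, pow_succ]
    ring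
  have ha0 : ‖a 0‖ ≤ 1/8 := by
    have h1 := haK 0 (Or.inr rfl)
    have h2 : ∑ j, a j * (phi^[k] 0) ^ (j:ℕ) = a 0 := by
      rw [iter_zero, Fin.sum_univ_succ]
      simp
    rw [h2] at h1
    simpa using h1
  refine construct2 (phi^[k] '' wall k) ?_ (deg k) a' ?_ ?_ N hN
  · rintro _ ⟨ζ, hζ, rfl⟩
    exact wall0_iter_norm hk (Or.inl hζ)
  · intro j
    simp only [ha']
    split_ifs with h
    · exact ha _
    · simp
  · rintro _ ⟨ζ, hζ, rfl⟩
    rw [hsum]
    have h1 := haK ζ (Or.inl hζ)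
    have h2 := wall_re hζ
    have h3 := (Complex.re_le_norm _).trans h1
    have h4 := (Complex.re_le_norm _).trans ha0
    rw [Complex.sub_re] at h3 ⊢
    linarith

theorem tube_path {k : ℕ} {g : ℝ → ℂ} (hg : Continuous g) (h0 : g 0 = 0) (h1 : ‖g 1‖ = 1)
    (havoid : ∀ t ∈ Icc (0:ℝ) 1, g t ∉ phi^[k+1] '' wall (k+1)) :
    ENNReal.ofReal (0.018 * 1.068 ^ k) ≤ μH[1] (g '' Icc 0 1) := by
  set R : Set ℂ := {z | (-1 ≤ z.re ∧ z.re ≤ (100:ℝ) ^ (k+1) / 2) ∧ |z.im| ≤ 1/50} with hR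
  set Ri : Set ℂ := {z | (-1 < z.re ∧ z.re < (100:ℝ) ^ (k+1) / 2) ∧ |z.im| < 1/50} with hRi
  have h100 : (100:ℝ) ≤ 100 ^ (k+1) := by
    calc (100:ℝ) = 100 ^ 1 := by norm_num
      _ ≤ 100 ^ (k+1) := pow_le_pow_right₀ (by norm_num) (by omega)
  have hst : ∀ {a : ℂ}, a ∈ strip (1/50) → a ∈ strip (1/2) := fun h => strip_mono (by norm_num) h
  have hRs : ∀ z ∈ R, z ∈ strip (1/2) := fun z hz => hst hz.2
  have hRiR : Ri ⊆ R := fun z hz => ⟨⟨hz.1.1.le, hz.1.2.le⟩, hz.2.le⟩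
  have hRc : IsCompact R := by
    rw [isCompact_iff_isClosed_bounded]
    constructor
    · have a1 : IsClosed {z : ℂ | -1 ≤ z.re} := isClosed_le continuous_const Complex.continuous_re
      have a2 : IsClosed {z : ℂ | z.re ≤ (100:ℝ) ^ (k+1) / 2} := isClosed_le Complex.continuous_re continuous_const
      have a3 : IsClosed {z : ℂ | |z.im| ≤ 1/50} := isClosed_le Complex.continuous_im.abs continuous_const
      exact (a1.inter a2).inter a3
    · rw [isBounded_iff_forall_norm_le]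
      refine ⟨100 ^ (k+1) / 2 + 1/50, fun z hz => ?_⟩
      have b1 := Complex.norm_le_abs_re_add_abs_im z
      have b2 : |z.re| ≤ 100 ^ (k+1) / 2 := abs_le.mpr ⟨by linarith [hz.1.1], by linarith [hz.1.2]⟩
      linarith [hz.2]
  have hRio : IsOpen Ri := by
    have a1 : IsOpen {z : ℂ | -1 < z.re} := isOpen_lt continuous_const Complex.continuous_re
    have a2 : IsOpen {z : ℂ | z.re < (100:ℝ) ^ (k+1) / 2} := isOpen_lt Complex.continuous_re continuous_const
    have a3 : IsOpen {z : ℂ | |z.im| < 1/50} := isOpen_lt Complex.continuous_im.abs continuous_const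
    exact (a1.inter a2).inter a3
  set f : ℂ → ℂ := phi^[k+1] with hf
  have hfc : Continuous f := continuous_phi.iterate (k+1)
  set O : Set ℂ := f '' Ri with hO
  have hOo : IsOpen O := by
    rw [isOpen_iff_mem_nhds]
    rintro _ ⟨z, hz, rfl⟩
    have hzs : z ∈ strip (1/2) := hRs z (hRiR hz)
    have hsd : HasStrictDerivAt f (deriv f z) z := by
      have : AnalyticAt ℂ f z := (differentiable_iter (k+1)).analyticAt z
      exact this.hasStrictDerivAt
    rw [← hsd.map_nhds_eq (iter_deriv (k+1) hzs).2]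
    exact Filter.image_mem_map (hRio.mem_nhds hz)
  have hCc : IsCompact (f '' R) := hRc.image hfc
  have hCn : ∀ w ∈ f '' R, ‖w‖ ≤ 3/4 := by
    rintro _ ⟨z, hz, rfl⟩
    have b1 := Complex.norm_le_abs_re_add_abs_im z
    have b2 : |z.re| ≤ 100 ^ (k+1) / 2 := abs_le.mpr ⟨by linarith [hz.1.1], by linarith [hz.1.2]⟩
    have b3 := (iter_norm (k := k+1) (hRs z hz)).2
    have b4 : ‖z‖ / 100 ^ (k+1) ≤ 1/2 + 1/50 := by
      rw [div_le_iff₀ (by positivity)]
      nlinarith [hz.2]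
    linarith
  -- the first exit time
  set S : Set ℝ := {t | t ∈ Icc (0:ℝ) 1 ∧ g t ∉ O} with hS
  have hSc : IsClosed S := by
    have : S = Icc (0:ℝ) 1 ∩ g ⁻¹' Oᶜ := rfl
    rw [this]
    exact isClosed_Icc.inter (hOo.isClosed_compl.preimage hg)
  have hSne : S.Nonempty := by
    refine ⟨1, ⟨by norm_num, by norm_num⟩, ?_⟩
    intro hmem
    have := hCn _ (image_mono hRiR hmem)
    rw [h1] at this
    norm_num at this
  have hSb : BddBelow S := ⟨0, fun t ht => ht.1.1⟩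
  set t1 := sInf S with ht1
  have ht1S : t1 ∈ S := hSc.csInf_mem hSne hSb
  have hlt : ∀ t ∈ Icc (0:ℝ) 1, t < t1 → g t ∈ O := by
    intro t ht htt
    by_contra hcon
    have : t1 ≤ t := csInf_le hSb ⟨ht, hcon⟩
    linarith
  have ht1pos : 0 < t1 := by
    rcases eq_or_lt_of_le ht1S.1.1 with h | h
    · exfalso
      apply ht1S.2
      rw [← h, h0]
      refine ⟨0, ⟨⟨by simp, ?_⟩, by simp⟩, ?_⟩
      · simp only [Complex.zero_re]; positivity
      · simp only [hf]; exact iter_zero _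
    · exact h
  have hmemC : ∀ t ∈ Icc (0:ℝ) t1, g t ∈ f '' R := by
    intro t ht
    rcases eq_or_lt_of_le ht.2 with h | h
    · -- limit point
      have hcl : g t1 ∈ closure (f '' R) := by
        have hmem : t1 ∈ closure (Ico (0:ℝ) t1) := by
          rw [closure_Ico ht1pos.ne]
          exact ⟨ht1pos.le, le_rfl⟩
        have h2 := image_closure_subset_closure_image hg (mem_image_of_mem g hmem)
        apply closure_mono _ h2
        rintro _ ⟨s, hs, rfl⟩
        exact image_mono hRiR (hlt s ⟨hs.1, hs.2.le.trans ht1S.1.2⟩ hs.2)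
      rw [hCc.isClosed.closure_eq] at hcl
      rw [h]; exact hcl
    · exact image_mono hRiR (hlt t ⟨ht.1, ht.2.trans ht1S.1.2⟩ h)
  -- the inverse map
  have : Nonempty ℂ := ⟨0⟩
  have hinj : InjOn f R := (iter_injOn (k+1)).mono hRs
  set v : ℂ → ℂ := Function.invFunOn f R with hv
  have hvl : ∀ z ∈ R, v (f z) = z := fun z hz => hinj.leftInvOn_invFunOn hz
  have hvlip : LipschitzOnWith (Real.toNNReal (250 ^ (k+1))) v (f '' R) := by
    apply LipschitzOnWith.of_dist_le_mul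
    rintro _ ⟨z, hz, rfl⟩ _ ⟨w, hw, rfl⟩
    rw [hvl z hz, hvl w hw, dist_eq_norm, dist_eq_norm, Real.coe_toNNReal _ (by positivity)]
    have := iter_expand (k+1) (hRs z hz) (hRs w hw)
    rw [div_le_iff₀ (by positivity)] at this
    linarith
  have hvc : ContinuousOn (fun t => (v (g t)).re) (Icc 0 t1) := by
    apply Complex.continuous_re.comp_continuousOn
    exact hvlip.continuousOn.comp hg.continuousOn hmemC
  have hv0 : (v (g 0)).re = 0 := by
    have h2 : (0:ℂ) ∈ R := by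
      refine ⟨⟨by simp, ?_⟩, by simp⟩
      simp only [Complex.zero_re]; positivity
    have h3 : g 0 = f 0 := by rw [h0]; exact (iter_zero (k+1)).symm
    rw [h3, hvl 0 h2]; simp
  have hv1 : (v (g t1)).re = 100 ^ (k+1) / 2 := by
    obtain ⟨z, hz, hzt⟩ := hmemC t1 ⟨ht1pos.le, le_rfl⟩
    rw [← hzt, hvl z hz]
    by_contra hcon
    have hlt2 : z.re < 100 ^ (k+1) / 2 := lt_of_le_of_ne hz.1.2 hcon
    by_cases hwall : z ∈ wall (k+1)
    · exact havoid t1 ht1S.1 ⟨z, hwall, hzt⟩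
    · apply ht1S.2
      rw [← hzt]
      refine ⟨z, ⟨⟨?_, hlt2⟩, ?_⟩, rfl⟩
      · rcases eq_or_lt_of_le hz.1.1 with h | h
        · exfalso; exact hwall ⟨hz.1.1, hz.1.2, hz.2, Or.inr h.symm⟩
        · exact h
      · rcases eq_or_lt_of_le hz.2 with h | h
        · exfalso; exact hwall ⟨hz.1.1, hz.1.2, hz.2, Or.inl h⟩
        · exact h
  -- the pulled back set
  set β : Set ℂ := R ∩ f ⁻¹' (g '' Icc 0 t1) with hβ
  have hβc : IsCompact β := hRc.inter_right ((isCompact_Icc.image hg).isClosed.preimage hfc)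
  have hpi1 := Real.pi_gt_d4
  have hpi2 := Real.pi_lt_d4
  have hcross : ∀ x : ℝ, |x - (100:ℝ) ^ k * ((2:ℤ) * (Real.pi / 2))| ≤ (100:ℝ) ^ k * 0.78 → ∃ z ∈ β, z.re = x := by
    intro x hx
    have hp : (0:ℝ) < 100 ^ k := by positivity
    rw [abs_le] at hx
    push_cast at hx
    have hx' : x ∈ Icc ((fun t => (v (g t)).re) 0) ((fun t => (v (g t)).re) t1) := by
      simp only
      rw [hv0, hv1, pow_succ]
      constructor <;> nlinarith [hx.1, hx.2]
    obtain ⟨t, ht, htx⟩ := intermediate_value_Icc ht1pos.le hvc hx'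
    obtain ⟨z, hz, hzt⟩ := hmemC t ht
    refine ⟨z, ⟨hz, ⟨t, ht, hzt.symm⟩⟩, ?_⟩
    rw [← htx]
    simp only
    rw [← hzt, hvl z hz]
  have hlen := length_ind k 2 phi (1.19/100) (by norm_num) (by
      intro z hz w hw
      have := slab_expand hz hw
      rw [gain, if_pos (by decide)] at this
      exact this)
    continuous_phi.continuousOn (phi_injOn.mono (fun z hz => hst hz)) β hβc (fun z hz => hz.1.2) hcross
  have hsub : ((fun z => phi (phi^[k] z)) '' (β ∩ blk k 2)) ⊆ g '' Icc 0 1 := by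
    rintro _ ⟨z, hz, rfl⟩
    obtain ⟨t, ht, htz⟩ := hz.1.2
    refine ⟨t, ⟨ht.1, ht.2.trans ht1S.1.2⟩, ?_⟩
    rw [htz]
    simp only [hf]
    rw [Function.iterate_succ_apply']
  refine le_trans ?_ (hlen.trans (measure_mono hsub))
  apply ENNReal.ofReal_le_ofReal
  have : (0:ℝ) < 1.068 ^ k := by positivity
  nlinarith

theorem exists_poly {k n : ℕ} (hn : 11 * (deg (k+1) + 1) ≤ n) :
    ∃ f : ℂ[X], f.Monic ∧ f.natDegree = n ∧ (∀ z : ℂ, f.IsRoot z → ‖z‖ ≤ 1) ∧
      ∀ γ : C(unitInterval, ℂ), γ 0 = 0 → ‖γ 1‖ = 1 → range γ ⊆ {z | ‖f.eval z‖ ≤ 1} →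
        ENNReal.ofReal (0.018 * 1.068 ^ k) ≤ μH[1] (range γ) := by
  obtain ⟨f, hf1, hf2, hf3, hf4⟩ := barrier_exists (k := k+1) (by omega) hn
  refine ⟨f, hf1, hf2, hf3, ?_⟩
  intro γ h0 h1 hE
  rw [← range_eq γ]
  apply tube_path (γ.continuous.comp continuous_projIcc)
  · change γ (projIcc 0 1 zero_le_one 0) = 0
    rw [projIcc_left]; exact h0
  · change ‖γ (projIcc 0 1 zero_le_one 1)‖ = 1
    rw [projIcc_right]; exact h1
  · intro r _ hmem
    have h5 := hf4 _ hmem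
    have h6 : ‖f.eval (γ (projIcc 0 1 zero_le_one r))‖ ≤ 1 := hE ⟨_, rfl⟩
    have h7 : 1 < ‖f.eval (γ (projIcc 0 1 zero_le_one r))‖ := h5
    linarith

theorem deg_le_gen (p q s k : ℕ) (h1 : 22000 ≤ 3 ^ 10) (h2 : 100 ≤ 3 ^ 5) (h3 : 10 + p + (q + 5) ≤ s) (h4 : q + 5 ≤ s) :
    11 * (3 ^ p * (3 ^ q) ^ (k+1) * (1000 * 100 ^ (k+1)) + 1) ≤ 3 ^ (s * (k+1)) := by
  have hpos : 1 ≤ 3 ^ p * (3 ^ q) ^ (k+1) * (1000 * 100 ^ (k+1)) := Nat.pos_of_ne_zero (by positivity)
  calc 11 * (3 ^ p * (3 ^ q) ^ (k+1) * (1000 * 100 ^ (k+1)) + 1)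
      ≤ 22 * (3 ^ p * (3 ^ q) ^ (k+1) * (1000 * 100 ^ (k+1))) := by omega
    _ = 22000 * 3 ^ p * ((3 ^ q) ^ (k+1) * 100 ^ (k+1)) := by ring
    _ ≤ 3 ^ 10 * 3 ^ p * ((3 ^ q) ^ (k+1) * (3 ^ 5) ^ (k+1)) := by gcongr
    _ = 3 ^ (10 + p + (q + 5) * (k+1)) := by
        rw [← mul_pow, ← pow_add, ← pow_add, ← pow_mul, ← pow_add]
    _ ≤ 3 ^ (s * (k+1)) := by
        apply Nat.pow_le_pow_right (by norm_num)
        nlinarith

theorem deg_le (k : ℕ) : 11 * (deg (k+1) + 1) ≤ 3 ^ (1515 * (k+1)) := by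
  unfold deg
  exact deg_le_gen 100 1400 1515 k (by norm_num) (by norm_num) (by norm_num) (by norm_num)

theorem exp_three : (3:ℝ) ≤ Real.exp (11/10) := by
  have h3' : (3:ℝ) ^ 10 ≤ Real.exp 1 ^ 11 := by
    have := Real.exp_one_gt_d9
    calc (3:ℝ) ^ 10 ≤ (2.7182818283:ℝ) ^ 11 := by norm_num
      _ ≤ Real.exp 1 ^ 11 := by gcongr
  have h4 : (3:ℝ) ^ 10 ≤ (Real.exp (11/10)) ^ 10 := by
    have e1 : Real.exp 1 ^ 11 = Real.exp 11 := by
      rw [← Real.exp_nat_mul]; norm_num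
    have e2 : Real.exp (11/10) ^ 10 = Real.exp 11 := by
      rw [← Real.exp_nat_mul]; norm_num
    rw [e2, ← e1]
    exact h3'
  exact le_of_pow_le_pow_left₀ (by norm_num) (Real.exp_pos _).le h4

theorem log_three_le : Real.log 3 ≤ 11/10 := by
  have := Real.log_le_log (by norm_num) exp_three
  rwa [Real.log_exp] at this

theorem exp_small : Real.exp (0.05555) ≤ 1.068 := by
  have h1 : 1 - 0.05555 ≤ Real.exp (-0.05555) := by
    have := Real.add_one_le_exp (-0.05555 : ℝ)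
    linarith
  have h2 : Real.exp (0.05555) * Real.exp (-0.05555) = 1 := by rw [← Real.exp_add]; norm_num
  have h3 := Real.exp_pos (0.05555)
  nlinarith

/-- the lower bound -/
theorem lower {n : ℕ} (hn : 1 ≤ n) :
    ∃ f : ℂ[X], f.Monic ∧ f.natDegree = n ∧ (∀ z : ℂ, f.IsRoot z → ‖z‖ ≤ 1) ∧
      ∀ γ : C(unitInterval, ℂ), γ 0 = 0 → ‖γ 1‖ = 1 → range γ ⊆ {z | ‖f.eval z‖ ≤ 1} →
        ENNReal.ofReal ((n:ℝ) ^ ((1:ℝ)/30000) / 100) ≤ μH[1] (range γ) := by
  have hn0 : (0:ℝ) < n := by exact_mod_cast hn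
  have hlogn : 0 ≤ Real.log n := Real.log_natCast_nonneg n
  have hlog3 : 0 < Real.log 3 := Real.log_pos (by norm_num)
  have hl3 := log_three_le
  set x : ℝ := Real.log n / (1515 * Real.log 3) with hx
  have hx0 : 0 ≤ x := by positivity
  have hxn : Real.log n = x * (1515 * Real.log 3) := by rw [hx]; field_simp
  -- n^(1/30000) ≤ 1.068 ^ y for natural y ≥ x
  have hpow : ∀ y : ℕ, x ≤ y → (n:ℝ) ^ ((1:ℝ)/30000) ≤ 1.068 ^ y := by
    intro y hy
    rw [Real.rpow_def_of_pos hn0, hxn]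
    calc Real.exp (x * (1515 * Real.log 3) * (1/30000)) ≤ Real.exp ((y:ℝ) * 0.05555) := by
          apply Real.exp_le_exp.mpr
          have h5 : x * (1515 * Real.log 3) * (1/30000) = x * (0.0505 * Real.log 3) := by ring
          rw [h5]
          apply mul_le_mul hy _ (by positivity) (by positivity)
          linarith
      _ = Real.exp (0.05555) ^ y := by rw [Real.exp_nat_mul]
      _ ≤ 1.068 ^ y := pow_le_pow_left₀ (Real.exp_pos _).le exp_small _
  rcases lt_or_ge x 1 with h | h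
  · refine ⟨X ^ n, monic_X_pow n, natDegree_X_pow n, ?_, ?_⟩
    · intro z hz
      rw [IsRoot.def, eval_pow, eval_X] at hz
      have : z = 0 := eq_zero_of_pow_eq_zero hz
      rw [this, norm_zero]; exact zero_le_one
    · intro γ h0 h1 _
      refine le_trans ?_ (one_le_length_path γ h0 h1)
      rw [← ENNReal.ofReal_one]
      apply ENNReal.ofReal_le_ofReal
      have := hpow 1 (by push_cast; exact h.le)
      norm_num at this ⊢
      linarith
  · obtain ⟨k, hk⟩ : ∃ k : ℕ, ⌊x⌋₊ = k + 1 :=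
      ⟨⌊x⌋₊ - 1, by have : 1 ≤ ⌊x⌋₊ := Nat.le_floor (by simpa using h); omega⟩
    have hkx : ((k + 1 : ℕ) : ℝ) ≤ x := by rw [← hk]; exact Nat.floor_le hx0
    have hkx2 : x ≤ ((k + 2 : ℕ) : ℝ) := by
      have := Nat.lt_floor_add_one x
      rw [hk] at this
      push_cast at this ⊢
      linarith
    have hbig : 11 * (deg (k+1) + 1) ≤ n := by
      refine (deg_le k).trans ?_
      have h6 : ((3 ^ (1515 * (k+1)) : ℕ) : ℝ) ≤ n := by
        rw [← Real.exp_log hn0, hxn]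
        push_cast
        rw [← Real.exp_log (show (0:ℝ) < 3 by norm_num), ← Real.exp_nat_mul, Real.exp_log (by norm_num)]
        apply Real.exp_le_exp.mpr
        push_cast at hkx ⊢
        nlinarith
      exact_mod_cast h6
    obtain ⟨f, hf1, hf2, hf3, hf4⟩ := exists_poly hbig
    refine ⟨f, hf1, hf2, hf3, fun γ h0 h1 hE => ?_⟩
    refine le_trans ?_ (hf4 γ h0 h1 hE)
    apply ENNReal.ofReal_le_ofReal
    have h7 := hpow (k+2) hkx2
    have h8 : (0:ℝ) < 1.068 ^ k := by positivity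
    rw [pow_add] at h7
    have h9 : (1.068:ℝ) ^ 2 ≤ 1.15 := by norm_num
    nlinarith

end Pool.Agent.H32.EscapePoly
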