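import Mathlib

/-!
# Rays of the logarithm of the reciprocal polynomial, and a Remez type inequality
-/

open Set Metric Filter Topology MeasureTheory Polynomial
open scoped ENNReal

namespace Pool.Agent.H32.EscapeUp

/-- `∑ log (1 - conj w * z)` over a multiset -/
noncomputable def Flog (s : Multiset ℂ) (z : ℂ) : ℂ :=
  (s.map fun w => Complex.log (1 - (starRingEnd ℂ) w * z)).sum

/-- `∏ (1 - conj w * X)` over a multiset -/
noncomputable def gP (s : Multiset ℂ) : ℂ[X] :=
  (s.map fun w => 1 - C ((starRingEnd ℂ) w) * X).prod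

theorem one_sub_mem {w z : ℂ} (hw : ‖w‖ ≤ 1) (hz : ‖z‖ < 1) : 0 < (1 - (starRingEnd ℂ) w * z).re := by
  have h1 : ‖(starRingEnd ℂ) w * z‖ < 1 := by
    rw [norm_mul, RCLike.norm_conj]
    calc ‖w‖ * ‖z‖ ≤ 1 * ‖z‖ := by gcongr
      _ < 1 := by rw [one_mul]; exact hz
  have h2 := Complex.re_le_norm ((starRingEnd ℂ) w * z)
  rw [Complex.sub_re, Complex.one_re]
  linarith

theorem Flog_differentiableOn {s : Multiset ℂ} (hs : ∀ w ∈ s, ‖w‖ ≤ 1) :
    DifferentiableOn ℂ (Flog s) (ball 0 1) := by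
  induction s using Multiset.induction_on with
  | empty =>
    have : Flog 0 = fun _ => 0 := by ext z; simp [Flog]
    rw [this]; exact differentiableOn_const _
  | cons a s ih =>
    have h1 : DifferentiableOn ℂ (fun z => Complex.log (1 - (starRingEnd ℂ) a * z)) (ball 0 1) := by
      intro z hz
      have hz' : ‖z‖ < 1 := by simpa using hz
      apply DifferentiableAt.differentiableWithinAt
      apply DifferentiableAt.clog
      · fun_prop
      · exact Complex.mem_slitPlane_iff.mpr (Or.inl (one_sub_mem (hs a (Multiset.mem_cons_self a s)) hz'))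
    have h2 := h1.add (ih (fun w hw => hs w (Multiset.mem_cons_of_mem hw)))
    refine h2.congr ?_
    intro z _
    simp only [Flog, Multiset.map_cons, Multiset.sum_cons, Pi.add_apply]

theorem Flog_zero (s : Multiset ℂ) : Flog s 0 = 0 := by
  induction s using Multiset.induction_on with
  | empty => simp [Flog]
  | cons a s ih =>
    simp only [Flog, Multiset.map_cons, Multiset.sum_cons] at ih ⊢
    rw [ih]; simp

theorem exp_Flog {s : Multiset ℂ} (hs : ∀ w ∈ s, ‖w‖ ≤ 1) {z : ℂ} (hz : ‖z‖ < 1) :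
    Complex.exp (Flog s z) = (gP s).eval z := by
  induction s using Multiset.induction_on with
  | empty => simp [Flog, gP]
  | cons a s ih =>
    have ih' := ih (fun w hw => hs w (Multiset.mem_cons_of_mem hw))
    simp only [Flog, gP, Multiset.map_cons, Multiset.sum_cons, Multiset.prod_cons] at ih' ⊢
    rw [Complex.exp_add, ih', eval_mul, Complex.exp_log]
    · simp
    · intro h
      have := one_sub_mem (hs a (Multiset.mem_cons_self a s)) hz
      rw [h] at this
      simp at this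

theorem Flog_im {s : Multiset ℂ} (hs : ∀ w ∈ s, ‖w‖ ≤ 1) {z : ℂ} (hz : ‖z‖ < 1) :
    |(Flog s z).im| ≤ s.card * (Real.pi / 2) := by
  induction s using Multiset.induction_on with
  | empty => simp [Flog]
  | cons a s ih =>
    have ih' := ih (fun w hw => hs w (Multiset.mem_cons_of_mem hw))
    simp only [Flog, Multiset.map_cons, Multiset.sum_cons, Multiset.card_cons] at ih' ⊢
    rw [Complex.add_im, Complex.log_im]
    refine (abs_add_le _ _).trans ?_
    have h1 := Complex.abs_arg_le_pi_div_two_iff.mpr (one_sub_mem (hs a (Multiset.mem_cons_self a s)) hz).le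
    push_cast
    linarith

theorem gP_natDegree (s : Multiset ℂ) : (gP s).natDegree ≤ s.card := by
  induction s using Multiset.induction_on with
  | empty => simp [gP]
  | cons a s ih =>
    simp only [gP, Multiset.map_cons, Multiset.prod_cons, Multiset.card_cons] at ih ⊢
    refine natDegree_mul_le.trans ?_
    have h1 : (1 - C ((starRingEnd ℂ) a) * X : ℂ[X]).natDegree ≤ 1 := by
      refine (natDegree_sub_le _ _).trans ?_
      rw [natDegree_one, Nat.zero_max]
      exact (natDegree_C_mul_le _ _).trans natDegree_X_le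
    omega

theorem gP_eval_zero (s : Multiset ℂ) : (gP s).eval 0 = 1 := by
  induction s using Multiset.induction_on with
  | empty => simp [gP]
  | cons a s ih =>
    simp only [gP, Multiset.map_cons, Multiset.prod_cons] at ih ⊢
    rw [eval_mul, ih]; simp

theorem norm_sub_le_one_sub {w z : ℂ} (hw : ‖w‖ ≤ 1) (hz : ‖z‖ ≤ 1) :
    ‖z - w‖ ≤ ‖1 - (starRingEnd ℂ) w * z‖ := by
  apply le_of_sq_le_sq _ (norm_nonneg _)
  rw [← Complex.normSq_eq_norm_sq, ← Complex.normSq_eq_norm_sq]
  have h1 : Complex.normSq (1 - (starRingEnd ℂ) w * z) - Complex.normSq (z - w) =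
      (1 - Complex.normSq w) * (1 - Complex.normSq z) := by
    simp only [Complex.normSq_apply, Complex.sub_re, Complex.sub_im, Complex.mul_re, Complex.mul_im,
      Complex.conj_re, Complex.conj_im, Complex.one_re, Complex.one_im]
    ring
  have h2 : Complex.normSq w ≤ 1 := by
    rw [Complex.normSq_eq_norm_sq]; exact pow_le_one₀ (norm_nonneg _) hw
  have h3 : Complex.normSq z ≤ 1 := by
    rw [Complex.normSq_eq_norm_sq]; exact pow_le_one₀ (norm_nonneg _) hz
  nlinarith [mul_nonneg (sub_nonneg.mpr h2) (sub_nonneg.mpr h3)]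

theorem prod_le_gP {s : Multiset ℂ} (hs : ∀ w ∈ s, ‖w‖ ≤ 1) {z : ℂ} (hz : ‖z‖ ≤ 1) :
    ‖((s.map fun a => X - C a).prod).eval z‖ ≤ ‖(gP s).eval z‖ := by
  induction s using Multiset.induction_on with
  | empty => simp [gP]
  | cons a s ih =>
    have ih' := ih (fun w hw => hs w (Multiset.mem_cons_of_mem hw))
    simp only [gP, Multiset.map_cons, Multiset.prod_cons] at ih' ⊢
    rw [eval_mul, eval_mul, norm_mul, norm_mul]
    apply mul_le_mul _ ih' (norm_nonneg _) (norm_nonneg _)
    have := norm_sub_le_one_sub (hs a (Multiset.mem_cons_self a s)) hz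
    simpa using this

theorem eval_le_gP {f : ℂ[X]} (hf : f.Monic) (hr : ∀ z : ℂ, f.IsRoot z → ‖z‖ ≤ 1) {z : ℂ} (hz : ‖z‖ ≤ 1) :
    ‖f.eval z‖ ≤ ‖(gP f.roots).eval z‖ := by
  have h1 : f = (f.roots.map fun a => X - C a).prod := by
    have := (IsAlgClosed.splits f).eq_prod_roots
    rw [hf.leadingCoeff, C_1, one_mul] at this
    exact this
  have h2 := prod_le_gP (s := f.roots) (fun w hw => hr w ((mem_roots hf.ne_zero).mp hw)) hz
  rw [← h1] at h2
  exact h2

theorem card_roots_eq (f : ℂ[X]) : f.roots.card = f.natDegree :=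
  (splits_iff_card_roots.mp (IsAlgClosed.splits f))

/-! ### The Remez type inequality -/

theorem prod_abs (k m : ℕ) :
    ∏ j ∈ (Finset.range (k + m + 1)).erase k, |(k:ℝ) - j| = (k.factorial : ℝ) * m.factorial := by
  induction m with
  | zero =>
    have h1 : (Finset.range (k + 0 + 1)).erase k = Finset.range k := by
      ext j; simp only [Finset.mem_erase, Finset.mem_range]; omega
    rw [h1, Nat.factorial_zero, Nat.cast_one, mul_one]
    rw [← Finset.prod_range_reflect]
    rw [← Finset.prod_range_add_one_eq_factorial]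
    push_cast
    apply Finset.prod_congr rfl
    intro j hj
    have hj' := Finset.mem_range.mp hj
    have h2 : ((k - 1 - j : ℕ) : ℝ) = k - 1 - j := by
      rw [Nat.cast_sub (by omega), Nat.cast_sub (by omega)]; push_cast; ring
    rw [h2, abs_of_nonneg]
    · ring
    · have : (0:ℝ) ≤ j := Nat.cast_nonneg j
      linarith
  | succ m ih =>
    have h1 : (Finset.range (k + (m + 1) + 1)).erase k =
        insert (k + m + 1) ((Finset.range (k + m + 1)).erase k) := by
      ext j; simp only [Finset.mem_erase, Finset.mem_range, Finset.mem_insert]; omega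
    rw [h1, Finset.prod_insert (by simp), ih, Nat.factorial_succ]
    push_cast
    have h2 : |(k:ℝ) - (k + m + 1)| = m + 1 := by
      have : (k:ℝ) - (k + m + 1) = -(m + 1) := by ring
      rw [this, abs_neg, abs_of_nonneg (by positivity)]
    rw [h2]; ring

theorem sum_inv_factorial (n : ℕ) :
    ∑ k ∈ Finset.range (n+1), (1:ℝ) / ((k.factorial : ℝ) * (n - k).factorial) = 2 ^ n / n.factorial := by
  have h1 : ∀ k ∈ Finset.range (n+1), (1:ℝ) / ((k.factorial : ℝ) * (n - k).factorial) =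
      (n.choose k : ℝ) / n.factorial := by
    intro k hk
    have hk' : k ≤ n := by have := Finset.mem_range.mp hk; omega
    rw [Nat.cast_choose ℝ hk']
    have := Nat.factorial_ne_zero n
    field_simp
  rw [Finset.sum_congr rfl h1, ← Finset.sum_div]
  congr 1
  have := Nat.sum_range_choose n
  exact_mod_cast this

theorem remez {P : ℂ[X]} {n : ℕ} (hn : 1 ≤ n) (hP : P.natDegree ≤ n) {ρ m : ℝ} (hρ : 0 < ρ)
    {v : ℕ → ℂ} (hv : ∀ k ≤ n, ‖v k‖ = k * (ρ / n)) (hm : ∀ k ≤ n, ‖P.eval (v k)‖ ≤ m)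
    {y : ℂ} (hy : ‖y‖ ≤ 1) (hρ1 : ρ ≤ 1) : ‖P.eval y‖ * ρ ^ n ≤ m * (4 * Real.exp 1) ^ n := by
  have hn0 : (0:ℝ) < n := by exact_mod_cast hn
  have hr : 0 < ρ / n := by positivity
  have hdist : ∀ k ≤ n, ∀ j ≤ n, |(k:ℝ) - j| * (ρ / n) ≤ ‖v k - v j‖ := by
    intro k hk j hj
    have h1 := abs_norm_sub_norm_le (v k) (v j)
    rw [hv k hk, hv j hj, ← sub_mul, abs_mul, abs_of_pos hr] at h1
    exact h1
  have hinj : Set.InjOn v (Finset.range (n+1)) := by
    intro k hk j hj hkj
    have hk' : k ≤ n := by have := Finset.mem_range.mp hk; omega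
    have hj' : j ≤ n := by have := Finset.mem_range.mp hj; omega
    have h1 := hdist k hk' j hj'
    rw [hkj, sub_self, norm_zero] at h1
    have h2 : |(k:ℝ) - j| ≤ 0 := by
      by_contra hcon
      push Not at hcon
      nlinarith
    have h3 : (k:ℝ) - j = 0 := abs_eq_zero.mp (le_antisymm h2 (abs_nonneg _))
    have h4 : (k:ℝ) = j := by linarith
    exact_mod_cast h4
  have hdeg : P.degree < (Finset.range (n+1)).card := by
    rw [Finset.card_range]
    refine lt_of_le_of_lt degree_le_natDegree ?_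
    exact_mod_cast Nat.lt_succ_of_le hP
  have hint := Lagrange.eq_interpolate hinj hdeg
  have hm0 : 0 ≤ m := (norm_nonneg _).trans (hm 0 (Nat.zero_le _))
  have hbasis : ∀ k ∈ Finset.range (n+1), ‖(Lagrange.basis (Finset.range (n+1)) v k).eval y‖ ≤
      (2 * n / ρ) ^ n * (1 / ((k.factorial : ℝ) * (n - k).factorial)) := by
    intro k hk
    have hk' : k ≤ n := by have := Finset.mem_range.mp hk; omega
    rw [Lagrange.basis, eval_prod, norm_prod]
    have h1 : ∀ j ∈ (Finset.range (n+1)).erase k, ‖(Lagrange.basisDivisor (v k) (v j)).eval y‖ ≤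
        (2 * n / ρ) * |(k:ℝ) - j|⁻¹ := by
      intro j hj
      have hjk := Finset.ne_of_mem_erase hj
      have hj' : j ≤ n := by have := Finset.mem_range.mp (Finset.mem_of_mem_erase hj); omega
      rw [Lagrange.basisDivisor, eval_mul, eval_C, eval_sub, eval_X, eval_C, norm_mul, norm_inv]
      have h2 := hdist k hk' j hj'
      have h3 : 0 < |(k:ℝ) - j| := by
        rw [abs_pos]
        intro h
        apply hjk
        have : (k:ℝ) = j := by linarith
        exact_mod_cast this.symm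
      have h4 : ‖y - v j‖ ≤ 2 := by
        refine (norm_sub_le _ _).trans ?_
        rw [hv j hj']
        have : (j:ℝ) * (ρ / n) ≤ 1 := by
          have : (j:ℝ) ≤ n := by exact_mod_cast hj'
          calc (j:ℝ) * (ρ / n) ≤ n * (ρ / n) := by gcongr
            _ = ρ := by field_simp
            _ ≤ 1 := hρ1
        linarith
      have h5 : ‖v k - v j‖⁻¹ ≤ (|(k:ℝ) - j| * (ρ / n))⁻¹ := inv_anti₀ (by positivity) h2
      calc ‖v k - v j‖⁻¹ * ‖y - v j‖ ≤ (|(k:ℝ) - j| * (ρ / n))⁻¹ * 2 := by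
            apply mul_le_mul h5 h4 (norm_nonneg _) (by positivity)
        _ = (2 * n / ρ) * |(k:ℝ) - j|⁻¹ := by
            rw [mul_inv]
            field_simp
    refine (Finset.prod_le_prod (fun _ _ => norm_nonneg _) h1).trans ?_
    rw [Finset.prod_mul_distrib, Finset.prod_const, Finset.card_erase_of_mem hk, Finset.card_range]
    rw [Nat.add_sub_cancel]
    apply le_of_eq
    congr 1
    rw [Finset.prod_inv_distrib, one_div]
    congr 1
    have := prod_abs k (n - k)
    rwa [show k + (n - k) + 1 = n + 1 by omega] at this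
  have hPy : ‖P.eval y‖ ≤ m * ((2 * n / ρ) ^ n * (2 ^ n / n.factorial)) := by
    rw [hint, Lagrange.interpolate_apply, eval_finsetSum]
    refine (norm_sum_le _ _).trans ?_
    rw [← sum_inv_factorial, Finset.mul_sum, Finset.mul_sum]
    apply Finset.sum_le_sum
    intro k hk
    rw [eval_mul, eval_C, norm_mul]
    have hk' : k ≤ n := by have := Finset.mem_range.mp hk; omega
    exact mul_le_mul (hm k hk') (hbasis k hk) (norm_nonneg _) hm0
  have hfac : (n:ℝ) ^ n / n.factorial ≤ Real.exp 1 ^ n := by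
    have := Real.pow_div_factorial_le_exp (n:ℝ) hn0.le n
    refine this.trans ?_
    rw [← Real.exp_nat_mul, mul_one]
  calc ‖P.eval y‖ * ρ ^ n ≤ (m * ((2 * n / ρ) ^ n * (2 ^ n / n.factorial))) * ρ ^ n := by gcongr
    _ = m * (4 ^ n * ((n:ℝ) ^ n / n.factorial)) := by
        rw [div_pow, mul_pow]
        have : (4:ℝ) ^ n = 2 ^ n * 2 ^ n := by rw [← mul_pow]; norm_num
        rw [this]
        field_simp
    _ ≤ m * (4 ^ n * Real.exp 1 ^ n) := by gcongr
    _ = m * (4 * Real.exp 1) ^ n := by rw [mul_pow]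

/-! ### The integral of the modulus along a ray -/

theorem lintegral_exp_le {n : ℝ} (hn : 0 < n) (c A : ℝ) (hA : 0 ≤ A) :
    ∫⁻ s in Iic c, ENNReal.ofReal (A * Real.exp (1 / n * s)) = ENNReal.ofReal (A * (n * Real.exp (1 / n * c))) := by
  have hi : IntegrableOn (fun s => A * Real.exp (1 / n * s)) (Iic c) :=
    (integrableOn_exp_mul_Iic (by positivity) c).const_mul A
  rw [← ofReal_integral_eq_lintegral_ofReal hi (Eventually.of_forall fun s => by positivity)]
  rw [integral_const_mul, integral_exp_mul_Iic (by positivity)]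
  congr 2
  field_simp

theorem ray_core {P : ℂ[X]} {n : ℕ} (hn : 1 ≤ n) (hP : P.natDegree ≤ n) (hP0 : P.eval 0 = 0)
    {z : ℝ → ℂ} {τ : ℝ} (hzc : ContinuousOn z (Iic τ)) (hz1 : ∀ s ≤ τ, ‖z s‖ < 1)
    (hz0 : Tendsto z atBot (𝓝 0)) {s m : ℝ} (hs : s ≤ τ) (hm : ∀ u ≤ s, ‖P.eval (z u)‖ ≤ m)
    {y : ℂ} (hy : ‖y‖ ≤ 1) : ‖P.eval y‖ * ‖z s‖ ^ n ≤ m * (4 * Real.exp 1) ^ n := by
  have hn0 : (0:ℝ) < n := by exact_mod_cast hn
  have hm0 : 0 ≤ m := (norm_nonneg _).trans (hm s le_rfl)
  rcases eq_or_lt_of_le (norm_nonneg (z s)) with h0 | h0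
  · rw [← h0, zero_pow (by omega), mul_zero]; positivity
  set ρ := ‖z s‖ with hρ
  have hnodes : ∀ k : ℕ, k ≤ n → ∃ w : ℂ, ‖w‖ = k * (ρ / n) ∧ ‖P.eval w‖ ≤ m := by
    intro k hk
    rcases Nat.eq_zero_or_pos k with hk0 | hk0
    · refine ⟨0, by rw [hk0]; simp, by rw [hP0, norm_zero]; exact hm0⟩
    · have hk0' : (0:ℝ) < k := by exact_mod_cast hk0
      have hkn : (k:ℝ) ≤ n := by exact_mod_cast hk
      have htgt : 0 < k * (ρ / n) := by positivity
      have htle : k * (ρ / n) ≤ ρ := by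
        calc (k:ℝ) * (ρ / n) ≤ n * (ρ / n) := by gcongr
          _ = ρ := by field_simp
      have hev : ∀ᶠ u in atBot, ‖z u‖ < k * (ρ / n) := by
        have := hz0.norm
        rw [norm_zero] at this
        exact this.eventually_lt_const htgt
      obtain ⟨u, hu1, hu2⟩ := (hev.and (eventually_le_atBot s)).exists
      have hcont : ContinuousOn (fun r => ‖z r‖) (Icc u s) :=
        (hzc.mono (fun r hr => hr.2.trans hs)).norm
      obtain ⟨r, hr, hrr⟩ := intermediate_value_Icc hu2 hcont ⟨hu1.le, htle⟩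
      exact ⟨z r, hrr, hm r hr.2⟩
  choose! v hv1 hv2 using hnodes
  exact remez hn hP h0 hv1 hv2 hy (hz1 s hs).le

theorem ray_bound {P : ℂ[X]} {n : ℕ} (hn : 1 ≤ n) (hP : P.natDegree ≤ n) (hP0 : P.eval 0 = 0)
    {z : ℝ → ℂ} {τ : ℝ} (hzc : ContinuousOn z (Iic τ)) (hz1 : ∀ s ≤ τ, ‖z s‖ < 1)
    (hz0 : Tendsto z atBot (𝓝 0)) {s : ℝ} (hs : s ≤ τ) (hm : ∀ u ≤ s, ‖P.eval (z u)‖ ≤ 2 * Real.exp s)
    {y : ℂ} (hy : ‖y‖ ≤ 1) (hy0 : 0 < ‖P.eval y‖) :
    ‖z s‖ ≤ 4 * Real.exp 1 * (2 / ‖P.eval y‖) ^ ((1:ℝ) / n) * Real.exp (1 / n * s) := by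
  have hn0 : (0:ℝ) < n := by exact_mod_cast hn
  have h1 := ray_core hn hP hP0 hzc hz1 hz0 hs hm hy
  have h2 : ‖z s‖ ^ n ≤ (4 * Real.exp 1 * (2 / ‖P.eval y‖) ^ ((1:ℝ) / n) * Real.exp (1 / n * s)) ^ n := by
    rw [mul_pow, mul_pow, ← Real.rpow_natCast ((2 / ‖P.eval y‖) ^ ((1:ℝ) / n)) n, ← Real.rpow_mul (by positivity),
      one_div_mul_cancel hn0.ne', Real.rpow_one, ← Real.exp_nat_mul]
    have h3 : (n:ℝ) * (1 / n * s) = s := by field_simp
    rw [h3]
    have h4 : ‖z s‖ ^ n ≤ (2 * Real.exp s * (4 * Real.exp 1) ^ n) / ‖P.eval y‖ := by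
      rw [le_div_iff₀ hy0, mul_comm]; exact h1
    refine h4.trans (le_of_eq ?_)
    field_simp
  exact le_of_pow_le_pow_left₀ (by omega) (by positivity) h2

theorem ray_integral_le_aux {P : ℂ[X]} {n : ℕ} (hn : 1 ≤ n) (hP : P.natDegree ≤ n) (hP0 : P.eval 0 = 0)
    (hPne : P ≠ 0) {G : ℝ → ℂ} (hG : ∀ s, ‖G s‖ = Real.exp s)
    {z : ℝ → ℂ} {τ : ℝ} (hzc : ContinuousOn z (Iic τ)) (hz1 : ∀ s ≤ τ, ‖z s‖ < 1)
    (hz0 : Tendsto z atBot (𝓝 0)) (hexp : ∀ s ≤ τ, Complex.exp (G s) = 1 + P.eval (z s))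
    (hτ : τ ≤ 3 * n) :
    ∫⁻ s in Iic τ, ‖z s‖ₑ ≤ ENNReal.ofReal (100 * n) := by
  have hn0 : (0:ℝ) < n := by exact_mod_cast hn
  have hn1 : (1:ℝ) ≤ n := by exact_mod_cast hn
  have he1 := Real.exp_one_lt_d9
  have he2 := Real.exp_one_gt_d9
  have hPz : ∀ s ≤ τ, P.eval (z s) = Complex.exp (G s) - 1 := by
    intro s hs; rw [hexp s hs]; ring
  -- the maximum of |P| on the closed disc
  obtain ⟨y, hy, hymax⟩ := (isCompact_closedBall (0:ℂ) 1).exists_isMaxOn
    ⟨0, mem_closedBall_self zero_le_one⟩ (P.continuous.norm.continuousOn)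
  have hy1 : ‖y‖ ≤ 1 := by simpa using hy
  have hmax : ∀ w : ℂ, ‖w‖ ≤ 1 → ‖P.eval w‖ ≤ ‖P.eval y‖ := by
    intro w hw
    exact hymax (by simpa using hw)
  have hM0 : 0 < ‖P.eval y‖ := by
    rw [norm_pos_iff]
    intro h0
    apply hPne
    apply Polynomial.eq_zero_of_infinite_isRoot
    have hinf : (Metric.closedBall (0:ℂ) 1).Infinite := by
      apply infinite_of_mem_nhds (0:ℂ) (closedBall_mem_nhds _ one_pos)
    apply hinf.mono
    intro w hw
    have := hmax w (by simpa using hw)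
    rw [h0, norm_zero] at this
    exact norm_le_zero_iff.mp this
  set M := ‖P.eval y‖ with hM
  have hsmall : ∀ s ≤ τ, s ≤ 0 → ∀ u ≤ s, ‖P.eval (z u)‖ ≤ 2 * Real.exp s := by
    intro s hs hs0 u hu
    rw [hPz u (hu.trans hs)]
    have h1 : ‖G u‖ ≤ 1 := by rw [hG]; exact Real.exp_le_one_iff.mpr (hu.trans hs0)
    refine (Complex.norm_exp_sub_one_le h1).trans ?_
    rw [hG]
    have := Real.exp_le_exp.mpr hu
    linarith
  rcases lt_or_ge M (1/4) with hM4 | hM4
  · -- the ray stays small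
    have hle : ∀ s ≤ τ, Real.exp s ≤ 2 * M := by
      intro s1 hs1
      by_contra hcon
      push Not at hcon
      set s' := min s1 (Real.log (1/2)) with hs'
      have h1 : Real.exp s' ≤ 1/2 := by
        calc Real.exp s' ≤ Real.exp (Real.log (1/2)) := Real.exp_le_exp.mpr (min_le_right _ _)
          _ = 1/2 := Real.exp_log (by norm_num)
      have h2 : 2 * M < Real.exp s' := by
        rcases min_choice s1 (Real.log (1/2)) with h | h
        · rw [hs', h]; exact hcon
        · rw [hs', h, Real.exp_log (by norm_num)]; linarith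
      have hs'τ : s' ≤ τ := (min_le_left _ _).trans hs1
      have h3 := hmax (z s') (hz1 s' hs'τ).le
      rw [hPz s' hs'τ] at h3
      have h4 : ‖G s'‖ ≤ 1 := by rw [hG]; linarith
      have h5 := Complex.norm_exp_sub_one_sub_id_le h4
      have h6 : ‖G s'‖ ≤ ‖Complex.exp (G s') - 1‖ + ‖Complex.exp (G s') - 1 - G s'‖ := by
        have : G s' = (Complex.exp (G s') - 1) - (Complex.exp (G s') - 1 - G s') := by ring
        calc ‖G s'‖ = ‖(Complex.exp (G s') - 1) - (Complex.exp (G s') - 1 - G s')‖ := by rw [← this]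
          _ ≤ _ := norm_sub_le _ _
      rw [hG] at h5 h6
      have h7 := Real.exp_pos s'
      nlinarith
    have hsub : Iic τ ⊆ Iic (Real.log (2 * M)) := by
      intro s hs
      rw [mem_Iic, Real.le_log_iff_exp_le (by positivity)]
      exact hle s hs
    have hb : ∀ s ∈ Iic τ, ‖z s‖ₑ ≤ ENNReal.ofReal ((4 * Real.exp 1 * (2 / M) ^ ((1:ℝ) / n)) * Real.exp (1 / n * s)) := by
      intro s hs
      rw [← ofReal_norm]
      apply ENNReal.ofReal_le_ofReal
      have hs0 : s ≤ 0 := by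
        have := hle s hs
        exact Real.exp_le_one_iff.mp (by linarith)
      exact ray_bound hn hP hP0 hzc hz1 hz0 hs (hsmall s hs hs0) hy1 hM0
    calc ∫⁻ s in Iic τ, ‖z s‖ₑ ≤ ∫⁻ s in Iic τ, ENNReal.ofReal ((4 * Real.exp 1 * (2 / M) ^ ((1:ℝ) / n)) * Real.exp (1 / n * s)) :=
          setLIntegral_mono (by fun_prop) hb
      _ ≤ ∫⁻ s in Iic (Real.log (2 * M)), ENNReal.ofReal ((4 * Real.exp 1 * (2 / M) ^ ((1:ℝ) / n)) * Real.exp (1 / n * s)) :=
          lintegral_mono_set hsub
      _ = ENNReal.ofReal ((4 * Real.exp 1 * (2 / M) ^ ((1:ℝ) / n)) * (n * Real.exp (1 / n * Real.log (2 * M)))) :=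
          lintegral_exp_le hn0 _ _ (by positivity)
      _ ≤ ENNReal.ofReal (100 * n) := by
          apply ENNReal.ofReal_le_ofReal
          have h1 : Real.exp (1 / n * Real.log (2 * M)) = (2 * M) ^ ((1:ℝ) / n) := by
            rw [Real.rpow_def_of_pos (by positivity)]
            congr 1; ring
          have h2 : (2 / M) ^ ((1:ℝ) / n) * (2 * M) ^ ((1:ℝ) / n) = 4 ^ ((1:ℝ) / n) := by
            rw [← Real.mul_rpow (by positivity) (by positivity)]
            congr 1; field_simp; norm_num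
          have h3 : (4:ℝ) ^ ((1:ℝ) / n) ≤ 4 := by
            calc (4:ℝ) ^ ((1:ℝ) / n) ≤ 4 ^ (1:ℝ) := by
                  apply Real.rpow_le_rpow_of_exponent_le (by norm_num)
                  rw [div_le_one hn0]; exact hn1
              _ = 4 := Real.rpow_one 4
          rw [h1]
          calc (4 * Real.exp 1 * (2 / M) ^ ((1:ℝ) / n)) * (n * (2 * M) ^ ((1:ℝ) / n))
              = 4 * Real.exp 1 * n * ((2 / M) ^ ((1:ℝ) / n) * (2 * M) ^ ((1:ℝ) / n)) := by ring
            _ = 4 * Real.exp 1 * n * 4 ^ ((1:ℝ) / n) := by rw [h2]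
            _ ≤ 4 * Real.exp 1 * n * 4 := by gcongr
            _ ≤ 100 * n := by nlinarith
  · -- the case of a large maximum
    have hb : ∀ s ∈ Iic τ, ‖z s‖ₑ ≤ (Iic (0:ℝ)).indicator (fun s => ENNReal.ofReal ((32 * Real.exp 1) * Real.exp (1 / n * s))) s +
        (Ioc (0:ℝ) (3 * n)).indicator (fun _ => 1) s := by
      intro s hs
      have hsτ : s ≤ τ := hs
      rcases le_or_gt s 0 with h0 | h0
      · rw [indicator_of_mem (show s ∈ Iic (0:ℝ) from h0), indicator_of_notMem (by simp [h0]), add_zero, ← ofReal_norm]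
        apply ENNReal.ofReal_le_ofReal
        refine (ray_bound hn hP hP0 hzc hz1 hz0 hs (hsmall s hs h0) hy1 hM0).trans ?_
        apply mul_le_mul_of_nonneg_right _ (Real.exp_pos _).le
        have h1 : (2 / M) ^ ((1:ℝ) / n) ≤ 8 := by
          calc (2 / M) ^ ((1:ℝ) / n) ≤ 8 ^ ((1:ℝ) / n) := by
                apply Real.rpow_le_rpow (by positivity) _ (by positivity)
                rw [div_le_iff₀ hM0]; linarith
            _ ≤ 8 ^ (1:ℝ) := by
                apply Real.rpow_le_rpow_of_exponent_le (by norm_num)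
                rw [div_le_one hn0]; exact hn1
            _ = 8 := Real.rpow_one 8
        have h2 : 0 < Real.exp 1 := Real.exp_pos 1
        nlinarith
      · rw [indicator_of_notMem (by simp [h0]), indicator_of_mem (show s ∈ Ioc (0:ℝ) (3*n) from ⟨h0, hsτ.trans hτ⟩), zero_add]
        rw [← ofReal_norm, ← ENNReal.ofReal_one]
        exact ENNReal.ofReal_le_ofReal (hz1 s hs).le
    calc ∫⁻ s in Iic τ, ‖z s‖ₑ ≤ ∫⁻ s in Iic τ, ((Iic (0:ℝ)).indicator (fun s => ENNReal.ofReal ((32 * Real.exp 1) * Real.exp (1 / n * s))) s +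
        (Ioc (0:ℝ) (3 * n)).indicator (fun _ => 1) s) := by
          apply setLIntegral_mono _ hb
          apply Measurable.add
          · exact Measurable.indicator (by fun_prop) measurableSet_Iic
          · exact Measurable.indicator measurable_const measurableSet_Ioc
      _ ≤ ∫⁻ s, ((Iic (0:ℝ)).indicator (fun s => ENNReal.ofReal ((32 * Real.exp 1) * Real.exp (1 / n * s))) s +
        (Ioc (0:ℝ) (3 * n)).indicator (fun _ => 1) s) := setLIntegral_le_lintegral _ _
      _ = ENNReal.ofReal ((32 * Real.exp 1) * (n * Real.exp (1 / n * 0))) + ENNReal.ofReal (3 * n) := by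
          rw [lintegral_add_left (Measurable.indicator (by fun_prop) measurableSet_Iic),
            lintegral_indicator measurableSet_Iic, lintegral_exp_le hn0 _ _ (by positivity),
            lintegral_indicator measurableSet_Ioc, setLIntegral_one, Real.volume_Ioc, sub_zero]
      _ ≤ ENNReal.ofReal (100 * n) := by
          rw [← ENNReal.ofReal_add (by positivity) (by positivity)]
          apply ENNReal.ofReal_le_ofReal
          rw [mul_zero, Real.exp_zero, mul_one]
          nlinarith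

/-- The integral of `‖z‖` along a ray of `Flog`, in the logarithmic parameter, is `O(n)`. -/
theorem ray_integral_le {f : ℂ[X]} (hf : f.Monic) (hn : 1 ≤ f.natDegree)
    (hr : ∀ z : ℂ, f.IsRoot z → ‖z‖ ≤ 1) (hP : gP f.roots - 1 ≠ 0) {θ : ℝ}
    (hθ : θ ∈ Icc (Real.pi / 2) (3 * Real.pi / 4)) {z : ℝ → ℂ} {τ : ℝ}
    (hzc : ContinuousOn z (Iic τ))
    (hz : ∀ s ≤ τ, z s ∈ ball (0:ℂ) 1 ∧ Flog f.roots (z s) = Complex.exp (s + θ * Complex.I))
    (hz0 : Tendsto z atBot (𝓝 0)) :
    ∫⁻ s in Iic τ, ‖z s‖ₑ ≤ ENNReal.ofReal (100 * f.natDegree) := by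
  have hs : ∀ w ∈ f.roots, ‖w‖ ≤ 1 := fun w hw => hr w ((mem_roots hf.ne_zero).mp hw)
  have hcard := card_roots_eq f
  have hz1 : ∀ s ≤ τ, ‖z s‖ < 1 := fun s hsτ => by simpa using (hz s hsτ).1
  have hn0 : (0:ℝ) < f.natDegree := by exact_mod_cast hn
  apply ray_integral_le_aux (P := gP f.roots - 1) hn _ _ hP (G := fun s => Complex.exp (s + θ * Complex.I)) _ hzc hz1 hz0
  · intro s hsτ
    rw [← (hz s hsτ).2, exp_Flog hs (hz1 s hsτ), eval_sub, eval_one]
    ring
  · have h1 := (hz τ le_rfl).2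
    have h2 := Flog_im hs (hz1 τ le_rfl)
    rw [h1, hcard] at h2
    have h3 : (Complex.exp (τ + θ * Complex.I)).im = Real.exp τ * Real.sin θ := by
      rw [Complex.exp_im]; simp
    rw [h3] at h2
    have hpi := Real.pi_pos
    have hpi4 := Real.pi_lt_d4
    have h4 : Real.sqrt 2 / 2 ≤ Real.sin θ := by
      have e1 : Real.sin θ = Real.sin (Real.pi - θ) := (Real.sin_pi_sub θ).symm
      rw [e1, ← Real.sin_pi_div_four]
      apply Real.sin_le_sin_of_le_of_le_pi_div_two
      · linarith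
      · linarith [hθ.1]
      · linarith [hθ.2]
    have h5 : (1.4:ℝ) ≤ Real.sqrt 2 := by
      apply Real.le_sqrt_of_sq_le; norm_num
    have h6 : 0.7 ≤ Real.sin θ := by linarith
    have h7 := (le_abs_self _).trans h2
    have h8 := Real.add_one_le_exp τ
    have h9 := Real.exp_pos τ
    have h10 : Real.exp τ * 0.7 ≤ Real.exp τ * Real.sin θ := by gcongr
    nlinarith
  · exact (natDegree_sub_le _ _).trans (by rw [natDegree_one, max_eq_left (Nat.zero_le _), ← hcard]; exact gP_natDegree _)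
  · rw [eval_sub, gP_eval_zero, eval_one, sub_self]
  · intro s
    rw [Complex.norm_exp]
    simp

end Pool.Agent.H32.EscapeUp
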