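import Mathlib

/-!
# From a ray of finite length to a path on the unit interval

A curve `z : (-∞, a) → ℂ` with integrable speed, tending to `0` at `-∞` and whose norm tends to `1` at
`a`, gives a path from `0` to the unit circle whose length is at most the integral of the speed.
-/

open Set Metric Filter Topology MeasureTheory
open scoped ENNReal

namespace Pool.Agent.H32.EscapeUp

/-- the one-dimensional Hausdorff measure of an image is controlled by a primitive of the speed -/
theorem hausdorff_image_le {A : Set ℝ} {z : ℝ → ℂ} {V : ℝ → ℝ}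
    (h : ∀ s ∈ A, ∀ t ∈ A, ‖z s - z t‖ ≤ |V s - V t|) : μH[1] (z '' A) ≤ volume (V '' A) := by
  classical
  rcases A.eq_empty_or_nonempty with hA | ⟨s0, hs0⟩
  · rw [hA]; simp
  have : Nonempty ℝ := ⟨s0⟩
  set q : ℝ → ℝ := Function.invFunOn V A with hq
  have hqm : ∀ y ∈ V '' A, q y ∈ A ∧ V (q y) = y := by
    intro y hy
    exact ⟨Function.invFunOn_mem hy, Function.invFunOn_eq hy⟩
  have hlip : LipschitzOnWith 1 (fun y => z (q y)) (V '' A) := by
    apply LipschitzOnWith.of_dist_le_mul
    intro x hx y hy
    rw [NNReal.coe_one, one_mul, dist_eq_norm, Real.dist_eq]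
    have := h _ (hqm x hx).1 _ (hqm y hy).1
    rwa [(hqm x hx).2, (hqm y hy).2] at this
  have h1 := hlip.hausdorffMeasure_image_le (d := 1) zero_le_one
  rw [hausdorffMeasure_real] at h1
  simp only [ENNReal.coe_one, ENNReal.one_rpow, one_mul] at h1
  refine le_trans (measure_mono ?_) h1
  rintro _ ⟨s, hs, rfl⟩
  refine ⟨V s, ⟨s, hs, rfl⟩, ?_⟩
  have h2 := h _ (hqm (V s) ⟨s, hs, rfl⟩).1 _ hs
  rw [(hqm (V s) ⟨s, hs, rfl⟩).2, sub_self, abs_zero] at h2
  exact sub_eq_zero.mp (norm_le_zero_iff.mp h2)

theorem exists_path {a : ℝ} {z z' : ℝ → ℂ} {E : Set ℂ} (hE : IsClosed E) {L : ℝ}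
    (hz : ∀ s < a, HasDerivAt z (z' s) s) (hc : ContinuousOn z' (Iio a))
    (h0 : Tendsto z atBot (𝓝 0)) (h1 : Tendsto (fun s => ‖z s‖) (𝓝[<] a) (𝓝 1))
    (hEz : ∀ s < a, z s ∈ E) (hL : ∫⁻ s in Iio a, ‖z' s‖ₑ ≤ ENNReal.ofReal L) :
    ∃ γ : C(unitInterval, ℂ), γ 0 = 0 ∧ ‖γ 1‖ = 1 ∧ range γ ⊆ E ∧
      μH[1] (range γ) ≤ ENNReal.ofReal L := by
  have hmeas : AEStronglyMeasurable z' (volume.restrict (Iio a)) :=
    hc.aestronglyMeasurable measurableSet_Iio
  have hint : IntegrableOn z' (Iio a) := by
    refine ⟨hmeas, ?_⟩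
    exact lt_of_le_of_lt hL ENNReal.ofReal_lt_top
  have hintn : IntegrableOn (fun s => ‖z' s‖) (Iio a) := hint.norm
  -- the increments
  have hinc : ∀ s t, s ≤ t → t < a → z t - z s = ∫ r in s..t, z' r := by
    intro s t hst hta
    rw [intervalIntegral.integral_eq_sub_of_hasDerivAt]
    · intro r hr
      rw [uIcc_of_le hst] at hr
      exact hz r (lt_of_le_of_lt hr.2 hta)
    · apply ContinuousOn.intervalIntegrable
      apply hc.mono
      rw [uIcc_of_le hst]
      intro r hr
      exact lt_of_le_of_lt hr.2 hta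
  set V : ℝ → ℝ := fun s => ∫ r in Iic s, ‖z' r‖ with hV
  have hVi : ∀ s < a, IntegrableOn (fun r => ‖z' r‖) (Iic s) := by
    intro s hs
    apply hintn.mono_set
    intro r hr
    exact lt_of_le_of_lt hr hs
  have hVsub : ∀ s t, s ≤ t → t < a → V t - V s = ∫ r in s..t, ‖z' r‖ := by
    intro s t hst hta
    exact intervalIntegral.integral_Iic_sub_Iic (hVi s (lt_of_le_of_lt hst hta)) (hVi t hta)
  have hzV' : ∀ s t, s ≤ t → t < a → ‖z t - z s‖ ≤ V t - V s := by
    intro s t hst hta
    rw [hinc s t hst hta, hVsub s t hst hta]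
    exact intervalIntegral.norm_integral_le_integral_norm hst
  have hzV : ∀ s ∈ Iio a, ∀ t ∈ Iio a, ‖z s - z t‖ ≤ |V s - V t| := by
    intro s hs t ht
    rcases le_total s t with h | h
    · have := hzV' s t h ht
      rw [norm_sub_rev, abs_sub_comm]
      exact this.trans (le_abs_self _)
    · have := hzV' t s h hs
      exact this.trans (le_abs_self _)
  have hVbd : V '' (Iio a) ⊆ Icc 0 (∫ r in Iio a, ‖z' r‖) := by
    rintro _ ⟨s, hs, rfl⟩
    constructor
    · exact integral_nonneg (fun _ => norm_nonneg _)
    · apply setIntegral_mono_set hintn (Eventually.of_forall fun _ => norm_nonneg _)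
      exact (Filter.Eventually.of_forall fun r hr => lt_of_le_of_lt hr hs : (Iic s) ≤ᵐ[volume] (Iio a))
  have hH : μH[1] (z '' (Iio a)) ≤ ENNReal.ofReal L := by
    refine (hausdorff_image_le hzV).trans ((measure_mono hVbd).trans ?_)
    rw [Real.volume_Icc, sub_zero, ofReal_integral_norm_eq_lintegral_enorm hint]
    exact hL
  -- the limit at a
  obtain ⟨z1, hz1⟩ : ∃ z1, Tendsto z (𝓝[<] a) (𝓝 z1) := by
    have hcau : Tendsto (fun s => z (a - 1) + ∫ r in (a-1)..s, z' r) (𝓝[<] a)
        (𝓝 (z (a-1) + ∫ r in (a-1)..a, z' r)) := by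
      apply Tendsto.const_add
      have hi : IntervalIntegrable z' volume (a-1) a := by
        rw [intervalIntegrable_iff_integrableOn_Ioo_of_le (by linarith)]
        apply hint.mono_set
        intro r hr
        exact hr.2
      have hcont := intervalIntegral.continuousOn_primitive_interval' hi (left_mem_uIcc)
      have h2 : ContinuousWithinAt (fun b => ∫ x in (a-1)..b, z' x) (uIcc (a-1) a) a :=
        hcont a right_mem_uIcc
      rw [uIcc_of_le (by linarith)] at h2
      have h3 : 𝓝[<] a ≤ 𝓝[Icc (a-1) a] a := by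
        rw [← nhdsWithin_Ioo_eq_nhdsLT (show a - 1 < a by linarith)]
        exact nhdsWithin_mono a Ioo_subset_Icc_self
      exact h2.mono_left h3
    refine ⟨_, hcau.congr' ?_⟩
    have : Ioo (a-1) a ∈ 𝓝[<] a := Ioo_mem_nhdsLT (by linarith)
    filter_upwards [this] with s hs
    have := hinc (a-1) s hs.1.le hs.2
    rw [← this]; ring
  have hz1n : ‖z1‖ = 1 := tendsto_nhds_unique hz1.norm h1
  -- the path
  set g : ℝ → ℂ := fun x => if x ≤ 0 then 0 else if 1 ≤ x then z1 else z (a + Real.log x) with hg
  have hlog0 : Tendsto (fun x : ℝ => a + Real.log x) (𝓝[>] 0) atBot :=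
    tendsto_atBot_add_const_left _ _ Real.tendsto_log_nhdsGT_zero
  have hlog1 : Tendsto (fun x : ℝ => a + Real.log x) (𝓝[<] 1) (𝓝[<] a) := by
    apply tendsto_nhdsWithin_of_tendsto_nhds_of_eventually_within
    · have : Tendsto (fun x : ℝ => a + Real.log x) (𝓝 1) (𝓝 (a + Real.log 1)) :=
        (Real.continuousAt_log one_ne_zero).const_add a |>.tendsto
      rw [Real.log_one, add_zero] at this
      exact this.mono_left nhdsWithin_le_nhds
    · have : Ioo (0:ℝ) 1 ∈ 𝓝[<] (1:ℝ) := Ioo_mem_nhdsLT (by norm_num)
      filter_upwards [this] with x hx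
      have := Real.log_neg hx.1 hx.2
      simp only [mem_Iio]; linarith
  have hzc : ∀ s < a, ContinuousAt z s := fun s hs => (hz s hs).continuousAt
  have hgc : Continuous g := by
    rw [continuous_iff_continuousAt]
    intro x
    rcases lt_trichotomy x 0 with hx | hx | hx
    · have : g =ᶠ[𝓝 x] fun _ => 0 := by
        filter_upwards [Iio_mem_nhds hx] with y hy
        simp only [hg]
        rw [if_pos (le_of_lt hy)]
      exact continuousAt_const.congr this.symm
    · rw [hx]
      rw [continuousAt_iff_continuous_left'_right']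
      have hg0 : g 0 = 0 := by simp [hg]
      constructor
      · have : g =ᶠ[𝓝[<] 0] fun _ => 0 := by
          filter_upwards [self_mem_nhdsWithin] with y hy
          simp only [hg]
          rw [if_pos (le_of_lt hy)]
        unfold ContinuousWithinAt
        rw [hg0]
        exact tendsto_const_nhds.congr' this.symm
      · have : g =ᶠ[𝓝[>] 0] fun x => z (a + Real.log x) := by
          have : Ioo (0:ℝ) 1 ∈ 𝓝[>] (0:ℝ) := Ioo_mem_nhdsGT (by norm_num)
          filter_upwards [this] with y hy
          simp only [hg]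
          rw [if_neg (not_le.mpr hy.1), if_neg (not_le.mpr hy.2)]
        unfold ContinuousWithinAt
        rw [hg0]
        exact (h0.comp hlog0).congr' this.symm
    · rcases lt_trichotomy x 1 with hx1 | hx1 | hx1
      · have : g =ᶠ[𝓝 x] fun x => z (a + Real.log x) := by
          filter_upwards [Ioo_mem_nhds hx hx1] with y hy
          simp only [hg]
          rw [if_neg (not_le.mpr hy.1), if_neg (not_le.mpr hy.2)]
        apply ContinuousAt.congr _ this.symm
        have h3 : ContinuousAt (fun x : ℝ => a + Real.log x) x :=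
          (Real.continuousAt_log hx.ne').const_add a
        have h4 : a + Real.log x < a := by
          have := Real.log_neg hx hx1; linarith
        exact ContinuousAt.comp (g := z) (hzc _ h4) h3
      · rw [hx1]
        rw [continuousAt_iff_continuous_left'_right']
        have hg1 : g 1 = z1 := by simp [hg]
        constructor
        · have : g =ᶠ[𝓝[<] 1] fun x => z (a + Real.log x) := by
            have : Ioo (0:ℝ) 1 ∈ 𝓝[<] (1:ℝ) := Ioo_mem_nhdsLT (by norm_num)
            filter_upwards [this] with y hy
            simp only [hg]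
            rw [if_neg (not_le.mpr hy.1), if_neg (not_le.mpr hy.2)]
          unfold ContinuousWithinAt
          rw [hg1]
          exact (hz1.comp hlog1).congr' this.symm
        · have : g =ᶠ[𝓝[>] 1] fun _ => z1 := by
            filter_upwards [self_mem_nhdsWithin] with y hy
            have hy' : (1:ℝ) < y := hy
            simp only [hg]
            rw [if_neg (by linarith), if_pos hy'.le]
          unfold ContinuousWithinAt
          rw [hg1]
          exact tendsto_const_nhds.congr' this.symm
      · have : g =ᶠ[𝓝 x] fun _ => z1 := by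
          filter_upwards [Ioi_mem_nhds hx1] with y hy
          have hy' : (1:ℝ) < y := hy
          simp only [hg]
          rw [if_neg (by linarith), if_pos hy'.le]
        exact continuousAt_const.congr this.symm
  have h0E : (0:ℂ) ∈ E := by
    apply hE.mem_of_tendsto h0
    filter_upwards [Iio_mem_atBot a] with s hs
    exact hEz s hs
  have h1E : z1 ∈ E := by
    apply hE.mem_of_tendsto hz1
    filter_upwards [self_mem_nhdsWithin] with s hs
    exact hEz s hs
  have hgrange : ∀ x, g x = 0 ∨ g x = z1 ∨ g x ∈ z '' (Iio a) := by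
    intro x
    simp only [hg]
    split_ifs with h2 h3
    · left; rfl
    · right; left; rfl
    · right; right
      push Not at h2 h3
      refine ⟨a + Real.log x, ?_, rfl⟩
      have := Real.log_neg h2 h3
      simp only [mem_Iio]; linarith
  refine ⟨⟨fun x => g x, hgc.comp continuous_subtype_val⟩, ?_, ?_, ?_, ?_⟩
  · change g ((0 : unitInterval) : ℝ) = 0
    simp [hg]
  · change ‖g ((1 : unitInterval) : ℝ)‖ = 1
    have : g ((1 : unitInterval) : ℝ) = z1 := by simp [hg]
    rw [this, hz1n]
  · rintro _ ⟨x, rfl⟩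
    change g x ∈ E
    rcases hgrange x with h | h | ⟨s, hs, h⟩
    · rw [h]; exact h0E
    · rw [h]; exact h1E
    · rw [← h]; exact hEz s hs
  · have hsub : range (⟨fun x : unitInterval => g x, hgc.comp continuous_subtype_val⟩ : C(unitInterval, ℂ)) ⊆
        ({0} ∪ {z1}) ∪ z '' (Iio a) := by
      rintro _ ⟨x, rfl⟩
      rcases hgrange x with h | h | h
      · left; left; exact h
      · left; right; exact h
      · right; exact h
    refine (measure_mono hsub).trans ((measure_union_le _ _).trans ?_)
    have hna : μH[1] (({0} ∪ {z1} : Set ℂ)) = 0 := by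
      have hns : NullSingletonClass (μH[1] : Measure ℂ) :=
        Measure.nullSingletonClass_hausdorff ℂ (show (0:ℝ) < 1 by norm_num)
      exact ((Set.finite_singleton (0:ℂ)).union (Set.finite_singleton z1)).measure_zero _
    rw [hna, zero_add]
    exact hH

end Pool.Agent.H32.EscapeUp
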