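import Mathlib

/-!
Helper file for problem MP_0d1f0b_an (frozen statement S03802): model space kernels.
-/

set_option autoImplicit false

open Complex

namespace Pool.Agent.H32.KE

noncomputable section

/-- the base -/
def B : ℝ := 1000000

lemma B_pos : 0 < B := by unfold B; norm_num
lemma one_le_B : 1 ≤ B := by unfold B; norm_num

/-- the poles `t(j,i) = (10^6)^(2(j+1)^2+i)` -/
def t (j i : ℕ) : ℝ := B^(2*(j+1)^2+i)

/-- the weights -/
def wt (j i : ℕ) : ℝ := if i = 0 then B^(j^2) else B^(j^2) / (j+1)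

lemma Bp_pos (n : ℕ) : 0 < B^n := pow_pos B_pos n

lemma t_pos (j i : ℕ) : 0 < t j i := Bp_pos _

lemma wt_pos (j i : ℕ) : 0 < wt j i := by
  have := Bp_pos (j^2)
  unfold wt
  split_ifs <;> positivity

lemma t_mono {j i k l : ℕ} (h : 2*(j+1)^2+i ≤ 2*(k+1)^2+l) : t j i ≤ t k l := by
  unfold t
  exact pow_le_pow_right₀ one_le_B h

lemma wt_zero (j : ℕ) : wt j 0 = B^(j^2) := by
  unfold wt
  simp

lemma wt_succ (j : ℕ) {i : ℕ} (hi : i ≠ 0) : wt j i = B^(j^2) / (j+1) := by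
  unfold wt
  rw [if_neg hi]

lemma wt_sum_tail (j : ℕ) : ∑ i : Fin (j+1), wt j ((Fin.succ i : Fin (j+2)) : ℕ) = B^(j^2) := by
  have h : ∀ i : Fin (j+1), wt j ((Fin.succ i : Fin (j+2)) : ℕ) = B^(j^2) / (j+1) := by
    intro i
    exact wt_succ j (by simp)
  rw [Finset.sum_congr rfl (fun i _ => h i)]
  rw [Finset.sum_const, Finset.card_univ, Fintype.card_fin, nsmul_eq_mul]
  push_cast
  field_simp

lemma wt_sum (j : ℕ) : ∑ i : Fin (j+2), wt j i = 2 * B^(j^2) := by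
  rw [Fin.sum_univ_succ, wt_sum_tail]
  have h0 : wt j ((0 : Fin (j+2)) : ℕ) = B^(j^2) := wt_zero j
  rw [h0]
  ring

/-- the block `j` of the kernel vector -/
def blk (z : ℂ) (j : ℕ) : EuclideanSpace ℂ (Fin (j+2)) :=
  WithLp.toLp 2 (fun i => ((Real.sqrt (wt j i) : ℝ) : ℂ) / ((t j i : ℂ) - z))

lemma blk_apply (z : ℂ) (j : ℕ) (i : Fin (j+2)) :
    blk z j i = ((Real.sqrt (wt j i) : ℝ) : ℂ) / ((t j i : ℂ) - z) := rfl

lemma norm_blk_apply_sq (z : ℂ) (j : ℕ) (i : Fin (j+2)) :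
    ‖blk z j i‖^2 = wt j i / ‖(t j i : ℂ) - z‖^2 := by
  rw [blk_apply, norm_div, div_pow, Complex.norm_real, Real.norm_eq_abs, sq_abs,
    Real.sq_sqrt (wt_pos j i).le]

lemma norm_blk_sq (z : ℂ) (j : ℕ) :
    ‖blk z j‖^2 = ∑ i : Fin (j+2), wt j i / ‖(t j i : ℂ) - z‖^2 := by
  rw [EuclideanSpace.norm_sq_eq]
  exact Finset.sum_congr rfl (fun i _ => norm_blk_apply_sq z j i)

lemma far {tt δ R : ℝ} {z : ℂ} (ht : 0 ≤ tt) (hδ : 0 < δ) (hR : ‖z‖ ≤ R)
    (h : δ ≤ ‖(tt : ℂ) - z‖) : δ / (R + δ) * tt ≤ ‖(tt : ℂ) - z‖ := by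
  have h1 : ‖(tt : ℂ)‖ ≤ ‖(tt : ℂ) - z‖ + ‖z‖ := by
    calc ‖(tt : ℂ)‖ = ‖((tt : ℂ) - z) + z‖ := by ring_nf
      _ ≤ _ := norm_add_le _ _
  rw [Complex.norm_real, Real.norm_of_nonneg ht] at h1
  have hR0 : 0 ≤ R := le_trans (norm_nonneg _) hR
  rw [div_mul_eq_mul_div, div_le_iff₀ (by linarith)]
  nlinarith [mul_le_mul_of_nonneg_left h1 hδ.le, mul_le_mul_of_nonneg_left h hR0,
    mul_le_mul_of_nonneg_left hR hδ.le]

lemma geo_bound (j : ℕ) : B^(j^2) / (t j 0) ^ 2 ≤ (1/B)^j := by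
  have hB := B_pos
  unfold t
  rw [add_zero, ← pow_mul, div_le_iff₀ (by positivity), one_div, inv_pow, inv_mul_eq_div,
    le_div_iff₀ (by positivity), ← pow_add]
  apply pow_le_pow_right₀ one_le_B
  nlinarith

lemma geo_bound1 (j : ℕ) : B^(j^2) / (t j 0) ≤ (1/B)^j := by
  have hB := B_pos
  unfold t
  rw [add_zero, div_le_iff₀ (by positivity), one_div, inv_pow, inv_mul_eq_div,
    le_div_iff₀ (by positivity), ← pow_add]
  apply pow_le_pow_right₀ one_le_B
  nlinarith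

lemma norm_blk_sq_le (z : ℂ) (κ : ℝ) (hκ : 0 < κ) (j : ℕ)
    (h : ∀ i : ℕ, i ≤ j + 1 → κ * t j i ≤ ‖(t j i : ℂ) - z‖) :
    ‖blk z j‖^2 ≤ 2/κ^2 * (1/B)^j := by
  rw [norm_blk_sq]
  have h1 : ∀ i : Fin (j+2), wt j i / ‖(t j i : ℂ) - z‖^2 ≤ wt j i / (κ * t j 0)^2 := by
    intro i
    have h2 := h i (by omega)
    have h3 : t j 0 ≤ t j i := t_mono (by omega)
    have h4 := t_pos j 0
    apply div_le_div_of_nonneg_left (wt_pos j i).le (by positivity)
    apply pow_le_pow_left₀ (by positivity)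
    exact le_trans (mul_le_mul_of_nonneg_left h3 hκ.le) h2
  refine le_trans (Finset.sum_le_sum (fun i _ => h1 i)) ?_
  rw [← Finset.sum_div, wt_sum]
  have h5 := geo_bound j
  have h4 := t_pos j 0
  calc 2 * B^(j^2) / (κ * t j 0)^2 = 2/κ^2 * (B^(j^2) / (t j 0)^2) := by
        field_simp
    _ ≤ _ := by
        apply mul_le_mul_of_nonneg_left h5 (by positivity)

/-- separation constant in the upper half plane -/
lemma sep_uhp {z : ℂ} (_hz : 0 < z.im) (s : ℝ) : z.im ≤ ‖(s : ℂ) - z‖ := by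
  have h := Complex.abs_im_le_norm ((s : ℂ) - z)
  simp only [Complex.sub_im, Complex.ofReal_im, zero_sub, abs_neg] at h
  exact le_trans (le_abs_self _) h

lemma kap_uhp {z : ℂ} (hz : 0 < z.im) (j i : ℕ) :
    z.im / (‖z‖ + z.im) * t j i ≤ ‖(t j i : ℂ) - z‖ :=
  far (t_pos j i).le hz le_rfl (sep_uhp hz _)

/-- the ambient Hilbert space -/
abbrev H := lp (fun j : ℕ => EuclideanSpace ℂ (Fin (j+2))) 2

lemma summable_geo : Summable (fun j : ℕ => (1/B : ℝ)^j) :=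
  summable_geometric_of_lt_one (by unfold B; norm_num) (by unfold B; norm_num)

lemma memlp_blk {z : ℂ} (hz : 0 < z.im) : Memℓp (fun j => blk z j) 2 := by
  apply memℓp_gen
  simp only [ENNReal.toReal_ofNat, Real.rpow_ofNat]
  refine Summable.of_nonneg_of_le (fun j => by positivity)
    (fun j => norm_blk_sq_le z (z.im / (‖z‖ + z.im)) (by positivity) j
      (fun i _ => kap_uhp hz j i)) ?_
  exact summable_geo.mul_left _

/-- the (unnormalised) kernel vectors -/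
def X (z : ℂ) : H := if hz : 0 < z.im then ⟨fun j => blk z j, memlp_blk hz⟩ else 0

lemma X_apply {z : ℂ} (hz : 0 < z.im) (j : ℕ) : X z j = blk z j := by
  unfold X
  rw [dif_pos hz]

lemma hasSum_norm_sq (f : H) : HasSum (fun j => ‖f j‖^2) (‖f‖^2) := by
  have h := lp.hasSum_norm (by norm_num) f
  simpa only [ENNReal.toReal_ofNat, Real.rpow_ofNat] using h

lemma inner_X {z w : ℂ} (hz : 0 < z.im) (hw : 0 < w.im) :
    HasSum (fun j => ∑ i : Fin (j+2), (wt j i : ℂ) /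
      (((t j i : ℂ) - (starRingEnd ℂ) z) * ((t j i : ℂ) - w))) (inner ℂ (X z) (X w)) := by
  have h := lp.hasSum_inner (𝕜 := ℂ) (X z) (X w)
  have e : ∀ j, ∑ i : Fin (j+2), (wt j i : ℂ) /
      (((t j i : ℂ) - (starRingEnd ℂ) z) * ((t j i : ℂ) - w)) = inner ℂ (X z j) (X w j) := by
    intro j
    rw [X_apply hz, X_apply hw, PiLp.inner_apply]
    apply Finset.sum_congr rfl
    intro i _
    rw [blk_apply, blk_apply]
    have hs : ((Real.sqrt (wt j i) : ℝ) : ℂ) * ((Real.sqrt (wt j i) : ℝ) : ℂ) = (wt j i : ℂ) := by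
      rw [← Complex.ofReal_mul, Real.mul_self_sqrt (wt_pos j i).le]
    rw [← hs]
    simp only [RCLike.inner_apply, map_div₀, map_sub, Complex.conj_ofReal]
    rw [div_mul_div_comm, mul_comm ((t j i : ℂ) - (starRingEnd ℂ) z)]
  simp only [e]
  exact h


/-- term of the Cauchy transform -/
def mt (j : ℕ) (z : ℂ) : ℂ := ∑ i : Fin (j+2), (wt j i : ℂ) / ((t j i : ℂ) - z)

/-- Cauchy transform -/
def m (z : ℂ) : ℂ := ∑' j, mt j z

lemma norm_mt_le (z : ℂ) (κ : ℝ) (hκ : 0 < κ) (j : ℕ)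
    (h : ∀ i : ℕ, i ≤ j + 1 → κ * t j i ≤ ‖(t j i : ℂ) - z‖) :
    ‖mt j z‖ ≤ 2/κ * (1/B)^j := by
  unfold mt
  refine le_trans (norm_sum_le _ _) ?_
  have h1 : ∀ i : Fin (j+2), ‖(wt j i : ℂ) / ((t j i : ℂ) - z)‖ ≤ wt j i / (κ * t j 0) := by
    intro i
    have h2 := h i (by omega)
    have h3 : t j 0 ≤ t j i := t_mono (by omega)
    have h4 := t_pos j 0
    rw [norm_div, Complex.norm_real, Real.norm_of_nonneg (wt_pos j i).le]
    apply div_le_div_of_nonneg_left (wt_pos j i).le (by positivity)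
    exact le_trans (mul_le_mul_of_nonneg_left h3 hκ.le) h2
  refine le_trans (Finset.sum_le_sum (fun i _ => h1 i)) ?_
  rw [← Finset.sum_div, wt_sum]
  have h5 := geo_bound1 j
  have h4 := t_pos j 0
  calc 2 * B^(j^2) / (κ * t j 0) = 2/κ * (B^(j^2) / (t j 0)) := by
        field_simp
    _ ≤ _ := by
        apply mul_le_mul_of_nonneg_left h5 (by positivity)

lemma sep_exists (z : ℂ) (h : ∀ j i : ℕ, i ≤ j + 1 → (t j i : ℂ) ≠ z) :
    ∃ δ > 0, ∀ j i : ℕ, i ≤ j + 1 → δ ≤ ‖(t j i : ℂ) - z‖ := by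
  obtain ⟨J, hJ⟩ := pow_unbounded_of_one_lt (‖z‖ + 1) (show (1:ℝ) < B by unfold B; norm_num)
  let F : Set ℂ := (fun p : ℕ × ℕ => (t p.1 p.2 : ℂ)) ''
    (((Finset.range J ×ˢ Finset.range (J+1)).filter (fun p => p.2 ≤ p.1 + 1) : Finset (ℕ × ℕ)) :
      Set (ℕ × ℕ))
  have hF : F.Finite := Set.Finite.image _ (Finset.finite_toSet _)
  have hzF : z ∈ Fᶜ := by
    rintro ⟨p, hp, hpz⟩
    have hp' := Finset.mem_coe.mp hp
    rw [Finset.mem_filter] at hp'
    exact h p.1 p.2 hp'.2 hpz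
  obtain ⟨δ, hδ, hb⟩ := Metric.isOpen_iff.mp hF.isClosed.isOpen_compl z hzF
  refine ⟨min δ 1, by positivity, ?_⟩
  intro j i hij
  by_cases hj : j < J
  · by_contra hcon
    push Not at hcon
    have h1 : (t j i : ℂ) ∈ Metric.ball z δ := by
      rw [Metric.mem_ball, dist_eq_norm]
      exact lt_of_lt_of_le hcon (min_le_left _ _)
    apply hb h1
    refine ⟨(j,i), ?_, rfl⟩
    apply Finset.mem_coe.mpr
    rw [Finset.mem_filter, Finset.mem_product]
    simp only [Finset.mem_range]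
    omega
  · push Not at hj
    have h1 : B^J ≤ t j i := by
      unfold t
      apply pow_le_pow_right₀ one_le_B
      nlinarith
    have h2 : ‖(t j i : ℂ)‖ ≤ ‖(t j i : ℂ) - z‖ + ‖z‖ := by
      calc ‖(t j i : ℂ)‖ = ‖((t j i : ℂ) - z) + z‖ := by ring_nf
        _ ≤ _ := norm_add_le _ _
    rw [Complex.norm_real, Real.norm_of_nonneg (t_pos j i).le] at h2
    have h3 := min_le_right δ 1
    linarith

lemma differentiableAt_m (z : ℂ) (h : ∀ j i : ℕ, i ≤ j + 1 → (t j i : ℂ) ≠ z) :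
    DifferentiableAt ℂ m z := by
  obtain ⟨δ, hδ, hs⟩ := sep_exists z h
  have hnear : ∀ w ∈ Metric.ball z (δ/2), ∀ j i : ℕ, i ≤ j + 1 →
      δ/2 ≤ ‖(t j i : ℂ) - w‖ := by
    intro w hw j i hij
    rw [Metric.mem_ball, dist_eq_norm] at hw
    have h1 := hs j i hij
    have h2 : ‖(t j i : ℂ) - z‖ ≤ ‖(t j i : ℂ) - w‖ + ‖w - z‖ := by
      calc ‖(t j i : ℂ) - z‖ = ‖((t j i : ℂ) - w) + (w - z)‖ := by ring_nf
        _ ≤ _ := norm_add_le _ _
    linarith
  have hd : DifferentiableOn ℂ (fun w => ∑' j, mt j w) (Metric.ball z (δ/2)) := by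
    apply differentiableOn_tsum_of_summable_norm
      (u := fun j => 2/(δ/2/((‖z‖ + δ/2) + δ/2)) * (1/B)^j)
    · exact summable_geo.mul_left _
    · intro j w hw
      unfold mt
      apply DifferentiableWithinAt.fun_sum
      intro i _
      apply DifferentiableWithinAt.div
      · exact differentiableWithinAt_const _
      · exact (differentiableWithinAt_const _).sub differentiableWithinAt_id
      · intro h0
        have h1 := hnear w hw j i (by omega)
        rw [h0, norm_zero] at h1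
        linarith
    · exact Metric.isOpen_ball
    · intro j w hw
      apply norm_mt_le w _ (by positivity)
      intro i hi
      have hwn : ‖w‖ ≤ ‖z‖ + δ/2 := by
        have h1 : ‖w‖ ≤ ‖z‖ + ‖w - z‖ := by
          calc ‖w‖ = ‖z + (w - z)‖ := by ring_nf
            _ ≤ _ := norm_add_le _ _
        rw [Metric.mem_ball, dist_eq_norm] at hw
        linarith
      exact far (t_pos j i).le (by positivity) hwn (hnear w hw j i hi)
  exact (hd z (Metric.mem_ball_self (by positivity))).differentiableAt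
    (Metric.ball_mem_nhds z (by positivity))

lemma ne_of_uhp {z : ℂ} (hz : 0 < z.im) (s : ℝ) : (s : ℂ) ≠ z := by
  intro h
  rw [← h] at hz
  simp at hz

lemma summable_mt {z : ℂ} (h : ∀ j i : ℕ, i ≤ j + 1 → (t j i : ℂ) ≠ z) :
    Summable (fun j => mt j z) := by
  obtain ⟨δ, hδ, hs⟩ := sep_exists z h
  apply Summable.of_norm_bounded (g := fun j => 2/(δ/(‖z‖ + δ)) * (1/B)^j)
    (summable_geo.mul_left _)
  intro j
  apply norm_mt_le z _ (by positivity)
  intro i hi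
  exact far (t_pos j i).le hδ le_rfl (hs j i hi)

lemma hasSum_mt {z : ℂ} (h : ∀ j i : ℕ, i ≤ j + 1 → (t j i : ℂ) ≠ z) :
    HasSum (fun j => mt j z) (m z) := (summable_mt h).hasSum

/-- the fundamental identity -/
lemma m_sub {z w : ℂ} (hz : 0 < z.im) (hw : 0 < w.im) :
    m w - (starRingEnd ℂ) (m z) = (w - (starRingEnd ℂ) z) * inner ℂ (X z) (X w) := by
  have h1 := hasSum_mt (z := w) (fun j i _ => ne_of_uhp hw _)
  have h2 := hasSum_mt (z := z) (fun j i _ => ne_of_uhp hz _)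
  have h2' : HasSum (fun j => (starRingEnd ℂ) (mt j z)) ((starRingEnd ℂ) (m z)) :=
    h2.map (starRingEnd ℂ) Complex.continuous_conj
  have h3 := (inner_X hz hw).mul_left (w - (starRingEnd ℂ) z)
  refine (h1.sub h2').unique ?_
  have e : ∀ j, mt j w - (starRingEnd ℂ) (mt j z) = (w - (starRingEnd ℂ) z) *
      ∑ i : Fin (j+2), (wt j i : ℂ) /
      (((t j i : ℂ) - (starRingEnd ℂ) z) * ((t j i : ℂ) - w)) := by
    intro j
    unfold mt
    rw [map_sum, ← Finset.sum_sub_distrib, Finset.mul_sum]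
    apply Finset.sum_congr rfl
    intro i _
    have e1 : (t j i : ℂ) - w ≠ 0 := sub_ne_zero.mpr (ne_of_uhp hw _)
    have e2 : (t j i : ℂ) - (starRingEnd ℂ) z ≠ 0 := by
      intro h0
      apply sub_ne_zero.mpr (ne_of_uhp hz (t j i))
      have := congrArg (starRingEnd ℂ) h0
      simpa using this
    rw [map_div₀, map_sub, Complex.conj_ofReal, Complex.conj_ofReal]
    field_simp
    ring
  simp only [e]
  exact h3

lemma m_im {z : ℂ} (hz : 0 < z.im) : 0 ≤ (m z).im := by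
  have h := m_sub hz hz
  have h1 := congrArg Complex.im h
  rw [inner_self_eq_norm_sq_to_K] at h1
  have h2 : (z - (starRingEnd ℂ) z) * ((‖X z‖ : ℂ) ^ 2) = ((2 * z.im * ‖X z‖^2 : ℝ) : ℂ) * I := by
    rw [Complex.sub_conj]
    push_cast
    ring
  have h3 : (m z - (starRingEnd ℂ) (m z)).im = 2 * (m z).im := by
    simp
    ring
  rw [h3] at h1
  have h4 : ((z - (starRingEnd ℂ) z) * ((‖X z‖ : ℂ) ^ 2)).im = 2 * z.im * ‖X z‖^2 := by
    rw [h2, Complex.im_ofReal_mul, Complex.I_im, mul_one]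
  have h5 : 2 * (m z).im = 2 * z.im * ‖X z‖^2 := by
    rw [h1, ← h4]
    rfl
  have : 0 ≤ 2 * z.im * ‖X z‖^2 := by positivity
  linarith

lemma m_real {x : ℝ} (h : ∀ j i : ℕ, i ≤ j + 1 → (t j i : ℂ) ≠ x) : (m x).im = 0 := by
  have h1 := hasSum_mt h
  have h2 : HasSum (fun j => (starRingEnd ℂ) (mt j x)) ((starRingEnd ℂ) (m x)) :=
    h1.map (starRingEnd ℂ) Complex.continuous_conj
  have h3 : (fun j => (starRingEnd ℂ) (mt j x)) = fun j => mt j x := by
    funext j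
    unfold mt
    rw [map_sum]
    apply Finset.sum_congr rfl
    intro i _
    rw [map_div₀, map_sub, Complex.conj_ofReal, Complex.conj_ofReal, Complex.conj_ofReal]
  rw [h3] at h2
  have h4 := h1.unique h2
  exact Complex.conj_eq_iff_im.mp h4.symm

/-- the inner function -/
def Th (z : ℂ) : ℂ := (m z - I) / (m z + I)

lemma add_I_ne {s : ℂ} (hs : 0 ≤ s.im) : s + I ≠ 0 := by
  intro h
  have := congrArg Complex.im h
  simp at this
  linarith

lemma norm_Th_le {z : ℂ} (hz : 0 < z.im) : ‖Th z‖ ≤ 1 := by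
  unfold Th
  have h := m_im hz
  rw [norm_div, div_le_one (norm_pos_iff.mpr (add_I_ne h))]
  apply le_of_sq_le_sq _ (norm_nonneg _)
  rw [← Complex.normSq_eq_norm_sq, ← Complex.normSq_eq_norm_sq, Complex.normSq_apply,
    Complex.normSq_apply]
  simp
  nlinarith

lemma differentiableOn_Th : DifferentiableOn ℂ Th {z : ℂ | 0 < z.im} := by
  intro z hz
  have hz' : 0 < z.im := hz
  have h := differentiableAt_m z (fun j i _ => ne_of_uhp hz' _)
  exact ((h.sub_const _).div (h.add_const _) (add_I_ne (m_im hz'))).differentiableWithinAt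

lemma Th_boundary : ∀ᵐ x : ℝ, Filter.Tendsto (fun y : ℝ => ‖Th ((x : ℂ) + (y : ℂ) * Complex.I)‖)
          (nhdsWithin (0 : ℝ) (Set.Ioi 0)) (nhds 1) := by
  have hc : (Set.range (fun p : ℕ × ℕ => t p.1 p.2)).Countable := Set.countable_range _
  filter_upwards [hc.ae_notMem MeasureTheory.volume] with x hx
  have hne : ∀ j i : ℕ, i ≤ j + 1 → (t j i : ℂ) ≠ x := by
    intro j i _ h
    exact hx ⟨(j,i), by exact_mod_cast h⟩
  have hd := differentiableAt_m x hne
  have h0 := m_real hne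
  have hTh : ContinuousAt Th x :=
    (hd.continuousAt.sub continuousAt_const).div (hd.continuousAt.add continuousAt_const)
      (add_I_ne h0.ge)
  have h1 : ‖Th x‖ = 1 := by
    unfold Th
    rw [norm_div, div_eq_one_iff_eq (norm_ne_zero_iff.mpr (add_I_ne h0.ge))]
    rw [← sq_eq_sq₀ (norm_nonneg _) (norm_nonneg _)]
    rw [← Complex.normSq_eq_norm_sq, ← Complex.normSq_eq_norm_sq, Complex.normSq_apply,
      Complex.normSq_apply]
    simp [h0]
  rw [← h1]
  have hline : Filter.Tendsto (fun y : ℝ => (x : ℂ) + (y : ℂ) * Complex.I)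
      (nhdsWithin (0 : ℝ) (Set.Ioi 0)) (nhds (x : ℂ)) := by
    have hcont : Continuous (fun y : ℝ => (x : ℂ) + (y : ℂ) * Complex.I) := by fun_prop
    have := hcont.tendsto 0
    simp only [Complex.ofReal_zero, zero_mul, add_zero] at this
    exact this.mono_left nhdsWithin_le_nhds
  exact (hTh.norm.tendsto).comp hline

/-- scaling factor -/
def al (z : ℂ) : ℂ := ((1 / Real.sqrt Real.pi : ℝ) : ℂ) / (m z + I)

lemma al_ne {z : ℂ} (hz : 0 < z.im) : al z ≠ 0 := by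
  unfold al
  apply div_ne_zero
  · have : (1 / Real.sqrt Real.pi : ℝ) ≠ 0 := by
      have := Real.pi_pos
      positivity
    exact_mod_cast this
  · exact add_I_ne (m_im hz)

lemma alg (M N D S P : ℂ) (h1 : N - I ≠ 0) (h2 : M + I ≠ 0) (h3 : D ≠ 0) (hP : P ≠ 0)
    (hS : S * S = 1 / P) :
    I / (2 * P) * (1 - (N + I) / (N - I) * ((M - I) / (M + I))) / D
      = S / (N - I) * (S / (M + I) * ((M - N) / D)) := by
  have e3 : S / (N - I) * (S / (M + I) * ((M - N) / D)) =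
      (S * S) * ((M - N) / ((N - I) * (M + I) * D)) := by
    field_simp
  rw [e3, hS]
  have e5 : (1 - (N + I) / (N - I) * ((M - I) / (M + I))) = -2 * I * (M - N) /
        ((N - I) * (M + I)) := by
    rw [eq_div_iff (mul_ne_zero h1 h2)]
    have : (1 - (N + I) / (N - I) * ((M - I) / (M + I))) * ((N - I) * (M + I))
      = (N - I) * (M + I) - ((N + I) / (N - I) * (N - I)) * ((M - I) / (M + I) * (M + I)) := by ring
    rw [this, div_mul_cancel₀ _ h1, div_mul_cancel₀ _ h2]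
    ring
  rw [e5]
  have hI : I * I = -1 := Complex.I_mul_I
  have e6 : I / (2 * P) * (-2 * I * (M - N) / ((N - I) * (M + I))) / D =
      (I * I) * (-1 / P * ((M - N) / ((N - I) * (M + I) * D))) := by
    field_simp
  rw [e6, hI]
  ring

lemma G_eq {z w : ℂ} (hz : 0 < z.im) (hw : 0 < w.im) :
    Complex.I / (2 * (Real.pi : ℂ)) *
            (1 - starRingEnd ℂ (Th z) * Th w) / (w - starRingEnd ℂ z)
      = inner ℂ (al z • X z) (al w • X w) := by
  rw [inner_smul_left, inner_smul_right]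
  have h := m_sub hz hw
  have hne : w - (starRingEnd ℂ) z ≠ 0 := by
    intro h0
    have := congrArg Complex.im h0
    simp at this
    linarith
  have e1 : m w + I ≠ 0 := add_I_ne (m_im hw)
  have e2 : (starRingEnd ℂ) (m z + I) ≠ 0 := by
    intro h0
    apply add_I_ne (m_im hz)
    have := congrArg (starRingEnd ℂ) h0
    simpa using this
  have e2' : (starRingEnd ℂ) (m z) - I ≠ 0 := by
    simpa [sub_eq_add_neg] using e2
  have hpi : (Real.pi : ℂ) ≠ 0 := by exact_mod_cast Real.pi_ne_zero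
  have hs : ((1 / Real.sqrt Real.pi : ℝ) : ℂ) * ((1 / Real.sqrt Real.pi : ℝ) : ℂ)
      = 1 / (Real.pi : ℂ) := by
    rw [← Complex.ofReal_mul, div_mul_div_comm, Real.mul_self_sqrt Real.pi_pos.le]
    push_cast
    ring
  have hin : inner ℂ (X z) (X w) = (m w - (starRingEnd ℂ) (m z)) / (w - (starRingEnd ℂ) z) := by
    rw [h]
    field_simp
  rw [hin]
  unfold al Th
  rw [map_div₀, map_div₀, Complex.conj_ofReal, map_sub, map_add, Complex.conj_I,
    ← sub_eq_add_neg, sub_neg_eq_add]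
  exact alg _ _ _ _ _ e2' e1 hne hpi hs


/-- outer radius of block `j` -/
def Rr (j : ℕ) : ℝ := B^(2*(j+1)^2+j+2)

/-- tail constants -/
def tau (j : ℕ) : ℝ := 33 * (1/1000)^(j+1)

lemma tau_pos (j : ℕ) : 0 < tau j := by unfold tau; positivity

lemma Rr_pos (j : ℕ) : 0 < Rr j := Bp_pos _

lemma Rr_eq (j : ℕ) : Rr j = B * t j (j+1) := by
  unfold Rr t
  rw [← pow_succ']
  congr 1

lemma norm_tri (s : ℝ) (hs : 0 ≤ s) (z : ℂ) : ‖(s : ℂ) - z‖ ≤ s + ‖z‖ := by
  have := norm_sub_le (s : ℂ) z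
  rwa [Complex.norm_real, Real.norm_of_nonneg hs] at this

lemma norm_tri2 (s : ℝ) (hs : 0 ≤ s) (z : ℂ) : s - ‖z‖ ≤ ‖(s : ℂ) - z‖ := by
  have := norm_sub_norm_le (s : ℂ) z
  rwa [Complex.norm_real, Real.norm_of_nonneg hs] at this

lemma norm_tri3 (s : ℝ) (hs : 0 ≤ s) (z : ℂ) : ‖z‖ - s ≤ ‖(s : ℂ) - z‖ := by
  have := norm_sub_norm_le z (s : ℂ)
  rw [Complex.norm_real, Real.norm_of_nonneg hs, norm_sub_rev] at this
  exact this

lemma key_lt {z : ℂ} (hz : 0 < z.im) {j k : ℕ} (hkj : k < j) (h1 : t j 0 / 2 ≤ ‖z‖) :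
    ‖blk z k‖^2 ≤ 32 * (1/B)^(j+k) * (B^(j^2) / ‖(t j 0 : ℂ) - z‖^2) := by
  have hB := B_pos
  have hd : 0 < ‖(t j 0 : ℂ) - z‖ := norm_pos_iff.mpr (sub_ne_zero.mpr (ne_of_uhp hz _))
  rw [norm_blk_sq]
  have hterm : ∀ i : Fin (k+2), wt k i / ‖(t k i : ℂ) - z‖^2
      ≤ wt k i * (16 / ‖(t j 0 : ℂ) - z‖^2) := by
    intro i
    have h2 : B * t k i ≤ t j 0 := by
      unfold t
      rw [← pow_succ']
      apply pow_le_pow_right₀ one_le_B
      have hi : (i : ℕ) ≤ k + 1 := by omega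
      nlinarith
    have h3 := t_pos k i
    have h4 : 8 * t k i ≤ t j 0 := by
      have : (8:ℝ) ≤ B := by unfold B; norm_num
      nlinarith
    have h5 := norm_tri3 (t k i) h3.le z
    have h6 := norm_tri (t j 0) (t_pos j 0).le z
    have h7 : ‖(t j 0 : ℂ) - z‖ ≤ 4 * ‖(t k i : ℂ) - z‖ := by linarith
    have h8 : 0 < ‖(t k i : ℂ) - z‖ := by linarith
    rw [div_eq_mul_one_div]
    apply mul_le_mul_of_nonneg_left _ (wt_pos k i).le
    rw [div_le_div_iff₀ (by positivity) (by positivity)]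
    nlinarith
  refine le_trans (Finset.sum_le_sum (fun i _ => hterm i)) ?_
  rw [← Finset.sum_mul, wt_sum]
  have h9 : B^(k^2) ≤ (1/B)^(j+k) * B^(j^2) := by
    rw [one_div, inv_pow, inv_mul_eq_div, le_div_iff₀ (by positivity), ← pow_add]
    apply pow_le_pow_right₀ one_le_B
    nlinarith
  calc 2 * B^(k^2) * (16 / ‖(t j 0 : ℂ) - z‖^2)
      = 32 * (B^(k^2)) / ‖(t j 0 : ℂ) - z‖^2 := by ring
    _ ≤ 32 * ((1/B)^(j+k) * B^(j^2)) / ‖(t j 0 : ℂ) - z‖^2 := by
        apply div_le_div_of_nonneg_right _ (by positivity)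
        linarith
    _ = _ := by ring

lemma key_gt {z : ℂ} (hz : 0 < z.im) {j k : ℕ} (hkj : j < k) (h1 : ‖z‖ ≤ Rr j) :
    ‖blk z k‖^2 ≤ 32 * (1/B)^(j+k) * (B^(j^2) / ‖(t j 0 : ℂ) - z‖^2) := by
  have hB := B_pos
  have hd : 0 < ‖(t j 0 : ℂ) - z‖ := norm_pos_iff.mpr (sub_ne_zero.mpr (ne_of_uhp hz _))
  rw [norm_blk_sq]
  have hk0 := t_pos k 0
  have hR0 := Rr_pos j
  have hterm : ∀ i : Fin (k+2), wt k i / ‖(t k i : ℂ) - z‖^2
      ≤ wt k i * (4 / (t k 0)^2) := by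
    intro i
    have h2 : B * Rr j ≤ t k i := by
      unfold t Rr
      rw [← pow_succ']
      apply pow_le_pow_right₀ one_le_B
      nlinarith
    have h3 := t_pos k i
    have h4 : 2 * Rr j ≤ t k i := by
      have : (2:ℝ) ≤ B := by unfold B; norm_num
      nlinarith
    have h5 := norm_tri2 (t k i) h3.le z
    have h6 : t k 0 ≤ t k i := t_mono (by omega)
    have h7 : t k 0 ≤ 2 * ‖(t k i : ℂ) - z‖ := by linarith
    have h8 : 0 < ‖(t k i : ℂ) - z‖ := by linarith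
    rw [div_eq_mul_one_div]
    apply mul_le_mul_of_nonneg_left _ (wt_pos k i).le
    rw [div_le_div_iff₀ (by positivity) (by positivity)]
    nlinarith
  refine le_trans (Finset.sum_le_sum (fun i _ => hterm i)) ?_
  rw [← Finset.sum_mul, wt_sum]
  have h6 := norm_tri (t j 0) (t_pos j 0).le z
  have h7 : t j 0 ≤ Rr j := by
    unfold t Rr
    apply pow_le_pow_right₀ one_le_B
    omega
  have h8 : ‖(t j 0 : ℂ) - z‖ ≤ 2 * Rr j := by linarith
  have h9 : B^(k^2) / (t k 0)^2 ≤ (1/B)^(j+k) * B^(j^2) / (Rr j)^2 := by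
    rw [one_div, inv_pow, inv_mul_eq_div, div_div,
      div_le_div_iff₀ (by positivity) (by positivity)]
    unfold t Rr
    rw [← pow_mul, ← pow_mul, ← pow_add, ← pow_add, ← pow_add]
    apply pow_le_pow_right₀ one_le_B
    nlinarith
  have h10 : 1 / (Rr j)^2 ≤ 4 / ‖(t j 0 : ℂ) - z‖^2 := by
    rw [div_le_div_iff₀ (by positivity) (by positivity)]
    nlinarith
  calc 2 * B^(k^2) * (4 / (t k 0)^2) = 8 * (B^(k^2) / (t k 0)^2) := by ring
    _ ≤ 8 * ((1/B)^(j+k) * B^(j^2) / (Rr j)^2) := by linarith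
    _ = 8 * ((1/B)^(j+k) * B^(j^2)) * (1 / (Rr j)^2) := by ring
    _ ≤ 8 * ((1/B)^(j+k) * B^(j^2)) * (4 / ‖(t j 0 : ℂ) - z‖^2) := by
        apply mul_le_mul_of_nonneg_left h10 (by positivity)
    _ = _ := by ring

lemma key {z : ℂ} (hz : 0 < z.im) {j k : ℕ} (hkj : k ≠ j) (h1 : t j 0 / 2 ≤ ‖z‖)
    (h2 : ‖z‖ ≤ Rr j) :
    ‖blk z k‖^2 ≤ 32 * (1/1000)^(j+1) * (B^(j^2) / ‖(t j 0 : ℂ) - z‖^2) * (1/1000)^k := by
  have hB := B_pos
  have hd : 0 < ‖(t j 0 : ℂ) - z‖ := norm_pos_iff.mpr (sub_ne_zero.mpr (ne_of_uhp hz _))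
  have h3 : ‖blk z k‖^2 ≤ 32 * (1/B)^(j+k) * (B^(j^2) / ‖(t j 0 : ℂ) - z‖^2) := by
    rcases lt_or_gt_of_ne hkj with h | h
    · exact key_lt hz h h1
    · exact key_gt hz h h2
  refine le_trans h3 ?_
  have h4 : (1/B)^(j+k) ≤ (1/1000 : ℝ)^(j+1) * (1/1000)^k := by
    have e : (1/B : ℝ) = (1/1000)^2 := by unfold B; norm_num
    rw [e, ← pow_mul, ← pow_add]
    apply pow_le_pow_of_le_one (by norm_num) (by norm_num)
    omega
  have h5 : 0 ≤ B^(j^2) / ‖(t j 0 : ℂ) - z‖^2 := by positivity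
  nlinarith [mul_le_mul_of_nonneg_right h4 h5]

/-- the main coordinate -/
lemma main_le (z : ℂ) (j : ℕ) :
    B^(j^2) / ‖(t j 0 : ℂ) - z‖^2 ≤ ‖blk z j‖^2 := by
  rw [norm_blk_sq, Fin.sum_univ_succ]
  have h0 : wt j ((0 : Fin (j+2)) : ℕ) = B^(j^2) := wt_zero j
  rw [h0]
  have : 0 ≤ ∑ i : Fin (j+1), wt j ((Fin.succ i : Fin (j+2)) : ℕ) /
      ‖(t j ((Fin.succ i : Fin (j+2)) : ℕ) : ℂ) - z‖^2 := by
    apply Finset.sum_nonneg
    intro i _
    have := wt_pos j ((Fin.succ i : Fin (j+2)) : ℕ)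
    positivity
  have e : ((0 : Fin (j+2)) : ℕ) = 0 := rfl
  rw [e]
  linarith

lemma blk_le {z : ℂ} (hz : 0 < z.im) (j : ℕ) : ‖blk z j‖^2 ≤ ‖X z‖^2 := by
  have h := hasSum_norm_sq (X z)
  have := h.summable.sum_le_tsum {j} (fun _ _ => by positivity)
  rw [Finset.sum_singleton, h.tsum_eq, X_apply hz] at this
  exact this

/-- projection to block `j` -/
def P (j : ℕ) (f : H) : H := lp.single 2 j (f j)

lemma tail {z : ℂ} (hz : 0 < z.im) {j : ℕ} (h1 : t j 0 / 2 ≤ ‖z‖) (h2 : ‖z‖ ≤ Rr j) :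
    ‖X z - P j (X z)‖^2 ≤ tau j * (B^(j^2) / ‖(t j 0 : ℂ) - z‖^2) := by
  have hs := hasSum_norm_sq (X z - P j (X z))
  have hg : HasSum (fun k : ℕ => 32 * (1/1000)^(j+1) * (B^(j^2) / ‖(t j 0 : ℂ) - z‖^2) *
      (1/1000 : ℝ)^k) (32 * (1/1000)^(j+1) * (B^(j^2) / ‖(t j 0 : ℂ) - z‖^2) *
      (1 - 1/1000)⁻¹) :=
    (hasSum_geometric_of_lt_one (by norm_num) (by norm_num)).mul_left _
  have hB := B_pos
  have hle := hasSum_le (fun k => ?_) hs hg
  · refine le_trans hle ?_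
    unfold tau
    have h5 : 0 ≤ (1/1000 : ℝ)^(j+1) * (B^(j^2) / ‖(t j 0 : ℂ) - z‖^2) := by positivity
    norm_num at h5 ⊢
    nlinarith
  · by_cases hk : k = j
    · subst hk
      have : (X z - P k (X z)) k = 0 := by
        rw [lp.coeFn_sub, Pi.sub_apply]
        unfold P
        rw [lp.single_apply_self, sub_self]
      rw [this, norm_zero, zero_pow (by norm_num)]
      positivity
    · have : (X z - P j (X z)) k = blk z k := by
        rw [lp.coeFn_sub, Pi.sub_apply]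
        unfold P
        rw [lp.single_apply_ne _ _ _ hk, sub_zero, X_apply hz]
      rw [this]
      exact key hz hk h1 h2

lemma tail' {z : ℂ} (hz : 0 < z.im) {j : ℕ} (h1 : t j 0 / 2 ≤ ‖z‖) (h2 : ‖z‖ ≤ Rr j) :
    ‖X z - P j (X z)‖^2 ≤ tau j * ‖X z‖^2 := by
  refine le_trans (tail hz h1 h2) ?_
  apply mul_le_mul_of_nonneg_left _ (tau_pos j).le
  exact le_trans (main_le z j) (blk_le hz j)

end

end Pool.Agent.H32.KE
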