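import Mathlib
import Pool.Agent.H32.KernelExtA

/-!
Helper file for problem MP_0d1f0b_an (frozen statement S03802): model space kernels.
-/

set_option autoImplicit false

open Complex

namespace Pool.Agent.H32.KE

noncomputable section

/-- Riesz sequence property with bounds `c`, `C` for the (unnormalised) vectors -/
def RieszX (c C : ℝ) (S : Set ℂ) : Prop :=
  ∀ s : Finset ℂ, (↑s : Set ℂ) ⊆ S → ∀ b : ℂ → ℂ,
    c * ∑ z ∈ s, ‖b z‖^2 * ‖X z‖^2 ≤ ‖∑ z ∈ s, b z • X z‖^2 ∧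
    ‖∑ z ∈ s, b z • X z‖^2 ≤ C * ∑ z ∈ s, ‖b z‖^2 * ‖X z‖^2

/-- coordinate functional -/
def coL (j : ℕ) (i : Fin (j+2)) : H →ₗ[ℂ] ℂ where
  toFun f := f j i
  map_add' f g := by
    rw [lp.coeFn_add, Pi.add_apply]
    rfl
  map_smul' a f := by
    rw [lp.coeFn_smul, Pi.smul_apply]
    rfl

lemma coL_apply (j : ℕ) (i : Fin (j+2)) (f : H) : coL j i f = f j i := rfl

lemma norm_coL_le (j : ℕ) (i : Fin (j+2)) (f : H) : ‖coL j i f‖ ≤ ‖f‖ := by
  rw [coL_apply]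
  exact le_trans (PiLp.norm_apply_le _ _) (lp.norm_apply_le_norm (by norm_num) f j)

lemma coL_X {z : ℂ} (hz : 0 < z.im) (j : ℕ) (i : Fin (j+2)) :
    ‖coL j i (X z)‖^2 = wt j i / ‖(t j i : ℂ) - z‖^2 := by
  rw [coL_apply, X_apply hz, norm_blk_apply_sq]

lemma X_pos {z : ℂ} (hz : 0 < z.im) : 0 < ‖X z‖ := by
  have h := norm_coL_le 0 0 (X z)
  have h1 := coL_X hz 0 0
  have h2 : 0 < wt 0 ((0 : Fin (0+2)) : ℕ) / ‖(t 0 ((0 : Fin (0+2)) : ℕ) : ℂ) - z‖^2 := by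
    have := wt_pos 0 ((0 : Fin (0+2)) : ℕ)
    have h3 : 0 < ‖(t 0 ((0 : Fin (0+2)) : ℕ) : ℂ) - z‖ :=
      norm_pos_iff.mpr (sub_ne_zero.mpr (ne_of_uhp hz _))
    positivity
  rw [← h1] at h2
  have h3 : 0 < ‖coL 0 0 (X z)‖ := by
    by_contra hcon
    have h4 : ‖coL 0 0 (X z)‖ = 0 := le_antisymm (not_lt.mp hcon) (norm_nonneg _)
    rw [h4] at h2
    norm_num at h2
  linarith

lemma bessel {c C : ℝ} (hC : 0 < C) {S : Set ℂ} (hS : ∀ z ∈ S, 0 < z.im)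
    (hR : RieszX c C S) (s : Finset ℂ) (hs : (↑s : Set ℂ) ⊆ S) (j : ℕ) (i : Fin (j+2)) :
    ∑ z ∈ s, ‖coL j i (X z)‖^2 / ‖X z‖^2 ≤ C := by
  set Q := ∑ z ∈ s, ‖coL j i (X z)‖^2 / ‖X z‖^2 with hQ
  have hQ0 : 0 ≤ Q := Finset.sum_nonneg (fun z _ => by positivity)
  have h := (hR s hs (fun z => (starRingEnd ℂ) (coL j i (X z)) / (‖X z‖^2 : ℝ))).2
  have h1 : coL j i (∑ z ∈ s, ((starRingEnd ℂ) (coL j i (X z)) / (‖X z‖^2 : ℝ)) • X z) = (Q : ℂ) := by
    rw [map_sum, hQ]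
    push_cast
    apply Finset.sum_congr rfl
    intro z _
    rw [map_smul, smul_eq_mul, div_mul_eq_mul_div, mul_comm, Complex.mul_conj,
      Complex.normSq_eq_norm_sq]
    push_cast
    ring
  have h2 : Q ≤ ‖∑ z ∈ s, ((starRingEnd ℂ) (coL j i (X z)) / (‖X z‖^2 : ℝ)) • X z‖ := by
    have := norm_coL_le j i (∑ z ∈ s, ((starRingEnd ℂ) (coL j i (X z)) / (‖X z‖^2 : ℝ)) • X z)
    rw [h1, Complex.norm_real, Real.norm_of_nonneg hQ0] at this
    exact this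
  have h3 : ∑ z ∈ s, ‖(starRingEnd ℂ) (coL j i (X z)) / ((‖X z‖^2 : ℝ) : ℂ)‖^2 * ‖X z‖^2 = Q := by
    rw [hQ]
    apply Finset.sum_congr rfl
    intro z hz
    have hp := X_pos (hS z (hs (Finset.mem_coe.mpr hz)))
    rw [norm_div, RCLike.norm_conj, Complex.norm_real, Real.norm_of_nonneg (by positivity)]
    field_simp
  rw [h3] at h
  have h4 : Q^2 ≤ C * Q := le_trans (pow_le_pow_left₀ hQ0 h2 2) h
  by_contra hcon
  push Not at hcon
  nlinarith

lemma coord_bound {c C K : ℝ} (hc : 0 < c) (hC : 0 < C) {S : Set ℂ}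
    (hS : ∀ z ∈ S, 0 < z.im) (hR : RieszX c C S) (j : ℕ) (i i0 : Fin (j+2))
    (hcomp : ∀ z ∈ S, ‖coL j i (X z)‖ ≤ K * ‖coL j i0 (X z)‖)
    (s : Finset ℂ) (hs : (↑s : Set ℂ) ⊆ S) (b : ℂ → ℂ) :
    ‖coL j i (∑ z ∈ s, b z • X z)‖^2 ≤ K^2 * (C/c) * ‖∑ z ∈ s, b z • X z‖^2 := by
  have h1 := (hR s hs b).1
  have h2 := bessel hC hS hR s hs j i0
  have h3 : ‖coL j i (∑ z ∈ s, b z • X z)‖ ≤
      K * ∑ z ∈ s, (‖b z‖ * ‖X z‖) * (‖coL j i0 (X z)‖ / ‖X z‖) := by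
    rw [map_sum, Finset.mul_sum]
    refine le_trans (norm_sum_le _ _) (Finset.sum_le_sum ?_)
    intro z hz
    have hzS := hs (Finset.mem_coe.mpr hz)
    have hp := X_pos (hS z hzS)
    rw [map_smul, norm_smul]
    have e : K * (‖b z‖ * ‖X z‖ * (‖coL j i0 (X z)‖ / ‖X z‖)) = ‖b z‖ * (K * ‖coL j i0 (X z)‖) := by
      field_simp
    rw [e]
    exact mul_le_mul_of_nonneg_left (hcomp z hzS) (norm_nonneg _)
  have h4 := Finset.sum_mul_sq_le_sq_mul_sq s (fun z => ‖b z‖ * ‖X z‖)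
    (fun z => ‖coL j i0 (X z)‖ / ‖X z‖)
  simp only [mul_pow, div_pow] at h4
  set A := ∑ z ∈ s, ‖b z‖^2 * ‖X z‖^2 with hA
  set Q := ∑ z ∈ s, ‖coL j i0 (X z)‖^2 / ‖X z‖^2 with hQ
  set T := ∑ z ∈ s, (‖b z‖ * ‖X z‖) * (‖coL j i0 (X z)‖ / ‖X z‖) with hT
  have hA0 : 0 ≤ A := Finset.sum_nonneg (fun z _ => by positivity)
  have hQ0 : 0 ≤ Q := Finset.sum_nonneg (fun z _ => by positivity)
  have h5 : ‖coL j i (∑ z ∈ s, b z • X z)‖^2 ≤ K^2 * T^2 := by
    rw [← mul_pow]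
    exact pow_le_pow_left₀ (norm_nonneg _) h3 2
  have h6 : T^2 ≤ A * C := le_trans h4 (mul_le_mul_of_nonneg_left h2 hA0)
  have h7 : A ≤ ‖∑ z ∈ s, b z • X z‖^2 / c := by
    rw [le_div_iff₀ hc]
    linarith
  calc ‖coL j i (∑ z ∈ s, b z • X z)‖^2 ≤ K^2 * T^2 := h5
    _ ≤ K^2 * (A * C) := mul_le_mul_of_nonneg_left h6 (by positivity)
    _ ≤ K^2 * (‖∑ z ∈ s, b z • X z‖^2 / c * C) := by
        apply mul_le_mul_of_nonneg_left _ (by positivity)
        exact mul_le_mul_of_nonneg_right h7 hC.le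
    _ = _ := by ring

/-- vectors in the closed span satisfy the coordinate bound -/
lemma coord_bound_cl {c C K : ℝ} (hc : 0 < c) (hC : 0 < C) {S : Set ℂ}
    (hS : ∀ z ∈ S, 0 < z.im) (hR : RieszX c C S) (j : ℕ) (i i0 : Fin (j+2))
    (hcomp : ∀ z ∈ S, ‖coL j i (X z)‖ ≤ K * ‖coL j i0 (X z)‖) (f : H)
    (hf : ∀ ε : ℝ, 0 < ε → ∃ s : Finset ℂ, (↑s : Set ℂ) ⊆ S ∧ ∃ b : ℂ → ℂ,
      ‖f - ∑ z ∈ s, b z • X z‖ < ε) :
    ‖coL j i f‖^2 ≤ K^2 * (C/c) * ‖f‖^2 := by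
  set M := Real.sqrt (K^2 * (C/c)) with hM
  have hM0 : 0 ≤ M := Real.sqrt_nonneg _
  have hM2 : M^2 = K^2 * (C/c) := Real.sq_sqrt (by positivity)
  have hmain : ‖coL j i f‖ ≤ M * ‖f‖ := by
    by_contra hcon
    push Not at hcon
    set gap := ‖coL j i f‖ - M * ‖f‖ with hgap
    have hgap0 : 0 < gap := by linarith
    obtain ⟨s, hs, b, hb⟩ := hf (gap / (2 * (M + 1))) (by positivity)
    set g := ∑ z ∈ s, b z • X z with hg
    have h1 := coord_bound hc hC hS hR j i i0 hcomp s hs b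
    rw [← hg, ← hM2, ← mul_pow] at h1
    have h2 : ‖coL j i g‖ ≤ M * ‖g‖ := by
      exact le_of_sq_le_sq h1 (by positivity)
    have h3 : ‖coL j i f‖ ≤ ‖coL j i g‖ + ‖f - g‖ := by
      have e : coL j i f = coL j i g + coL j i (f - g) := by
        rw [← map_add]
        congr 1
        abel
      rw [e]
      exact le_trans (norm_add_le _ _) (by linarith [norm_coL_le j i (f - g)])
    have h4 : ‖g‖ ≤ ‖f‖ + ‖f - g‖ := by
      have e : g = f - (f - g) := by abel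
      calc ‖g‖ = ‖f - (f - g)‖ := by rw [← e]
        _ ≤ _ := norm_sub_le _ _
    have h5 : (M + 1) * ‖f - g‖ ≤ gap / 2 := by
      have := mul_le_mul_of_nonneg_left hb.le (show 0 ≤ M + 1 by linarith)
      have e : (M + 1) * (gap / (2 * (M + 1))) = gap / 2 := by
        field_simp
      linarith
    have h6 : M * ‖g‖ ≤ M * (‖f‖ + ‖f - g‖) := mul_le_mul_of_nonneg_left h4 hM0
    nlinarith
  calc ‖coL j i f‖^2 ≤ (M * ‖f‖)^2 := pow_le_pow_left₀ (norm_nonneg _) hmain 2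
    _ = _ := by rw [mul_pow, hM2]

lemma coord_compare {z : ℂ} (hz : 0 < z.im) (j : ℕ) (i : Fin (j+2)) (hi : (i : ℕ) ≠ 0)
    (hfar : t j i / 2 ≤ ‖(t j i : ℂ) - z‖) :
    ‖coL j i (X z)‖ ≤ 3 / Real.sqrt (j+1) * ‖coL j 0 (X z)‖ := by
  have hj : (0:ℝ) < (j:ℝ) + 1 := by positivity
  apply le_of_sq_le_sq _ (by positivity)
  rw [mul_pow, div_pow, Real.sq_sqrt hj.le, coL_X hz, coL_X hz, wt_succ j hi]
  have h0 : wt j ((0 : Fin (j+2)) : ℕ) = B^(j^2) := wt_zero j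
  have e0 : ((0 : Fin (j+2)) : ℕ) = 0 := rfl
  rw [h0, e0]
  have hB := B_pos
  have h1 : 0 < ‖(t j 0 : ℂ) - z‖ := norm_pos_iff.mpr (sub_ne_zero.mpr (ne_of_uhp hz _))
  have h2 : 0 < ‖(t j i : ℂ) - z‖ := norm_pos_iff.mpr (sub_ne_zero.mpr (ne_of_uhp hz _))
  have h3 : ‖(t j 0 : ℂ) - z‖ ≤ 3 * ‖(t j i : ℂ) - z‖ := by
    have h4 : ‖(t j 0 : ℂ) - z‖ ≤ ‖(t j i : ℂ) - z‖ + ‖((t j i - t j 0 : ℝ) : ℂ)‖ := by
      calc ‖(t j 0 : ℂ) - z‖ = ‖((t j i : ℂ) - z) - ((t j i - t j 0 : ℝ) : ℂ)‖ := by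
            congr 1
            push_cast
            ring
        _ ≤ _ := norm_sub_le _ _
    rw [Complex.norm_real, Real.norm_eq_abs] at h4
    have h5 : t j 0 ≤ t j i := t_mono (by omega)
    rw [abs_of_nonneg (by linarith)] at h4
    have h6 := t_pos j 0
    linarith
  have h7 : 1 / ‖(t j i : ℂ) - z‖^2 ≤ 9 / ‖(t j 0 : ℂ) - z‖^2 := by
    rw [div_le_div_iff₀ (by positivity) (by positivity)]
    nlinarith
  calc B^(j^2) / (j+1) / ‖(t j i : ℂ) - z‖^2 = B^(j^2) / (j+1) * (1 / ‖(t j i : ℂ) - z‖^2) := by ring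
    _ ≤ B^(j^2) / (j+1) * (9 / ‖(t j 0 : ℂ) - z‖^2) :=
        mul_le_mul_of_nonneg_left h7 (by positivity)
    _ = _ := by ring


lemma t_step {j i k : ℕ} (h : i < k) : B * t j i ≤ t j k := by
  unfold t
  rw [← pow_succ']
  apply pow_le_pow_right₀ one_le_B
  omega

lemma hasSum_split {z : ℂ} (hz : 0 < z.im) {j : ℕ} (h1 : t j 0 / 2 ≤ ‖z‖) (h2 : ‖z‖ ≤ Rr j) :
    ‖X z‖^2 ≤ 2 * ‖blk z j‖^2 + 2 * (tau j * (B^(j^2) / ‖(t j 0 : ℂ) - z‖^2)) := by
  have h3 := tail hz h1 h2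
  have h4 : ‖X z‖ ≤ ‖P j (X z)‖ + ‖X z - P j (X z)‖ := by
    calc ‖X z‖ = ‖P j (X z) + (X z - P j (X z))‖ := by
          congr 1
          abel
      _ ≤ _ := norm_add_le _ _
  have h5 : ‖P j (X z)‖ = ‖blk z j‖ := by
    unfold P
    rw [lp.norm_single (by norm_num), X_apply hz]
  rw [h5] at h4
  have h6 : ‖X z‖^2 ≤ (‖blk z j‖ + ‖X z - P j (X z)‖)^2 := pow_le_pow_left₀ (norm_nonneg _) h4 2
  nlinarith [sq_nonneg (‖blk z j‖ - ‖X z - P j (X z)‖)]

/-- the test point -/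
def tp (j i : ℕ) : ℂ := (t j i : ℂ) + ((t j i / (10 * (j+1)) : ℝ) : ℂ) * I

lemma tp_im (j i : ℕ) : 0 < (tp j i).im := by
  unfold tp
  have := t_pos j i
  simp only [Complex.add_im, Complex.ofReal_im, Complex.mul_im, Complex.ofReal_re, Complex.I_im,
    mul_one, Complex.I_re, mul_zero, add_zero, zero_add]
  positivity

lemma test_point (j : ℕ) (i : Fin (j+2)) (hi : (i : ℕ) ≠ 0) :
    ‖X (tp j i)‖^2 ≤ 3 * ‖coL j i (X (tp j i))‖^2 := by
  have hB := B_pos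
  have hT := t_pos j i
  have him := tp_im j i
  have hj : (0:ℝ) < (j:ℝ) + 1 := by positivity
  set w := tp j i with hw
  -- norm bounds of w
  have hre : w.re = t j i := by
    rw [hw]
    unfold tp
    rw [Complex.add_re, Complex.re_ofReal_mul, Complex.I_re, mul_zero, add_zero, Complex.ofReal_re]
  have h1 : t j 0 / 2 ≤ ‖w‖ := by
    have h2 := Complex.abs_re_le_norm w
    rw [hre, abs_of_pos hT] at h2
    have h3 : t j 0 ≤ t j i := t_mono (by omega)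
    have := t_pos j 0
    linarith
  have h2 : ‖w‖ ≤ Rr j := by
    have h3 : ‖w‖ ≤ t j i + t j i / (10 * (j+1)) := by
      rw [hw]
      unfold tp
      refine le_trans (norm_add_le _ _) ?_
      rw [norm_mul, Complex.norm_real, Complex.norm_real, Complex.norm_I, mul_one,
        Real.norm_of_nonneg hT.le, Real.norm_of_nonneg (by positivity)]
    have h4 : t j i / (10 * (j+1)) ≤ t j i := by
      apply div_le_self hT.le
      nlinarith
    have h5 : t j i ≤ t j (j+1) := t_mono (by omega)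
    rw [Rr_eq]
    have : (2:ℝ) ≤ B := by unfold B; norm_num
    nlinarith
  have hmain : ‖coL j i (X w)‖^2 = 100 * (j+1) * (B^(j^2) / (t j i)^2) := by
    rw [coL_X him, wt_succ j hi]
    have e : (t j i : ℂ) - w = ((- (t j i / (10 * (j+1))) : ℝ) : ℂ) * I := by
      rw [hw]
      unfold tp
      push_cast
      ring
    rw [e, norm_mul, Complex.norm_I, mul_one, Complex.norm_real, Real.norm_eq_abs, abs_neg, sq_abs]
    field_simp
    ring
  have hfar : ∀ i' : ℕ, i' ≠ i → t j i / 2 ≤ ‖(t j i' : ℂ) - w‖ := by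
    intro i' hi'
    have h3 := Complex.abs_re_le_norm ((t j i' : ℂ) - w)
    rw [Complex.sub_re, hre, Complex.ofReal_re] at h3
    refine le_trans ?_ h3
    have hB2 : (2:ℝ) ≤ B := by unfold B; norm_num
    rcases lt_or_gt_of_ne hi' with h | h
    · have h4 := t_step (j := j) h
      have h5 := t_pos j i'
      rw [abs_sub_comm]
      refine le_trans ?_ (le_abs_self _)
      nlinarith
    · have h4 := t_step (j := j) h
      refine le_trans ?_ (le_abs_self _)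
      nlinarith
  set E := B^(j^2) / (t j i)^2 with hE
  have hE0 : 0 < E := by positivity
  have hblk : ‖blk w j‖^2 ≤ ‖coL j i (X w)‖^2 + 8 * E := by
    rw [norm_blk_sq]
    have hterm : ∀ i' : Fin (j+2), wt j i' / ‖(t j i' : ℂ) - w‖^2 ≤
        (if i' = i then ‖coL j i (X w)‖^2 else 0) + wt j i' * (4 / (t j i)^2) := by
      intro i'
      by_cases h : i' = i
      · rw [if_pos h, h, coL_X him]
        have := wt_pos j i
        have : 0 ≤ wt j i * (4 / (t j i)^2) := by positivity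
        linarith
      · rw [if_neg h, zero_add]
        have h3 := hfar i' (fun h' => h (Fin.ext h'))
        rw [div_eq_mul_one_div]
        apply mul_le_mul_of_nonneg_left _ (wt_pos j i').le
        have h4 : 0 < ‖(t j i' : ℂ) - w‖ := by linarith
        rw [div_le_div_iff₀ (by positivity) (by positivity)]
        nlinarith
    refine le_trans (Finset.sum_le_sum (fun i' _ => hterm i')) ?_
    rw [Finset.sum_add_distrib, Finset.sum_ite_eq', if_pos (Finset.mem_univ _), ← Finset.sum_mul,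
      wt_sum]
    have : 2 * B^(j^2) * (4 / (t j i)^2) = 8 * E := by
      rw [hE]
      ring
    rw [this]
  have hh : B^(j^2) / ‖(t j 0 : ℂ) - w‖^2 ≤ 4 * E := by
    have h3 := hfar 0 (fun h => hi h.symm)
    have h4 : 0 < ‖(t j 0 : ℂ) - w‖ := by linarith
    rw [hE, ← mul_div_assoc, div_le_div_iff₀ (by positivity) (by positivity)]
    have : (t j i)^2 ≤ 4 * ‖(t j 0 : ℂ) - w‖^2 := by nlinarith
    nlinarith [mul_le_mul_of_nonneg_left this (Bp_pos (j^2)).le]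
  have htau : tau j ≤ 1 := by
    unfold tau
    have : (1/1000:ℝ)^(j+1) ≤ 1/1000 := by
      calc (1/1000:ℝ)^(j+1) ≤ (1/1000)^1 := by
            apply pow_le_pow_of_le_one (by norm_num) (by norm_num)
            omega
        _ = 1/1000 := by norm_num
    linarith
  have h3 := hasSum_split him h1 h2
  have h4 : tau j * (B^(j^2) / ‖(t j 0 : ℂ) - w‖^2) ≤ 4 * E := by
    have h5 : 0 ≤ B^(j^2) / ‖(t j 0 : ℂ) - w‖^2 := by positivity
    calc tau j * (B^(j^2) / ‖(t j 0 : ℂ) - w‖^2) ≤ 1 * (B^(j^2) / ‖(t j 0 : ℂ) - w‖^2) :=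
          mul_le_mul_of_nonneg_right htau h5
      _ ≤ _ := by linarith
  have h5 : 100 * E ≤ ‖coL j i (X w)‖^2 := by
    rw [hmain]
    nlinarith
  linarith

/-- all test coordinates must be used: a point of `S` near `t j i` -/
lemma exists_near {c C : ℝ} (hc : 0 < c) (hC : 0 < C) {S : Set ℂ}
    (hS : ∀ z ∈ S, 0 < z.im) (hR : RieszX c C S)
    (hden : ∀ w : ℂ, 0 < w.im → ∀ ε : ℝ, 0 < ε → ∃ s : Finset ℂ, (↑s : Set ℂ) ⊆ S ∧ ∃ b : ℂ → ℂ,
      ‖X w - ∑ z ∈ s, b z • X z‖ < ε) (j : ℕ) (hj : 27 * (C/c) < (j:ℝ) + 1)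
    (i : ℕ) (hi0 : i ≠ 0) (hij : i ≤ j + 1) :
    ∃ z ∈ S, ‖(t j i : ℂ) - z‖ < t j i / 2 := by
  by_contra hcon
  push Not at hcon
  have hi : i < j + 2 := by omega
  have hj0 : (0:ℝ) < (j:ℝ) + 1 := by positivity
  have h1 := coord_bound_cl hc hC (K := 3 / Real.sqrt (j+1)) hS hR j ⟨i, hi⟩ 0
    (fun z hz => coord_compare (hS z hz) j ⟨i, hi⟩ hi0 (hcon z hz)) (X (tp j i))
    (hden (tp j i) (tp_im j i))
  have h2 := test_point j ⟨i, hi⟩ hi0
  have h3 : 0 < ‖X (tp j i)‖^2 := by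
    have := X_pos (tp_im j i)
    positivity
  rw [div_pow, Real.sq_sqrt hj0.le] at h1
  have h4 : ‖X (tp j i)‖^2 ≤ 3 * (3^2 / ((j:ℝ)+1) * (C/c) * ‖X (tp j i)‖^2) :=
    le_trans h2 (by linarith)
  have h5 : 1 ≤ 27 / ((j:ℝ)+1) * (C/c) := by
    by_contra h6
    push Not at h6
    have e : 3 * (3^2 / ((j:ℝ)+1) * (C/c) * ‖X (tp j i)‖^2) =
        (27 / ((j:ℝ)+1) * (C/c)) * ‖X (tp j i)‖^2 := by ring
    rw [e] at h4
    nlinarith
  rw [div_mul_eq_mul_div, le_div_iff₀ hj0] at h5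
  linarith

lemma riesz_fam {c C : ℝ} {S : Set ℂ} (hR : RieszX c C S) {n : ℕ} (μ : Fin n → ℂ)
    (hμ : Function.Injective μ) (hμS : ∀ k, μ k ∈ S) (g : Fin n → ℂ) :
    c * ∑ k, ‖g k‖^2 * ‖X (μ k)‖^2 ≤ ‖∑ k, g k • X (μ k)‖^2 ∧
      ‖∑ k, g k • X (μ k)‖^2 ≤ C * ∑ k, ‖g k‖^2 * ‖X (μ k)‖^2 := by
  have h := hR (Finset.univ.image μ) (by
    intro z hz
    rw [Finset.mem_coe, Finset.mem_image] at hz
    obtain ⟨k, _, rfl⟩ := hz
    exact hμS k) (Function.extend μ g 0)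
  rw [Finset.sum_image (fun a _ b _ h => hμ h), Finset.sum_image (fun a _ b _ h => hμ h)] at h
  simp only [hμ.extend_apply] at h
  exact h

lemma P_lin (j : ℕ) {n : ℕ} (g : Fin n → ℂ) (f : Fin n → H) :
    ∑ k, g k • P j (f k) = lp.single 2 j (∑ k, g k • (f k) j) := by
  apply lp.ext
  funext l
  rw [lp.coeFn_sum, Finset.sum_apply]
  by_cases hl : l = j
  · subst hl
    rw [lp.single_apply_self]
    apply Finset.sum_congr rfl
    intro k _
    rw [lp.coeFn_smul, Pi.smul_apply]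
    unfold P
    rw [lp.single_apply_self]
  · rw [lp.single_apply_ne _ _ _ hl]
    apply Finset.sum_eq_zero
    intro k _
    rw [lp.coeFn_smul, Pi.smul_apply]
    unfold P
    rw [lp.single_apply_ne _ _ _ hl, smul_zero]

/-- too many points in one shell force a small lower Riesz bound -/
lemma dim_count {c C : ℝ} {S : Set ℂ} (hS : ∀ z ∈ S, 0 < z.im) (hR : RieszX c C S) (j : ℕ)
    (μ : Fin (j+3) → ℂ) (hμ : Function.Injective μ) (hμS : ∀ k, μ k ∈ S)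
    (h1 : ∀ k, t j 0 / 2 ≤ ‖μ k‖) (h2 : ∀ k, ‖μ k‖ ≤ Rr j) :
    c ≤ (j+3) * tau j := by
  have hnot : ¬ LinearIndependent ℂ (fun k : Fin (j+3) => blk (μ k) j) := by
    intro hl
    have := hl.fintype_card_le_finrank
    rw [Fintype.card_fin, finrank_euclideanSpace, Fintype.card_fin] at this
    omega
  rw [Fintype.not_linearIndependent_iff] at hnot
  obtain ⟨g, hg, k0, hk0⟩ := hnot
  have hP : ∑ k, g k • P j (X (μ k)) = 0 := by
    rw [P_lin]
    have : ∑ k, g k • (X (μ k)) j = ∑ k, g k • blk (μ k) j :=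
      Finset.sum_congr rfl (fun k _ => by rw [X_apply (hS _ (hμS k))])
    rw [this, hg]
    simp
  have hsum : ∑ k, g k • X (μ k) = ∑ k, g k • (X (μ k) - P j (X (μ k))) := by
    simp only [smul_sub]
    rw [Finset.sum_sub_distrib, hP, sub_zero]
  have h3 := (riesz_fam hR μ hμ hμS g).1
  set A := ∑ k, ‖g k‖^2 * ‖X (μ k)‖^2 with hA
  have hA0 : 0 < A := by
    apply Finset.sum_pos'
    · intro k _
      positivity
    · refine ⟨k0, Finset.mem_univ _, ?_⟩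
      have h4 := X_pos (hS _ (hμS k0))
      have h5 := norm_pos_iff.mpr hk0
      positivity
  have h4 : ‖∑ k, g k • X (μ k)‖ ≤ ∑ k, (‖g k‖ * ‖X (μ k)‖) * Real.sqrt (tau j) := by
    rw [hsum]
    refine le_trans (norm_sum_le _ _) (Finset.sum_le_sum ?_)
    intro k _
    rw [norm_smul, mul_assoc]
    apply mul_le_mul_of_nonneg_left _ (norm_nonneg _)
    apply le_of_sq_le_sq _ (by positivity)
    rw [mul_pow, Real.sq_sqrt (tau_pos j).le]
    have := tail' (hS _ (hμS k)) (h1 k) (h2 k)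
    linarith
  have h5 := Finset.sum_mul_sq_le_sq_mul_sq (Finset.univ : Finset (Fin (j+3)))
    (fun k => ‖g k‖ * ‖X (μ k)‖) (fun _ => Real.sqrt (tau j))
  simp only [mul_pow, Real.sq_sqrt (tau_pos j).le] at h5
  rw [Finset.sum_const, Finset.card_univ, Fintype.card_fin, nsmul_eq_mul] at h5
  have h6 : ‖∑ k, g k • X (μ k)‖^2 ≤ A * ((j + 3 : ℕ) * tau j) :=
    le_trans (pow_le_pow_left₀ (norm_nonneg _) h4 2) h5
  push_cast at h6
  have h7 : c * A ≤ ((j + 3) * tau j) * A := by linarith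
  exact le_of_mul_le_mul_right h7 hA0


/-- the points of `σ` -/
def la0 (j : ℕ) : ℂ := (t j 0 : ℂ) + (t j 0 : ℂ) * I

/-- the points of `σ` -/
def la1 (j : ℕ) : ℂ := (Rr j : ℂ) * I

lemma la0_re (j : ℕ) : (la0 j).re = t j 0 := by
  unfold la0
  rw [Complex.add_re, Complex.re_ofReal_mul, Complex.I_re, mul_zero, add_zero, Complex.ofReal_re]

lemma la0_im (j : ℕ) : (la0 j).im = t j 0 := by
  unfold la0
  rw [Complex.add_im, Complex.im_ofReal_mul, Complex.I_im, mul_one, Complex.ofReal_im, zero_add]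

lemma la1_re (j : ℕ) : (la1 j).re = 0 := by
  unfold la1
  rw [Complex.re_ofReal_mul, Complex.I_re, mul_zero]

lemma la1_im (j : ℕ) : (la1 j).im = Rr j := by
  unfold la1
  rw [Complex.im_ofReal_mul, Complex.I_im, mul_one]

lemma la0_uhp (j : ℕ) : 0 < (la0 j).im := by rw [la0_im]; exact t_pos j 0

lemma la1_uhp (j : ℕ) : 0 < (la1 j).im := by rw [la1_im]; exact Rr_pos j

lemma norm_la0_ge (j : ℕ) : t j 0 / 2 ≤ ‖la0 j‖ := by
  have h := Complex.abs_re_le_norm (la0 j)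
  rw [la0_re, abs_of_pos (t_pos j 0)] at h
  have := t_pos j 0
  linarith

lemma norm_la0_le (j : ℕ) : ‖la0 j‖ ≤ 2 * t j 0 := by
  have h := Complex.norm_le_abs_re_add_abs_im (la0 j)
  rw [la0_re, la0_im, abs_of_pos (t_pos j 0)] at h
  linarith

lemma norm_la1 (j : ℕ) : ‖la1 j‖ = Rr j := by
  unfold la1
  rw [norm_mul, Complex.norm_I, mul_one, Complex.norm_real, Real.norm_of_nonneg (Rr_pos j).le]

lemma two_le_B : (2:ℝ) ≤ B := by unfold B; norm_num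

lemma Rr_ge (j : ℕ) {n : ℕ} (hn : n ≤ j + 1) : 2 * t j n ≤ Rr j := by
  have h1 : t j n ≤ t j (j+1) := t_mono (by omega)
  have h2 := t_pos j n
  have := two_le_B
  rw [Rr_eq]
  nlinarith

lemma choose_points {c C : ℝ} (hc : 0 < c) (hC : 0 < C) {S : Set ℂ}
    (hS : ∀ z ∈ S, 0 < z.im) (hR : RieszX c C S)
    (hden : ∀ w : ℂ, 0 < w.im → ∀ ε : ℝ, 0 < ε → ∃ s : Finset ℂ, (↑s : Set ℂ) ⊆ S ∧ ∃ b : ℂ → ℂ,
      ‖X w - ∑ z ∈ s, b z • X z‖ < ε)
    (h0 : ∀ j, la0 j ∈ S) (h1 : ∀ j, la1 j ∈ S)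
    (j : ℕ) (hj : 27 * (C/c) < (j:ℝ) + 1) (n : ℕ) (hn : n < j + 3) :
    ∃ z ∈ S, t j n / 2 ≤ ‖z‖ ∧ ‖z‖ ≤ 2 * t j n ∧ t j 0 / 2 ≤ ‖z‖ ∧ ‖z‖ ≤ Rr j := by
  have htn := t_pos j n
  have ht0 : t j 0 ≤ t j n := t_mono (by omega)
  rcases Nat.eq_zero_or_pos n with hn0 | hn0
  · subst hn0
    refine ⟨la0 j, h0 j, norm_la0_ge j, norm_la0_le j, norm_la0_ge j, ?_⟩
    exact le_trans (norm_la0_le j) (Rr_ge j (by omega))
  · by_cases hn1 : n ≤ j + 1
    · obtain ⟨z, hzS, hz⟩ := exists_near hc hC hS hR hden j hj n (by omega) hn1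
      have e1 := norm_tri2 (t j n) htn.le z
      have e2 := norm_tri3 (t j n) htn.le z
      have e3 := Rr_ge j hn1
      refine ⟨z, hzS, by linarith, by linarith, by linarith, by linarith⟩
    · have hn2 : n = j + 2 := by omega
      have e : t j n = Rr j := by
        rw [hn2]
        unfold t Rr
        rw [← add_assoc]
      have e1 := norm_la1 j
      refine ⟨la1 j, h1 j, by linarith, by linarith, by linarith, by linarith⟩

lemma num_bound (j : ℕ) : 33 * ((j:ℝ)+3) * ((j:ℝ)+1) ≤ 1000^(j+1) := by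
  induction j with
  | zero => norm_num
  | succ k ih =>
    rw [pow_succ]
    push_cast
    have : (0:ℝ) ≤ k := Nat.cast_nonneg k
    nlinarith

/-- no complete extension -/
theorem no_extension {c C : ℝ} (hc : 0 < c) (hC : 0 < C) {S : Set ℂ}
    (hS : ∀ z ∈ S, 0 < z.im) (hR : RieszX c C S)
    (hden : ∀ w : ℂ, 0 < w.im → ∀ ε : ℝ, 0 < ε → ∃ s : Finset ℂ, (↑s : Set ℂ) ⊆ S ∧ ∃ b : ℂ → ℂ,
      ‖X w - ∑ z ∈ s, b z • X z‖ < ε)
    (h0 : ∀ j, la0 j ∈ S) (h1 : ∀ j, la1 j ∈ S) : False := by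
  obtain ⟨j, hj⟩ := exists_nat_gt (max (27 * (C/c)) (1/c))
  have hj1 : 27 * (C/c) < (j:ℝ) + 1 := by
    have := le_max_left (27 * (C/c)) (1/c)
    linarith
  have hj2 : 1/c < (j:ℝ) + 1 := by
    have := le_max_right (27 * (C/c)) (1/c)
    linarith
  have hch : ∀ n : Fin (j+3), ∃ z ∈ S, t j n / 2 ≤ ‖z‖ ∧ ‖z‖ ≤ 2 * t j n ∧ t j 0 / 2 ≤ ‖z‖ ∧
      ‖z‖ ≤ Rr j := fun n => choose_points hc hC hS hR hden h0 h1 j hj1 n n.2
  choose μ hμS hlo hhi hlo0 hhiR using hch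
  have hlt : ∀ a b : Fin (j+3), a < b → ‖μ a‖ < ‖μ b‖ := by
    intro a b hab
    have e1 := hhi a
    have e2 := hlo b
    have e3 : B * t j a ≤ t j b := t_step (by exact_mod_cast hab)
    have e4 := t_pos j a
    have e5 : (8:ℝ) ≤ B := by unfold B; norm_num
    nlinarith
  have hinj : Function.Injective μ := by
    intro a b hab
    rcases lt_trichotomy a b with h | h | h
    · have := hlt a b h
      rw [hab] at this
      exact absurd this (lt_irrefl _)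
    · exact h
    · have := hlt b a h
      rw [hab] at this
      exact absurd this (lt_irrefl _)
  have hfin := dim_count hS hR j μ hinj hμS hlo0 hhiR
  have hnum := num_bound j
  have hj0 : (0:ℝ) < (j:ℝ) + 1 := by positivity
  have h3 : (j+3) * tau j ≤ 1/((j:ℝ)+1) := by
    unfold tau
    rw [le_div_iff₀ hj0, one_div, inv_pow]
    have e : ((j:ℝ)+3) * (33 * (1000^(j+1))⁻¹) * ((j:ℝ)+1) =
        (33 * ((j:ℝ)+3) * ((j:ℝ)+1)) / 1000^(j+1) := by
      field_simp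
    rw [e, div_le_one (by positivity)]
    exact hnum
  have h4 : 1/((j:ℝ)+1) < c := by
    rw [div_lt_iff₀ hj0]
    rw [div_lt_iff₀ hc] at hj2
    linarith
  linarith

end

end Pool.Agent.H32.KE
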