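import Mathlib
import Pool.Agent.H32.KernelExtB

/-!
Helper file for problem MP_0d1f0b_an (frozen statement S03802): model space kernels.
-/

set_option autoImplicit false

open Complex

namespace Pool.Agent.H32.KE

noncomputable section

lemma norm_blk_split (z : ℂ) (j : ℕ) :
    ‖blk z j‖^2 = ‖blk z j 0‖^2 + ∑ i : Fin (j+1), ‖blk z j i.succ‖^2 := by
  rw [EuclideanSpace.norm_sq_eq, Fin.sum_univ_succ]

lemma heavy_sq (z : ℂ) (j : ℕ) : ‖blk z j 0‖^2 = B^(j^2) / ‖(t j 0 : ℂ) - z‖^2 := by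
  rw [norm_blk_apply_sq]
  have h0 : wt j ((0 : Fin (j+2)) : ℕ) = B^(j^2) := wt_zero j
  have e0 : ((0 : Fin (j+2)) : ℕ) = 0 := rfl
  rw [h0, e0]

/-- `y0` is concentrated on the heavy coordinate -/
lemma y0_light (j : ℕ) :
    ∑ i : Fin (j+1), ‖blk (la0 j) j i.succ‖^2 ≤ (1/100)^2 * ‖blk (la0 j) j 0‖^2 := by
  have hB := B_pos
  have ht := t_pos j 0
  have e : (t j 0 : ℂ) - la0 j = ((- t j 0 : ℝ) : ℂ) * I := by
    unfold la0
    push_cast
    ring
  rw [heavy_sq, e, norm_mul, Complex.norm_I, mul_one, Complex.norm_real, Real.norm_eq_abs, abs_neg,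
    sq_abs]
  have hterm : ∀ i : Fin (j+1), ‖blk (la0 j) j i.succ‖^2 ≤
      wt j ((Fin.succ i : Fin (j+2)) : ℕ) * ((1/100)^2 / (t j 0)^2) := by
    intro i
    rw [norm_blk_apply_sq, div_eq_mul_one_div]
    apply mul_le_mul_of_nonneg_left _ (wt_pos _ _).le
    have h1 := Complex.abs_re_le_norm ((t j ((Fin.succ i : Fin (j+2)) : ℕ) : ℂ) - la0 j)
    rw [Complex.sub_re, la0_re, Complex.ofReal_re] at h1
    have h2 : B * t j 0 ≤ t j ((Fin.succ i : Fin (j+2)) : ℕ) := t_step (by simp)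
    have h3 : 100 * t j 0 ≤ ‖(t j ((Fin.succ i : Fin (j+2)) : ℕ) : ℂ) - la0 j‖ := by
      have h4 := le_abs_self (t j ((Fin.succ i : Fin (j+2)) : ℕ) - t j 0)
      have h5 : (101:ℝ) ≤ B := by unfold B; norm_num
      nlinarith
    have h6 : 0 < ‖(t j ((Fin.succ i : Fin (j+2)) : ℕ) : ℂ) - la0 j‖ := by linarith
    rw [div_le_div_iff₀ (by positivity) (by positivity)]
    nlinarith
  refine le_trans (Finset.sum_le_sum (fun i _ => hterm i)) ?_
  rw [← Finset.sum_mul, wt_sum_tail]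
  apply le_of_eq
  ring

lemma y1_heavy (j : ℕ) : ‖blk (la1 j) j 0‖^2 ≤ (72/100)^2 * ‖blk (la1 j) j‖^2 := by
  have hB := B_pos
  have hR := Rr_pos j
  have hn : ∀ s : ℝ, ‖(s : ℂ) - la1 j‖^2 = s^2 + (Rr j)^2 := by
    intro s
    rw [← Complex.normSq_eq_norm_sq, Complex.normSq_apply, Complex.sub_re, Complex.sub_im,
      la1_re, la1_im, Complex.ofReal_re, Complex.ofReal_im]
    ring
  have h1 : ‖blk (la1 j) j 0‖^2 ≤ B^(j^2) / (Rr j)^2 := by
    rw [heavy_sq, hn]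
    apply div_le_div_of_nonneg_left (by positivity) (by positivity)
    nlinarith [sq_nonneg (t j 0)]
  have h2 : B^(j^2) / (101/100 * (Rr j)^2) ≤ ∑ i : Fin (j+1), ‖blk (la1 j) j i.succ‖^2 := by
    have hterm : ∀ i : Fin (j+1), wt j ((Fin.succ i : Fin (j+2)) : ℕ) / (101/100 * (Rr j)^2) ≤
        ‖blk (la1 j) j i.succ‖^2 := by
      intro i
      rw [norm_blk_apply_sq, hn]
      have hp := t_pos j ((Fin.succ i : Fin (j+2)) : ℕ)
      apply div_le_div_of_nonneg_left (wt_pos _ _).le (by positivity)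
      have h3 : t j ((Fin.succ i : Fin (j+2)) : ℕ) ≤ t j (j+1) := t_mono (by
        have : ((Fin.succ i : Fin (j+2)) : ℕ) ≤ j + 1 := by omega
        omega)
      have h4 : B * t j ((Fin.succ i : Fin (j+2)) : ℕ) ≤ Rr j := by
        rw [Rr_eq]
        exact mul_le_mul_of_nonneg_left h3 hB.le
      have h5 : 10 * t j ((Fin.succ i : Fin (j+2)) : ℕ) ≤ Rr j := by
        have h6 : (10:ℝ) ≤ B := by unfold B; norm_num
        nlinarith
      nlinarith
    refine le_trans ?_ (Finset.sum_le_sum (fun i _ => hterm i))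
    rw [← Finset.sum_div, wt_sum_tail]
  have h3 := norm_blk_split (la1 j) j
  have h4 : B^(j^2) / (101/100 * (Rr j)^2) = 100/101 * (B^(j^2) / (Rr j)^2) := by
    field_simp
  rw [h4] at h2
  nlinarith

lemma inner_y (j : ℕ) :
    ‖(inner ℂ (blk (la0 j) j) (blk (la1 j) j) : ℂ)‖ ≤ 3/4 * (‖blk (la0 j) j‖ * ‖blk (la1 j) j‖) := by
  have h1 := y0_light j
  have h2 := y1_heavy j
  set y := blk (la0 j) j with hy
  set y' := blk (la1 j) j with hy'
  have hs : ‖(inner ℂ y y' : ℂ)‖ ≤ ‖y 0‖ * ‖y' 0‖ +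
      ∑ i : Fin (j+1), ‖y i.succ‖ * ‖y' i.succ‖ := by
    rw [PiLp.inner_apply, Fin.sum_univ_succ]
    refine le_trans (norm_add_le _ _) ?_
    apply add_le_add
    · exact norm_inner_le_norm _ _
    · refine le_trans (norm_sum_le _ _) (Finset.sum_le_sum ?_)
      intro i _
      exact norm_inner_le_norm _ _
  have hcs := Finset.sum_mul_sq_le_sq_mul_sq (Finset.univ : Finset (Fin (j+1)))
    (fun i => ‖y i.succ‖) (fun i => ‖y' i.succ‖)
  have hy2 : ‖y‖^2 = ‖y 0‖^2 + ∑ i : Fin (j+1), ‖y i.succ‖^2 := norm_blk_split _ _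
  have hy2' : ‖y'‖^2 = ‖y' 0‖^2 + ∑ i : Fin (j+1), ‖y' i.succ‖^2 := norm_blk_split _ _
  set L := ∑ i : Fin (j+1), ‖y i.succ‖ * ‖y' i.succ‖ with hL
  set U := ∑ i : Fin (j+1), ‖y i.succ‖^2 with hU
  set V := ∑ i : Fin (j+1), ‖y' i.succ‖^2 with hV
  have hU0 : 0 ≤ U := Finset.sum_nonneg (fun i _ => by positivity)
  have hV0 : 0 ≤ V := Finset.sum_nonneg (fun i _ => by positivity)
  have ha : ‖y 0‖ ≤ ‖y‖ := le_of_sq_le_sq (by linarith) (norm_nonneg _)
  have hb : ‖y' 0‖ ≤ 72/100 * ‖y'‖ := by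
    apply le_of_sq_le_sq _ (by positivity)
    rw [mul_pow]
    exact h2
  have hLL : L ≤ 1/100 * ‖y‖ * ‖y'‖ := by
    apply le_of_sq_le_sq _ (by positivity)
    refine le_trans hcs ?_
    have e1 : U ≤ (1/100)^2 * ‖y‖^2 := by
      have : ‖y 0‖^2 ≤ ‖y‖^2 := by linarith
      nlinarith
    have e2 : V ≤ ‖y'‖^2 := by
      have : 0 ≤ ‖y' 0‖^2 := by positivity
      linarith
    calc U * V ≤ ((1/100)^2 * ‖y‖^2) * ‖y'‖^2 := mul_le_mul e1 e2 hV0 (by positivity)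
      _ = _ := by ring
  have hab : ‖y 0‖ * ‖y' 0‖ ≤ ‖y‖ * (72/100 * ‖y'‖) :=
    mul_le_mul ha hb (norm_nonneg _) (norm_nonneg _)
  have hyy : 0 ≤ ‖y‖ * ‖y'‖ := by positivity
  linarith

lemma blk_pair (j : ℕ) (a b : ℂ) :
    1/4 * (‖a‖^2 * ‖blk (la0 j) j‖^2 + ‖b‖^2 * ‖blk (la1 j) j‖^2) ≤
      ‖a • blk (la0 j) j + b • blk (la1 j) j‖^2 ∧
    ‖a • blk (la0 j) j + b • blk (la1 j) j‖^2 ≤
      2 * (‖a‖^2 * ‖blk (la0 j) j‖^2 + ‖b‖^2 * ‖blk (la1 j) j‖^2) := by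
  have h := inner_y j
  set y := blk (la0 j) j with hy
  set y' := blk (la1 j) j with hy'
  have e := norm_add_sq (𝕜 := ℂ) (a • y) (b • y')
  rw [norm_smul, norm_smul] at e
  have h1 : ‖(inner ℂ (a • y) (b • y') : ℂ)‖ ≤ 3/4 * ((‖a‖ * ‖y‖) * (‖b‖ * ‖y'‖)) := by
    rw [inner_smul_left, inner_smul_right, norm_mul, norm_mul, RCLike.norm_conj]
    have := mul_le_mul_of_nonneg_left h (show 0 ≤ ‖a‖ * ‖b‖ by positivity)
    calc ‖a‖ * (‖b‖ * ‖(inner ℂ y y' : ℂ)‖) = ‖a‖ * ‖b‖ * ‖(inner ℂ y y' : ℂ)‖ := by ring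
      _ ≤ _ := this
      _ = _ := by ring
  have h2 := Complex.abs_re_le_norm (inner ℂ (a • y) (b • y') : ℂ)
  have h3 := abs_le.mp h2
  have e' : ‖a • y + b • y'‖^2 = (‖a‖ * ‖y‖)^2 + 2 * (inner ℂ (a • y) (b • y') : ℂ).re +
      (‖b‖ * ‖y'‖)^2 := e
  set p := ‖a‖ * ‖y‖ with hp
  set q := ‖b‖ * ‖y'‖ with hq
  have e1 : ‖a‖^2 * ‖y‖^2 = p^2 := by rw [hp, mul_pow]
  have e2 : ‖b‖^2 * ‖y'‖^2 = q^2 := by rw [hq, mul_pow]
  have hp0 : 0 ≤ p := by positivity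
  have hq0 : 0 ≤ q := by positivity
  rw [e', e1, e2]
  constructor
  · nlinarith [sq_nonneg (p - q), h3.1]
  · nlinarith [sq_nonneg (p - q), h3.2]

lemma la0_hi (j : ℕ) : ‖la0 j‖ ≤ Rr j := le_trans (norm_la0_le j) (Rr_ge j (by omega))

lemma la1_lo (j : ℕ) : t j 0 / 2 ≤ ‖la1 j‖ := by
  rw [norm_la1]
  have := Rr_ge j (n := 0) (by omega)
  have := t_pos j 0
  linarith

lemma tau_le (j : ℕ) : tau j ≤ 33/1000 := by
  unfold tau
  have : (1/1000:ℝ)^(j+1) ≤ 1/1000 := by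
    calc (1/1000:ℝ)^(j+1) ≤ (1/1000)^1 := by
          apply pow_le_pow_of_le_one (by norm_num) (by norm_num)
          omega
      _ = 1/1000 := by norm_num
  linarith

lemma pyth (j : ℕ) (f : H) : ‖f - P j f‖^2 = ‖f‖^2 - ‖f j‖^2 := by
  have h := lp.norm_compl_sum_single (by norm_num) f {j}
  rw [Finset.sum_singleton, Finset.sum_singleton] at h
  unfold P
  simpa only [ENNReal.toReal_ofNat, Real.rpow_ofNat] using h

lemma blk_ge {z : ℂ} (hz : 0 < z.im) {j : ℕ} (h1 : t j 0 / 2 ≤ ‖z‖) (h2 : ‖z‖ ≤ Rr j) :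
    967/1000 * ‖X z‖^2 ≤ ‖blk z j‖^2 := by
  have h3 := tail' hz h1 h2
  have h4 := pyth j (X z)
  rw [X_apply hz] at h4
  have h5 := tau_le j
  have h6 : tau j * ‖X z‖^2 ≤ 33/1000 * ‖X z‖^2 := mul_le_mul_of_nonneg_right h5 (by positivity)
  linarith

lemma sum_tau (N : ℕ) : ∑ j ∈ Finset.range N, tau j ≤ 331/10000 := by
  have hs : HasSum (fun j : ℕ => tau j) (33/1000 * (1 - 1/1000)⁻¹) := by
    have h := (hasSum_geometric_of_lt_one (show (0:ℝ) ≤ 1/1000 by norm_num)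
      (by norm_num)).mul_left (33/1000)
    have e : (fun j : ℕ => 33/1000 * (1/1000:ℝ)^j) = fun j => tau j := by
      funext j
      unfold tau
      rw [pow_succ]
      ring
    rw [e] at h
    exact h
  have h := hs.summable.sum_le_tsum (Finset.range N) (fun j _ => (tau_pos j).le)
  rw [hs.tsum_eq] at h
  refine le_trans h ?_
  norm_num


lemma P_pair (j : ℕ) (a b : ℂ) :
    a • P j (X (la0 j)) + b • P j (X (la1 j)) =
      lp.single 2 j (a • blk (la0 j) j + b • blk (la1 j) j) := by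
  apply lp.ext
  funext l
  rw [lp.coeFn_add, Pi.add_apply, lp.coeFn_smul, Pi.smul_apply, lp.coeFn_smul, Pi.smul_apply]
  unfold P
  by_cases hl : l = j
  · subst hl
    rw [lp.single_apply_self, lp.single_apply_self, lp.single_apply_self, X_apply (la0_uhp l),
      X_apply (la1_uhp l)]
  · rw [lp.single_apply_ne _ _ _ hl, lp.single_apply_ne _ _ _ hl, lp.single_apply_ne _ _ _ hl,
      smul_zero, smul_zero, add_zero]

lemma main_part (N : ℕ) (a b : ℕ → ℂ) :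
    ‖∑ j ∈ Finset.range N, (a j • P j (X (la0 j)) + b j • P j (X (la1 j)))‖^2 =
      ∑ j ∈ Finset.range N, ‖a j • blk (la0 j) j + b j • blk (la1 j) j‖^2 := by
  have h := lp.norm_sum_single (E := fun j : ℕ => EuclideanSpace ℂ (Fin (j+2))) (p := 2)
    (by norm_num) (fun j => a j • blk (la0 j) j + b j • blk (la1 j) j) (Finset.range N)
  have e : ∑ j ∈ Finset.range N, (a j • P j (X (la0 j)) + b j • P j (X (la1 j))) =
      ∑ j ∈ Finset.range N, lp.single 2 j (a j • blk (la0 j) j + b j • blk (la1 j) j) :=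
    Finset.sum_congr rfl (fun j _ => P_pair j (a j) (b j))
  rw [e]
  simpa only [ENNReal.toReal_ofNat, Real.rpow_ofNat] using h

lemma tail_sqrt {z : ℂ} (hz : 0 < z.im) {j : ℕ} (h1 : t j 0 / 2 ≤ ‖z‖) (h2 : ‖z‖ ≤ Rr j) :
    ‖X z - P j (X z)‖ ≤ Real.sqrt (tau j) * ‖X z‖ := by
  apply le_of_sq_le_sq _ (by positivity)
  rw [mul_pow, Real.sq_sqrt (tau_pos j).le]
  exact tail' hz h1 h2

lemma riesz_sigma_fam (N : ℕ) (a b : ℕ → ℂ) :
    1/20 * ∑ j ∈ Finset.range N, (‖a j‖^2 * ‖X (la0 j)‖^2 + ‖b j‖^2 * ‖X (la1 j)‖^2) ≤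
      ‖∑ j ∈ Finset.range N, (a j • X (la0 j) + b j • X (la1 j))‖^2 ∧
    ‖∑ j ∈ Finset.range N, (a j • X (la0 j) + b j • X (la1 j))‖^2 ≤
      5 * ∑ j ∈ Finset.range N, (‖a j‖^2 * ‖X (la0 j)‖^2 + ‖b j‖^2 * ‖X (la1 j)‖^2) := by
  set S := ∑ j ∈ Finset.range N, (‖a j‖^2 * ‖X (la0 j)‖^2 + ‖b j‖^2 * ‖X (la1 j)‖^2) with hS
  set F := ∑ j ∈ Finset.range N, (a j • X (la0 j) + b j • X (la1 j)) with hF
  set Pp := ∑ j ∈ Finset.range N, (a j • P j (X (la0 j)) + b j • P j (X (la1 j))) with hPp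
  set D := ∑ j ∈ Finset.range N, (a j • (X (la0 j) - P j (X (la0 j))) +
    b j • (X (la1 j) - P j (X (la1 j)))) with hD
  have hS0 : 0 ≤ S := Finset.sum_nonneg (fun j _ => by positivity)
  have hFD : F = Pp + D := by
    rw [hF, hPp, hD, ← Finset.sum_add_distrib]
    apply Finset.sum_congr rfl
    intro j _
    rw [smul_sub, smul_sub]
    abel
  have hPp2 : ‖Pp‖^2 = ∑ j ∈ Finset.range N, ‖a j • blk (la0 j) j + b j • blk (la1 j) j‖^2 :=
    main_part N a b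
  have hlow : 24/100 * S ≤ ‖Pp‖^2 := by
    rw [hPp2, hS, Finset.mul_sum]
    apply Finset.sum_le_sum
    intro j _
    refine le_trans ?_ (blk_pair j (a j) (b j)).1
    have h1 := blk_ge (la0_uhp j) (norm_la0_ge j) (la0_hi j)
    have h2 := blk_ge (la1_uhp j) (la1_lo j) (norm_la1 j).le
    have h3 := mul_le_mul_of_nonneg_left h1 (show 0 ≤ ‖a j‖^2 by positivity)
    have h4 := mul_le_mul_of_nonneg_left h2 (show 0 ≤ ‖b j‖^2 by positivity)
    have h5 : 0 ≤ ‖a j‖^2 * ‖X (la0 j)‖^2 := by positivity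
    have h6 : 0 ≤ ‖b j‖^2 * ‖X (la1 j)‖^2 := by positivity
    nlinarith
  have hupp : ‖Pp‖^2 ≤ 2 * S := by
    rw [hPp2, hS, Finset.mul_sum]
    apply Finset.sum_le_sum
    intro j _
    refine le_trans (blk_pair j (a j) (b j)).2 ?_
    have h1 := blk_le (la0_uhp j) j
    have h2 := blk_le (la1_uhp j) j
    have h3 := mul_le_mul_of_nonneg_left h1 (show 0 ≤ ‖a j‖^2 by positivity)
    have h4 := mul_le_mul_of_nonneg_left h2 (show 0 ≤ ‖b j‖^2 by positivity)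
    linarith
  have hDn : ‖D‖^2 ≤ 662/10000 * S := by
    have h1 : ‖D‖ ≤ ∑ j ∈ Finset.range N, Real.sqrt (tau j) *
        (‖a j‖ * ‖X (la0 j)‖ + ‖b j‖ * ‖X (la1 j)‖) := by
      rw [hD]
      refine le_trans (norm_sum_le _ _) (Finset.sum_le_sum ?_)
      intro j _
      refine le_trans (norm_add_le _ _) ?_
      rw [norm_smul, norm_smul]
      have h1 := tail_sqrt (la0_uhp j) (norm_la0_ge j) (la0_hi j)
      have h2 := tail_sqrt (la1_uhp j) (la1_lo j) (norm_la1 j).le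
      have h3 := mul_le_mul_of_nonneg_left h1 (norm_nonneg (a j))
      have h4 := mul_le_mul_of_nonneg_left h2 (norm_nonneg (b j))
      linarith
    have h2 := Finset.sum_mul_sq_le_sq_mul_sq (Finset.range N)
      (fun j => Real.sqrt (tau j)) (fun j => ‖a j‖ * ‖X (la0 j)‖ + ‖b j‖ * ‖X (la1 j)‖)
    have h3 : ∑ j ∈ Finset.range N, (Real.sqrt (tau j))^2 ≤ 331/10000 := by
      refine le_trans (le_of_eq ?_) (sum_tau N)
      apply Finset.sum_congr rfl
      intro j _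
      exact Real.sq_sqrt (tau_pos j).le
    have h4 : ∑ j ∈ Finset.range N, (‖a j‖ * ‖X (la0 j)‖ + ‖b j‖ * ‖X (la1 j)‖)^2 ≤ 2 * S := by
      rw [hS, Finset.mul_sum]
      apply Finset.sum_le_sum
      intro j _
      have e1 : ‖a j‖^2 * ‖X (la0 j)‖^2 = (‖a j‖ * ‖X (la0 j)‖)^2 := by ring
      have e2 : ‖b j‖^2 * ‖X (la1 j)‖^2 = (‖b j‖ * ‖X (la1 j)‖)^2 := by ring
      rw [e1, e2]
      nlinarith [sq_nonneg (‖a j‖ * ‖X (la0 j)‖ - ‖b j‖ * ‖X (la1 j)‖)]
    have h5 : 0 ≤ ∑ j ∈ Finset.range N, (‖a j‖ * ‖X (la0 j)‖ + ‖b j‖ * ‖X (la1 j)‖)^2 :=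
      Finset.sum_nonneg (fun j _ => by positivity)
    have h6 : 0 ≤ ∑ j ∈ Finset.range N, (Real.sqrt (tau j))^2 :=
      Finset.sum_nonneg (fun j _ => by positivity)
    calc ‖D‖^2 ≤ _ := pow_le_pow_left₀ (norm_nonneg _) h1 2
      _ ≤ _ := h2
      _ ≤ (331/10000) * (2 * S) := mul_le_mul h3 h4 h5 (by norm_num)
      _ = _ := by ring
  constructor
  · have h1 : ‖Pp‖ ≤ ‖F‖ + ‖D‖ := by
      have e : Pp = F - D := by rw [hFD]; abel
      rw [e]
      exact norm_sub_le _ _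
    have h2 : ‖Pp‖^2 ≤ (‖F‖ + ‖D‖)^2 := pow_le_pow_left₀ (norm_nonneg _) h1 2
    nlinarith [sq_nonneg (‖F‖ - ‖D‖)]
  · have h1 : ‖F‖ ≤ ‖Pp‖ + ‖D‖ := by
      rw [hFD]
      exact norm_add_le _ _
    have h2 : ‖F‖^2 ≤ (‖Pp‖ + ‖D‖)^2 := pow_le_pow_left₀ (norm_nonneg _) h1 2
    nlinarith [sq_nonneg (‖Pp‖ - ‖D‖)]

/-- the set `σ` -/
def sig : Set ℂ := Set.range la0 ∪ Set.range la1

lemma t_inj {a b : ℕ} (h : t a 0 = t b 0) : a = b := by
  rcases lt_trichotomy a b with h1 | h1 | h1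
  · exfalso
    have h2 : B * t a 0 ≤ t b 0 := by
      unfold t
      rw [← pow_succ']
      apply pow_le_pow_right₀ one_le_B
      nlinarith
    have := two_le_B
    have := t_pos a 0
    nlinarith
  · exact h1
  · exfalso
    have h2 : B * t b 0 ≤ t a 0 := by
      unfold t
      rw [← pow_succ']
      apply pow_le_pow_right₀ one_le_B
      nlinarith
    have := two_le_B
    have := t_pos b 0
    nlinarith

lemma Rr_inj {a b : ℕ} (h : Rr a = Rr b) : a = b := by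
  rcases lt_trichotomy a b with h1 | h1 | h1
  · exfalso
    have h2 : B * Rr a ≤ Rr b := by
      unfold Rr
      rw [← pow_succ']
      apply pow_le_pow_right₀ one_le_B
      nlinarith
    have := two_le_B
    have := Rr_pos a
    nlinarith
  · exact h1
  · exfalso
    have h2 : B * Rr b ≤ Rr a := by
      unfold Rr
      rw [← pow_succ']
      apply pow_le_pow_right₀ one_le_B
      nlinarith
    have := two_le_B
    have := Rr_pos b
    nlinarith

lemma la0_inj : Function.Injective la0 := by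
  intro a b h
  have := congrArg Complex.re h
  rw [la0_re, la0_re] at this
  exact t_inj this

lemma la1_inj : Function.Injective la1 := by
  intro a b h
  have := congrArg Complex.im h
  rw [la1_im, la1_im] at this
  exact Rr_inj this

lemma la_ne (a b : ℕ) : la0 a ≠ la1 b := by
  intro h
  have := congrArg Complex.re h
  rw [la0_re, la1_re] at this
  have h2 := t_pos a 0
  linarith

/-- finite pieces of `σ` -/
def Tn (N : ℕ) : Finset ℂ := (Finset.range N).image la0 ∪ (Finset.range N).image la1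

lemma exists_Tn (s : Finset ℂ) (hs : (↑s : Set ℂ) ⊆ sig) : ∃ N, s ⊆ Tn N := by
  classical
  induction s using Finset.induction_on with
  | empty => exact ⟨0, by simp⟩
  | insert z s hz ih =>
    obtain ⟨N, hN⟩ := ih (fun w hw => hs (by
      rw [Finset.coe_insert]
      exact Set.mem_insert_of_mem _ hw))
    have hz' : z ∈ sig := hs (by
      rw [Finset.coe_insert]
      exact Set.mem_insert _ _)
    have hk : ∃ k, z = la0 k ∨ z = la1 k := by
      rcases hz' with ⟨k, hk⟩ | ⟨k, hk⟩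
      · exact ⟨k, Or.inl hk.symm⟩
      · exact ⟨k, Or.inr hk.symm⟩
    obtain ⟨k, hk⟩ := hk
    refine ⟨max N (k+1), ?_⟩
    intro w hw
    rw [Finset.mem_insert] at hw
    unfold Tn
    rw [Finset.mem_union, Finset.mem_image, Finset.mem_image]
    rcases hw with hw | hw
    · rw [hw]
      rcases hk with hk | hk
      · exact Or.inl ⟨k, Finset.mem_range.mpr (by omega), hk.symm⟩
      · exact Or.inr ⟨k, Finset.mem_range.mpr (by omega), hk.symm⟩
    · have h1 := hN hw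
      unfold Tn at h1
      rw [Finset.mem_union, Finset.mem_image, Finset.mem_image] at h1
      rcases h1 with ⟨l, hl, hlw⟩ | ⟨l, hl, hlw⟩
      · exact Or.inl ⟨l, Finset.mem_range.mpr (by have := Finset.mem_range.mp hl; omega), hlw⟩
      · exact Or.inr ⟨l, Finset.mem_range.mpr (by have := Finset.mem_range.mp hl; omega), hlw⟩

lemma sum_Tn {M : Type*} [AddCommMonoid M] (N : ℕ) (φ : ℂ → M) :
    ∑ z ∈ Tn N, φ z = ∑ j ∈ Finset.range N, (φ (la0 j) + φ (la1 j)) := by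
  unfold Tn
  rw [Finset.sum_union, Finset.sum_image (fun a _ b _ h => la0_inj h),
    Finset.sum_image (fun a _ b _ h => la1_inj h), Finset.sum_add_distrib]
  rw [Finset.disjoint_left]
  intro z hz hz'
  rw [Finset.mem_image] at hz hz'
  obtain ⟨a, _, ha⟩ := hz
  obtain ⟨b, _, hb⟩ := hz'
  exact la_ne a b (ha.trans hb.symm)

theorem riesz_sig : RieszX (1/20) 5 sig := by
  classical
  intro s hs b
  obtain ⟨N, hN⟩ := exists_Tn s hs
  have key := riesz_sigma_fam N (fun j => if la0 j ∈ s then b (la0 j) else 0)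
    (fun j => if la1 j ∈ s then b (la1 j) else 0)
  have e1 : ∑ z ∈ s, b z • X z = ∑ j ∈ Finset.range N,
      ((if la0 j ∈ s then b (la0 j) else 0) • X (la0 j) +
        (if la1 j ∈ s then b (la1 j) else 0) • X (la1 j)) := by
    rw [← sum_Tn N (fun z => (if z ∈ s then b z else 0) • X z)]
    symm
    rw [← Finset.sum_subset hN]
    · apply Finset.sum_congr rfl
      intro z hz
      rw [if_pos hz]
    · intro z _ hz
      rw [if_neg hz, zero_smul]
  have e2 : ∑ z ∈ s, ‖b z‖^2 * ‖X z‖^2 = ∑ j ∈ Finset.range N,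
      (‖(if la0 j ∈ s then b (la0 j) else 0)‖^2 * ‖X (la0 j)‖^2 +
        ‖(if la1 j ∈ s then b (la1 j) else 0)‖^2 * ‖X (la1 j)‖^2) := by
    rw [← sum_Tn N (fun z => ‖(if z ∈ s then b z else 0)‖^2 * ‖X z‖^2)]
    symm
    rw [← Finset.sum_subset hN]
    · apply Finset.sum_congr rfl
      intro z hz
      rw [if_pos hz]
    · intro z _ hz
      rw [if_neg hz]
      simp
  rw [e1, e2]
  exact key

lemma sig_uhp : sig ⊆ {z : ℂ | 0 < z.im} := by
  rintro z (⟨j, rfl⟩ | ⟨j, rfl⟩)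
  · exact la0_uhp j
  · exact la1_uhp j


/-- normalised kernel vectors: `⟪gv z, gv w⟫ = G z w` -/
def gv (z : ℂ) : H := al z • X z

lemma double_sum (G : ℂ → ℂ → ℂ) (s : Finset ℂ)
    (hG : ∀ z ∈ s, ∀ w ∈ s, G z w = inner ℂ (gv z) (gv w)) (a : ℂ → ℂ) :
    (∑ z ∈ s, ∑ w ∈ s, a z * (starRingEnd ℂ) (a w) * G z w).re =
      ‖∑ z ∈ s, (starRingEnd ℂ) (a z) • gv z‖^2 := by
  have h : ∑ z ∈ s, ∑ w ∈ s, a z * (starRingEnd ℂ) (a w) * G z w =
      inner ℂ (∑ z ∈ s, (starRingEnd ℂ) (a z) • gv z) (∑ z ∈ s, (starRingEnd ℂ) (a z) • gv z) := by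
    rw [sum_inner]
    apply Finset.sum_congr rfl
    intro z hz
    rw [inner_sum]
    apply Finset.sum_congr rfl
    intro w hw
    rw [inner_smul_left, inner_smul_right, hG z hz w hw, Complex.conj_conj]
    ring
  rw [h, inner_self_eq_norm_sq_to_K]
  simp [← Complex.ofReal_pow]

lemma diag (G : ℂ → ℂ → ℂ) (z : ℂ) (hG : G z z = inner ℂ (gv z) (gv z)) :
    (G z z).re = ‖gv z‖^2 := by
  rw [hG, inner_self_eq_norm_sq_to_K]
  simp [← Complex.ofReal_pow]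

lemma dens_expr (G : ℂ → ℂ → ℂ) (s : Finset ℂ) (w : ℂ)
    (hG : ∀ z ∈ s, ∀ v ∈ s, G z v = inner ℂ (gv z) (gv v))
    (hw : G w w = inner ℂ (gv w) (gv w))
    (hwz : ∀ z ∈ s, G w z = inner ℂ (gv w) (gv z))
    (hzw : ∀ z ∈ s, G z w = inner ℂ (gv z) (gv w)) (a : ℂ → ℂ) :
    (G w w - ∑ z ∈ s, (starRingEnd ℂ) (a z) * G w z - ∑ z ∈ s, a z * G z w
                + ∑ z ∈ s, ∑ v ∈ s, a z * (starRingEnd ℂ) (a v) * G z v).re =
      ‖gv w - ∑ z ∈ s, (starRingEnd ℂ) (a z) • gv z‖^2 := by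
  have h1 : ∑ z ∈ s, ∑ v ∈ s, a z * (starRingEnd ℂ) (a v) * G z v =
      inner ℂ (∑ z ∈ s, (starRingEnd ℂ) (a z) • gv z) (∑ z ∈ s, (starRingEnd ℂ) (a z) • gv z) := by
    rw [sum_inner]
    apply Finset.sum_congr rfl
    intro z hz
    rw [inner_sum]
    apply Finset.sum_congr rfl
    intro v hv
    rw [inner_smul_left, inner_smul_right, hG z hz v hv, Complex.conj_conj]
    ring
  have h2 : ∑ z ∈ s, (starRingEnd ℂ) (a z) * G w z =
      inner ℂ (gv w) (∑ z ∈ s, (starRingEnd ℂ) (a z) • gv z) := by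
    rw [inner_sum]
    apply Finset.sum_congr rfl
    intro z hz
    rw [inner_smul_right, hwz z hz]
  have h3 : ∑ z ∈ s, a z * G z w =
      inner ℂ (∑ z ∈ s, (starRingEnd ℂ) (a z) • gv z) (gv w) := by
    rw [sum_inner]
    apply Finset.sum_congr rfl
    intro z hz
    rw [inner_smul_left, hzw z hz, Complex.conj_conj]
  rw [h1, h2, h3, hw]
  have h4 : ∀ f g : H, (inner ℂ f f : ℂ) - inner ℂ f g - inner ℂ g f + inner ℂ g g =
      inner ℂ (f - g) (f - g) := by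
    intro f g
    rw [inner_sub_left, inner_sub_right, inner_sub_right]
    ring
  rw [h4, inner_self_eq_norm_sq_to_K]
  simp [← Complex.ofReal_pow]

/-- the Riesz property in terms of `G` -/
def RieszG (G : ℂ → ℂ → ℂ) (c C : ℝ) (S : Set ℂ) : Prop :=
  ∀ s : Finset ℂ, (↑s : Set ℂ) ⊆ S → ∀ a : ℂ → ℂ,
            c * ∑ z ∈ s, ‖a z‖ ^ 2 * (G z z).re
              ≤ (∑ z ∈ s, ∑ w ∈ s, a z * starRingEnd ℂ (a w) * G z w).re ∧
            (∑ z ∈ s, ∑ w ∈ s, a z * starRingEnd ℂ (a w) * G z w).re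
              ≤ C * ∑ z ∈ s, ‖a z‖ ^ 2 * (G z z).re

lemma rieszG_iff (G : ℂ → ℂ → ℂ) (hG : ∀ z w : ℂ, 0 < z.im → 0 < w.im →
    G z w = inner ℂ (gv z) (gv w)) (c C : ℝ) (S : Set ℂ) (hS : S ⊆ {z : ℂ | 0 < z.im}) :
    RieszG G c C S ↔ RieszX c C S := by
  have hsum : ∀ s : Finset ℂ, (↑s : Set ℂ) ⊆ S → ∀ a : ℂ → ℂ,
      (∑ z ∈ s, ∑ w ∈ s, a z * (starRingEnd ℂ) (a w) * G z w).re =
      ‖∑ z ∈ s, ((starRingEnd ℂ) (a z) * al z) • X z‖^2 := by
    intro s hs a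
    rw [double_sum G s (fun z hz w hw => hG z w (hS (hs hz)) (hS (hs hw))) a]
    congr 2
    apply Finset.sum_congr rfl
    intro z _
    unfold gv
    rw [smul_smul]
  have hdiag : ∀ s : Finset ℂ, (↑s : Set ℂ) ⊆ S → ∀ a : ℂ → ℂ,
      ∑ z ∈ s, ‖a z‖ ^ 2 * (G z z).re = ∑ z ∈ s, ‖(starRingEnd ℂ) (a z) * al z‖^2 * ‖X z‖^2 := by
    intro s hs a
    apply Finset.sum_congr rfl
    intro z hz
    rw [diag G z (hG z z (hS (hs hz)) (hS (hs hz)))]
    unfold gv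
    rw [norm_smul, norm_mul, RCLike.norm_conj]
    ring
  constructor
  · intro h s hs b
    have h1 := h s hs (fun z => (starRingEnd ℂ) (b z / al z))
    rw [hsum s hs, hdiag s hs] at h1
    have e1 : ∀ z ∈ s, (starRingEnd ℂ) ((starRingEnd ℂ) (b z / al z)) * al z = b z := by
      intro z hz
      rw [Complex.conj_conj, div_mul_cancel₀ _ (al_ne (hS (hs hz)))]
    have e2 : ∑ z ∈ s, ((starRingEnd ℂ) ((starRingEnd ℂ) (b z / al z)) * al z) • X z =
        ∑ z ∈ s, b z • X z := Finset.sum_congr rfl (fun z hz => by rw [e1 z hz])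
    have e3 : ∑ z ∈ s, ‖(starRingEnd ℂ) ((starRingEnd ℂ) (b z / al z)) * al z‖^2 * ‖X z‖^2 =
        ∑ z ∈ s, ‖b z‖^2 * ‖X z‖^2 := Finset.sum_congr rfl (fun z hz => by rw [e1 z hz])
    rw [e2, e3] at h1
    exact h1
  · intro h s hs a
    have h1 := h s hs (fun z => (starRingEnd ℂ) (a z) * al z)
    rw [hsum s hs, hdiag s hs]
    exact h1

/-- the counterexample, everything expressed with `G` -/
theorem counterexample (G : ℂ → ℂ → ℂ)
    (hGdef : ∀ z w : ℂ, G z w = Complex.I / (2 * (Real.pi : ℂ)) *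
            (1 - starRingEnd ℂ (Th z) * Th w) / (w - starRingEnd ℂ z)) :
    RieszG G (1/20) 5 sig ∧
    ∀ S : Set ℂ, sig ⊆ S → S ⊆ {z : ℂ | 0 < z.im} → ∀ c C : ℝ, 0 < c → 0 < C → RieszG G c C S →
      (∀ w : ℂ, 0 < w.im → ∀ ε : ℝ, 0 < ε →
            ∃ s : Finset ℂ, (↑s : Set ℂ) ⊆ S ∧ ∃ a : ℂ → ℂ,
              (G w w - ∑ z ∈ s, starRingEnd ℂ (a z) * G w z - ∑ z ∈ s, a z * G z w
                + ∑ z ∈ s, ∑ v ∈ s, a z * starRingEnd ℂ (a v) * G z v).re < ε) → False := by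
  have hG : ∀ z w : ℂ, 0 < z.im → 0 < w.im → G z w = inner ℂ (gv z) (gv w) := by
    intro z w hz hw
    rw [hGdef]
    exact G_eq hz hw
  refine ⟨(rieszG_iff G hG _ _ sig sig_uhp).mpr riesz_sig, ?_⟩
  intro S hsS hS c C hc hC hR hden
  have hRX := (rieszG_iff G hG c C S hS).mp hR
  apply no_extension hc hC (fun z hz => hS hz) hRX _ (fun j => hsS (Or.inl ⟨j, rfl⟩))
    (fun j => hsS (Or.inr ⟨j, rfl⟩))
  intro w hw ε hε
  have hal : 0 < ‖al w‖ := norm_pos_iff.mpr (al_ne hw)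
  obtain ⟨s, hs, a, ha⟩ := hden w hw ((‖al w‖ * ε)^2) (by positivity)
  rw [dens_expr G s w (fun z hz v hv => hG z v (hS (hs hz)) (hS (hs hv))) (hG w w hw hw)
    (fun z hz => hG w z hw (hS (hs hz))) (fun z hz => hG z w (hS (hs hz)) hw) a] at ha
  have ha' : ‖gv w - ∑ z ∈ s, (starRingEnd ℂ) (a z) • gv z‖ < ‖al w‖ * ε :=
    lt_of_pow_lt_pow_left₀ 2 (by positivity) ha
  refine ⟨s, hs, fun z => (starRingEnd ℂ) (a z) * al z / al w, ?_⟩
  have e : gv w - ∑ z ∈ s, (starRingEnd ℂ) (a z) • gv z =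
      al w • (X w - ∑ z ∈ s, ((starRingEnd ℂ) (a z) * al z / al w) • X z) := by
    rw [smul_sub, Finset.smul_sum]
    unfold gv
    congr 1
    apply Finset.sum_congr rfl
    intro z _
    rw [smul_smul, smul_smul, mul_div_cancel₀ _ (al_ne hw)]
  rw [e, norm_smul] at ha'
  exact lt_of_mul_lt_mul_left ha' hal.le

end

end Pool.Agent.H32.KE
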