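import Mathlib

/-!
# A skew product over the 6-adic odometer

`T (y, g) = (y + 1, g + phi y)` on `Y × ZMod 6`, where `Y = ℕ → ZMod 6` with the odometer and
`phi y = t (y + 1) - t y`, with `t y = ∑ y i * y (i + 1)` (formally).
-/

open MeasureTheory Set Filter Topology
open scoped ENNReal

namespace Pool.Agent.H32.UnderRec

abbrev Y := ℕ → ZMod 6
abbrev X := Y × ZMod 6

/-- prepend a digit -/
def cons (a : ZMod 6) (y : Y) : Y := fun n => Nat.casesOn n a y

@[simp] theorem cons_zero (a : ZMod 6) (y : Y) : cons a y 0 = a := rfl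
@[simp] theorem cons_succ (a : ZMod 6) (y : Y) (n : ℕ) : cons a y (n+1) = y n := rfl

theorem cons_eta (y : Y) : cons (y 0) (fun n => y (n+1)) = y := by
  ext n; cases n <;> rfl

/-- the odometer (adding machine): add one with carry -/
noncomputable def odo (y : Y) : Y := by
  classical
  exact fun k => if ∀ j < k, y j = 5 then y k + 1 else y k

theorem odo_zero (y : Y) : odo y 0 = y 0 + 1 := by
  simp [odo]

theorem odo_cons_ne {a : ZMod 6} (ha : a ≠ 5) (y : Y) : odo (cons a y) = cons (a+1) y := by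
  ext n
  cases n with
  | zero => simp [odo]
  | succ n =>
    have : ¬ ∀ j < n + 1, cons a y j = 5 := fun h => ha (h 0 (Nat.succ_pos n))
    simp only [odo, if_neg this, cons_succ]

theorem odo_cons_five (y : Y) : odo (cons 5 y) = cons 0 (odo y) := by
  ext n
  cases n with
  | zero => simp [odo]; decide
  | succ n =>
    have : (∀ j < n + 1, cons 5 y j = 5) ↔ ∀ j < n, y j = 5 := by
      constructor
      · intro h j hj
        exact h (j+1) (by omega)
      · intro h j hj
        cases j with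
        | zero => rfl
        | succ j => exact h j (by omega)
    simp only [odo, cons_succ, this]

theorem phi_ex (y : Y) : ∃ n, y n ≠ 5 ∨ ∀ j, y j = 5 := by
  by_cases h : ∀ j, y j = 5
  · exact ⟨0, Or.inr h⟩
  · push Not at h
    obtain ⟨n, hn⟩ := h
    exact ⟨n, Or.inl hn⟩

/-- the cocycle: sum of the digits y (j+1), j from 0 to the first index with y j ≠ 5 -/
noncomputable def phi (y : Y) : ZMod 6 := by
  classical
  exact ∑ j ∈ Finset.range (Nat.find (phi_ex y) + 1), y (j+1)

theorem phi_cons_ne {a : ZMod 6} (ha : a ≠ 5) (y : Y) : phi (cons a y) = y 0 := by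
  classical
  have h0 : Nat.find (phi_ex (cons a y)) = 0 := by
    rw [Nat.find_eq_zero]; exact Or.inl ha
  unfold phi
  rw [h0]
  simp

theorem phi_cons_five {y : Y} (hy : ∃ n, y n ≠ 5) : phi (cons 5 y) = y 0 + phi y := by
  classical
  have hn5 : ¬ ∀ j, y j = 5 := by push Not; exact hy
  have h0 : Nat.find (phi_ex (cons 5 y)) = Nat.find (phi_ex y) + 1 := by
    rw [Nat.find_eq_iff]
    constructor
    · have := Nat.find_spec (phi_ex y)
      rcases this with h | h
      · exact Or.inl h
      · exact absurd h hn5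
    · intro k hk
      push Not
      refine ⟨?_, ?_⟩
      · cases k with
        | zero => rfl
        | succ k =>
          have := Nat.find_min (phi_ex y) (show k < _ by omega)
          push Not at this
          exact this.1
      · obtain ⟨n, hn⟩ := hy
        exact ⟨n+1, hn⟩
  unfold phi
  rw [h0, Finset.sum_range_succ']
  rw [add_comm]
  rfl

/-- good points: infinitely many digits differ from 5 -/
def Good (y : Y) : Prop := ∀ N, ∃ n ≥ N, y n ≠ 5

theorem Good.exists_ne {y : Y} (h : Good y) : ∃ n, y n ≠ 5 := by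
  obtain ⟨n, _, hn⟩ := h 0; exact ⟨n, hn⟩

theorem good_cons {a : ZMod 6} {y : Y} : Good (cons a y) ↔ Good y := by
  constructor
  · intro h N
    obtain ⟨n, hn, hne⟩ := h (N+1)
    cases n with
    | zero => omega
    | succ n => exact ⟨n, by omega, hne⟩
  · intro h N
    obtain ⟨n, hn, hne⟩ := h N
    exact ⟨n+1, by omega, hne⟩

theorem good_odo {y : Y} (h : Good y) : Good (odo y) := by
  classical
  intro N
  obtain ⟨n0, hn0⟩ := h.exists_ne
  obtain ⟨n, hn, hne⟩ := h (max N (n0+1))
  refine ⟨n, le_trans (le_max_left _ _) hn, ?_⟩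
  have : ¬ ∀ j < n, y j = 5 := fun hh => hn0 (hh n0 (by
    have := le_max_right N (n0+1); omega))
  simp only [odo, if_neg this]
  exact hne

theorem good_odo_iter {y : Y} (h : Good y) (n : ℕ) : Good (odo^[n] y) := by
  induction n with
  | zero => exact h
  | succ n ih => rw [Function.iterate_succ_apply']; exact good_odo ih

/-- the transformation -/
noncomputable def T (x : X) : X := (odo x.1, x.2 + phi x.1)

/-- cocycle sums -/
noncomputable def S (n : ℕ) (y : Y) : ZMod 6 := ∑ i ∈ Finset.range n, phi (odo^[i] y)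

theorem S_succ (n : ℕ) (y : Y) : S (n+1) y = S n y + phi (odo^[n] y) := by
  rw [S, Finset.sum_range_succ]; rfl

theorem T_iter (n : ℕ) (x : X) : T^[n] x = (odo^[n] x.1, x.2 + S n x.1) := by
  induction n with
  | zero => simp [S]
  | succ n ih =>
    rw [Function.iterate_succ_apply', ih, Function.iterate_succ_apply', S_succ]
    simp only [T, add_assoc]

theorem odo_iter_zero (n : ℕ) (y : Y) : (odo^[n] y) 0 = y 0 + n := by
  induction n with
  | zero => simp
  | succ n ih => rw [Function.iterate_succ_apply', odo_zero, ih]; push_cast; ring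

theorem val_add_one_div (a : ZMod 6) (m : ℕ) :
    (a + (m : ZMod 6) ≠ 5 → (a.val + (m+1)) / 6 = (a.val + m) / 6) ∧
    (a + (m : ZMod 6) = 5 → (a.val + (m+1)) / 6 = (a.val + m) / 6 + 1) := by
  have h1 : (a + (m : ZMod 6)).val = (a.val + m) % 6 := by
    rw [ZMod.val_add, ZMod.val_natCast, Nat.add_mod_mod]
  have h5 : (5 : ZMod 6).val = 5 := rfl
  constructor
  · intro h
    have : (a.val + m) % 6 ≠ 5 := by
      intro h'
      apply h
      apply ZMod.val_injective
      rw [h1, h', h5]
    omega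
  · intro h
    have : (a.val + m) % 6 = 5 := by rw [← h1, h, h5]
    omega

/-- renormalisation of the odometer -/
theorem odo_iter_cons (a : ZMod 6) (y : Y) (m : ℕ) :
    odo^[m] (cons a y) = cons (a + m) (odo^[(a.val + m) / 6] y) := by
  induction m with
  | zero =>
    have : a.val / 6 = 0 := Nat.div_eq_of_lt (ZMod.val_lt a)
    simp [this]
  | succ m ih =>
    rw [Function.iterate_succ_apply', ih]
    by_cases h : a + (m : ZMod 6) = 5
    · rw [h, odo_cons_five, (val_add_one_div a m).2 h, Function.iterate_succ_apply']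
      congr 1
      push_cast
      rw [← add_assoc, h]; decide
    · rw [odo_cons_ne h, (val_add_one_div a m).1 h]
      congr 1
      push_cast; ring

/-- renormalisation of the cocycle sums -/
theorem S_cons (a : ZMod 6) {y : Y} (hy : Good y) (m : ℕ) :
    S m (cons a y) = m * y 0 + (a + m) * (((a.val + m) / 6 : ℕ) : ZMod 6) + S ((a.val + m) / 6) y := by
  induction m with
  | zero =>
    have : a.val / 6 = 0 := Nat.div_eq_of_lt (ZMod.val_lt a)
    simp [this, S]
  | succ m ih =>
    rw [S_succ, ih, odo_iter_cons]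
    set q := (a.val + m) / 6 with hq
    by_cases h : a + (m : ZMod 6) = 5
    · rw [h, phi_cons_five (good_odo_iter hy q).exists_ne, (val_add_one_div a m).2 h, ← hq,
        odo_iter_zero, S_succ]
      have h6 : a + ((m+1 : ℕ) : ZMod 6) = 0 := by
        push_cast; rw [← add_assoc, h]; decide
      rw [h6]
      have h66 : (6 : ZMod 6) = 0 := by decide
      push_cast
      linear_combination (q : ZMod 6) * h66
    · rw [phi_cons_ne h, (val_add_one_div a m).1 h, ← hq, odo_iter_zero]
      push_cast; ring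


/-! ### measures -/

/-- the uniform probability measure on ZMod 6 -/
noncomputable def u : Measure (ZMod 6) := (6:ℝ≥0∞)⁻¹ • Measure.count

theorem u_univ : u univ = 1 := by
  rw [u, Measure.smul_apply, smul_eq_mul, Measure.count_univ, ENat.card_eq_coe_fintype_card, ZMod.card]
  exact ENNReal.inv_mul_cancel (by norm_num) (by norm_num)

instance : IsProbabilityMeasure u := ⟨u_univ⟩

theorem lintegral_u (f : ZMod 6 → ℝ≥0∞) : ∫⁻ a, f a ∂u = 6⁻¹ * ∑ a, f a := by
  rw [u, lintegral_smul_measure, lintegral_count, tsum_fintype, smul_eq_mul]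

/-- the uniform product measure on Y -/
noncomputable def mu : Measure Y := Measure.infinitePi (fun _ => u)

instance : IsProbabilityMeasure mu := by unfold mu; infer_instance

/-- the measure on X -/
noncomputable def lam : Measure X := mu.prod u

instance : IsProbabilityMeasure lam := by unfold lam; infer_instance

theorem measurable_cons2 : Measurable (fun p : ZMod 6 × Y => cons p.1 p.2) := by
  rw [measurable_pi_iff]
  intro n
  cases n with
  | zero => exact measurable_fst
  | succ n => exact (measurable_pi_apply n).comp measurable_snd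

theorem measurable_cons (a : ZMod 6) : Measurable (cons a) :=
  measurable_cons2.comp (measurable_const.prodMk measurable_id)

theorem map_cons : (u.prod mu).map (fun p : ZMod 6 × Y => cons p.1 p.2) = mu := by
  classical
  unfold mu
  apply Measure.eq_infinitePi
  intro s t ht
  set N := s.sup id + 1 with hN
  set t' : ℕ → Set (ZMod 6) := fun i => if i ∈ s then t i else univ with ht'
  have hpi : Set.pi s t = Set.pi (Finset.range (N+1)) t' := by
    ext y
    simp only [Set.mem_pi, Finset.mem_coe, Finset.mem_range, ht']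
    constructor
    · intro h i hi
      by_cases his : i ∈ s
      · rw [if_pos his]; exact h i his
      · rw [if_neg his]; trivial
    · intro h i hi
      have h1 : i ≤ s.sup id := Finset.le_sup (f := id) hi
      have := h i (by omega)
      rwa [if_pos hi] at this
  have hprod : ∏ i ∈ s, u (t i) = ∏ i ∈ Finset.range (N+1), u (t' i) := by
    have hsub : s ⊆ Finset.range (N+1) := by
      intro i hi
      have h1 : i ≤ s.sup id := Finset.le_sup (f := id) hi
      rw [Finset.mem_range]; omega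
    rw [← Finset.prod_subset hsub]
    · apply Finset.prod_congr rfl
      intro i hi
      simp only [ht', if_pos hi]
    · intro i _ his
      simp only [ht', if_neg his, u_univ]
  have htm : ∀ i, MeasurableSet (t' i) := fun i => MeasurableSet.of_discrete
  rw [hpi, hprod, Measure.map_apply measurable_cons2
    (MeasurableSet.pi (Finset.range (N+1)).countable_toSet (fun i _ => htm i))]
  have hpre : (fun p : ZMod 6 × Y => cons p.1 p.2) ⁻¹' (Set.pi (Finset.range (N+1)) t') =
      (t' 0) ×ˢ (Set.pi (Finset.range N) (fun i => t' (i+1))) := by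
    ext p
    simp only [Set.mem_preimage, Set.mem_pi, Finset.mem_coe, Finset.mem_range, Set.mem_prod]
    constructor
    · intro h
      exact ⟨h 0 (by omega), fun i hi => h (i+1) (by omega)⟩
    · rintro ⟨h0, h⟩ i hi
      cases i with
      | zero => exact h0
      | succ i => exact h i (by omega)
  rw [hpre, Measure.prod_prod, Measure.infinitePi_pi (μ := fun _ : ℕ => u) (fun i _ => htm (i+1)),
    Finset.prod_range_succ' (fun i => u (t' i)), mul_comm]

theorem lintegral_mu_cons {f : Y → ℝ≥0∞} (hf : Measurable f) :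
    ∫⁻ y, f y ∂mu = 6⁻¹ * ∑ a, ∫⁻ y, f (cons a y) ∂mu := by
  conv_lhs => rw [← map_cons]
  rw [lintegral_map hf measurable_cons2,
    lintegral_prod (fun p : ZMod 6 × Y => f (cons p.1 p.2)) (hf.comp measurable_cons2).aemeasurable,
    lintegral_u]

theorem mu_cons {E : Set Y} (hE : MeasurableSet E) : mu E = 6⁻¹ * ∑ a, mu (cons a ⁻¹' E) := by
  rw [← lintegral_indicator_one hE, lintegral_mu_cons (measurable_one.indicator hE)]
  congr 1
  apply Finset.sum_congr rfl
  intro a _
  rw [← lintegral_indicator_one (measurable_cons a hE)]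
  rfl

theorem lintegral_lam {f : X → ℝ≥0∞} (hf : Measurable f) :
    ∫⁻ x, f x ∂lam = ∫⁻ y, 6⁻¹ * ∑ g, f (y, g) ∂mu := by
  unfold lam
  rw [lintegral_prod _ hf.aemeasurable]
  simp only [lintegral_u]

/-- prepend a digit on X -/
def consX (a : ZMod 6) (x : X) : X := (cons a x.1, x.2)

theorem measurable_consX (a : ZMod 6) : Measurable (consX a) :=
  ((measurable_cons a).comp measurable_fst).prodMk measurable_snd

theorem lintegral_lam_cons {f : X → ℝ≥0∞} (hf : Measurable f) :
    ∫⁻ x, f x ∂lam = 6⁻¹ * ∑ a, ∫⁻ x, f (consX a x) ∂lam := by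
  rw [lintegral_lam hf, lintegral_mu_cons]
  · congr 1
    apply Finset.sum_congr rfl
    intro a _
    rw [lintegral_lam (f := fun x => f (consX a x)) (hf.comp (measurable_consX a))]
    rfl
  · apply Measurable.const_mul
    apply Finset.measurable_sum
    intro g _
    exact hf.comp (measurable_id.prodMk measurable_const)

theorem lam_cons {E : Set X} (hE : MeasurableSet E) : lam E = 6⁻¹ * ∑ a, lam (consX a ⁻¹' E) := by
  rw [← lintegral_indicator_one hE, lintegral_lam_cons (measurable_one.indicator hE)]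
  congr 1
  apply Finset.sum_congr rfl
  intro a _
  rw [← lintegral_indicator_one (measurable_consX a hE)]
  rfl

/-- fibrewise translation -/
def R (δ : Y → ZMod 6) (x : X) : X := (x.1, x.2 + δ x.1)

theorem measurable_R {δ : Y → ZMod 6} (hδ : Measurable δ) : Measurable (R δ) :=
  measurable_fst.prodMk (measurable_snd.add (hδ.comp measurable_fst))

theorem lintegral_lam_R {f : X → ℝ≥0∞} (hf : Measurable f) {δ : Y → ZMod 6} (hδ : Measurable δ) :
    ∫⁻ x, f (R δ x) ∂lam = ∫⁻ x, f x ∂lam := by
  rw [lintegral_lam (f := fun x => f (R δ x)) (hf.comp (measurable_R hδ)), lintegral_lam hf]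
  apply lintegral_congr
  intro y
  congr 1
  exact Fintype.sum_equiv (Equiv.addRight (δ y)) _ _ (fun g => rfl)

theorem lam_R {E : Set X} (hE : MeasurableSet E) {δ : Y → ZMod 6} (hδ : Measurable δ) :
    lam (R δ ⁻¹' E) = lam E := by
  rw [← lintegral_indicator_one hE, ← lintegral_lam_R (measurable_one.indicator hE) hδ,
    ← lintegral_indicator_one (measurable_R hδ hE)]
  rfl

theorem meas_coord (k : ℕ) : Measurable (fun y : Y => y k) := measurable_pi_apply k

theorem measurableSet_coord (k : ℕ) (s : Set (ZMod 6)) :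
    MeasurableSet {y : Y | y k ∈ s} := meas_coord k (MeasurableSet.of_discrete)

theorem measurable_odo : Measurable odo := by
  classical
  rw [measurable_pi_iff]
  intro k
  have h1 : MeasurableSet {y : Y | ∀ j < k, y j = 5} := by
    have : {y : Y | ∀ j < k, y j = 5} = ⋂ j ∈ Finset.range k, {y : Y | y j = 5} := by
      ext y; simp
    rw [this]
    apply Finset.measurableSet_biInter
    intro j _
    exact measurableSet_coord j {5}
  unfold odo
  apply Measurable.ite h1
  · exact (meas_coord k).add_const 1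
  · exact meas_coord k

theorem measurable_phi : Measurable phi := by
  classical
  unfold phi
  apply Measurable.find (f := fun n (y : Y) => ∑ j ∈ Finset.range (n + 1), y (j+1))
    (p := fun n (y : Y) => y n ≠ 5 ∨ ∀ j, y j = 5)
  · intro n
    apply Finset.measurable_sum
    intro j _
    exact measurable_pi_apply _
  · intro n
    have h1 : MeasurableSet {y : Y | y n ≠ 5} := measurableSet_coord n {5}ᶜ
    have h2 : MeasurableSet {y : Y | ∀ j, y j = 5} := by
      have : {y : Y | ∀ j, y j = 5} = ⋂ j, {y : Y | y j = 5} := by ext y; simp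
      rw [this]
      exact MeasurableSet.iInter (fun j => measurableSet_coord j {5})
    exact h1.union h2

theorem measurable_T : Measurable T :=
  (measurable_odo.comp measurable_fst).prodMk
    (measurable_snd.add (measurable_phi.comp measurable_fst))

theorem measurable_S (n : ℕ) : Measurable (S n) := by
  unfold S
  apply Finset.measurable_sum
  intro i _
  exact measurable_phi.comp (measurable_odo.iterate i)

/-- almost every point is good -/
theorem ae_good : ∀ᵐ y ∂mu, Good y := by
  -- the set of sequences constantly equal to 5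
  have hm : ∀ N, MeasurableSet {y : Y | ∀ n ≥ N, y n = 5} := by
    intro N
    have : {y : Y | ∀ n ≥ N, y n = 5} = ⋂ n ∈ {n | n ≥ N}, {y : Y | y n = 5} := by ext y; simp
    rw [this]
    apply MeasurableSet.biInter (Set.to_countable _)
    intro n _
    exact measurableSet_coord n {5}
  have h0 : mu {y : Y | ∀ n ≥ 0, y n = 5} = 0 := by
    have h1 := mu_cons (hm 0)
    have h2 : ∀ a : ZMod 6, mu (cons a ⁻¹' {y : Y | ∀ n ≥ 0, y n = 5}) =
        if a = 5 then mu {y : Y | ∀ n ≥ 0, y n = 5} else 0 := by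
      intro a
      split_ifs with ha
      · congr 1
        ext y
        simp only [Set.mem_preimage, Set.mem_ofPred_eq]
        constructor
        · intro h n _
          exact h (n+1) (Nat.zero_le _)
        · intro h n _
          cases n with
          | zero => exact ha
          | succ n => exact h n (Nat.zero_le _)
      · have : cons a ⁻¹' {y : Y | ∀ n ≥ 0, y n = 5} = ∅ := by
          ext y
          simp only [Set.mem_preimage, Set.mem_ofPred_eq, Set.mem_empty_iff_false, iff_false]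
          intro h
          exact ha (h 0 le_rfl)
        rw [this, measure_empty]
    simp only [h2] at h1
    rw [Finset.sum_ite_eq' Finset.univ (5 : ZMod 6)] at h1
    simp only [Finset.mem_univ, if_true] at h1
    by_contra hne
    have hlt : mu {y : Y | ∀ n ≥ 0, y n = 5} ≠ ⊤ := measure_ne_top _ _
    have h3 : (6:ℝ≥0∞)⁻¹ * mu {y : Y | ∀ n ≥ 0, y n = 5} < 1 * mu {y : Y | ∀ n ≥ 0, y n = 5} := by
      apply ENNReal.mul_lt_mul_left hne hlt
      rw [ENNReal.inv_lt_one]; norm_num
    rw [one_mul] at h3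
    exact absurd h1.symm h3.ne
  have hN : ∀ N, mu {y : Y | ∀ n ≥ N, y n = 5} = 0 := by
    intro N
    induction N with
    | zero => exact h0
    | succ N ih =>
      rw [mu_cons (hm (N+1))]
      have h2 : ∀ a : ZMod 6, mu (cons a ⁻¹' {y : Y | ∀ n ≥ N+1, y n = 5}) = 0 := by
        intro a
        rw [← ih]
        congr 1
        ext y
        simp only [Set.mem_preimage, Set.mem_ofPred_eq]
        constructor
        · intro h n hn
          exact h (n+1) (by omega)
        · intro h n hn
          cases n with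
          | zero => omega
          | succ n => exact h n (by omega)
      rw [Finset.sum_eq_zero (fun a _ => h2 a), mul_zero]
  rw [ae_iff]
  have : {y : Y | ¬ Good y} = ⋃ N, {y : Y | ∀ n ≥ N, y n = 5} := by
    ext y
    simp only [Good, Set.mem_ofPred_eq, Set.mem_iUnion]
    push Not
    rfl
  rw [this, measure_iUnion_null_iff]
  exact hN


/-! ### T preserves lam -/

theorem lamr_cons {E : Set X} (hE : MeasurableSet E) :
    lam.real E = (1/6) * ∑ a, lam.real (consX a ⁻¹' E) := by
  unfold Measure.real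
  rw [lam_cons hE, ENNReal.toReal_mul, ENNReal.toReal_sum (fun a _ => measure_ne_top _ _)]
  norm_num

theorem measurable_y0 : Measurable (fun y : Y => y 0) := meas_coord 0

theorem good_ae_lam : ∀ᵐ x ∂lam, Good x.1 := by
  unfold lam
  exact Measure.quasiMeasurePreserving_fst.ae ae_good

theorem T_consX_ne {a : ZMod 6} (ha : a ≠ 5) (x : X) :
    T (consX a x) = consX (a+1) (R (fun y => y 0) x) := by
  simp only [T, consX, R, odo_cons_ne ha, phi_cons_ne ha]

theorem T_consX_five {x : X} (hx : Good x.1) :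
    T (consX 5 x) = consX 0 (T (R (fun y => y 0) x)) := by
  simp only [T, consX, R, odo_cons_five, phi_cons_five hx.exists_ne, add_assoc]

theorem T_diff {E : Set X} (hE : MeasurableSet E) :
    lam.real (T ⁻¹' E) - lam.real E =
      (1/6) * (lam.real (T ⁻¹' (consX 0 ⁻¹' E)) - lam.real (consX 0 ⁻¹' E)) := by
  classical
  have hTE : MeasurableSet (T ⁻¹' E) := measurable_T hE
  have h1 : ∀ a : ZMod 6, lam.real (consX a ⁻¹' (T ⁻¹' E)) =
      lam.real (consX (a+1) ⁻¹' E) + (if a = 5 then
        lam.real (T ⁻¹' (consX 0 ⁻¹' E)) - lam.real (consX 0 ⁻¹' E) else 0) := by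
    intro a
    by_cases ha : a = 5
    · subst ha
      rw [if_pos rfl]
      have h50 : (5:ZMod 6) + 1 = 0 := by decide
      rw [h50, add_sub_cancel]
      have h2 : lam.real (consX 5 ⁻¹' (T ⁻¹' E)) =
          lam.real (R (fun y => y 0) ⁻¹' (T ⁻¹' (consX 0 ⁻¹' E))) := by
        apply measureReal_congr
        filter_upwards [good_ae_lam] with x hx
        apply propext
        change T (consX 5 x) ∈ E ↔ consX 0 (T (R (fun y => y 0) x)) ∈ E
        rw [T_consX_five hx]
      rw [h2, measureReal_def, measureReal_def,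
        lam_R (measurable_T (measurable_consX 0 hE)) measurable_y0]
    · rw [if_neg ha, add_zero]
      have h2 : consX a ⁻¹' (T ⁻¹' E) = R (fun y => y 0) ⁻¹' (consX (a+1) ⁻¹' E) := by
        ext x
        simp only [Set.mem_preimage, T_consX_ne ha]
      rw [h2, measureReal_def, measureReal_def, lam_R (measurable_consX (a+1) hE) measurable_y0]
  rw [lamr_cons hTE, lamr_cons hE, Finset.sum_congr rfl (fun a _ => h1 a), Finset.sum_add_distrib,
    Finset.sum_ite_eq' Finset.univ (5 : ZMod 6)]
  have h3 : ∑ a : ZMod 6, lam.real (consX (a+1) ⁻¹' E) = ∑ a : ZMod 6, lam.real (consX a ⁻¹' E) :=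
    Fintype.sum_equiv (Equiv.addRight 1) _ _ (fun a => rfl)
  rw [h3]
  simp only [Finset.mem_univ, if_true]
  ring

theorem T_bound (n : ℕ) : ∀ {E : Set X}, MeasurableSet E →
    |lam.real (T ⁻¹' E) - lam.real E| ≤ (1/6) ^ n := by
  induction n with
  | zero =>
    intro E _
    have h1 : lam.real (T ⁻¹' E) ≤ 1 := measureReal_le_one
    have h2 : lam.real E ≤ 1 := measureReal_le_one
    have h3 : 0 ≤ lam.real (T ⁻¹' E) := measureReal_nonneg
    have h4 : 0 ≤ lam.real E := measureReal_nonneg
    rw [pow_zero, abs_le]; constructor <;> linarith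
  | succ n ih =>
    intro E hE
    rw [T_diff hE, abs_mul, abs_of_pos (by norm_num : (0:ℝ) < 1/6), pow_succ, mul_comm ((1/6:ℝ)^n)]
    exact mul_le_mul_of_nonneg_left (ih (measurable_consX 0 hE)) (by norm_num)

theorem T_mp : MeasurePreserving T lam lam := by
  refine ⟨measurable_T, ?_⟩
  ext E hE
  rw [Measure.map_apply measurable_T hE]
  have h : ∀ n : ℕ, |lam.real (T ⁻¹' E) - lam.real E| ≤ (1/6) ^ n := fun n => T_bound n hE
  have h0 : Tendsto (fun n : ℕ => ((1:ℝ)/6) ^ n) atTop (𝓝 0) :=
    tendsto_pow_atTop_nhds_zero_of_lt_one (by norm_num) (by norm_num)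
  have h1 : |lam.real (T ⁻¹' E) - lam.real E| ≤ 0 := ge_of_tendsto' h0 h
  have h2 : lam.real (T ⁻¹' E) = lam.real E := by
    have := abs_nonpos_iff.mp h1; linarith
  rw [measureReal_def, measureReal_def, ENNReal.toReal_eq_toReal_iff' (measure_ne_top _ _) (measure_ne_top _ _)] at h2
  exact h2

/-! ### correlations along multiples of powers of 6 -/

theorem T_iter_six (a : ZMod 6) {x : X} (hx : Good x.1) (m : ℕ) :
    T^[6 * m] (consX a x) = consX a (T^[m] (x.1, x.2 + a * m)) := by
  have hq : (a.val + 6 * m) / 6 = m := by have := ZMod.val_lt a; omega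
  have h6 : ((6 * m : ℕ) : ZMod 6) = 0 := by
    push_cast
    have : (6 : ZMod 6) = 0 := by decide
    rw [this, zero_mul]
  rw [T_iter, T_iter]
  simp only [consX]
  rw [odo_iter_cons, S_cons a hx, hq, h6]
  ext1
  · simp
  · simp only [add_zero, zero_mul, zero_add]
    rw [add_assoc]

theorem corr_six {A B : Set X} (hA : MeasurableSet A) (hB : MeasurableSet B) {m : ℕ}
    (hm : (m : ZMod 6) = 0) :
    lam.real (A ∩ T^[6 * m] ⁻¹' B) =
      (1/6) * ∑ a, lam.real (consX a ⁻¹' A ∩ T^[m] ⁻¹' (consX a ⁻¹' B)) := by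
  rw [lamr_cons (hA.inter (measurable_T.iterate _ hB))]
  congr 1
  apply Finset.sum_congr rfl
  intro a _
  apply measureReal_congr
  filter_upwards [good_ae_lam] with x hx
  apply propext
  change (consX a x ∈ A ∧ T^[6 * m] (consX a x) ∈ B) ↔ (consX a x ∈ A ∧ consX a (T^[m] x) ∈ B)
  rw [T_iter_six a hx, hm, mul_zero, add_zero]

/-- sets depending on the first M digits and the group coordinate -/
def Cyl (M : ℕ) (C : Set X) : Prop :=
  ∀ y y' : Y, ∀ g : ZMod 6, (∀ i < M, y i = y' i) → ((y, g) ∈ C ↔ (y', g) ∈ C)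

theorem Cyl.consX {M : ℕ} {C : Set X} (hC : Cyl (M+1) C) (a : ZMod 6) : Cyl M (consX a ⁻¹' C) := by
  intro y y' g h
  apply hC (cons a y) (cons a y') g
  intro i hi
  cases i with
  | zero => rfl
  | succ i => exact h i (by omega)

/-- correlation with the fibre rotation by δ -/
noncomputable def hh (A : Set X) (δ : ZMod 6) : ℝ := lam.real (A ∩ R (fun _ => δ) ⁻¹' A)

theorem hh_cons {A : Set X} (hA : MeasurableSet A) (δ : ZMod 6) :
    hh A δ = (1/6) * ∑ a, hh (consX a ⁻¹' A) δ := by
  unfold hh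
  rw [lamr_cons (hA.inter (measurable_R measurable_const hA))]
  rfl

theorem integral_u {E : Type*} [NormedAddCommGroup E] [NormedSpace ℝ E] [CompleteSpace E]
    (f : ZMod 6 → E) : ∫ a, f a ∂u = (1/6:ℝ) • ∑ a, f a := by
  rw [u, integral_smul_measure, integral_count]
  norm_num

theorem integral_mu_cons {E : Type*} [NormedAddCommGroup E] [NormedSpace ℝ E] [CompleteSpace E]
    {f : Y → E} (hf : Integrable f mu) :
    ∫ y, f y ∂mu = (1/6:ℝ) • ∑ a, ∫ y, f (cons a y) ∂mu := by
  have hf' : Integrable f ((u.prod mu).map (fun p : ZMod 6 × Y => cons p.1 p.2)) := by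
    rw [map_cons]; exact hf
  have h1 : ∫ y, f y ∂mu = ∫ p, f (cons p.1 p.2) ∂(u.prod mu) := by
    conv_lhs => rw [← map_cons]
    exact integral_map measurable_cons2.aemeasurable hf'.aestronglyMeasurable
  have h2 : Integrable (fun p : ZMod 6 × Y => f (cons p.1 p.2)) (u.prod mu) :=
    hf'.comp_measurable measurable_cons2
  rw [h1, integral_prod (fun p : ZMod 6 × Y => f (cons p.1 p.2)) h2, integral_u]

theorem integrable_of_fin {E : Type*} [NormedAddCommGroup E] {α : Type*} [MeasurableSpace α]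
    {ν : Measure α} [IsFiniteMeasure ν] (h : ZMod 6 → E) {s : α → ZMod 6} (hs : Measurable s) :
    Integrable (fun y => h (s y)) ν := by
  apply Integrable.of_bound (C := ∑ c, ‖h c‖)
  · have : StronglyMeasurable h := StronglyMeasurable.of_discrete
    exact (this.comp_measurable hs).aestronglyMeasurable
  · filter_upwards with y
    exact Finset.single_le_sum (f := fun c => ‖h c‖) (fun c _ => norm_nonneg _) (Finset.mem_univ _)

/-- the limit correlation -/
noncomputable def Q (b : ℕ) (A : Set X) : ℝ := ∫ y, hh A (S (6 * b) y) ∂mu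

theorem Q_cons {A : Set X} (hA : MeasurableSet A) (b : ℕ) :
    Q b A = (1/6) * ∑ a, Q b (consX a ⁻¹' A) := by
  unfold Q
  rw [← integral_finsetSum _ (fun a _ => integrable_of_fin _ (measurable_S _)),
    ← integral_const_mul]
  apply integral_congr_ae
  filter_upwards with y
  exact hh_cons hA _


theorem natCast_six_mul (m : ℕ) : ((6 * m : ℕ) : ZMod 6) = 0 := by
  push_cast
  have : (6 : ZMod 6) = 0 := by decide
  rw [this, zero_mul]

/-- invariance of the distribution of the cocycle sums -/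
theorem law_six (h : ZMod 6 → ℝ) {m : ℕ} (hm : (m : ZMod 6) = 0) :
    ∫ y, h (S (6 * m) y) ∂mu = ∫ y, h (S m y) ∂mu := by
  rw [integral_mu_cons (integrable_of_fin h (measurable_S _))]
  have h1 : ∀ a : ZMod 6, ∫ y, h (S (6 * m) (cons a y)) ∂mu = ∫ y, h (S m y) ∂mu := by
    intro a
    apply integral_congr_ae
    filter_upwards [ae_good] with y hy
    have hq : (a.val + 6 * m) / 6 = m := by have := ZMod.val_lt a; omega
    rw [S_cons a hy, hq, natCast_six_mul, hm]
    simp
  rw [Finset.sum_congr rfl (fun a _ => h1 a)]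
  simp

theorem law_pow (h : ZMod 6 → ℝ) (b k : ℕ) :
    ∫ y, h (S (b * 6 ^ (k+1)) y) ∂mu = ∫ y, h (S (6 * b) y) ∂mu := by
  induction k with
  | zero => rw [zero_add, pow_one, mul_comm]
  | succ k ih =>
    have : b * 6 ^ (k + 1 + 1) = 6 * (b * 6 ^ (k+1)) := by ring
    rw [this, law_six h, ih]
    have : b * 6 ^ (k+1) = 6 * (b * 6 ^ k) := by ring
    rw [this, natCast_six_mul]

theorem integral_lam {F : X → ℝ} (hF : Integrable F lam) :
    ∫ x, F x ∂lam = ∫ y, (1/6) * ∑ g, F (y, g) ∂mu := by
  unfold lam at hF ⊢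
  rw [integral_prod _ hF]
  apply integral_congr_ae
  filter_upwards with y
  rw [integral_u]
  rfl

open Classical in
/-- indicator as a real function -/
noncomputable def ind (A : Set X) (x : X) : ℝ := if x ∈ A then 1 else 0

theorem measurable_ind {A : Set X} (hA : MeasurableSet A) : Measurable (ind A) := by
  classical
  unfold ind
  exact Measurable.ite hA measurable_const measurable_const

theorem ind_nonneg (A : Set X) (x : X) : 0 ≤ ind A x := by
  classical
  unfold ind; split_ifs <;> norm_num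

theorem ind_le_one (A : Set X) (x : X) : ind A x ≤ 1 := by
  classical
  unfold ind; split_ifs <;> norm_num

theorem ind_eq_zero_or_one (A : Set X) (x : X) : ind A x = 0 ∨ ind A x = 1 := by
  classical
  unfold ind; split_ifs
  · right; rfl
  · left; rfl

theorem integrable_ind {A : Set X} (hA : MeasurableSet A) : Integrable (ind A) lam := by
  apply Integrable.of_bound (C := 1) (measurable_ind hA).aestronglyMeasurable
  filter_upwards with x
  rw [Real.norm_eq_abs, abs_of_nonneg (ind_nonneg A x)]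
  exact ind_le_one A x

theorem integral_ind {A : Set X} (hA : MeasurableSet A) : ∫ x, ind A x ∂lam = lam.real A := by
  classical
  have : ind A = A.indicator 1 := by
    ext x
    simp only [ind, Set.indicator_apply, Pi.one_apply]
  rw [this, integral_indicator_one hA]

theorem ind_inter (A B : Set X) (x : X) : ind (A ∩ B) x = ind A x * ind B x := by
  classical
  unfold ind
  by_cases h1 : x ∈ A <;> by_cases h2 : x ∈ B <;> simp [h1, h2]

theorem ind_preimage (A : Set X) (f : X → X) (x : X) : ind (f ⁻¹' A) x = ind A (f x) := rfl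

theorem lamr_eq {A : Set X} (hA : MeasurableSet A) :
    lam.real A = ∫ y, (1/6) * ∑ g, ind A (y, g) ∂mu := by
  rw [← integral_ind hA, integral_lam (integrable_ind hA)]

theorem hh_eq {A : Set X} (hA : MeasurableSet A) (δ : ZMod 6) :
    hh A δ = ∫ y, (1/6) * ∑ g, ind A (y, g) * ind A (y, g + δ) ∂mu := by
  unfold hh
  rw [lamr_eq (hA.inter (measurable_R measurable_const hA))]
  simp only [ind_inter, ind_preimage, R]

theorem corr_cyl_zero {C : Set X} (hC : MeasurableSet C) (hc : Cyl 0 C) (n : ℕ) :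
    lam.real (C ∩ T^[n] ⁻¹' C) = ∫ y, hh C (S n y) ∂mu := by
  have hind : ∀ y y' g, ind C (y, g) = ind C (y', g) := by
    intro y y' g
    classical
    unfold ind
    have := hc y y' g (fun i hi => absurd hi (Nat.not_lt_zero i))
    simp only [this]
  have h1 : ∀ δ, hh C δ = (1/6) * ∑ g, ind C (0, g) * ind C (0, g + δ) := by
    intro δ
    rw [hh_eq hC]
    have : ∀ y : Y, (1/6:ℝ) * ∑ g, ind C (y, g) * ind C (y, g + δ) =
        (1/6) * ∑ g, ind C (0, g) * ind C (0, g + δ) := by
      intro y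
      congr 1
      apply Finset.sum_congr rfl
      intro g _
      rw [hind y 0, hind y 0]
    simp only [this]
    simp
  rw [lamr_eq (hC.inter (measurable_T.iterate _ hC))]
  apply integral_congr_ae
  filter_upwards with y
  rw [h1]
  congr 1
  apply Finset.sum_congr rfl
  intro g _
  rw [ind_inter, ind_preimage, T_iter, hind y 0]
  exact congrArg _ (hind _ 0 _)

theorem corr_cyl (M : ℕ) : ∀ {C : Set X}, MeasurableSet C → Cyl M C → ∀ b k : ℕ, M + 1 ≤ k →
    lam.real (C ∩ T^[b * 6 ^ k] ⁻¹' C) = Q b C := by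
  induction M with
  | zero =>
    intro C hC hc b k hk
    obtain ⟨k', rfl⟩ : ∃ k', k = k' + 1 := ⟨k - 1, by omega⟩
    rw [corr_cyl_zero hC hc, law_pow (hh C) b k']
    rfl
  | succ M ih =>
    intro C hC hc b k hk
    obtain ⟨k', rfl⟩ : ∃ k', k = k' + 1 + 1 := ⟨k - 2, by omega⟩
    have h1 : b * 6 ^ (k' + 1 + 1) = 6 * (b * 6 ^ (k'+1)) := by ring
    have h2 : ((b * 6 ^ (k'+1) : ℕ) : ZMod 6) = 0 := by
      have : b * 6 ^ (k'+1) = 6 * (b * 6 ^ k') := by ring
      rw [this, natCast_six_mul]
    rw [h1, corr_six hC hC h2, Q_cons hC b]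
    congr 1
    apply Finset.sum_congr rfl
    intro a _
    exact ih (measurable_consX a hC) (hc.consX a) b (k'+1) (by omega)

/-! ### approximation -/

theorem Cyl.mono {M N : ℕ} (h : M ≤ N) {C : Set X} (hC : Cyl M C) : Cyl N C :=
  fun y y' g hy => hC y y' g (fun i hi => hy i (lt_of_lt_of_le hi h))

theorem cyl_measurable {M : ℕ} {C : Set X} (hC : Cyl M C) : MeasurableSet C := by
  -- C is the preimage of a subset of a finite discrete space
  let p : X → (Fin M → ZMod 6) × ZMod 6 := fun x => (fun i => x.1 i, x.2)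
  have hp : Measurable p := by
    apply Measurable.prodMk _ measurable_snd
    rw [measurable_pi_iff]
    intro i
    exact (meas_coord i).comp measurable_fst
  have : C = p ⁻¹' (p '' C) := by
    apply Set.Subset.antisymm (Set.subset_preimage_image p C)
    rintro ⟨y, g⟩ ⟨⟨y', g'⟩, hy', he⟩
    have h1 : (fun i : Fin M => y' i) = fun i : Fin M => y i := congrArg Prod.fst he
    have h2 : g' = g := congrArg Prod.snd he
    subst h2
    exact (hC y' y g' (fun i hi => congrFun h1 ⟨i, hi⟩)).mp hy'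
  rw [this]
  exact hp (MeasurableSet.of_discrete)

theorem cyl_ring : IsSetRing {C : Set X | ∃ M, Cyl M C} where
  empty_mem := ⟨0, fun _ _ _ _ => Iff.rfl⟩
  union_mem := by
    rintro s t ⟨M, hs⟩ ⟨N, ht⟩
    refine ⟨max M N, ?_⟩
    intro y y' g h
    have h1 := hs.mono (le_max_left M N) y y' g h
    have h2 := ht.mono (le_max_right M N) y y' g h
    simp only [Set.mem_union, h1, h2]
  sdiff_mem := by
    rintro s t ⟨M, hs⟩ ⟨N, ht⟩
    refine ⟨max M N, ?_⟩
    intro y y' g h
    have h1 := hs.mono (le_max_left M N) y y' g h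
    have h2 := ht.mono (le_max_right M N) y y' g h
    simp only [Set.mem_sdiff, h1, h2]

theorem cyl_generate : (inferInstance : MeasurableSpace X) =
    MeasurableSpace.generateFrom {C : Set X | ∃ M, Cyl M C} := by
  apply le_antisymm
  · apply sup_le
    · -- first coordinate
      rw [MeasurableSpace.comap_le_iff_le_map]
      apply iSup_le
      intro k
      rw [MeasurableSpace.comap_le_iff_le_map]
      intro s _
      apply MeasurableSpace.measurableSet_generateFrom
      refine ⟨k+1, ?_⟩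
      intro y y' g h
      change y k ∈ s ↔ y' k ∈ s
      rw [h k (Nat.lt_succ_self k)]
    · rw [MeasurableSpace.comap_le_iff_le_map]
      intro s _
      apply MeasurableSpace.measurableSet_generateFrom
      refine ⟨0, ?_⟩
      intro y y' g _
      exact Iff.rfl
  · apply MeasurableSpace.generateFrom_le
    rintro C ⟨M, hC⟩
    exact cyl_measurable hC

theorem approx_cyl {A : Set X} (hA : MeasurableSet A) {ε : ℝ} (hε : 0 < ε) :
    ∃ M, ∃ C, Cyl M C ∧ MeasurableSet C ∧ lam.real (symmDiff C A) < ε := by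
  obtain ⟨C, ⟨M, hC⟩, h⟩ := exists_measure_symmDiff_lt_of_generateFrom_isSetRing (μ := lam)
    cyl_ring ⟨{univ}, Set.countable_singleton _, by
      rintro _ rfl
      exact ⟨0, fun _ _ _ _ => Iff.rfl⟩, by simp⟩ cyl_generate hA (ε := ENNReal.ofReal ε)
      (by simpa using hε)
  refine ⟨M, C, hC, cyl_measurable hC, ?_⟩
  rw [measureReal_def]
  exact (ENNReal.toReal_lt_of_lt_ofReal h)

theorem symm_bound (A B : Set X) :
    |lam.real A - lam.real B| ≤ lam.real (symmDiff A B) := by
  have h1 : lam.real A ≤ lam.real B + lam.real (symmDiff A B) := by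
    refine (measureReal_mono (μ := lam) (?_ : A ⊆ B ∪ symmDiff A B)).trans (measureReal_union_le _ _)
    intro x hx
    by_cases hxB : x ∈ B
    · exact Or.inl hxB
    · exact Or.inr (Or.inl ⟨hx, hxB⟩)
  have h2 : lam.real B ≤ lam.real A + lam.real (symmDiff A B) := by
    refine (measureReal_mono (μ := lam) (?_ : B ⊆ A ∪ symmDiff A B)).trans (measureReal_union_le _ _)
    intro x hx
    by_cases hxA : x ∈ A
    · exact Or.inl hxA
    · exact Or.inr (Or.inr ⟨hx, hxA⟩)
  rw [abs_le]; constructor <;> linarith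

/-- stability of self-correlations under a measure preserving map -/
theorem corr_stable {A C : Set X} (hA : MeasurableSet A) (hC : MeasurableSet C) {f : X → X}
    (hf : MeasurePreserving f lam lam) :
    |lam.real (A ∩ f ⁻¹' A) - lam.real (C ∩ f ⁻¹' C)| ≤ 2 * lam.real (symmDiff C A) := by
  refine (symm_bound _ _).trans ?_
  have h1 : symmDiff (A ∩ f ⁻¹' A) (C ∩ f ⁻¹' C) ⊆ symmDiff C A ∪ f ⁻¹' (symmDiff C A) := by
    intro x hx
    rcases hx with ⟨⟨h1, h2⟩, h3⟩ | ⟨⟨h1, h2⟩, h3⟩
    · by_cases hxC : x ∈ C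
      · right
        right
        exact ⟨h2, fun h => h3 ⟨hxC, h⟩⟩
      · left; right; exact ⟨h1, hxC⟩
    · by_cases hxA : x ∈ A
      · right
        left
        exact ⟨h2, fun h => h3 ⟨hxA, h⟩⟩
      · left; left; exact ⟨h1, hxA⟩
  have h2 : lam.real (f ⁻¹' (symmDiff C A)) = lam.real (symmDiff C A) := by
    rw [measureReal_def, measureReal_def, hf.measure_preimage (hC.symmDiff hA).nullMeasurableSet]
  calc lam.real (symmDiff (A ∩ f ⁻¹' A) (C ∩ f ⁻¹' C)) ≤
      lam.real (symmDiff C A ∪ f ⁻¹' (symmDiff C A)) := measureReal_mono h1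
    _ ≤ lam.real (symmDiff C A) + lam.real (f ⁻¹' (symmDiff C A)) := measureReal_union_le _ _
    _ = 2 * lam.real (symmDiff C A) := by rw [h2]; ring

theorem R_mp {δ : Y → ZMod 6} (hδ : Measurable δ) : MeasurePreserving (R δ) lam lam := by
  refine ⟨measurable_R hδ, ?_⟩
  ext E hE
  rw [Measure.map_apply (measurable_R hδ) hE, lam_R hE hδ]

theorem Q_stable {A C : Set X} (hA : MeasurableSet A) (hC : MeasurableSet C) (b : ℕ) :
    |Q b A - Q b C| ≤ 2 * lam.real (symmDiff C A) := by
  unfold Q
  rw [← integral_sub (integrable_of_fin _ (measurable_S _)) (integrable_of_fin _ (measurable_S _))]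
  have h := norm_integral_le_of_norm_le_const (μ := mu)
    (f := fun y => hh A (S (6*b) y) - hh C (S (6*b) y)) (C := 2 * lam.real (symmDiff C A))
    (by
      filter_upwards with y
      rw [Real.norm_eq_abs]
      exact corr_stable hA hC (R_mp measurable_const))
  rw [Real.norm_eq_abs] at h
  simpa using h

/-- Correlations of measurable sets along b * 6^k converge to Q b. -/
theorem corr_tendsto {A : Set X} (hA : MeasurableSet A) (b : ℕ) :
    Tendsto (fun k => lam.real (A ∩ T^[b * 6 ^ k] ⁻¹' A)) atTop (𝓝 (Q b A)) := by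
  rw [Metric.tendsto_atTop]
  intro ε hε
  obtain ⟨M, C, hC, hCm, hd⟩ := approx_cyl hA (show 0 < ε / 4 by linarith)
  refine ⟨M + 1, fun k hk => ?_⟩
  have h1 := corr_stable hA hCm (T_mp.iterate (b * 6 ^ k))
  have h2 := corr_cyl M hCm hC b k hk
  have h3 := Q_stable hA hCm b
  rw [Real.dist_eq]
  rw [h2] at h1
  have h4 := abs_le.mp h1
  have h5 := abs_le.mp h3
  rw [abs_lt]
  constructor <;> linarith [h4.1, h4.2, h5.1, h5.2]


/-! ### evaluation of the limits -/

theorem sum_expand (h : ZMod 6 → ℝ) : ∑ a, h a = h 0 + h 1 + h 2 + h 3 + h 4 + h 5 :=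
  Fin.sum_univ_six h

theorem Q_expand (h : ZMod 6 → ℝ) (b : ℕ) :
    ∫ y, h (S (6 * b) y) ∂mu = (1/6) * ∫ y, ∑ a : ZMod 6, h (a * b + S b y) ∂mu := by
  rw [integral_mu_cons (integrable_of_fin h (measurable_S _)), smul_eq_mul]
  congr 1
  have h1 : ∀ a : ZMod 6, ∫ y, h (S (6 * b) (cons a y)) ∂mu = ∫ y, h (a * b + S b y) ∂mu := by
    intro a
    apply integral_congr_ae
    filter_upwards [ae_good] with y hy
    have hq : (a.val + 6 * b) / 6 = b := by have := ZMod.val_lt a; omega
    rw [S_cons a hy, hq, natCast_six_mul]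
    simp
  rw [Finset.sum_congr rfl (fun a _ => h1 a), ← integral_finsetSum]
  intro a _
  exact integrable_of_fin (fun c => h (a * b + c)) (measurable_S b)

theorem sum_one (h : ZMod 6 → ℝ) (c : ZMod 6) :
    ∑ a : ZMod 6, h (a * (1:ℕ) + c) = ∑ a, h a := by
  apply Fintype.sum_equiv (Equiv.addRight c)
  intro a
  simp

theorem Q_one {A : Set X} : Q 1 A = (1/6) * ∑ δ, hh A δ := by
  unfold Q
  rw [Q_expand (hh A) 1]
  simp only [sum_one]
  simp

theorem sum_two (h : ZMod 6 → ℝ) (c : ZMod 6) :
    ∑ a : ZMod 6, h (a * (2:ℕ) + c) = 2 * (h c + h (c + 2) + h (c + 4)) := by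
  have e : ∑ a : ZMod 6, h (a * (2:ℕ) + c) = h (0 * (2:ℕ) + c) + h (1 * (2:ℕ) + c) +
    h (2 * (2:ℕ) + c) + h (3 * (2:ℕ) + c) + h (4 * (2:ℕ) + c) + h (5 * (2:ℕ) + c) :=
    Fin.sum_univ_six _
  rw [e, show (0:ZMod 6) * (2:ℕ) = 0 by decide, show (1:ZMod 6) * (2:ℕ) = 2 by decide,
    show (2:ZMod 6) * (2:ℕ) = 4 by decide, show (3:ZMod 6) * (2:ℕ) = 0 by decide,
    show (4:ZMod 6) * (2:ℕ) = 2 by decide, show (5:ZMod 6) * (2:ℕ) = 4 by decide,
    zero_add, add_comm 2 c, add_comm 4 c]
  ring

theorem sum_three (h : ZMod 6 → ℝ) (c : ZMod 6) :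
    ∑ a : ZMod 6, h (a * (3:ℕ) + c) = 3 * (h c + h (c + 3)) := by
  have e : ∑ a : ZMod 6, h (a * (3:ℕ) + c) = h (0 * (3:ℕ) + c) + h (1 * (3:ℕ) + c) +
    h (2 * (3:ℕ) + c) + h (3 * (3:ℕ) + c) + h (4 * (3:ℕ) + c) + h (5 * (3:ℕ) + c) :=
    Fin.sum_univ_six _
  rw [e, show (0:ZMod 6) * (3:ℕ) = 0 by decide, show (1:ZMod 6) * (3:ℕ) = 3 by decide,
    show (2:ZMod 6) * (3:ℕ) = 0 by decide, show (3:ZMod 6) * (3:ℕ) = 3 by decide,
    show (4:ZMod 6) * (3:ℕ) = 0 by decide, show (5:ZMod 6) * (3:ℕ) = 3 by decide,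
    zero_add, add_comm 3 c]
  ring

/-- values of S 2 on cons a y -/
theorem S_two {y : Y} (hy : Good y) :
    S 2 (cons 0 y) = 2 * y 0 ∧ S 2 (cons 1 y) = 2 * y 0 ∧ S 2 (cons 2 y) = 2 * y 0 ∧
    S 2 (cons 3 y) = 2 * y 0 ∧ S 2 (cons 4 y) = 2 * y 0 + S 1 y ∧
    S 2 (cons 5 y) = 2 * y 0 + 1 + S 1 y := by
  have h0 : S 0 y = 0 := by simp [S]
  refine ⟨?_, ?_, ?_, ?_, ?_, ?_⟩
  · rw [S_cons 0 hy 2, show ((0:ZMod 6).val + 2) / 6 = 0 from rfl, h0]; simp
  · rw [S_cons 1 hy 2, show ((1:ZMod 6).val + 2) / 6 = 0 from rfl, h0]; simp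
  · rw [S_cons 2 hy 2, show ((2:ZMod 6).val + 2) / 6 = 0 from rfl, h0]; simp
  · rw [S_cons 3 hy 2, show ((3:ZMod 6).val + 2) / 6 = 0 from rfl, h0]; simp
  · rw [S_cons 4 hy 2, show ((4:ZMod 6).val + 2) / 6 = 1 from rfl,
      show ((4:ZMod 6) + (2:ℕ)) * ((1:ℕ) : ZMod 6) = 0 by decide]
    simp
  · rw [S_cons 5 hy 2, show ((5:ZMod 6).val + 2) / 6 = 1 from rfl,
      show ((5:ZMod 6) + (2:ℕ)) * ((1:ℕ) : ZMod 6) = 1 by decide]
    simp

theorem S_three {y : Y} (hy : Good y) :
    S 3 (cons 0 y) = 3 * y 0 ∧ S 3 (cons 1 y) = 3 * y 0 ∧ S 3 (cons 2 y) = 3 * y 0 ∧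
    S 3 (cons 3 y) = 3 * y 0 + S 1 y ∧ S 3 (cons 4 y) = 3 * y 0 + 1 + S 1 y ∧
    S 3 (cons 5 y) = 3 * y 0 + 2 + S 1 y := by
  have h0 : S 0 y = 0 := by simp [S]
  refine ⟨?_, ?_, ?_, ?_, ?_, ?_⟩
  · rw [S_cons 0 hy 3, show ((0:ZMod 6).val + 3) / 6 = 0 from rfl, h0]; simp
  · rw [S_cons 1 hy 3, show ((1:ZMod 6).val + 3) / 6 = 0 from rfl, h0]; simp
  · rw [S_cons 2 hy 3, show ((2:ZMod 6).val + 3) / 6 = 0 from rfl, h0]; simp
  · rw [S_cons 3 hy 3, show ((3:ZMod 6).val + 3) / 6 = 1 from rfl,
      show ((3:ZMod 6) + (3:ℕ)) * ((1:ℕ) : ZMod 6) = 0 by decide]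
    simp
  · rw [S_cons 4 hy 3, show ((4:ZMod 6).val + 3) / 6 = 1 from rfl,
      show ((4:ZMod 6) + (3:ℕ)) * ((1:ℕ) : ZMod 6) = 1 by decide]
    simp
  · rw [S_cons 5 hy 3, show ((5:ZMod 6).val + 3) / 6 = 1 from rfl,
      show ((5:ZMod 6) + (3:ℕ)) * ((1:ℕ) : ZMod 6) = 2 by decide]
    simp

theorem ev2 (h : ZMod 6 → ℝ) (x s : ZMod 6) :
    4 * (2 * (h (2 * x) + h (2 * x + 2) + h (2 * x + 4))) +
    2 * (h (2 * x + s) + h (2 * x + s + 2) + h (2 * x + s + 4)) +
    2 * (h (2 * x + 1 + s) + h (2 * x + 1 + s + 2) + h (2 * x + 1 + s + 4)) =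
    10 * (h 0 + h 2 + h 4) + 2 * (h 1 + h 3 + h 5) := by
  have key : ∀ c : ZMod 6, (h c + h (c + 2) + h (c + 4) = h 0 + h 2 + h 4 ∧
      h (c + 1) + h (c + 1 + 2) + h (c + 1 + 4) = h 1 + h 3 + h 5) ∨
      (h c + h (c + 2) + h (c + 4) = h 1 + h 3 + h 5 ∧
      h (c + 1) + h (c + 1 + 2) + h (c + 1 + 4) = h 0 + h 2 + h 4) := by
    intro c
    have hc : c = 0 ∨ c = 1 ∨ c = 2 ∨ c = 3 ∨ c = 4 ∨ c = 5 := by revert c; decide
    rcases hc with rfl | rfl | rfl | rfl | rfl | rfl
    · left
      exact ⟨by rw [zero_add, zero_add], by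
        rw [show (0:ZMod 6) + 1 = 1 by decide, show (1:ZMod 6) + 2 = 3 by decide,
        show (1:ZMod 6) + 4 = 5 by decide]⟩
    · right
      refine ⟨?_, ?_⟩
      · rw [show (1:ZMod 6) + 2 = 3 by decide, show (1:ZMod 6) + 4 = 5 by decide]
      · rw [show (1:ZMod 6) + 1 = 2 by decide, show (2:ZMod 6) + 2 = 4 by decide,
          show (2:ZMod 6) + 4 = 0 by decide]
        ring
    · left
      refine ⟨?_, ?_⟩
      · rw [show (2:ZMod 6) + 2 = 4 by decide, show (2:ZMod 6) + 4 = 0 by decide]; ring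
      · rw [show (2:ZMod 6) + 1 = 3 by decide, show (3:ZMod 6) + 2 = 5 by decide,
          show (3:ZMod 6) + 4 = 1 by decide]
        ring
    · right
      refine ⟨?_, ?_⟩
      · rw [show (3:ZMod 6) + 2 = 5 by decide, show (3:ZMod 6) + 4 = 1 by decide]; ring
      · rw [show (3:ZMod 6) + 1 = 4 by decide, show (4:ZMod 6) + 2 = 0 by decide,
          show (4:ZMod 6) + 4 = 2 by decide]
        ring
    · left
      refine ⟨?_, ?_⟩
      · rw [show (4:ZMod 6) + 2 = 0 by decide, show (4:ZMod 6) + 4 = 2 by decide]; ring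
      · rw [show (4:ZMod 6) + 1 = 5 by decide, show (5:ZMod 6) + 2 = 1 by decide,
          show (5:ZMod 6) + 4 = 3 by decide]
        ring
    · right
      refine ⟨?_, ?_⟩
      · rw [show (5:ZMod 6) + 2 = 1 by decide, show (5:ZMod 6) + 4 = 3 by decide]; ring
      · rw [show (5:ZMod 6) + 1 = 0 by decide, show (0:ZMod 6) + 2 = 2 by decide,
          show (0:ZMod 6) + 4 = 4 by decide]
  have hx : h (2 * x) + h (2 * x + 2) + h (2 * x + 4) = h 0 + h 2 + h 4 := by
    have h2x : (2 * x = 0 ∨ 2 * x = 2) ∨ 2 * x = 4 := by revert x; decide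
    rcases h2x with (e | e) | e
    · rw [e, zero_add, zero_add]
    · rw [e, show (2:ZMod 6) + 2 = 4 by decide, show (2:ZMod 6) + 4 = 0 by decide]; ring
    · rw [e, show (4:ZMod 6) + 2 = 0 by decide, show (4:ZMod 6) + 4 = 2 by decide]; ring
  have hs := key (2 * x + s)
  have e1 : 2 * x + s + 1 = 2 * x + 1 + s := by ring
  rw [e1] at hs
  rw [hx]
  rcases hs with ⟨h1, h2⟩ | ⟨h1, h2⟩ <;> rw [h1, h2] <;> ring

theorem ev3 (h : ZMod 6 → ℝ) (x s : ZMod 6) :
    3 * (3 * (h (3 * x) + h (3 * x + 3))) +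
    3 * (h (3 * x + s) + h (3 * x + s + 3)) +
    3 * (h (3 * x + 1 + s) + h (3 * x + 1 + s + 3)) +
    3 * (h (3 * x + 2 + s) + h (3 * x + 2 + s + 3)) =
    12 * (h 0 + h 3) + 3 * (h 1 + h 4) + 3 * (h 2 + h 5) := by
  have key : ∀ c : ZMod 6, h c + h (c + 3) + (h (c + 1) + h (c + 1 + 3)) +
      (h (c + 2) + h (c + 2 + 3)) = h 0 + h 1 + h 2 + h 3 + h 4 + h 5 := by
    intro c
    have e : ∑ a : ZMod 6, h (a + c) = h (0 + c) + h (1 + c) + h (2 + c) + h (3 + c) + h (4 + c) +
      h (5 + c) := Fin.sum_univ_six _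
    have e2 : ∑ a : ZMod 6, h (a + c) = ∑ a, h a :=
      Fintype.sum_equiv (Equiv.addRight c) _ _ (fun a => rfl)
    rw [← sum_expand, ← e2, e, zero_add, add_assoc c 1 3, add_assoc c 2 3,
      show (1:ZMod 6) + 3 = 4 by decide, show (2:ZMod 6) + 3 = 5 by decide,
      add_comm 1 c, add_comm 2 c, add_comm 3 c, add_comm 4 c, add_comm 5 c]
    ring
  have hx : h (3 * x) + h (3 * x + 3) = h 0 + h 3 := by
    have h2x : 3 * x = 0 ∨ 3 * x = 3 := by revert x; decide
    rcases h2x with e | e
    · rw [e, zero_add]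
    · rw [e, show (3:ZMod 6) + 3 = 0 by decide]; ring
  have hs := key (3 * x + s)
  have e1 : 3 * x + s + 1 = 3 * x + 1 + s := by ring
  have e2 : 3 * x + s + 2 = 3 * x + 2 + s := by ring
  rw [e1, e2] at hs
  rw [hx]
  linarith

theorem Q_two {A : Set X} :
    Q 2 A = (1/18) * (5 * (hh A 0 + hh A 2 + hh A 4) + (hh A 1 + hh A 3 + hh A 5)) := by
  unfold Q
  rw [Q_expand (hh A) 2]
  simp only [sum_two]
  set h := hh A with hh'
  have hint : Integrable (fun y => 2 * (h (S 2 y) + h (S 2 y + 2) + h (S 2 y + 4))) mu :=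
    integrable_of_fin (fun c => 2 * (h c + h (c + 2) + h (c + 4))) (measurable_S 2)
  rw [integral_mu_cons hint, smul_eq_mul, ← integral_finsetSum]
  · have : ∫ y, ∑ a : ZMod 6, 2 * (h (S 2 (cons a y)) + h (S 2 (cons a y) + 2) + h (S 2 (cons a y) + 4)) ∂mu
        = ∫ y, (10 * (h 0 + h 2 + h 4) + 2 * (h 1 + h 3 + h 5)) ∂mu := by
      apply integral_congr_ae
      filter_upwards [ae_good] with y hy
      obtain ⟨e0, e1, e2, e3, e4, e5⟩ := S_two hy
      rw [sum_expand (fun a => 2 * (h (S 2 (cons a y)) + h (S 2 (cons a y) + 2) + h (S 2 (cons a y) + 4)))]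
      simp only [e0, e1, e2, e3, e4, e5]
      rw [← ev2 h (y 0) (S 1 y)]
      ring
    rw [this]
    simp
    ring
  · intro a _
    exact integrable_of_fin (fun c => 2 * (h c + h (c + 2) + h (c + 4)))
      ((measurable_S 2).comp (measurable_cons a))

theorem Q_three {A : Set X} :
    Q 3 A = (1/12) * (4 * (hh A 0 + hh A 3) + (hh A 1 + hh A 4) + (hh A 2 + hh A 5)) := by
  unfold Q
  rw [Q_expand (hh A) 3]
  simp only [sum_three]
  set h := hh A with hh'
  have hint : Integrable (fun y => 3 * (h (S 3 y) + h (S 3 y + 3))) mu :=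
    integrable_of_fin (fun c => 3 * (h c + h (c + 3))) (measurable_S 3)
  rw [integral_mu_cons hint, smul_eq_mul, ← integral_finsetSum]
  · have : ∫ y, ∑ a : ZMod 6, 3 * (h (S 3 (cons a y)) + h (S 3 (cons a y) + 3)) ∂mu
        = ∫ y, (12 * (h 0 + h 3) + 3 * (h 1 + h 4) + 3 * (h 2 + h 5)) ∂mu := by
      apply integral_congr_ae
      filter_upwards [ae_good] with y hy
      obtain ⟨e0, e1, e2, e3, e4, e5⟩ := S_three hy
      rw [sum_expand (fun a => 3 * (h (S 3 (cons a y)) + h (S 3 (cons a y) + 3)))]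
      simp only [e0, e1, e2, e3, e4, e5]
      rw [← ev3 h (y 0) (S 1 y)]
      ring
    rw [this]
    simp
    ring
  · intro a _
    exact integrable_of_fin (fun c => 3 * (h c + h (c + 3)))
      ((measurable_S 3).comp (measurable_cons a))

/-! ### counting on fibres -/

/-- the indicators on a fibre -/
theorem hh_sum {A : Set X} (hA : MeasurableSet A) (δ : ZMod 6) :
    hh A δ = ∫ y, (1/6) * (ind A (y, 0) * ind A (y, δ) + ind A (y, 1) * ind A (y, 1 + δ) +
      ind A (y, 2) * ind A (y, 2 + δ) + ind A (y, 3) * ind A (y, 3 + δ) +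
      ind A (y, 4) * ind A (y, 4 + δ) + ind A (y, 5) * ind A (y, 5 + δ)) ∂mu := by
  rw [hh_eq hA]
  apply integral_congr_ae
  filter_upwards with y
  rw [sum_expand (fun g => ind A (y, g) * ind A (y, g + δ)), zero_add]

theorem integrable_prod {A : Set X} (hA : MeasurableSet A) (g g' : ZMod 6) :
    Integrable (fun y => ind A (y, g) * ind A (y, g')) mu := by
  apply Integrable.of_bound (C := 1)
  · exact (((measurable_ind hA).comp (measurable_id.prodMk measurable_const)).mul
      ((measurable_ind hA).comp (measurable_id.prodMk measurable_const))).aestronglyMeasurable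
  · filter_upwards with y
    rw [Real.norm_eq_abs, abs_of_nonneg (mul_nonneg (ind_nonneg _ _) (ind_nonneg _ _))]
    exact mul_le_one₀ (ind_le_one _ _) (ind_nonneg _ _) (ind_le_one _ _)

theorem integrable_ind_fib {A : Set X} (hA : MeasurableSet A) (g : ZMod 6) :
    Integrable (fun y => ind A (y, g)) mu := by
  apply Integrable.of_bound (C := 1)
  · exact ((measurable_ind hA).comp (measurable_id.prodMk measurable_const)).aestronglyMeasurable
  · filter_upwards with y
    rw [Real.norm_eq_abs, abs_of_nonneg (ind_nonneg _ _)]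
    exact ind_le_one _ _

/-- number of points of A in the fibre over y, divided by 6 -/
noncomputable def av (A : Set X) (y : Y) : ℝ := (1/6) * (ind A (y, 0) + ind A (y, 1) + ind A (y, 2) +
  ind A (y, 3) + ind A (y, 4) + ind A (y, 5))

theorem integrable_av {A : Set X} (hA : MeasurableSet A) : Integrable (av A) mu := by
  unfold av
  apply Integrable.const_mul
  exact (((((integrable_ind_fib hA 0).add (integrable_ind_fib hA 1)).add
    (integrable_ind_fib hA 2)).add (integrable_ind_fib hA 3)).add (integrable_ind_fib hA 4)).add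
    (integrable_ind_fib hA 5)

theorem integral_av {A : Set X} (hA : MeasurableSet A) : ∫ y, av A y ∂mu = lam.real A := by
  rw [lamr_eq hA]
  apply integral_congr_ae
  filter_upwards with y
  rw [sum_expand (fun g => ind A (y, g))]
  rfl


/-! ### quadratic forms on fibres -/

noncomputable def P (A : Set X) (g g' : ZMod 6) : ℝ := ∫ y, ind A (y, g) * ind A (y, g') ∂mu

theorem P_symm (A : Set X) (g g' : ZMod 6) : P A g g' = P A g' g := by
  unfold P
  congr 1
  ext y
  ring

theorem hh_P {A : Set X} (hA : MeasurableSet A) (δ : ZMod 6) :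
    hh A δ = (1/6) * ∑ g, P A g (g + δ) := by
  rw [hh_eq hA, integral_const_mul, integral_finsetSum _ (fun g _ => integrable_prod hA _ _)]
  rfl

theorem sq_int {A : Set X} (hA : MeasurableSet A) (c : ZMod 6 → ℝ) :
    ∫ y, (∑ g, c g * ind A (y, g)) ^ 2 ∂mu = ∑ g, ∑ g', c g * c g' * P A g g' := by
  have h1 : ∀ y : Y, (∑ g, c g * ind A (y, g)) ^ 2 =
      ∑ g, ∑ g', c g * c g' * (ind A (y, g) * ind A (y, g')) := by
    intro y
    rw [sq, Finset.sum_mul_sum]
    apply Finset.sum_congr rfl; intro g _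
    apply Finset.sum_congr rfl; intro g' _
    ring
  simp only [h1]
  rw [integral_finsetSum]
  · apply Finset.sum_congr rfl
    intro g _
    rw [integral_finsetSum]
    · apply Finset.sum_congr rfl
      intro g' _
      rw [integral_const_mul]
      rfl
    · intro g' _
      exact (integrable_prod hA g g').const_mul _
  · intro g _
    apply integrable_finsetSum
    intro g' _
    exact (integrable_prod hA g g').const_mul _

theorem integrable_sq {A : Set X} (hA : MeasurableSet A) (c : ZMod 6 → ℝ) :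
    Integrable (fun y => (∑ g, c g * ind A (y, g)) ^ 2) mu := by
  have hm : AEStronglyMeasurable (fun y => (∑ g, c g * ind A (y, g)) ^ 2) mu := by
    apply Measurable.aestronglyMeasurable
    apply Measurable.pow_const
    apply Finset.measurable_sum
    intro g _
    exact ((measurable_ind hA).comp (measurable_id.prodMk measurable_const)).const_mul _
  apply Integrable.of_bound (C := (∑ g, |c g|) ^ 2) hm
  filter_upwards with y
  rw [norm_pow, Real.norm_eq_abs]
  apply pow_le_pow_left₀ (abs_nonneg _)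
  refine (Finset.abs_sum_le_sum_abs _ _).trans (Finset.sum_le_sum fun g _ => ?_)
  rw [abs_mul, abs_of_nonneg (ind_nonneg _ _)]
  exact mul_le_of_le_one_right (abs_nonneg _) (ind_le_one _ _)

theorem av_eq (A : Set X) (y : Y) : av A y = ∑ g : ZMod 6, (1/6:ℝ) * ind A (y, g) := by
  rw [sum_expand (fun g => (1/6:ℝ) * ind A (y, g))]
  unfold av
  ring

theorem integral_av_sq {A : Set X} (hA : MeasurableSet A) :
    ∫ y, av A y ^ 2 ∂mu = (1/36) * ∑ g, ∑ g', P A g g' := by
  simp only [av_eq]
  rw [sq_int hA (fun _ => 1/6), Finset.mul_sum]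
  apply Finset.sum_congr rfl; intro g _
  rw [Finset.mul_sum]
  apply Finset.sum_congr rfl; intro g' _
  ring

theorem Q_one_eq {A : Set X} (hA : MeasurableSet A) : Q 1 A = ∫ y, av A y ^ 2 ∂mu := by
  rw [Q_one, integral_av_sq hA]
  have : ∑ δ, hh A δ = (1/6) * ∑ g, ∑ g', P A g g' := by
    simp only [hh_P hA]
    rw [← Finset.mul_sum, Finset.sum_comm]
    congr 1
    apply Finset.sum_congr rfl; intro g _
    exact Fintype.sum_equiv (Equiv.addLeft g) _ _ (fun g' => rfl)
  rw [this]; ring

/-- difference between even and odd points -/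
def c2 : ZMod 6 → ℝ := fun g => if g = 0 ∨ g = 2 ∨ g = 4 then 1 else -1
/-- difference between classes mod 3 -/
def c30 : ZMod 6 → ℝ := fun g => if g = 0 ∨ g = 3 then 1 else if g = 1 ∨ g = 4 then -1 else 0
def c31 : ZMod 6 → ℝ := fun g => if g = 1 ∨ g = 4 then 1 else if g = 2 ∨ g = 5 then -1 else 0
def c32 : ZMod 6 → ℝ := fun g => if g = 2 ∨ g = 5 then 1 else if g = 0 ∨ g = 3 then -1 else 0

theorem c2_vals : c2 0 = 1 ∧ c2 1 = -1 ∧ c2 2 = 1 ∧ c2 3 = -1 ∧ c2 4 = 1 ∧ c2 5 = -1 := by
  unfold c2
  refine ⟨if_pos (by decide), if_neg (by decide), if_pos (by decide), if_neg (by decide),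
    if_pos (by decide), if_neg (by decide)⟩

theorem c30_vals : c30 0 = 1 ∧ c30 1 = -1 ∧ c30 2 = 0 ∧ c30 3 = 1 ∧ c30 4 = -1 ∧ c30 5 = 0 := by
  unfold c30
  refine ⟨if_pos (by decide), ?_, ?_, if_pos (by decide), ?_, ?_⟩
  · rw [if_neg (by decide), if_pos (by decide)]
  · rw [if_neg (by decide), if_neg (by decide)]
  · rw [if_neg (by decide), if_pos (by decide)]
  · rw [if_neg (by decide), if_neg (by decide)]

theorem c31_vals : c31 0 = 0 ∧ c31 1 = 1 ∧ c31 2 = -1 ∧ c31 3 = 0 ∧ c31 4 = 1 ∧ c31 5 = -1 := by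
  unfold c31
  refine ⟨?_, if_pos (by decide), ?_, ?_, if_pos (by decide), ?_⟩
  · rw [if_neg (by decide), if_neg (by decide)]
  · rw [if_neg (by decide), if_pos (by decide)]
  · rw [if_neg (by decide), if_neg (by decide)]
  · rw [if_neg (by decide), if_pos (by decide)]

theorem c32_vals : c32 0 = -1 ∧ c32 1 = 0 ∧ c32 2 = 1 ∧ c32 3 = -1 ∧ c32 4 = 0 ∧ c32 5 = 1 := by
  unfold c32
  refine ⟨?_, ?_, if_pos (by decide), ?_, ?_, if_pos (by decide)⟩
  · rw [if_neg (by decide), if_pos (by decide)]
  · rw [if_neg (by decide), if_neg (by decide)]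
  · rw [if_neg (by decide), if_pos (by decide)]
  · rw [if_neg (by decide), if_neg (by decide)]

theorem add_facts : (1:ZMod 6) + 1 = 2 ∧ (2:ZMod 6) + 1 = 3 ∧ (3:ZMod 6) + 1 = 4 ∧ (4:ZMod 6) + 1 = 5 ∧
    (5:ZMod 6) + 1 = 0 ∧ (1:ZMod 6) + 2 = 3 ∧ (2:ZMod 6) + 2 = 4 ∧ (3:ZMod 6) + 2 = 5 ∧
    (4:ZMod 6) + 2 = 0 ∧ (5:ZMod 6) + 2 = 1 ∧ (1:ZMod 6) + 3 = 4 ∧ (2:ZMod 6) + 3 = 5 ∧
    (3:ZMod 6) + 3 = 0 ∧ (4:ZMod 6) + 3 = 1 ∧ (5:ZMod 6) + 3 = 2 ∧ (1:ZMod 6) + 4 = 5 ∧
    (2:ZMod 6) + 4 = 0 ∧ (3:ZMod 6) + 4 = 1 ∧ (4:ZMod 6) + 4 = 2 ∧ (5:ZMod 6) + 4 = 3 ∧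
    (1:ZMod 6) + 5 = 0 ∧ (2:ZMod 6) + 5 = 1 ∧ (3:ZMod 6) + 5 = 2 ∧ (4:ZMod 6) + 5 = 3 ∧
    (5:ZMod 6) + 5 = 4 := by decide

theorem Q_two_eq {A : Set X} (hA : MeasurableSet A) :
    Q 2 A = ∫ y, av A y ^ 2 ∂mu + (1/54) * ∫ y, (∑ g, c2 g * ind A (y, g)) ^ 2 ∂mu := by
  rw [Q_two, integral_av_sq hA, sq_int hA]
  simp only [hh_P hA]
  obtain ⟨a11, a21, a31, a41, a51, a12, a22, a32, a42, a52, a13, a23, a33, a43, a53, a14, a24, a34,
    a44, a54, a15, a25, a35, a45, a55⟩ := add_facts
  obtain ⟨v0, v1, v2, v3, v4, v5⟩ := c2_vals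
  have hs : ∀ f : ZMod 6 → ℝ, ∑ a, f a = f 0 + f 1 + f 2 + f 3 + f 4 + f 5 := sum_expand
  simp only [hs, v0, v1, v2, v3, v4, v5, zero_add, add_zero, a11, a21, a31, a41, a51, a12, a22, a32,
    a42, a52, a13, a23, a33, a43, a53, a14, a24, a34, a44, a54, a15, a25, a35, a45, a55]
  rw [P_symm A 1 0, P_symm A 2 0, P_symm A 3 0, P_symm A 4 0, P_symm A 5 0, P_symm A 2 1,
    P_symm A 3 1, P_symm A 4 1, P_symm A 5 1, P_symm A 3 2, P_symm A 4 2, P_symm A 5 2,
    P_symm A 4 3, P_symm A 5 3, P_symm A 5 4]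
  ring

theorem Q_three_eq {A : Set X} (hA : MeasurableSet A) :
    Q 3 A = ∫ y, av A y ^ 2 ∂mu + (1/72) * (∫ y, (∑ g, c30 g * ind A (y, g)) ^ 2 ∂mu +
      ∫ y, (∑ g, c31 g * ind A (y, g)) ^ 2 ∂mu + ∫ y, (∑ g, c32 g * ind A (y, g)) ^ 2 ∂mu) := by
  rw [Q_three, integral_av_sq hA, sq_int hA, sq_int hA, sq_int hA]
  simp only [hh_P hA]
  obtain ⟨a11, a21, a31, a41, a51, a12, a22, a32, a42, a52, a13, a23, a33, a43, a53, a14, a24, a34,
    a44, a54, a15, a25, a35, a45, a55⟩ := add_facts
  obtain ⟨v0, v1, v2, v3, v4, v5⟩ := c30_vals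
  obtain ⟨w0, w1, w2, w3, w4, w5⟩ := c31_vals
  obtain ⟨x0, x1, x2, x3, x4, x5⟩ := c32_vals
  have hs : ∀ f : ZMod 6 → ℝ, ∑ a, f a = f 0 + f 1 + f 2 + f 3 + f 4 + f 5 := sum_expand
  simp only [hs, v0, v1, v2, v3, v4, v5, w0, w1, w2, w3, w4, w5, x0, x1, x2, x3, x4, x5, zero_add,
    add_zero, a11, a21, a31, a41, a51, a12, a22, a32,
    a42, a52, a13, a23, a33, a43, a53, a14, a24, a34, a44, a54, a15, a25, a35, a45, a55]
  rw [P_symm A 1 0, P_symm A 2 0, P_symm A 3 0, P_symm A 4 0, P_symm A 5 0, P_symm A 2 1,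
    P_symm A 3 1, P_symm A 4 1, P_symm A 5 1, P_symm A 3 2, P_symm A 4 2, P_symm A 5 2,
    P_symm A 4 3, P_symm A 5 3, P_symm A 5 4]
  ring

theorem integral_sq_nonneg (A : Set X) (c : ZMod 6 → ℝ) :
    0 ≤ ∫ y, (∑ g, c g * ind A (y, g)) ^ 2 ∂mu := integral_nonneg (fun _ => sq_nonneg _)

theorem integrable_av_sq {A : Set X} (hA : MeasurableSet A) :
    Integrable (fun y => av A y ^ 2) mu := by
  have := integrable_sq hA (fun _ => 1/6)
  simp only [← av_eq] at this
  exact this

theorem var_av {A : Set X} (hA : MeasurableSet A) :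
    ∫ y, (av A y - lam.real A) ^ 2 ∂mu = ∫ y, av A y ^ 2 ∂mu - lam.real A ^ 2 := by
  have h1 : ∀ y, (av A y - lam.real A) ^ 2 = av A y ^ 2 - 2 * lam.real A * av A y + lam.real A ^ 2 := by
    intro y; ring
  simp only [h1]
  rw [integral_add, integral_sub, integral_const_mul, integral_av hA]
  · simp; ring
  · exact integrable_av_sq hA
  · exact (integrable_av hA).const_mul _
  · exact (integrable_av_sq hA).sub ((integrable_av hA).const_mul _)
  · exact integrable_const _

/-- A set whose self correlations never exceed the square of the measure is trivial. -/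
theorem no_set {A : Set X} (hA : MeasurableSet A)
    (h : ∀ n : ℕ, 1 ≤ n → lam.real (A ∩ T^[n] ⁻¹' A) ≤ lam.real A ^ 2) :
    lam.real A = 0 ∨ lam.real A = 1 := by
  have hQ : ∀ b : ℕ, 1 ≤ b → Q b A ≤ lam.real A ^ 2 := by
    intro b hb
    apply le_of_tendsto' (corr_tendsto hA b)
    intro k
    apply h
    exact Nat.mul_pos hb (pow_pos (by norm_num) k)
  have h2 := hQ 2 (by norm_num)
  have h3 := hQ 3 (by norm_num)
  rw [Q_two_eq hA] at h2
  rw [Q_three_eq hA] at h3
  have hv := var_av hA
  have hv0 : 0 ≤ ∫ y, (av A y - lam.real A) ^ 2 ∂mu := integral_nonneg (fun _ => sq_nonneg _)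
  have n2 := integral_sq_nonneg A c2
  have n30 := integral_sq_nonneg A c30
  have n31 := integral_sq_nonneg A c31
  have n32 := integral_sq_nonneg A c32
  have z1 : ∫ y, (av A y - lam.real A) ^ 2 ∂mu = 0 := by linarith
  have z2 : ∫ y, (∑ g, c2 g * ind A (y, g)) ^ 2 ∂mu = 0 := by linarith
  have z30 : ∫ y, (∑ g, c30 g * ind A (y, g)) ^ 2 ∂mu = 0 := by linarith
  have z31 : ∫ y, (∑ g, c31 g * ind A (y, g)) ^ 2 ∂mu = 0 := by linarith
  have i1 : Integrable (fun y => (av A y - lam.real A) ^ 2) mu := by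
    have h1 : ∀ y, (av A y - lam.real A) ^ 2 = av A y ^ 2 - 2 * lam.real A * av A y + lam.real A ^ 2 := by
      intro y; ring
    simp only [h1]
    exact ((integrable_av_sq hA).sub ((integrable_av hA).const_mul _)).add (integrable_const _)
  rw [integral_eq_zero_iff_of_nonneg (fun _ => sq_nonneg _) i1] at z1
  rw [integral_eq_zero_iff_of_nonneg (fun _ => sq_nonneg _) (integrable_sq hA _)] at z2 z30 z31
  obtain ⟨y, hy1, hy2, hy30, hy31⟩ := (z1.and (z2.and (z30.and z31))).exists
  simp only [Pi.zero_apply, ne_eq, OfNat.ofNat_ne_zero, not_false_eq_true, pow_eq_zero_iff] at hy1 hy2 hy30 hy31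
  rw [sum_expand (fun g => c2 g * ind A (y, g))] at hy2
  rw [sum_expand (fun g => c30 g * ind A (y, g))] at hy30
  rw [sum_expand (fun g => c31 g * ind A (y, g))] at hy31
  obtain ⟨v0, v1, v2, v3, v4, v5⟩ := c2_vals
  obtain ⟨w0, w1, w2, w3, w4, w5⟩ := c30_vals
  obtain ⟨x0, x1, x2, x3, x4, x5⟩ := c31_vals
  rw [v0, v1, v2, v3, v4, v5] at hy2
  rw [w0, w1, w2, w3, w4, w5] at hy30
  rw [x0, x1, x2, x3, x4, x5] at hy31
  unfold av at hy1
  rcases ind_eq_zero_or_one A (y, 0) with e0 | e0 <;> rcases ind_eq_zero_or_one A (y, 1) with e1 | e1 <;>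
  rcases ind_eq_zero_or_one A (y, 2) with e2 | e2 <;> rcases ind_eq_zero_or_one A (y, 3) with e3 | e3 <;>
  rcases ind_eq_zero_or_one A (y, 4) with e4 | e4 <;> rcases ind_eq_zero_or_one A (y, 5) with e5 | e5 <;>
  rw [e0, e1, e2, e3, e4, e5] at hy1 hy2 hy30 hy31 <;>
  first
  | (exfalso; linarith)
  | (left; linarith)
  | (right; linarith)


/-! ### ergodicity -/

theorem measurable_av {A : Set X} (hA : MeasurableSet A) : Measurable (av A) := by
  have hi : ∀ g : ZMod 6, Measurable (fun y : Y => ind A (y, g)) := fun g =>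
    (measurable_ind hA).comp (measurable_id.prodMk measurable_const)
  unfold av
  exact ((((((hi 0).add (hi 1)).add (hi 2)).add (hi 3)).add (hi 4)).add (hi 5)).const_mul _

/-- independence of odometer-invariant sets from cylinder sets -/
theorem indep_cyl (M : ℕ) : ∀ {B : Set Y} {C : Set X}, MeasurableSet B → MeasurableSet C →
    odo ⁻¹' B = B → Cyl M C →
    lam.real ((Prod.fst ⁻¹' B) ∩ C) = lam.real (Prod.fst ⁻¹' B) * lam.real C := by
  induction M with
  | zero =>
    intro B C hB hC _ hc
    have hC' : C = univ ×ˢ {g | ((0 : Y), g) ∈ C} := by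
      ext ⟨y, g⟩
      simp only [Set.mem_prod, Set.mem_univ, true_and]
      exact hc y 0 g (fun i hi => absurd hi (Nat.not_lt_zero i))
    set D : Set (ZMod 6) := {g | ((0 : Y), g) ∈ C} with hD
    have h1 : (Prod.fst ⁻¹' B : Set X) ∩ C = B ×ˢ D := by
      rw [hC']
      ext ⟨y, g⟩
      simp
    have h2 : (Prod.fst ⁻¹' B : Set X) = B ×ˢ univ := by
      ext ⟨y, g⟩; simp
    rw [h1, h2, hC']
    unfold lam
    rw [measureReal_prod_prod, measureReal_prod_prod, measureReal_prod_prod]
    simp
  | succ M ih =>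
    intro B C hB hC hinv hc
    have hBm : MeasurableSet (Prod.fst ⁻¹' B : Set X) := measurable_fst hB
    -- slices of B
    have hsl : ∀ a : ZMod 6, cons a ⁻¹' B = cons 0 ⁻¹' B := by
      have hstep : ∀ a : ZMod 6, a ≠ 5 → cons (a + 1) ⁻¹' B = cons a ⁻¹' B := by
        intro a ha
        ext y
        have h1 : odo (cons a y) ∈ B ↔ cons a y ∈ B := by
          change cons a y ∈ odo ⁻¹' B ↔ _
          rw [hinv]
        rw [odo_cons_ne ha] at h1
        exact h1
      intro a
      have h1 := hstep 0 (by decide)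
      have h2 := hstep 1 (by decide)
      have h3 := hstep 2 (by decide)
      have h4 := hstep 3 (by decide)
      have h5 := hstep 4 (by decide)
      rw [show (0:ZMod 6) + 1 = 1 by decide] at h1
      rw [show (1:ZMod 6) + 1 = 2 by decide] at h2
      rw [show (2:ZMod 6) + 1 = 3 by decide] at h3
      rw [show (3:ZMod 6) + 1 = 4 by decide] at h4
      rw [show (4:ZMod 6) + 1 = 5 by decide] at h5
      have ha : a = 0 ∨ a = 1 ∨ a = 2 ∨ a = 3 ∨ a = 4 ∨ a = 5 := by revert a; decide
      rcases ha with rfl | rfl | rfl | rfl | rfl | rfl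
      · rfl
      · exact h1
      · rw [h2, h1]
      · rw [h3, h2, h1]
      · rw [h4, h3, h2, h1]
      · rw [h5, h4, h3, h2, h1]
    have hinv' : odo ⁻¹' (cons 0 ⁻¹' B) = cons 0 ⁻¹' B := by
      rw [← hsl 5]
      ext y
      have h1 : odo (cons 5 y) ∈ B ↔ cons 5 y ∈ B := by
        change cons 5 y ∈ odo ⁻¹' B ↔ _
        rw [hinv]
      rw [odo_cons_five] at h1
      have h2 : cons 0 (odo y) ∈ B ↔ cons 5 (odo y) ∈ B := by
        change odo y ∈ cons 0 ⁻¹' B ↔ odo y ∈ cons 5 ⁻¹' B
        rw [hsl 5]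
      change cons 5 (odo y) ∈ B ↔ cons 5 y ∈ B
      rw [← h2, h1]
    have hpre : ∀ a : ZMod 6, consX a ⁻¹' (Prod.fst ⁻¹' B : Set X) = Prod.fst ⁻¹' (cons 0 ⁻¹' B) := by
      intro a
      rw [← hsl a]
      rfl
    rw [lamr_cons (hBm.inter hC), lamr_cons hBm, lamr_cons hC]
    have h1 : ∀ a : ZMod 6, lam.real (consX a ⁻¹' ((Prod.fst ⁻¹' B : Set X) ∩ C)) =
        lam.real (Prod.fst ⁻¹' (cons 0 ⁻¹' B) : Set X) * lam.real (consX a ⁻¹' C) := by
      intro a
      rw [Set.preimage_inter, hpre a]
      exact ih (measurable_cons 0 hB) (measurable_consX a hC) hinv' (hc.consX a)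
    rw [Finset.sum_congr rfl (fun a _ => h1 a), ← Finset.mul_sum]
    simp only [hpre]
    simp
    ring

theorem odo_inv_trivial {B : Set Y} (hB : MeasurableSet B) (hinv : odo ⁻¹' B = B) :
    lam.real (Prod.fst ⁻¹' B) = 0 ∨ lam.real (Prod.fst ⁻¹' B) = 1 := by
  set A' : Set X := Prod.fst ⁻¹' B with hA'
  have hAm : MeasurableSet A' := measurable_fst hB
  have hle : ∀ ε > 0, |lam.real A' - lam.real A' ^ 2| ≤ 2 * ε := by
    intro ε hε
    obtain ⟨M, C, hC, hCm, hd⟩ := approx_cyl hAm hε
    have h1 := indep_cyl M hB hCm hinv hC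
    rw [← hA'] at h1
    have h2 : |lam.real (A' ∩ C) - lam.real A'| ≤ ε := by
      refine (symm_bound _ _).trans ((measureReal_mono (μ := lam) (?_ : _ ⊆ symmDiff C A')).trans hd.le)
      intro x hx
      rcases hx with ⟨⟨h1, h2⟩, h3⟩ | ⟨h1, h2⟩
      · exact absurd h1 h3
      · right; exact ⟨h1, fun h => h2 ⟨h1, h⟩⟩
    have h3 : |lam.real C - lam.real A'| ≤ ε := (symm_bound _ _).trans hd.le
    have h4 : 0 ≤ lam.real A' := measureReal_nonneg
    have h5 : lam.real A' ≤ 1 := measureReal_le_one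
    have h6 : |lam.real A' * lam.real C - lam.real A' ^ 2| ≤ ε := by
      have : lam.real A' * lam.real C - lam.real A' ^ 2 = lam.real A' * (lam.real C - lam.real A') := by ring
      rw [this, abs_mul, abs_of_nonneg h4]
      calc lam.real A' * |lam.real C - lam.real A'| ≤ 1 * ε := by
            apply mul_le_mul h5 h3 (abs_nonneg _) zero_le_one
        _ = ε := one_mul _
    rw [h1] at h2
    have h7 := abs_le.mp h2
    have h8 := abs_le.mp h6
    rw [abs_le]; constructor <;> linarith [h7.1, h7.2, h8.1, h8.2]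
  have h0 : |lam.real A' - lam.real A' ^ 2| ≤ 0 := by
    by_contra hcon
    push Not at hcon
    have := hle (|lam.real A' - lam.real A' ^ 2| / 4) (by linarith)
    linarith
  have h1 := abs_nonpos_iff.mp h0
  have h2 : lam.real A' * (1 - lam.real A') = 0 := by linarith
  rcases mul_eq_zero.mp h2 with h | h
  · left; exact h
  · right; linarith

theorem av_odo {A : Set X} (hinv : T ⁻¹' A = A) (y : Y) : av A (odo y) = av A y := by
  have h1 : ∀ g, ind A (y, g) = ind A (odo y, g + phi y) := by
    intro g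
    have : ind A (y, g) = ind (T ⁻¹' A) (y, g) := by rw [hinv]
    rw [this, ind_preimage]
    rfl
  rw [av_eq, av_eq]
  simp only [h1]
  exact (Fintype.sum_equiv (Equiv.addRight (phi y)) _ _ (fun g => rfl)).symm

theorem T_inv_trivial {A : Set X} (hA : MeasurableSet A) (hinv : T ⁻¹' A = A) :
    lam.real A = 0 ∨ lam.real A = 1 := by
  have hiter : ∀ n, T^[n] ⁻¹' A = A := by
    intro n
    induction n with
    | zero => rfl
    | succ n ih => rw [Function.iterate_succ', Set.preimage_comp, hinv, ih]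
  have h1 := corr_tendsto hA 1
  simp only [hiter, Set.inter_self] at h1
  have h2 : Q 1 A = lam.real A := tendsto_nhds_unique h1 tendsto_const_nhds |>.symm ▸ rfl
  rw [Q_one_eq hA] at h2
  -- the average takes values 0 and 1
  have h01 : ∀ y, 0 ≤ av A y ∧ av A y ≤ 1 := by
    intro y
    unfold av
    have e0 := ind_nonneg A (y, 0); have e1 := ind_nonneg A (y, 1); have e2 := ind_nonneg A (y, 2)
    have e3 := ind_nonneg A (y, 3); have e4 := ind_nonneg A (y, 4); have e5 := ind_nonneg A (y, 5)
    have f0 := ind_le_one A (y, 0); have f1 := ind_le_one A (y, 1); have f2 := ind_le_one A (y, 2)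
    have f3 := ind_le_one A (y, 3); have f4 := ind_le_one A (y, 4); have f5 := ind_le_one A (y, 5)
    constructor <;> linarith
  have h3 : ∫ y, (av A y - av A y ^ 2) ∂mu = 0 := by
    rw [integral_sub (integrable_av hA) (integrable_av_sq hA), integral_av hA, h2, sub_self]
  have hint : Integrable (fun y => av A y - av A y ^ 2) mu :=
    (integrable_av hA).sub (integrable_av_sq hA)
  rw [integral_eq_zero_iff_of_nonneg (fun y => by
    have := h01 y
    change 0 ≤ av A y - av A y ^ 2
    nlinarith [this.1, this.2]) hint] at h3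
  set B : Set Y := {y | av A y = 1} with hB
  have hBm : MeasurableSet B := measurable_av hA (measurableSet_singleton 1)
  have hBinv : odo ⁻¹' B = B := by
    ext y
    change av A (odo y) = 1 ↔ av A y = 1
    rw [av_odo hinv]
  have h4 : lam.real A = lam.real (Prod.fst ⁻¹' B) := by
    rw [← integral_av hA, lamr_eq (measurable_fst hBm)]
    apply integral_congr_ae
    filter_upwards [h3] with y hy
    have hy' : av A y - av A y ^ 2 = 0 := hy
    have hy2 : av A y * (1 - av A y) = 0 := by linarith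
    rcases mul_eq_zero.mp hy2 with h | h
    · have : ∀ g : ZMod 6, ind (Prod.fst ⁻¹' B : Set X) (y, g) = 0 := by
        intro g
        classical
        unfold ind
        rw [if_neg]
        change ¬ av A y = 1
        rw [h]; norm_num
      simp only [this]
      rw [h]; simp
    · have h5 : av A y = 1 := by linarith
      have : ∀ g : ZMod 6, ind (Prod.fst ⁻¹' B : Set X) (y, g) = 1 := by
        intro g
        classical
        unfold ind
        rw [if_pos]
        exact h5
      simp only [this]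
      rw [h5]; simp [ZMod.card]
  rw [h4]
  exact odo_inv_trivial hBm hBinv

theorem T_ergodic : Ergodic T lam := by
  refine ⟨T_mp, ⟨?_⟩⟩
  intro s hs hinv
  rw [eventuallyConst_set']
  rcases T_inv_trivial hs hinv with h | h
  · left
    rw [ae_eq_empty]
    rw [measureReal_def, ENNReal.toReal_eq_zero_iff] at h
    rcases h with h | h
    · exact h
    · exact absurd h (measure_ne_top _ _)
  · right
    have h1 : lam s = 1 := by
      rw [measureReal_def] at h
      rw [← ENNReal.ofReal_toReal (measure_ne_top lam s), h, ENNReal.ofReal_one]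
    rw [ae_eq_univ, prob_compl_eq_zero_iff hs]
    exact h1


/-! ### the under-recurrent function -/

/-- the standard character of ZMod 6 -/
noncomputable def chi : AddChar (ZMod 6) ℂ := ZMod.stdAddChar

theorem chi_norm (a : ZMod 6) : ‖chi a‖ = 1 := by
  unfold chi
  rw [ZMod.stdAddChar_apply, Circle.norm_coe]

theorem chi_sum {e : ZMod 6} (he : e ≠ 0) : ∑ a, chi (e * a) = 0 := by
  have h := AddChar.sum_mulShift (ψ := chi) e (ZMod.isPrimitive_stdAddChar 6)
  rw [if_neg he] at h
  simp only [mul_comm e]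
  simpa using h

noncomputable def Gam (e : ZMod 6) (m : ℕ) : ℂ := ∫ y, chi (e * y 0 + S m y) ∂mu

theorem Gam_rec (e : ZMod 6) (m : ℕ) :
    Gam e m = (1/6:ℝ) • ∑ a : ZMod 6,
      chi (e * a + (a + m) * (((a.val + m) / 6 : ℕ) : ZMod 6)) * Gam m ((a.val + m) / 6) := by
  unfold Gam
  have hmeas : Measurable (fun y : Y => e * y 0 + S m y) :=
    (measurable_y0.const_mul e).add (measurable_S m)
  have hint : Integrable (fun y : Y => chi (e * y 0 + S m y)) mu := integrable_of_fin chi hmeas
  rw [integral_mu_cons hint]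
  congr 1
  apply Finset.sum_congr rfl
  intro a _
  rw [← integral_const_mul]
  apply integral_congr_ae
  filter_upwards [ae_good] with y hy
  rw [S_cons a hy, cons_zero, ← AddChar.map_add_eq_mul]
  congr 1
  ring

theorem Gam_zero_right {e : ZMod 6} (he : e ≠ 0) : Gam e 0 = 0 := by
  rw [Gam_rec]
  have h1 : ∀ a : ZMod 6, chi (e * a + (a + (0:ℕ)) * (((a.val + 0) / 6 : ℕ) : ZMod 6)) *
      Gam (0:ℕ) ((a.val + 0) / 6) = chi (e * a) * Gam 0 0 := by
    intro a
    have : (a.val + 0) / 6 = 0 := by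
      rw [add_zero]; exact Nat.div_eq_of_lt (ZMod.val_lt a)
    rw [this]
    simp
  rw [Finset.sum_congr rfl (fun a _ => h1 a), ← Finset.sum_mul, chi_sum he]
  simp

theorem Gam_one : ∀ e, Gam e 1 = 0 := by
  have h10 : Gam 1 0 = 0 := Gam_zero_right (by decide)
  have hrec : ∀ e, Gam e 1 = (1/6:ℝ) • (chi (e * 5) * Gam 1 1) := by
    intro e
    rw [Gam_rec]
    have hq : ∀ a : ZMod 6, chi (e * a + (a + (1:ℕ)) * (((a.val + 1) / 6 : ℕ) : ZMod 6)) *
      Gam (1:ℕ) ((a.val + 1) / 6) = if a = 5 then chi (e * 5) * Gam 1 1 else 0 := by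
      intro a
      split_ifs with ha
      · subst ha
        rw [show ((5:ZMod 6).val + 1) / 6 = 1 from rfl,
          show ((5:ZMod 6) + (1:ℕ)) * ((1:ℕ) : ZMod 6) = 0 by decide, add_zero, Nat.cast_one]
      · have hv : a.val ≠ 5 := fun h => ha (ZMod.val_injective 6 h)
        have : (a.val + 1) / 6 = 0 := by have := ZMod.val_lt a; omega
        rw [this, Nat.cast_one, h10, mul_zero]
    rw [Finset.sum_congr rfl (fun a _ => hq a), Finset.sum_ite_eq' Finset.univ (5 : ZMod 6)]
    simp
  have h11 : Gam 1 1 = 0 := by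
    have h := congrArg (fun z => ‖z‖) (hrec 1)
    simp only [norm_smul, norm_mul, chi_norm, one_mul] at h
    norm_num at h
    have hn := norm_nonneg (Gam 1 1)
    have : ‖Gam 1 1‖ = 0 := by linarith
    exact norm_eq_zero.mp this
  intro e
  rw [hrec, h11]; simp

theorem Gam_zero (m : ℕ) (hm : 1 ≤ m) : ∀ e, Gam e m = 0 := by
  induction m using Nat.strong_induction_on with
  | _ m ih =>
    intro e
    rcases Nat.lt_or_ge 1 m with h1 | h1
    · rw [Gam_rec]
      have : ∀ a : ZMod 6, Gam (m : ZMod 6) ((a.val + m) / 6) = 0 := by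
        intro a
        have ha := ZMod.val_lt a
        rcases Nat.eq_zero_or_pos ((a.val + m) / 6) with hq | hq
        · rw [hq]
          apply Gam_zero_right
          have hm6 : m < 6 := by omega
          intro h0
          rw [ZMod.natCast_eq_zero_iff] at h0
          exact absurd (Nat.le_of_dvd (by omega) h0) (by omega)
        · exact ih _ (by omega) hq _
      simp [this]
    · have : m = 1 := by omega
      rw [this]
      exact Gam_one e

/-- real part of the character -/
noncomputable def c (g : ZMod 6) : ℝ := (chi g).re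

theorem c_eq (g : ZMod 6) : ((c g : ℝ) : ℂ) = (chi g + chi (-g)) / 2 := by
  unfold c
  rw [AddChar.map_neg_eq_conj, Complex.re_eq_add_conj]

theorem c_abs (g : ZMod 6) : |c g| ≤ 1 := by
  unfold c
  rw [← chi_norm g]
  exact Complex.abs_re_le_norm _

theorem c_sum : ∑ g, c g = 0 := by
  have h : ((∑ g, c g : ℝ) : ℂ) = 0 := by
    push_cast
    simp only [c_eq]
    have h1 : ∑ g : ZMod 6, chi g = 0 := by
      have := chi_sum (e := 1) (by decide)
      simpa using this
    have h2 : ∑ g : ZMod 6, chi (-g) = 0 := by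
      rw [← h1]
      exact Fintype.sum_equiv (Equiv.neg _) _ _ (fun g => rfl)
    rw [← Finset.sum_div, Finset.sum_add_distrib, h1, h2]; simp
  exact_mod_cast h

theorem c_corr (s : ZMod 6) : ∑ g, c g * c (g + s) = 3 * c s := by
  have h : ((∑ g, c g * c (g + s) : ℝ) : ℂ) = ((3 * c s : ℝ) : ℂ) := by
    push_cast
    simp only [c_eq]
    have h1 : ∀ g : ZMod 6, (chi g + chi (-g)) / 2 * ((chi (g + s) + chi (-(g + s))) / 2) =
        (1/4) * (chi s * chi (2 * g) + chi (-s) * chi (-2 * g) + chi s + chi (-s)) := by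
      intro g
      have e1 : chi g * chi (g + s) = chi s * chi (2 * g) := by
        rw [← AddChar.map_add_eq_mul, ← AddChar.map_add_eq_mul]; congr 1; ring
      have e2 : chi (-g) * chi (-(g + s)) = chi (-s) * chi (-2 * g) := by
        rw [← AddChar.map_add_eq_mul, ← AddChar.map_add_eq_mul]; congr 1; ring
      have e3 : chi g * chi (-(g + s)) = chi (-s) := by
        rw [← AddChar.map_add_eq_mul]; congr 1; ring
      have e4 : chi (-g) * chi (g + s) = chi s := by
        rw [← AddChar.map_add_eq_mul]; congr 1; ring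
      calc (chi g + chi (-g)) / 2 * ((chi (g + s) + chi (-(g + s))) / 2)
          = (1/4) * (chi g * chi (g + s) + chi (-g) * chi (-(g + s)) + chi (-g) * chi (g + s) +
            chi g * chi (-(g + s))) := by ring
        _ = _ := by rw [e1, e2, e3, e4]
    simp only [h1]
    rw [← Finset.mul_sum, Finset.sum_add_distrib, Finset.sum_add_distrib, Finset.sum_add_distrib,
      ← Finset.mul_sum, ← Finset.mul_sum, chi_sum (e := 2) (by decide), chi_sum (e := -2) (by decide)]
    simp [ZMod.card]
    ring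
  exact_mod_cast h

/-- the under-recurrent function -/
noncomputable def F (x : X) : ℝ := (1 + c x.2) / 2

theorem F_range (x : X) : 0 ≤ F x ∧ F x ≤ 1 := by
  have h := abs_le.mp (c_abs x.2)
  unfold F
  constructor <;> linarith [h.1, h.2]

theorem measurable_F : Measurable F := by
  have : Measurable c := measurable_of_countable c
  unfold F
  exact ((this.comp measurable_snd).const_add 1).div_const 2

theorem integral_F : ∫ x, F x ∂lam = 1/2 := by
  have hint : Integrable F lam := by
    apply Integrable.of_bound (C := 1) measurable_F.aestronglyMeasurable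
    filter_upwards with x
    rw [Real.norm_eq_abs, abs_of_nonneg (F_range x).1]
    exact (F_range x).2
  rw [integral_lam hint]
  have : ∀ y : Y, (1/6:ℝ) * ∑ g : ZMod 6, F (y, g) = 1/2 := by
    intro y
    simp only [F]
    rw [← Finset.sum_div, Finset.sum_add_distrib, c_sum]
    simp [ZMod.card]
    norm_num
  simp only [this]
  simp

theorem corr_F (n : ℕ) :
    ∫ x, F x * F (T^[n] x) ∂lam = 1/4 + (1/8) * ∫ y, c (S n y) ∂mu := by
  have hint : Integrable (fun x => F x * F (T^[n] x)) lam := by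
    have hm : Measurable (fun x => F x * F (T^[n] x)) :=
      measurable_F.mul (measurable_F.comp (measurable_T.iterate n))
    apply Integrable.of_bound (C := 1) hm.aestronglyMeasurable
    filter_upwards with x
    rw [Real.norm_eq_abs, abs_of_nonneg (mul_nonneg (F_range x).1 (F_range _).1)]
    exact mul_le_one₀ (F_range x).2 (F_range _).1 (F_range _).2
  rw [integral_lam hint]
  have : ∀ y : Y, (1/6:ℝ) * ∑ g : ZMod 6, F (y, g) * F (T^[n] (y, g)) = 1/4 + (1/8) * c (S n y) := by
    intro y
    simp only [F, T_iter]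
    have h1 : ∀ g : ZMod 6, (1 + c g) / 2 * ((1 + c (g + S n y)) / 2) =
        1/4 + (1/4) * c g + (1/4) * c (g + S n y) + (1/4) * (c g * c (g + S n y)) := by
      intro g; ring
    have h2 : ∑ g : ZMod 6, c (g + S n y) = 0 := by
      rw [← c_sum]
      exact Fintype.sum_equiv (Equiv.addRight (S n y)) _ _ (fun g => rfl)
    simp only [h1]
    rw [Finset.sum_add_distrib, Finset.sum_add_distrib, Finset.sum_add_distrib, ← Finset.mul_sum,
      ← Finset.mul_sum, ← Finset.mul_sum, c_sum, h2, c_corr]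
    simp [ZMod.card]
    ring
  simp only [this]
  rw [integral_add (integrable_const _) ((integrable_of_fin c (measurable_S n)).const_mul _),
    integral_const_mul]
  simp

theorem integral_c_S {n : ℕ} (hn : 1 ≤ n) : ∫ y, c (S n y) ∂mu = 0 := by
  have h := Gam_zero n hn 0
  unfold Gam at h
  simp only [zero_mul, zero_add] at h
  have h2 : ∫ y, c (S n y) ∂mu = (∫ y, chi (S n y) ∂mu).re := by
    have := integral_re (integrable_of_fin (ν := mu) chi (measurable_S n))
    simpa [c] using this
  rw [h2, h]; rfl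

theorem corr_F_eq {n : ℕ} (hn : 1 ≤ n) : ∫ x, F x * F (T^[n] x) ∂lam = (∫ x, F x ∂lam) ^ 2 := by
  rw [corr_F, integral_c_S hn, integral_F]; norm_num

theorem F_not_const : ¬ ∃ r : ℝ, F =ᵐ[lam] fun _ => r := by
  rintro ⟨r, hr⟩
  have h1 : ∫ x, F x ∂lam = r := by
    rw [integral_congr_ae hr]; simp
  have h2 : ∫ x, F x * F (T^[0] x) ∂lam = r * r := by
    have : (fun x => F x * F (T^[0] x)) =ᵐ[lam] fun _ => r * r := by
      filter_upwards [hr] with x hx
      simp only [Function.iterate_zero, id_eq]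
      rw [hx]
    rw [integral_congr_ae this]; simp
  rw [corr_F] at h2
  have h3 : ∫ y, c (S 0 y) ∂mu = 1 := by
    have : ∀ y, c (S 0 y) = 1 := by
      intro y
      simp [S, c]
    simp only [this]
    simp
  rw [h3] at h2
  rw [integral_F] at h1
  rw [← h1] at h2
  norm_num at h2


/-! ### the inverse of T -/

/-- subtract one with borrow -/
noncomputable def podo (y : Y) : Y := by
  classical
  exact fun k => if ∀ j < k, y j = 0 then y k - 1 else y k

theorem podo_five_iff (y : Y) (k : ℕ) : (∀ j < k, podo y j = 5) ↔ ∀ j < k, y j = 0 := by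
  classical
  induction k with
  | zero => simp
  | succ k ih =>
    rw [Nat.forall_lt_succ_right, Nat.forall_lt_succ_right, ih]
    apply and_congr_right
    intro h
    have : podo y k = y k - 1 := by simp only [podo, if_pos h]
    rw [this]
    generalize y k = a
    revert a; decide

theorem odo_zero_iff (y : Y) (k : ℕ) : (∀ j < k, odo y j = 0) ↔ ∀ j < k, y j = 5 := by
  classical
  induction k with
  | zero => simp
  | succ k ih =>
    rw [Nat.forall_lt_succ_right, Nat.forall_lt_succ_right, ih]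
    apply and_congr_right
    intro h
    have : odo y k = y k + 1 := by simp only [odo, if_pos h]
    rw [this]
    generalize y k = a
    revert a; decide

theorem odo_podo (y : Y) : odo (podo y) = y := by
  classical
  ext k
  by_cases h : ∀ j < k, y j = 0
  · have h1 : ∀ j < k, podo y j = 5 := (podo_five_iff y k).mpr h
    simp only [odo, if_pos h1]
    simp only [podo, if_pos h]
    ring
  · have h1 : ¬ ∀ j < k, podo y j = 5 := fun hh => h ((podo_five_iff y k).mp hh)
    simp only [odo, if_neg h1]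
    simp only [podo, if_neg h]

theorem podo_odo (y : Y) : podo (odo y) = y := by
  classical
  ext k
  by_cases h : ∀ j < k, y j = 5
  · have h1 : ∀ j < k, odo y j = 0 := (odo_zero_iff y k).mpr h
    simp only [podo, if_pos h1]
    simp only [odo, if_pos h]
    ring
  · have h1 : ¬ ∀ j < k, odo y j = 0 := fun hh => h ((odo_zero_iff y k).mp hh)
    simp only [podo, if_neg h1]
    simp only [odo, if_neg h]

theorem measurable_podo : Measurable podo := by
  classical
  rw [measurable_pi_iff]
  intro k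
  have h1 : MeasurableSet {y : Y | ∀ j < k, y j = 0} := by
    have : {y : Y | ∀ j < k, y j = 0} = ⋂ j ∈ Finset.range k, {y : Y | y j = 0} := by
      ext y; simp
    rw [this]
    apply Finset.measurableSet_biInter
    intro j _
    exact measurableSet_coord j {0}
  unfold podo
  apply Measurable.ite h1
  · exact (meas_coord k).sub_const 1
  · exact meas_coord k

/-- T as a measurable automorphism -/
noncomputable def Te : X ≃ᵐ X where
  toFun := T
  invFun x := (podo x.1, x.2 - phi (podo x.1))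
  left_inv x := by
    simp only [T, podo_odo]
    ext1
    · rfl
    · simp
  right_inv x := by
    simp only [T, odo_podo]
    ext1
    · rfl
    · simp
  measurable_toFun := measurable_T
  measurable_invFun := (measurable_podo.comp measurable_fst).prodMk
    (measurable_snd.sub (measurable_phi.comp (measurable_podo.comp measurable_fst)))

theorem coe_Te : ⇑Te = T := rfl


end Pool.Agent.H32.UnderRec
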